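import Pool.Agent.K7.H34.FV.Rad
import Pool.Agent.H241R3.FV.Stmts2

/-!
# Small spherical caps inside the hemisphere cannot be replaced by something smaller
-/

set_option autoImplicit false

open MeasureTheory Metric Set Filter Topology InnerProductGeometry

namespace Pool.Agent.K7.H34.FV

open Pool.Agent.H241R3.FV (Sph RChart om Fill norm_sph)
open Pool.Agent.W716.FV (E gam gd Good)

variable {n : ℕ}

theorem sqrt_pow_le {n : ℕ} (hn : 0 < n) {k : ℝ} (hk : k / n ≤ 1) :
    √(1 - k / n) ^ n ≤ Real.exp (-(k / 2)) := by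
  have hn' : (0 : ℝ) < n := by exact_mod_cast hn
  have h1 : √(1 - k / n) ≤ Real.exp (-(k / (2 * n))) := by
    rw [Real.sqrt_le_left (Real.exp_pos _).le, ← Real.exp_nat_mul]
    have h2 := Real.add_one_le_exp (-(k / n))
    have e : ((2 : ℕ) : ℝ) * -(k / (2 * n)) = -(k / n) := by
      push_cast
      field_simp
    rw [e]
    linarith
  calc √(1 - k / n) ^ n ≤ Real.exp (-(k / (2 * n))) ^ n :=
        pow_le_pow_left₀ (Real.sqrt_nonneg _) h1 n
    _ = Real.exp (-(k / 2)) := by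
        rw [← Real.exp_nat_mul]
        congr 1
        field_simp

/-- the Jacobian is at most one for small radius -/
theorem jac_gen {n : ℕ} (hn : 2 ≤ n) {u : E n → ℝ} (hu : Good 1 u) {p : E n}
    (hp : (9 * n + 4) * ‖p‖ ^ 2 ≤ n + 4) (htau : tau u p = 0) :
    √(1 - k2 u p / n) ^ n ≤ (ContinuousLinearMap.id ℝ (E n) - Sop u p).det ∧
      0 < (ContinuousLinearMap.id ℝ (E n) - Sop u p).det := by
  have hn0 : 0 < n := by omega
  have hn2 : (2 : ℝ) ≤ n := by exact_mod_cast hn
  have hp0 := norm_nonneg p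
  have hp2 : ‖p‖ ^ 2 ≤ 3 / 11 := by
    have h2 : (9 * (n : ℝ) + 4) * (3 / 11) ≥ n + 4 := by nlinarith
    by_contra hcon
    push Not at hcon
    have : (9 * (n : ℝ) + 4) * (3 / 11) < (9 * n + 4) * ‖p‖ ^ 2 :=
      mul_lt_mul_of_pos_left hcon (by positivity)
    linarith
  have hp1 : ‖p‖ < 1 := by nlinarith
  have h0 := pz_pos hp1
  have hpz := pz_sq hp1
  have hc : 8 * n * ‖eta p‖ ^ 2 ≤ n + 4 := by
    rw [norm_eta_sq hp1, mul_div_assoc', div_le_iff₀ (by positivity), hpz]
    nlinarith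
  have hsg : sg p ≤ 7 / 20 := by
    unfold sg
    rw [div_le_iff₀ (by positivity)]
    nlinarith
  have h1 := det_ge (Sop_Sy hu p) (Sop_tr hu htau) (fun x => by
    have h2 := Sop_quad hu hp1 x
    rw [htau, inner_zero_left, mul_zero, mul_zero, add_zero] at h2
    exact h2.trans (mul_le_mul_of_nonneg_right hsg (sq_nonneg _)))
  have h2 := hs_le hu htau hn0
  have hk := k2_nonneg u p
  have h3 : 2 / 3 * hs (Sop u p) ≤ k2 u p / 2 := by
    have h4 : 6 * n * ‖eta p‖ ^ 2 * k2 u p ≤ 3 / 4 * ((n + 4) * k2 u p) := by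
      have := mul_le_mul_of_nonneg_right hc hk
      nlinarith
    have h5 : ((n : ℝ) + 4) * hs (Sop u p) ≤ ((n : ℝ) + 4) * (3 / 4 * k2 u p) := by
      calc ((n : ℝ) + 4) * hs (Sop u p) ≤ 6 * n * ‖eta p‖ ^ 2 * k2 u p := h2
        _ ≤ 3 / 4 * ((n + 4) * k2 u p) := h4
        _ = _ := by ring
    have h6 := le_of_mul_le_mul_left h5 (by positivity)
    linarith
  refine ⟨(sqrt_pow_le hn0 (k2_le hu hp1 htau hn0)).trans
    ((Real.exp_le_exp.2 (neg_le_neg h3)).trans h1), lt_of_lt_of_le (Real.exp_pos _) h1⟩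

/-- dimension two -/
theorem jac_two {u : E 2 → ℝ} (hu : Good 1 u) {p : E 2} (hp : 3 * ‖p‖ ^ 2 ≤ 1)
    (htau : tau u p = 0) :
    √(1 - k2 u p / (2 : ℕ)) ^ 2 ≤ (ContinuousLinearMap.id ℝ (E 2) - Sop u p).det ∧
      0 < (ContinuousLinearMap.id ℝ (E 2) - Sop u p).det := by
  have hp0 := norm_nonneg p
  have hp1 : ‖p‖ < 1 := by nlinarith
  have h0 := pz_pos hp1
  have hpz := pz_sq hp1
  have hc : 2 * ‖eta p‖ ^ 2 ≤ 1 := by
    rw [norm_eta_sq hp1, mul_div_assoc', div_le_iff₀ (by positivity), hpz]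
    linarith
  rw [det_two (Sop_Sy hu p) (Sop_tr hu htau)]
  have h2 := hs_le hu htau (by norm_num : 0 < 2)
  have hk := k2_nonneg u p
  have h3 : hs (Sop u p) ≤ k2 u p := by
    push_cast at h2
    nlinarith
  have h4 := hs_two (Sop_Sy hu p) (Sop_tr hu htau) (s := sg p) (fun x => by
    have h2 := Sop_quad hu hp1 x
    rwa [htau, inner_zero_left, mul_zero, mul_zero, add_zero] at h2)
  have h5 := sg_lt p hp1
  have h6 := sg_nonneg p
  have h7 := k2_le hu hp1 htau (by norm_num : 0 < 2)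
  rw [Real.sq_sqrt (by linarith)]
  push_cast
  constructor
  · linarith
  · nlinarith

/-- admissible values of `sin² r` -/
def Adm (d : ℕ) (s : ℝ) : Prop := (9 * d + 13) * s ≤ d + 5 ∨ (d = 1 ∧ 3 * s ≤ 1)

theorem adm_lt {d : ℕ} {s : ℝ} (h : Adm d s) : s < 1 := by
  have hd : (0 : ℝ) ≤ d := Nat.cast_nonneg d
  rcases h with h | ⟨-, h⟩
  · by_contra hcon
    push Not at hcon
    nlinarith
  · linarith

theorem adm_mono {d : ℕ} {s t : ℝ} (h : Adm d s) (hts : t ≤ s) : Adm d t := by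
  have hd : (0 : ℝ) ≤ d := Nat.cast_nonneg d
  rcases h with h | ⟨h1, h⟩
  · left; nlinarith
  · right; exact ⟨h1, by linarith⟩

theorem jac_adm {d : ℕ} (hd : 1 ≤ d) {u : E (d + 1) → ℝ} (hu : Good 1 u) {p : E (d + 1)}
    (hp : Adm d (‖p‖ ^ 2)) (htau : tau u p = 0) :
    √(1 - k2 u p / (d + 1 : ℕ)) ^ (d + 1) ≤
      1 * (ContinuousLinearMap.id ℝ (E (d + 1)) - Sop u p).det ∧
      0 < (ContinuousLinearMap.id ℝ (E (d + 1)) - Sop u p).det := by
  rw [one_mul]
  rcases hp with hp | ⟨h1, hp⟩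
  · refine jac_gen (by omega) hu ?_ htau
    push_cast
    linarith
  · subst h1
    exact jac_two hu hp htau

/-- the main estimate: `vol N ≥ vol C_r` -/
theorem cap_main {d : ℕ} (hd : 1 ≤ d) {M : Type} [MetricSpace M] {r : ℝ} (hr0 : 0 < r)
    (hr1 : r < Real.pi / 2) (hr : Adm d (Real.sin r ^ 2)) {N : Set M} [CompactSpace N]
    (b : Sph (d + 1) → N) (hT : Topo b)
    (hb : ∀ y z, capd (Real.sin r) y z ≤ dist (b y) (b z)) {ι : Type} [Countable ι]
    (C : ι → RChart (d + 1) M)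
    (hcov : ∀ q : N, (∃ x, b x = q) ∨ ∃ i, ∃ c ∈ (C i).D, (C i).map c = q) :
    ENNReal.ofReal ((d + 1 : ℕ) * om (d + 1) * ∫ t in (0 : ℝ)..r, Real.sin t ^ d) ≤
      ∑' i, ∫⁻ c in (C i).D, ENNReal.ofReal √((C i).G c).det := by
  set l := Real.sin r with hl
  have hl0 : 0 < l := Real.sin_pos_of_pos_of_lt_pi hr0 (by linarith [Real.pi_pos])
  have hl1 : l ≤ 1 := Real.sin_le_one _
  have hn : 0 < d + 1 := Nat.succ_pos d
  have hfam := UC_fam (l := l) (fun x => (b x : M)) hn hl0.le hl1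
  have hUb : ∀ (G : E (d + 1)) (x : Sph (d + 1)), UC l (fun x => (b x : M)) (b x) G =
      l * inner ℝ G (x : E (d + 1)) := fun G x =>
    UC_bd (fun x => (b x : M)) hn hl0.le hl1 (fun y z => hb y z) G x
  have hll : l < 1 := by
    have := adm_lt hr
    nlinarith
  have key : ∀ ρ : ℝ, 0 ≤ ρ → ρ < l →
      ∫⁻ p in closedBall (0 : E (d + 1)) ρ, ENNReal.ofReal (pz p)⁻¹ ≤
        ∑' i, ∫⁻ c in (C i).D, ENNReal.ofReal √((C i).G c).det := by
    intro ρ hρ0 hρl
    have h := main_ineq hfam hn hρ0 (hρl.trans hll) (fun _ => 1) measurable_const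
      (fun _ => one_pos) (fun u hu p hp htau => jac_adm hd hu (adm_mono hr (by
        have := norm_nonneg p
        nlinarith)) htau) C ?_
    · simpa only [mul_one] using h
    · intro p hp
      obtain ⟨q, hq⟩ := cover_zero b hT hl0 hl1 hb (fun q : N => UC l (fun x => (b x : M)) (q : M))
        (fun q => hfam.good _) (fun q q' G => hfam.lipq _ _ G) hUb (hp.trans_lt hρl)
      rcases hcov q with ⟨x, hx⟩ | ⟨i, c, hc, hx⟩
      · exfalso
        have hp1 : ‖p‖ < 1 := (hp.trans_lt hρl).trans hll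
        have h1 : UC l (fun x => (b x : M)) (q : M) =
            fun G => l * inner ℝ G (x : E (d + 1)) := by
          funext G
          rw [← hx]
          exact hUb G x
        simp only [h1] at hq
        rw [Gm_lin hp1, smul_eq_zero_iff_right (inv_ne_zero (pz_pos hp1).ne')] at hq
        have h2 : l • (x : E (d + 1)) - p = 0 := by
          rw [← BI_BB hp1 (l • (x : E (d + 1)) - p), ← BI_BB hp1 (BB p (l • (x : E (d + 1)) - p)),
            hq, map_zero, map_zero]
        have h3 : ‖p‖ = l := by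
          rw [← sub_eq_zero.1 h2, norm_smul, norm_sph, mul_one, Real.norm_of_nonneg hl0.le]
        linarith
      · exact ⟨i, c, hc, by rw [hx]; exact hq⟩
  refine le_trans (le_of_eq ?_) (ball_le key)
  have h1 := rad (n := d + 1) hn hl0.le (φ := fun y => (√(1 - y ^ 2))⁻¹) (by
    refine ContinuousOn.inv₀ (by fun_prop) fun y hy => ?_
    have : 0 < 1 - y ^ 2 := by
      have := hy.1
      have := hy.2
      nlinarith
    exact (Real.sqrt_pos.2 this).ne') (fun y _ => by positivity)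
  have h2 := subst_sin hr0.le hr1 d
  rw [Nat.add_sub_cancel, h2] at h1
  rw [← h1]
  rfl

/-- nonshortcutting of the glued space gives the comparison with the cap -/
theorem capd_le {n : ℕ} {M : Type} [MetricSpace M] (bd b : Sph n → M)
    (hbd : ∀ x y : Sph n, angle (x : E n) (y : E n) ≤ dist (bd x) (bd y)) {l : ℝ} (hl0 : 0 ≤ l)
    (hl1 : l ≤ 1)
    (hcol : ∀ x y : Sph n, 0 ≤ (inner ℝ (x : E n) (y : E n) : ℝ) →
      dist (bd x) (b y) ≤ Real.arccos (l * inner ℝ (x : E n) (y : E n))) (y z : Sph n) :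
    capd l y z ≤ dist (b y) (b z) := by
  by_cases hyz : y = z
  · subst hyz
    unfold capd
    rw [real_inner_self_eq_norm_sq, norm_sph]
    simp
  have hne : (y : E n) - z ≠ 0 := by
    intro h
    exact hyz (Subtype.ext (sub_eq_zero.1 h))
  have hpos : 0 < ‖(y : E n) - z‖ := norm_pos_iff.2 hne
  set w := ‖(y : E n) - z‖ with hw
  have hw2 : w ^ 2 = 2 - 2 * inner ℝ (y : E n) (z : E n) := by
    rw [hw, norm_sub_sq_real, norm_sph, norm_sph]
    ring
  set x : Sph n := ⟨w⁻¹ • ((y : E n) - z), by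
    rw [mem_sphere_zero_iff_norm, norm_smul, norm_inv, Real.norm_of_nonneg hpos.le,
      inv_mul_cancel₀ hpos.ne']⟩ with hx
  set x' : Sph n := ⟨-(w⁻¹ • ((y : E n) - z)), by
    rw [mem_sphere_zero_iff_norm, norm_neg, norm_smul, norm_inv, Real.norm_of_nonneg hpos.le,
      inv_mul_cancel₀ hpos.ne']⟩ with hx'
  have hyy : (inner ℝ (y : E n) (y : E n) : ℝ) = 1 := by
    rw [real_inner_self_eq_norm_sq, norm_sph]; norm_num
  have hzz : (inner ℝ (z : E n) (z : E n) : ℝ) = 1 := by
    rw [real_inner_self_eq_norm_sq, norm_sph]; norm_num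
  have hxy : (inner ℝ (x : E n) (y : E n) : ℝ) = w / 2 := by
    show (inner ℝ (w⁻¹ • ((y : E n) - z)) (y : E n) : ℝ) = w / 2
    rw [real_inner_smul_left, inner_sub_left, hyy, real_inner_comm]
    field_simp
    linarith
  have hxz : (inner ℝ (x' : E n) (z : E n) : ℝ) = w / 2 := by
    show (inner ℝ (-(w⁻¹ • ((y : E n) - z))) (z : E n) : ℝ) = w / 2
    rw [inner_neg_left, real_inner_smul_left, inner_sub_left, hzz]
    field_simp
    linarith
  have hang : angle (x : E n) (x' : E n) = Real.pi := by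
    have : (x' : E n) = -(x : E n) := rfl
    rw [this, angle_neg_right, angle_self, sub_zero]
    intro h
    have := norm_sph x
    rw [h, norm_zero] at this
    exact zero_ne_one this
  have h1 := hbd x x'
  rw [hang] at h1
  have h2 := hcol x y (by rw [hxy]; positivity)
  have h3 := hcol x' z (by rw [hxz]; positivity)
  rw [hxy] at h2
  rw [hxz] at h3
  have h4 : dist (bd x) (bd x') ≤ dist (bd x) (b y) + dist (b y) (b z) + dist (b z) (bd x') :=
    dist_triangle4 _ _ _ _
  rw [dist_comm (b z) (bd x')] at h4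
  set a := Real.arccos (l * (w / 2)) with ha
  have hwle : w ≤ 2 := by
    have h5 := abs_real_inner_le_norm (y : E n) (z : E n)
    rw [norm_sph, norm_sph, one_mul] at h5
    have h6 := (abs_le.1 h5).1
    nlinarith
  have hlw : l * (w / 2) ≤ 1 := by nlinarith
  have hlw0 : 0 ≤ l * (w / 2) := by positivity
  have hca : Real.cos a = l * (w / 2) := Real.cos_arccos (by linarith) hlw
  have ha0 : 0 ≤ a := Real.arccos_nonneg _
  have ha1 : a ≤ Real.pi / 2 := Real.arccos_le_pi_div_two.2 hlw0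
  have h7 : capd l y z = Real.pi - 2 * a := by
    unfold capd
    have h8 : 1 - l ^ 2 * (1 - inner ℝ (y : E n) (z : E n)) = Real.cos (Real.pi - 2 * a) := by
      rw [Real.cos_pi_sub, Real.cos_two_mul, hca]
      have : 1 - (inner ℝ (y : E n) (z : E n) : ℝ) = w ^ 2 / 2 := by linarith
      rw [this]
      ring
    rw [h8, Real.arccos_cos (by linarith) (by linarith)]
  rw [h7]
  linarith

end Pool.Agent.K7.H34.FV
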