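import Pool.Agent.K7.H34.FV.Fam

/-!
# Differentiability in a chart
-/

set_option autoImplicit false

open MeasureTheory Metric Set Filter Topology InnerProductGeometry

namespace Pool.Agent.K7.H34.FV

open Pool.Agent.H241R3.FV (Sph RChart gnorm)
open Pool.Agent.H241R3.FV.TDiff (clamp clamp_cont clamp_mem clamp_eq clamp_eventually gnorm_le
  gnorm_smul gnorm_nonneg)
open Pool.Agent.W716.FV (E gam gd Good)
open Pool.Agent.W753.FV.BC (cont_uncurry ae_diff' gnorm_sq deriv_bound)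

variable {n : ℕ} {M : Type} [MetricSpace M]

/-- local Lipschitz bound in a chart -/
theorem chart_lip (C : RChart n M) : ∀ p ∈ C.U, ∃ ρ K : ℝ, 0 < ρ ∧ 0 ≤ K ∧ closedBall p ρ ⊆ C.U ∧
    ∀ y ∈ closedBall p ρ, ∀ z ∈ closedBall p ρ, dist (C.map y) (C.map z) ≤ K * ‖y - z‖ := by
  intro p hp
  obtain ⟨r, hr, hrU, h⟩ := Pool.Agent.H241R3.FV.TLoc.taskLoc n M C p hp 1 one_pos
  obtain ⟨c, hc, hc'⟩ := gnorm_le (C.G p)
  have hsub : closedBall p (r / 2) ⊆ ball p r := closedBall_subset_ball (by linarith)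
  refine ⟨r / 2, c + 1, by positivity, by positivity, hsub.trans hrU, fun y hy z hz => ?_⟩
  have h1 := h y (hsub hy) z (hsub hz)
  have h2 := hc' (y - z)
  linarith

theorem chart_diff {U : M → E n → ℝ} (hU : Fam U) (C : RChart n M) :
    ∀ᵐ c ∂(volume : Measure (E n)), c ∈ C.U → ∃ D : E n → E n →L[ℝ] ℝ, Measurable D ∧
      (∀ᵐ G ∂(volume : Measure (E n)), HasFDerivAt (fun c' => U (C.map c') G) (D G) c) ∧
        DB (U (C.map c)) (C.G c) D := by
  have hloc := Pool.Agent.H241R3.FV.TLoc.taskLoc n M C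
  have hle : ∀ q G, U q G ^ 2 ≤ ‖G‖ ^ 2 := fun q G => by
    have := pow_le_pow_left₀ (abs_nonneg _) (good_abs (hU.good q) G) 2
    rwa [sq_abs] at this
  have hx : ∀ x x' : E n, ∀ p, |U (C.map p) x - U (C.map p) x'| ≤ ‖x - x'‖ := by
    intro x x' p
    have := (hU.good (C.map p)).lip x x'
    rwa [one_mul] at this
  have hloc1 : ∀ p ∈ C.U, ∃ ρ K : ℝ, 0 < ρ ∧ 0 ≤ K ∧ ∀ x, ∀ y ∈ closedBall p ρ,
      ∀ z ∈ closedBall p ρ, |U (C.map y) x - U (C.map z) x| ≤ ‖x‖ * K * ‖y - z‖ := by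
    intro p hp
    obtain ⟨ρ, K, hρ, hK, -, h⟩ := chart_lip C p hp
    refine ⟨ρ, K, hρ, hK, fun x y hy z hz => ?_⟩
    calc |U (C.map y) x - U (C.map z) x| ≤ ‖x‖ * dist (C.map y) (C.map z) :=
          hU.lipq _ _ _
      _ ≤ ‖x‖ * (K * ‖y - z‖) := mul_le_mul_of_nonneg_left (h y hy z hz) (norm_nonneg _)
      _ = _ := by ring
  filter_upwards [ae_diff' (F := fun x p => U (C.map p) x) hx hloc1] with p hp hpU
  have hd := hp hpU
  obtain ⟨ρ, K, hρ, hK0, hK⟩ := hloc1 p hpU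
  have hcont := cont_uncurry (F := fun x p => U (C.map p) x) hx hρ hK
  have hm0 : Measurable fun a : E n × E n =>
      fderiv ℝ (fun q => U (C.map (clamp p ρ q)) a.1) a.2 :=
    measurable_fderiv_with_param ℝ hcont
  have hm1 : Measurable fun x : E n => fderiv ℝ (fun c' => U (C.map c') x) p := by
    have h1 : Measurable fun x : E n => fderiv ℝ (fun q => U (C.map (clamp p ρ q)) x) p :=
      hm0.comp (measurable_id.prodMk measurable_const)
    have h2 : (fun x : E n => fderiv ℝ (fun q => U (C.map (clamp p ρ q)) x) p) =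
        fun x : E n => fderiv ℝ (fun c' => U (C.map c') x) p := by
      funext x
      exact (clamp_eventually p hρ (mem_ball_self hρ) (fun c' => U (C.map c') x)).fderiv_eq
    rwa [h2] at h1
  refine ⟨fun x => fderiv ℝ (fun c' => U (C.map c') x) p, hm1, ?_, ?_⟩
  · filter_upwards [hd] with x hx1
    exact hx1.hasFDerivAt
  · unfold DB
    filter_upwards [hd] with x hx1
    intro v
    have hnn : 0 ≤ ‖x‖ ^ 2 - U (C.map p) x ^ 2 := sub_nonneg.2 (hle _ _)
    have hbd := deriv_bound hx1 v (A := C.G p) (s := √(‖x‖ ^ 2 - U (C.map p) x ^ 2))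
      (K := ‖x‖) (Real.sqrt_nonneg _) (norm_nonneg _) (by
        intro ε hε
        obtain ⟨r, hr, hrU, h⟩ := hloc p hpU ε hε
        refine ⟨r, hr, fun y hy => ⟨dist (C.map y) (C.map p), dist_nonneg,
          h y hy p (mem_ball_self hr), hU.sec _ _ _⟩⟩)
    have h2 := pow_le_pow_left₀ (abs_nonneg _) hbd 2
    rw [sq_abs, mul_pow, Real.sq_sqrt hnn, gnorm_sq (C.pos_G p hpU)] at h2
    exact h2

end Pool.Agent.K7.H34.FV
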