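import Pool.Agent.K7.H34.FV.Chart
import Pool.Agent.H241R3.FV.TCoverT
import Pool.Agent.H241R3.FV.TCover
import Pool.Agent.H241R3.FV.TGen
import Pool.Agent.H241R3.FV.TParity
import Pool.Agent.H241R3.FV.TEven

/-!
# Covering
-/

set_option autoImplicit false

open MeasureTheory Metric Set Filter Topology InnerProductGeometry

namespace Pool.Agent.K7.H34.FV

open Pool.Agent.H241R3.FV (Sph RChart Triang TaskGen TaskParity TaskEven coneOf norm_sph)
open Pool.Agent.H241R3.FV.TCoverT (cone_sub_hull hull_sub_cone)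
open Pool.Agent.W716.FV (E gam gd Good)

theorem coverT' (hGen : TaskGen) (hPar : TaskParity) (hEven : TaskEven) (d : ℕ)
    (M : Type) [MetricSpace M] [CompactSpace M] (bd : Sph (d + 1) → M) (k : ℝ) (hk : 0 < k)
    (hbd : ∀ x y : Sph (d + 1), k * angle (x : E (d + 1)) (y : E (d + 1)) ≤ dist (bd x) (bd y))
    (hTr : ∀ ε : ℝ, 0 < ε → Nonempty (Triang bd ε))
    (Φ : M → E (d + 1)) (l K : ℝ) (hl : 0 < l) (hΦ : Continuous Φ)
    (hK : ∀ q q', ‖Φ q - Φ q'‖ ≤ dist q q' * K) (hΦbd : ∀ x, Φ (bd x) = l • (x : E (d + 1))) :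
    ball (0 : E (d + 1)) l ⊆ range Φ := by
  intro y0 hy0
  classical
  by_contra hcon
  have hcl : IsClosed (range Φ) := (isCompact_range hΦ).isClosed
  obtain ⟨η, hη, hball⟩ := Metric.isOpen_iff.mp hcl.isOpen_compl y0 hcon
  rw [mem_ball_zero_iff] at hy0
  -- choose the mesh
  obtain ⟨e, he0, he2, heK, hel⟩ : ∃ e : ℝ, 0 < e ∧ e < Real.pi / 2 ∧ e * |K| < η / 2 ∧
      ‖y0‖ < l * Real.cos e := by
    have h1 : Tendsto (fun e : ℝ => e * |K|) (𝓝[>] 0) (𝓝 (0 * |K|)) :=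
      (tendsto_id.mul_const _).mono_left nhdsWithin_le_nhds
    have h2 : Tendsto (fun e : ℝ => l * Real.cos e) (𝓝[>] 0) (𝓝 (l * Real.cos 0)) :=
      ((Real.continuous_cos.tendsto 0).const_mul _).mono_left nhdsWithin_le_nhds
    rw [zero_mul] at h1
    rw [Real.cos_zero, mul_one] at h2
    have h3 : ∀ᶠ e : ℝ in 𝓝[>] 0, e < Real.pi / 2 :=
      nhdsWithin_le_nhds (eventually_lt_nhds (by positivity))
    have h4 : ∀ᶠ e : ℝ in 𝓝[>] 0, 0 < e := eventually_mem_nhdsWithin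
    obtain ⟨e, ha, hb, hc, hd⟩ := (((h1.eventually_lt_const (half_pos hη)).and
      ((h2.eventually_const_lt hy0).and (h3.and h4))).exists)
    exact ⟨e, hd, hc, ha, hb⟩
  obtain ⟨Tr⟩ := hTr (min e (k * e)) (lt_min he0 (mul_pos hk he0))
  have := Tr.fin
  have := Tr.dec
  set g : Tr.V → E (d + 1) := Φ ∘ Tr.pos with hg
  -- the generic point
  have hgen : ∀ᵐ y ∂(volume : Measure (E (d + 1))), ∀ s : Finset (Option Tr.V), s.card ≤ d + 1 →
      y ∉ convexHull ℝ ((fun o : Option Tr.V => o.elim 0 g) '' (s : Set (Option Tr.V))) := by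
    rw [ae_all_iff]
    intro s
    by_cases hs : s.card ≤ d + 1
    · have h0 := hGen (d + 1) (s.image (fun o : Option Tr.V => o.elim 0 g))
        (Finset.card_image_le.trans hs)
      rw [Finset.coe_image] at h0
      filter_upwards [measure_eq_zero_iff_ae_notMem.mp h0] with y hy _
      exact hy
    · exact Eventually.of_forall fun y h => absurd h hs
  obtain ⟨y, hy1, hy2, hygen, hytile⟩ : ∃ y : E (d + 1), dist y y0 < η / 2 ∧
      ‖y‖ < l * Real.cos e ∧
      (∀ s : Finset (Option Tr.V), s.card ≤ d + 1 →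
        y ∉ convexHull ℝ ((fun o : Option Tr.V => o.elim 0 g) '' (s : Set (Option Tr.V)))) ∧
      ∃! F, F ∈ Tr.B ∧ y ∈ coneOf Tr.b F := by
    have hO : IsOpen (ball y0 (η / 2) ∩ ball (0 : E (d + 1)) (l * Real.cos e)) :=
      isOpen_ball.inter isOpen_ball
    have hpos := hO.measure_pos volume ⟨y0, mem_ball_self (half_pos hη),
      by rw [mem_ball_zero_iff]; exact hel⟩
    have hfr := (frequently_ae_mem_iff.mpr hpos.ne').and_eventually (hgen.and Tr.tile)
    obtain ⟨y, ⟨ha, hb⟩, hc, hd⟩ := hfr.exists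
    rw [mem_ball_zero_iff] at hb
    exact ⟨y, ha, hb, hc, hd⟩
  -- boundary faces
  have hgB : ∀ F ∈ Tr.B, ∀ v ∈ F, g v = l • (Tr.b v : E (d + 1)) := by
    intro F hF v hv
    rw [hg, Function.comp_apply, ← Tr.b_spec F hF v hv, hΦbd]
  have hangB : ∀ F ∈ Tr.B, ∀ v ∈ F, ∀ w ∈ F,
      angle (Tr.b v : E (d + 1)) (Tr.b w : E (d + 1)) ≤ e := by
    intro F hF v hv w hw
    obtain ⟨-, σ, hσ, hFσ⟩ := Tr.B_sub F hF
    have h1 := hbd (Tr.b v) (Tr.b w)
    rw [Tr.b_spec F hF v hv, Tr.b_spec F hF w hw] at h1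
    have h2 := (Tr.mesh σ hσ v (hFσ hv) w (hFσ hw)).le.trans (min_le_right _ _)
    exact le_of_mul_le_mul_left (h1.trans h2) hk
  obtain ⟨F0, ⟨hF0B, hF0y⟩, hF0u⟩ := hytile
  have hcount : {F | F ∈ Tr.B ∧ y ∈ convexHull ℝ (insert 0 (g '' (F : Set Tr.V)))} = {F0} := by
    ext F
    simp only [Set.mem_setOf_eq, Set.mem_singleton_iff]
    constructor
    · rintro ⟨hF, hy⟩
      exact hF0u F ⟨hF, hull_sub_cone Tr.b F g hl.le (hgB F hF) hy⟩
    · rintro rfl
      refine ⟨hF0B, cone_sub_hull Tr.b F g hl (hgB F hF0B) ?_ he0 he2 (hangB F hF0B) hF0y hy2⟩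
      rw [← Finset.card_pos, (Tr.B_sub F hF0B).1]
      omega
  have hpar := hPar hEven d M bd _ Tr g y hygen
  rw [hcount, Set.ncard_singleton, Nat.cast_one] at hpar
  have hne : {σ | σ ∈ Tr.T ∧ y ∈ convexHull ℝ (g '' (σ : Set Tr.V))}.Nonempty := by
    rw [Set.nonempty_iff_ne_empty]
    intro h
    rw [h, Set.ncard_empty, Nat.cast_zero] at hpar
    exact zero_ne_one hpar
  obtain ⟨σ, hσ, hyσ⟩ := hne
  obtain ⟨v, hv⟩ : σ.Nonempty := by
    rw [← Finset.card_pos, Tr.card_T σ hσ]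
    omega
  have hsub : convexHull ℝ (g '' (σ : Set Tr.V)) ⊆ closedBall (g v) (e * |K|) := by
    refine convexHull_min ?_ (convex_closedBall _ _)
    rintro _ ⟨w, hw, rfl⟩
    rw [mem_closedBall, dist_eq_norm]
    refine (hK _ _).trans ?_
    calc dist (Tr.pos w) (Tr.pos v) * K ≤ dist (Tr.pos w) (Tr.pos v) * |K| :=
          mul_le_mul_of_nonneg_left (le_abs_self K) dist_nonneg
      _ ≤ e * |K| := mul_le_mul_of_nonneg_right ((Tr.mesh σ hσ w hw v hv).le.trans
          (min_le_left _ _)) (abs_nonneg K)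
  have h1 := hsub hyσ
  rw [mem_closedBall] at h1
  have h2 : g v ∈ ball y0 η := by
    rw [mem_ball]
    calc dist (g v) y0 ≤ dist (g v) y + dist y y0 := dist_triangle _ _ _
      _ < η := by rw [dist_comm (g v) y]; linarith
  exact hball h2 ⟨Tr.pos v, rfl⟩

end Pool.Agent.K7.H34.FV
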