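import Pool.Agent.K7.H34.FV.Jac
import Pool.Agent.W18.FV.UF

/-!
# The functions attached to the points of a filling of the boundary of a spherical cap
-/

set_option autoImplicit false

open MeasureTheory Filter Topology InnerProductGeometry

namespace Pool.Agent.K7.H34.FV

open Pool.Agent.W716.FV (E gam gd Good dir)
open Pool.Agent.H241R3.FV (Sph RChart norm_sph)
open Pool.Agent.H241R3.FV.TExt (sph_nonempty)
open Pool.Agent.W18.FV.UF (key angle_dir dir_smul abs_cos_sub)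

variable {n : ℕ}

/-- the round distance of two points of the boundary of the cap `C_r`, `l = sin r` -/
noncomputable def capd (l : ℝ) (y z : Sph n) : ℝ :=
  Real.arccos (1 - l ^ 2 * (1 - inner ℝ (y : E n) (z : E n)))

/-- the point of the unit sphere of `E n × ℝ` -/
noncomputable def pt (l : ℝ) (y : Sph n) : WithLp 2 (E n × ℝ) :=
  WithLp.toLp 2 (l • (y : E n), √(1 - l ^ 2))

theorem inner_pt (l l' : ℝ) (x y : Sph n) :
    (inner ℝ (pt l x) (pt l' y) : ℝ) =
      l * l' * inner ℝ (x : E n) (y : E n) + √(1 - l ^ 2) * √(1 - l' ^ 2) := by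
  unfold pt
  rw [WithLp.prod_inner_apply]
  simp only [real_inner_smul_left, real_inner_smul_right]
  simp
  ring

theorem norm_pt {l : ℝ} (hl0 : 0 ≤ l) (hl1 : l ≤ 1) (x : Sph n) : ‖pt l x‖ = 1 := by
  have h1 : ‖pt l x‖ ^ 2 = 1 := by
    rw [← real_inner_self_eq_norm_sq, inner_pt, real_inner_self_eq_norm_sq, norm_sph,
      ← sq, ← sq, Real.sq_sqrt (by nlinarith)]
    ring
  exact (sq_eq_sq₀ (norm_nonneg _) zero_le_one).1 (by rw [h1, one_pow])

theorem angle_pt {l l' : ℝ} (hl0 : 0 ≤ l) (hl1 : l ≤ 1) (hl0' : 0 ≤ l') (hl1' : l' ≤ 1)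
    (x y : Sph n) : angle (pt l x) (pt l' y) =
      Real.arccos (l * l' * inner ℝ (x : E n) (y : E n) + √(1 - l ^ 2) * √(1 - l' ^ 2)) := by
  unfold angle
  rw [norm_pt hl0 hl1, norm_pt hl0' hl1', inner_pt]
  congr 1
  ring

theorem angle_pt_one {l : ℝ} (hl0 : 0 ≤ l) (hl1 : l ≤ 1) (x y : Sph n) :
    angle (pt 1 x) (pt l y) = Real.arccos (l * inner ℝ (x : E n) (y : E n)) := by
  rw [angle_pt zero_le_one le_rfl hl0 hl1]
  congr 1
  norm_num

theorem angle_sph (x y : Sph n) :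
    angle (x : E n) (y : E n) = Real.arccos (inner ℝ (x : E n) (y : E n)) := by
  unfold angle
  rw [norm_sph, norm_sph]
  congr 1
  ring

theorem angle_pt_one_one (x y : Sph n) : angle (pt 1 x) (pt 1 y) = angle (x : E n) (y : E n) := by
  rw [angle_pt_one zero_le_one le_rfl, angle_sph, one_mul]

theorem angle_pt_self {l : ℝ} (hl0 : 0 ≤ l) (hl1 : l ≤ 1) (x y : Sph n) :
    angle (pt l x) (pt l y) = capd l x y := by
  rw [angle_pt hl0 hl1 hl0 hl1, capd, ← sq, ← sq, Real.sq_sqrt (by nlinarith)]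
  congr 1
  ring

theorem capd_one (x y : Sph n) : capd 1 x y = angle (x : E n) (y : E n) := by
  rw [← angle_pt_self zero_le_one le_rfl, angle_pt_one_one]

/-- triangle inequalities -/
theorem tri1 {l : ℝ} (hl0 : 0 ≤ l) (hl1 : l ≤ 1) (x x' y : Sph n) :
    Real.arccos (l * inner ℝ (x : E n) (y : E n)) ≤
      Real.arccos (l * inner ℝ (x' : E n) (y : E n)) + angle (x : E n) (x' : E n) := by
  have h := angle_le_angle_add_angle (pt 1 x) (pt 1 x') (pt l y)
  rw [angle_pt_one hl0 hl1, angle_pt_one hl0 hl1, angle_pt_one_one] at h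
  linarith

theorem tri2 {l : ℝ} (hl0 : 0 ≤ l) (hl1 : l ≤ 1) (x y z : Sph n) :
    Real.arccos (l * inner ℝ (x : E n) (z : E n)) ≤
      Real.arccos (l * inner ℝ (x : E n) (y : E n)) + capd l y z := by
  have h := angle_le_angle_add_angle (pt 1 x) (pt l y) (pt l z)
  rw [angle_pt_one hl0 hl1, angle_pt_one hl0 hl1, angle_pt_self hl0 hl1] at h
  exact h

/-- comparison of the distances -/
theorem capd_ge {l : ℝ} (hl0 : 0 ≤ l) (hl1 : l ≤ 1) (x y : Sph n) :
    2 * l / Real.pi * angle (x : E n) (y : E n) ≤ capd l x y := by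
  have hpi := Real.pi_pos
  set θ := angle (x : E n) (y : E n) with hθ
  have hθ0 : 0 ≤ θ := angle_nonneg _ _
  have hθ1 : θ ≤ Real.pi := angle_le_pi _ _
  have hc : Real.cos θ = inner ℝ (x : E n) (y : E n) := by
    rw [hθ, cos_angle, norm_sph, norm_sph]
    ring
  have hm1 : -1 ≤ Real.cos θ := Real.neg_one_le_cos _
  have hm2 : Real.cos θ ≤ 1 := Real.cos_le_one _
  have hl2 : l ^ 2 ≤ 1 := by nlinarith
  set α := capd l x y with hα
  have hα0 : 0 ≤ α := Real.arccos_nonneg _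
  have hca : Real.cos α = 1 - l ^ 2 * (1 - Real.cos θ) := by
    rw [hα, capd, ← hc, Real.cos_arccos (by nlinarith) (by nlinarith)]
  have h1 := Real.one_sub_sq_div_two_le_cos (x := α)
  have h2 := Real.cos_le_one_sub_mul_cos_sq (x := θ) (by rw [abs_of_nonneg hθ0]; exact hθ1)
  have h3 : l ^ 2 * (2 / Real.pi ^ 2 * θ ^ 2) ≤ α ^ 2 / 2 := by
    have : l ^ 2 * (2 / Real.pi ^ 2 * θ ^ 2) ≤ l ^ 2 * (1 - Real.cos θ) :=
      mul_le_mul_of_nonneg_left (by linarith) (sq_nonneg l)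
    linarith
  apply le_of_sq_le_sq _ hα0
  calc (2 * l / Real.pi * θ) ^ 2 = 2 * (l ^ 2 * (2 / Real.pi ^ 2 * θ ^ 2)) := by
        field_simp
    _ ≤ α ^ 2 := by linarith

/-- The extension of the distance functions of the points of the equator. -/
noncomputable def exl (l : ℝ) {M : Type} [MetricSpace M] (bd : Sph n → M) (x : Sph n) (q : M) :
    ℝ :=
  ⨅ y : Sph n, (Real.arccos (l * inner ℝ (x : E n) (y : E n)) + dist q (bd y))

variable {M : Type} [MetricSpace M]

theorem exl_bdd (l : ℝ) (bd : Sph n → M) (x : Sph n) (q : M) :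
    BddBelow (Set.range fun y : Sph n =>
      Real.arccos (l * inner ℝ (x : E n) (y : E n)) + dist q (bd y)) := by
  refine ⟨0, ?_⟩
  rintro _ ⟨p, rfl⟩
  exact add_nonneg (Real.arccos_nonneg _) dist_nonneg

theorem exl_le_add (hn : 0 < n) (l : ℝ) (bd : Sph n → M) (x x' : Sph n) (q q' : M) (c : ℝ)
    (h : ∀ y : Sph n, Real.arccos (l * inner ℝ (x : E n) (y : E n)) + dist q (bd y)
      ≤ Real.arccos (l * inner ℝ (x' : E n) (y : E n)) + dist q' (bd y) + c) :
    exl l bd x q ≤ exl l bd x' q' + c := by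
  have := sph_nonempty hn
  have h1 : exl l bd x q - c ≤ exl l bd x' q' := by
    unfold exl
    apply le_ciInf
    intro p
    have h2 := ciInf_le (exl_bdd l bd x q) p
    have h3 := h p
    linarith
  linarith

theorem exl_q (hn : 0 < n) (l : ℝ) (bd : Sph n → M) (x : Sph n) (q q' : M) :
    |exl l bd x q - exl l bd x q'| ≤ dist q q' := by
  rw [abs_le]
  have h1 := exl_le_add hn l bd x x q' q (dist q q') (fun p => by
    have := dist_triangle q' q (bd p)
    rw [dist_comm q' q] at this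
    linarith)
  have h2 := exl_le_add hn l bd x x q q' (dist q q') (fun p => by
    have := dist_triangle q q' (bd p)
    linarith)
  constructor <;> linarith

theorem exl_x (hn : 0 < n) {l : ℝ} (hl0 : 0 ≤ l) (hl1 : l ≤ 1) (bd : Sph n → M) (x x' : Sph n)
    (q : M) : |exl l bd x q - exl l bd x' q| ≤ angle (x : E n) (x' : E n) := by
  rw [abs_le]
  have h1 := exl_le_add hn l bd x' x q q (angle (x : E n) (x' : E n)) (fun p => by
    have := tri1 hl0 hl1 x' x p
    rw [angle_comm (x' : E n) (x : E n)] at this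
    linarith)
  have h2 := exl_le_add hn l bd x x' q q (angle (x : E n) (x' : E n)) (fun p => by
    have := tri1 hl0 hl1 x x' p
    linarith)
  constructor <;> linarith

theorem exl_bd (hn : 0 < n) {l : ℝ} (hl0 : 0 ≤ l) (hl1 : l ≤ 1) (bd : Sph n → M)
    (hbd : ∀ y z : Sph n, capd l y z ≤ dist (bd y) (bd z)) (x z : Sph n) :
    exl l bd x (bd z) = Real.arccos (l * inner ℝ (x : E n) (z : E n)) := by
  apply le_antisymm
  · have h := ciInf_le (exl_bdd l bd x (bd z)) z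
    rw [dist_self, add_zero] at h
    exact h
  · have := sph_nonempty hn
    unfold exl
    apply le_ciInf
    intro y
    have h1 := tri2 hl0 hl1 x y z
    have h2 := hbd y z
    rw [dist_comm] at h2
    linarith

open Classical in
/-- the function attached to a point `q` -/
noncomputable def UC (l : ℝ) (bd : Sph n → M) (q : M) (G : E n) : ℝ :=
  if h : G = 0 then 0 else ‖G‖ * Real.cos (exl l bd (dir G h) q)

variable (l : ℝ) (bd : Sph n → M)

theorem UC_zero (q : M) : UC l bd q 0 = 0 := by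
  unfold UC
  simp

theorem UC_ne (q : M) (G : E n) (h : G ≠ 0) :
    UC l bd q G = ‖G‖ * Real.cos (exl l bd (dir G h) q) := by
  unfold UC
  rw [dif_neg h]

theorem abs_UC_le (q : M) (G : E n) : |UC l bd q G| ≤ ‖G‖ := by
  by_cases h : G = 0
  · rw [h, UC_zero]; simp
  · rw [UC_ne l bd q G h, abs_mul, abs_norm]
    have := Real.abs_cos_le_one (exl l bd (dir G h) q)
    calc ‖G‖ * |Real.cos (exl l bd (dir G h) q)| ≤ ‖G‖ * 1 :=
          mul_le_mul_of_nonneg_left this (norm_nonneg _)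
      _ = ‖G‖ := mul_one _

variable {l}

theorem UC_lip (hn : 0 < n) (hl0 : 0 ≤ l) (hl1 : l ≤ 1) (q : M) (G G' : E n) :
    |UC l bd q G - UC l bd q G'| ≤ ‖G - G'‖ := by
  by_cases h : G = 0
  · subst h
    rw [UC_zero, zero_sub, zero_sub, abs_neg, norm_neg]
    exact abs_UC_le l bd q G'
  by_cases h' : G' = 0
  · subst h'
    rw [UC_zero, sub_zero, sub_zero]
    exact abs_UC_le l bd q G
  have hE := exl_x hn hl0 hl1 bd (dir G h) (dir G' h') q
  rw [angle_dir] at hE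
  have h1 := key ‖G‖ ‖G'‖ _ _ _ (norm_nonneg _) (norm_nonneg _) (angle_le_pi G G') hE
  rw [← UC_ne, ← UC_ne] at h1
  have h2 : ‖G - G'‖ ^ 2 = ‖G‖ ^ 2 + ‖G'‖ ^ 2 - 2 * (‖G‖ * ‖G'‖ * Real.cos (angle G G')) := by
    rw [norm_sub_sq_real, ← cos_angle_mul_norm_mul_norm]
    ring
  rw [← h2] at h1
  exact abs_le_of_sq_le_sq h1 (norm_nonneg _)

theorem UC_hom (q : M) (t : ℝ) (G : E n) (ht : 0 ≤ t) :
    UC l bd q (t • G) = t * UC l bd q G := by
  rcases ht.eq_or_lt with ht | ht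
  · rw [← ht, zero_smul, UC_zero, zero_mul]
  by_cases h : G = 0
  · rw [h, smul_zero, UC_zero, mul_zero]
  have h' : t • G ≠ 0 := smul_ne_zero ht.ne' h
  rw [UC_ne l bd q _ h', UC_ne l bd q G h, dir_smul t ht G h h', norm_smul, Real.norm_eq_abs,
    abs_of_pos ht]
  ring

theorem UC_good (hn : 0 < n) (hl0 : 0 ≤ l) (hl1 : l ≤ 1) (q : M) : Good 1 (UC l bd q) :=
  ⟨fun x y => by rw [one_mul]; exact UC_lip bd hn hl0 hl1 q x y,
    fun t x ht => UC_hom bd q t x ht⟩

theorem UC_bd (hn : 0 < n) (hl0 : 0 ≤ l) (hl1 : l ≤ 1)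
    (hbd : ∀ y z : Sph n, capd l y z ≤ dist (bd y) (bd z)) (G : E n) (x : Sph n) :
    UC l bd (bd x) G = l * inner ℝ G (x : E n) := by
  by_cases h : G = 0
  · rw [h, UC_zero, inner_zero_left, mul_zero]
  have hg : ‖G‖ ≠ 0 := norm_ne_zero_iff.2 h
  rw [UC_ne l bd _ G h, exl_bd hn hl0 hl1 bd hbd]
  have h1 : (inner ℝ (dir G h : E n) (x : E n) : ℝ) = ‖G‖⁻¹ * inner ℝ G (x : E n) := by
    show (inner ℝ (‖G‖⁻¹ • G) (x : E n) : ℝ) = _
    rw [real_inner_smul_left]
  have h2 : |(inner ℝ (dir G h : E n) (x : E n) : ℝ)| ≤ 1 := by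
    have := abs_real_inner_le_norm (dir G h : E n) (x : E n)
    rwa [norm_sph, norm_sph, one_mul] at this
  have h3 : |l * inner ℝ (dir G h : E n) (x : E n)| ≤ 1 := by
    rw [abs_mul, abs_of_nonneg hl0]
    nlinarith [abs_nonneg (inner ℝ (dir G h : E n) (x : E n) : ℝ)]
  rw [Real.cos_arccos (abs_le.1 h3).1 (abs_le.1 h3).2, h1]
  field_simp

theorem UC_q (hn : 0 < n) (q q' : M) (G : E n) :
    |UC l bd q G - UC l bd q' G| ≤ ‖G‖ * dist q q' := by
  by_cases h : G = 0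
  · rw [h, UC_zero, UC_zero]; simp
  rw [UC_ne l bd q G h, UC_ne l bd q' G h, ← mul_sub, abs_mul, abs_norm]
  apply mul_le_mul_of_nonneg_left _ (norm_nonneg _)
  exact (abs_cos_sub _ _).trans (exl_q hn l bd _ _ _)

theorem UC_q2 (hn : 0 < n) (q q' : M) (G : E n) :
    |UC l bd q' G - UC l bd q G| ≤
      √(‖G‖ ^ 2 - UC l bd q G ^ 2) * dist q' q + ‖G‖ * dist q' q ^ 2 := by
  by_cases h : G = 0
  · rw [h, UC_zero, UC_zero]; simp
  rw [UC_ne l bd q G h, UC_ne l bd q' G h]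
  have hd := exl_q hn l bd (dir G h) q' q
  set φ := exl l bd (dir G h) q
  set φ' := exl l bd (dir G h) q'
  set δ := φ' - φ with hδ
  have hφ' : φ' = φ + δ := by rw [hδ]; ring
  have hs : √(‖G‖ ^ 2 - (‖G‖ * Real.cos φ) ^ 2) = ‖G‖ * |Real.sin φ| := by
    have : ‖G‖ ^ 2 - (‖G‖ * Real.cos φ) ^ 2 = (‖G‖ * |Real.sin φ|) ^ 2 := by
      rw [mul_pow, mul_pow, sq_abs, Real.sin_sq]
      ring
    rw [this, Real.sqrt_sq (mul_nonneg (norm_nonneg _) (abs_nonneg _))]
  rw [hs, hφ', Real.cos_add]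
  have h1 : ‖G‖ * (Real.cos φ * Real.cos δ - Real.sin φ * Real.sin δ) - ‖G‖ * Real.cos φ =
      ‖G‖ * (Real.cos φ * (Real.cos δ - 1) - Real.sin φ * Real.sin δ) := by ring
  rw [h1, abs_mul, abs_norm, mul_assoc, ← mul_add]
  apply mul_le_mul_of_nonneg_left _ (norm_nonneg _)
  have h2 : |Real.cos δ - 1| ≤ δ ^ 2 := by
    have h3 := Real.one_sub_sq_div_two_le_cos (x := δ)
    have h4 := Real.cos_le_one δ
    rw [abs_le]
    constructor <;> nlinarith [sq_nonneg δ]
  have h3 : |Real.sin δ| ≤ |δ| := Real.abs_sin_le_abs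
  have h4 : δ ^ 2 ≤ dist q' q ^ 2 := by
    rw [← sq_abs]
    exact pow_le_pow_left₀ (abs_nonneg _) hd 2
  calc |Real.cos φ * (Real.cos δ - 1) - Real.sin φ * Real.sin δ|
      ≤ |Real.cos φ * (Real.cos δ - 1)| + |Real.sin φ * Real.sin δ| := abs_sub _ _
    _ = |Real.cos φ| * |Real.cos δ - 1| + |Real.sin φ| * |Real.sin δ| := by
        rw [abs_mul, abs_mul]
    _ ≤ 1 * dist q' q ^ 2 + |Real.sin φ| * dist q' q := by
        apply add_le_add
        · exact mul_le_mul (Real.abs_cos_le_one _) (h2.trans h4) (abs_nonneg _) zero_le_one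
        · exact mul_le_mul_of_nonneg_left (h3.trans hd) (abs_nonneg _)
    _ = |Real.sin φ| * dist q' q + dist q' q ^ 2 := by ring

/-- families of good functions indexed by the points of a metric space -/
structure Fam (U : M → E n → ℝ) : Prop where
  good : ∀ q, Good 1 (U q)
  lipq : ∀ q q' G, |U q G - U q' G| ≤ ‖G‖ * dist q q'
  sec : ∀ q q' G, |U q' G - U q G| ≤ √(‖G‖ ^ 2 - U q G ^ 2) * dist q' q + ‖G‖ * dist q' q ^ 2

theorem UC_fam (hn : 0 < n) (hl0 : 0 ≤ l) (hl1 : l ≤ 1) : Fam (UC l bd) :=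
  ⟨UC_good bd hn hl0 hl1, UC_q bd hn, UC_q2 bd hn⟩

end Pool.Agent.K7.H34.FV
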