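import Pool.Agent.K7.H34.FV.Lin

/-!
# The vector field whose zero is the barycentre
-/

set_option autoImplicit false

open MeasureTheory Filter Topology

namespace Pool.Agent.K7.H34.FV

open Pool.Agent.W716.FV (E gam gd Good)
open Pool.Agent.W762.FV (cc cc_pos gd_eq gd_nonneg gd_cont gd_shift gd_deriv)

variable {n : ℕ}

instance instProbGam : IsProbabilityMeasure (gam n) := (Pool.Agent.W933.FVGM.main n).1

theorem int_gam' {F : Type*} [NormedAddCommGroup F] [NormedSpace ℝ F] (h : E n → F) :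
    ∫ v, h v ∂(gam n) = ∫ v, gd n v • h v := by
  unfold gam
  rw [integral_withDensity_eq_integral_toReal_smul
    (Pool.Agent.W933.FVGM.meas_ofReal_gd n) (Eventually.of_forall fun x => ENNReal.ofReal_lt_top)]
  refine integral_congr_ae (Eventually.of_forall fun x => ?_)
  simp only
  rw [ENNReal.toReal_ofReal (gd_nonneg n x)]

/-- whitening -/
theorem whiten {F : Type*} [NormedAddCommGroup F] [NormedSpace ℝ F] {p : E n} (hp : ‖p‖ < 1)
    (h : E n → F) :
    ∫ v, Real.exp ((inner ℝ p v) ^ 2 / 2) • h v ∂(gam n) =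
      (pz p)⁻¹ • ∫ g, h (BB p g) ∂(gam n) := by
  have h0 := pz_pos hp
  rw [int_gam', int_gam']
  have e1 := (BE hp).toHomeomorph.measurableEmbedding.integral_map
    (μ := (volume : Measure (E n)))
    (fun v : E n => gd n v • Real.exp ((inner ℝ p v) ^ 2 / 2) • h v)
  have hd : LinearMap.det ((BB p : E n →L[ℝ] E n) : E n →ₗ[ℝ] E n) = (pz p)⁻¹ := det_BB hp
  have e2 : Measure.map (BE hp).toHomeomorph (volume : Measure (E n)) =
      ENNReal.ofReal (pz p) • (volume : Measure (E n)) := by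
    have h1 := Measure.map_linearMap_addHaar_eq_smul_addHaar (volume : Measure (E n))
      (f := ((BB p : E n →L[ℝ] E n) : E n →ₗ[ℝ] E n)) (by rw [hd]; positivity)
    rw [hd, inv_inv, abs_of_pos h0] at h1
    exact h1
  rw [e2, integral_smul_measure, ENNReal.toReal_ofReal h0.le] at e1
  have e3 : ∀ g : E n, gd n ((BE hp).toHomeomorph g) •
      Real.exp ((inner ℝ p ((BE hp).toHomeomorph g)) ^ 2 / 2) • h ((BE hp).toHomeomorph g) =
      gd n g • h (BB p g) := by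
    intro g
    have e4 : (BE hp).toHomeomorph g = BB p g := rfl
    rw [e4, smul_smul]
    congr 1
    rw [gd_eq, gd_eq, mul_assoc, ← Real.exp_add]
    congr 2
    rw [norm_BB_sq hp, inner_p_BB' hp]
    ring
  simp only [e3] at e1
  rw [← e1, smul_smul, inv_mul_cancel₀ h0.ne', one_smul]

/-- growth below the Gaussian -/
theorem int_exp (k : ℕ) {ρ : ℝ} (h0 : 0 ≤ ρ) (hρ : ρ < 1) :
    Integrable (fun v : E n => (1 + ‖v‖) ^ k * Real.exp (ρ ^ 2 * ‖v‖ ^ 2 / 2)) (gam n) := by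
  rw [Pool.Agent.W933.FVGM.integrable_gam]
  have h1 := (int_pw_gauss (n := n) k (b := (1 - ρ ^ 2) / 2) (by nlinarith)).const_mul (cc n)
  refine h1.congr (Eventually.of_forall fun v => ?_)
  simp only [gd_eq]
  have : Real.exp (-((1 - ρ ^ 2) / 2) * ‖v‖ ^ 2) =
      Real.exp (-‖v‖ ^ 2 / 2) * Real.exp (ρ ^ 2 * ‖v‖ ^ 2 / 2) := by
    rw [← Real.exp_add]
    congr 1
    ring
  rw [this]
  ring

theorem integ_exp {F : Type*} [NormedAddCommGroup F] {f : E n → F} (C : ℝ) (k : ℕ) {ρ : ℝ}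
    (h0 : 0 ≤ ρ) (hρ : ρ < 1) (hf : AEStronglyMeasurable f (gam n))
    (h : ∀ᵐ v ∂(gam n), ‖f v‖ ≤ C * ((1 + ‖v‖) ^ k * Real.exp (ρ ^ 2 * ‖v‖ ^ 2 / 2))) :
    Integrable f (gam n) :=
  Integrable.mono' ((int_exp k h0 hρ).const_mul C) hf h

/-- the vector field -/
noncomputable def Gm (u : E n → ℝ) (p : E n) : E n :=
  ∫ v, (Real.exp ((inner ℝ p v) ^ 2 / 2) * (u v - inner ℝ p v)) • v ∂(gam n)

theorem exp_sub_le (x y m : ℝ) (hx : x ≤ m) (hy : y ≤ m) :
    |Real.exp x - Real.exp y| ≤ Real.exp m * |x - y| := by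
  have key : ∀ a b : ℝ, a ≤ m → b ≤ a → Real.exp a - Real.exp b ≤ Real.exp m * (a - b) := by
    intro a b ha hab
    have h1 := Real.add_one_le_exp (b - a)
    have h2 : Real.exp b = Real.exp a * Real.exp (b - a) := by
      rw [← Real.exp_add]; congr 1; ring
    have h3 : Real.exp a ≤ Real.exp m := Real.exp_le_exp.2 ha
    have h4 := Real.exp_pos a
    rw [h2]
    have h5 : Real.exp a * (b - a + 1) ≤ Real.exp a * Real.exp (b - a) :=
      mul_le_mul_of_nonneg_left h1 h4.le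
    have h6 : Real.exp a * (a - b) ≤ Real.exp m * (a - b) :=
      mul_le_mul_of_nonneg_right h3 (by linarith)
    nlinarith
  rcases le_total y x with h | h
  · rw [abs_of_nonneg (sub_nonneg.2 (Real.exp_le_exp.2 h)), abs_of_nonneg (sub_nonneg.2 h)]
    exact key x y hx h
  · rw [abs_sub_comm, abs_sub_comm x y, abs_of_nonneg (sub_nonneg.2 (Real.exp_le_exp.2 h)),
      abs_of_nonneg (sub_nonneg.2 h)]
    exact key y x hy h

theorem abs_inner_le {p : E n} {ρ : ℝ} (hp : ‖p‖ ≤ ρ) (v : E n) :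
    |(inner ℝ p v : ℝ)| ≤ ρ * ‖v‖ :=
  (abs_real_inner_le_norm p v).trans (mul_le_mul_of_nonneg_right hp (norm_nonneg v))

theorem sq_inner_le {p : E n} {ρ : ℝ} (hp : ‖p‖ ≤ ρ) (v : E n) :
    (inner ℝ p v : ℝ) ^ 2 / 2 ≤ ρ ^ 2 * ‖v‖ ^ 2 / 2 := by
  have h1 := pow_le_pow_left₀ (abs_nonneg _) (abs_inner_le hp v) 2
  rw [sq_abs, mul_pow] at h1
  linarith

theorem good_abs {u : E n → ℝ} (hu : Good 1 u) (v : E n) : |u v| ≤ ‖v‖ := by
  have h1 := hu.lip v 0
  have h2 := hu.hom 0 0 le_rfl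
  rw [zero_smul, zero_mul] at h2
  rw [h2, sub_zero, sub_zero, one_mul] at h1
  exact h1

theorem good_cont {u : E n → ℝ} (hu : Good 1 u) : Continuous u := by
  rw [continuous_iff_continuousAt]
  intro x
  rw [ContinuousAt, tendsto_iff_dist_tendsto_zero]
  have hlim : Tendsto (fun y : E n => ‖y - x‖) (𝓝 x) (𝓝 0) := by
    have hc : Continuous (fun y : E n => ‖y - x‖) := by fun_prop
    have := hc.tendsto x
    simpa using this
  refine squeeze_zero (fun _ => dist_nonneg) (fun y => ?_) hlim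
  rw [Real.dist_eq]
  have := hu.lip y x
  rwa [one_mul] at this

/-- difference of the values of the integrand -/
theorem Gm_integrand_lip {ρ K : ℝ} (_h0 : 0 ≤ ρ) (hρ : ρ < 1) (hK : 0 ≤ K) {a b : ℝ} {p q v : E n}
    {d : ℝ} (hp : ‖p‖ ≤ ρ) (hq : ‖q‖ ≤ ρ) (hb : |b| ≤ ‖v‖) (hab : |a - b| ≤ K * ‖v‖ * d)
    (hpq : ‖p - q‖ ≤ d) :
    ‖(Real.exp ((inner ℝ p v) ^ 2 / 2) * (a - inner ℝ p v)) • v -
      (Real.exp ((inner ℝ q v) ^ 2 / 2) * (b - inner ℝ q v)) • v‖ ≤
      (K + 3) * ((1 + ‖v‖) ^ 4 * Real.exp (ρ ^ 2 * ‖v‖ ^ 2 / 2)) * d := by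
  have hd : 0 ≤ d := (norm_nonneg _).trans hpq
  have hv := norm_nonneg v
  set m := Real.exp (ρ ^ 2 * ‖v‖ ^ 2 / 2) with hm
  have hm0 : 0 < m := Real.exp_pos _
  rw [← sub_smul, norm_smul, Real.norm_eq_abs]
  have e : Real.exp ((inner ℝ p v) ^ 2 / 2) * (a - inner ℝ p v) -
      Real.exp ((inner ℝ q v) ^ 2 / 2) * (b - inner ℝ q v) =
      Real.exp ((inner ℝ p v) ^ 2 / 2) * ((a - b) - inner ℝ (p - q) v) +
      (Real.exp ((inner ℝ p v) ^ 2 / 2) - Real.exp ((inner ℝ q v) ^ 2 / 2)) *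
        (b - inner ℝ q v) := by
    rw [inner_sub_left]; ring
  have h1 : |Real.exp ((inner ℝ p v) ^ 2 / 2) * ((a - b) - inner ℝ (p - q) v)| ≤
      m * (K * ‖v‖ * d + d * ‖v‖) := by
    rw [abs_mul, abs_of_pos (Real.exp_pos _)]
    refine mul_le_mul (Real.exp_le_exp.2 (sq_inner_le hp v)) ?_ (abs_nonneg _) hm0.le
    exact (abs_sub _ _).trans (add_le_add hab (abs_inner_le hpq v))
  have h2 : |(Real.exp ((inner ℝ p v) ^ 2 / 2) - Real.exp ((inner ℝ q v) ^ 2 / 2)) *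
        (b - inner ℝ q v)| ≤ (m * (d * ‖v‖ * ‖v‖)) * (2 * ‖v‖) := by
    rw [abs_mul]
    refine mul_le_mul ?_ ?_ (abs_nonneg _) (by positivity)
    · refine (exp_sub_le _ _ _ (sq_inner_le hp v) (sq_inner_le hq v)).trans ?_
      refine mul_le_mul_of_nonneg_left ?_ hm0.le
      have e2 : (inner ℝ p v : ℝ) ^ 2 / 2 - (inner ℝ q v) ^ 2 / 2 =
          inner ℝ (p - q) v * ((inner ℝ p v + inner ℝ q v) / 2) := by
        rw [inner_sub_left]; ring
      rw [e2, abs_mul]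
      refine mul_le_mul (abs_inner_le hpq v) ?_ (abs_nonneg _) (by positivity)
      have h3 := abs_inner_le hp v
      have h4 := abs_inner_le hq v
      have h5 : ρ * ‖v‖ ≤ ‖v‖ := by nlinarith
      rw [abs_le] at h3 h4 ⊢
      constructor <;> linarith
    · have h4 := abs_inner_le hq v
      have h5 : ρ * ‖v‖ ≤ ‖v‖ := by nlinarith
      calc |b - inner ℝ q v| ≤ |b| + |inner ℝ q v| := abs_sub _ _
        _ ≤ 2 * ‖v‖ := by linarith
  rw [e]
  have h6 : ‖v‖ ^ 2 ≤ (1 + ‖v‖) ^ 4 := by nlinarith [sq_nonneg ‖v‖, sq_nonneg (‖v‖ ^ 2)]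
  have h7 : ‖v‖ ^ 4 ≤ (1 + ‖v‖) ^ 4 := pow_le_pow_left₀ hv (by linarith) 4
  calc |Real.exp ((inner ℝ p v) ^ 2 / 2) * ((a - b) - inner ℝ (p - q) v) +
      (Real.exp ((inner ℝ p v) ^ 2 / 2) - Real.exp ((inner ℝ q v) ^ 2 / 2)) *
        (b - inner ℝ q v)| * ‖v‖ ≤
        (m * (K * ‖v‖ * d + d * ‖v‖) + (m * (d * ‖v‖ * ‖v‖)) * (2 * ‖v‖)) * ‖v‖ :=
          mul_le_mul_of_nonneg_right ((abs_add_le _ _).trans (add_le_add h1 h2)) hv
    _ = (m * d) * ((K + 1) * ‖v‖ ^ 2 + 2 * ‖v‖ ^ 4) := by ring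
    _ ≤ (m * d) * ((K + 1) * (1 + ‖v‖) ^ 4 + 2 * (1 + ‖v‖) ^ 4) := by
        refine mul_le_mul_of_nonneg_left ?_ (by positivity)
        have := mul_le_mul_of_nonneg_left h6 (by linarith : 0 ≤ K + 1)
        linarith
    _ = _ := by ring

theorem Gm_integrable {u : E n → ℝ} (hu : Good 1 u) {p : E n} (hp : ‖p‖ < 1) :
    Integrable (fun v => (Real.exp ((inner ℝ p v) ^ 2 / 2) * (u v - inner ℝ p v)) • v)
      (gam n) := by
  have hc := good_cont hu
  refine integ_exp 2 2 (norm_nonneg p) hp (by fun_prop : Continuous _).aestronglyMeasurable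
    (Eventually.of_forall fun v => ?_)
  rw [norm_smul, Real.norm_eq_abs, abs_mul, abs_of_pos (Real.exp_pos _)]
  have h1 := abs_inner_le (le_refl ‖p‖) v
  have h2 := good_abs hu v
  have hv := norm_nonneg v
  have h3 : |u v - inner ℝ p v| ≤ 2 * ‖v‖ := by
    calc |u v - inner ℝ p v| ≤ |u v| + |inner ℝ p v| := abs_sub _ _
      _ ≤ 2 * ‖v‖ := by nlinarith
  calc Real.exp ((inner ℝ p v) ^ 2 / 2) * |u v - inner ℝ p v| * ‖v‖ ≤
      Real.exp (‖p‖ ^ 2 * ‖v‖ ^ 2 / 2) * (2 * ‖v‖) * ‖v‖ := by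
        refine mul_le_mul_of_nonneg_right (mul_le_mul (Real.exp_le_exp.2 (sq_inner_le le_rfl v))
          h3 (abs_nonneg _) (Real.exp_pos _).le) hv
    _ = 2 * (‖v‖ ^ 2 * Real.exp (‖p‖ ^ 2 * ‖v‖ ^ 2 / 2)) := by ring
    _ ≤ _ := by
        refine mul_le_mul_of_nonneg_left (mul_le_mul_of_nonneg_right
          (pow_le_pow_left₀ hv (by linarith) 2) (Real.exp_pos _).le) (by norm_num)

/-- Lipschitz dependence -/
theorem Gm_lip {ρ K : ℝ} (h0 : 0 ≤ ρ) (hρ : ρ < 1) (hK : 0 ≤ K) : ∃ C : ℝ, 0 ≤ C ∧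
    ∀ (u u' : E n → ℝ), Good 1 u → Good 1 u' → ∀ d : ℝ, (∀ v, |u v - u' v| ≤ K * ‖v‖ * d) →
      ∀ p p' : E n, ‖p‖ ≤ ρ → ‖p'‖ ≤ ρ → ‖p - p'‖ ≤ d → ‖Gm u p - Gm u' p'‖ ≤ C * d := by
  refine ⟨∫ v, (K + 3) * ((1 + ‖v‖) ^ 4 * Real.exp (ρ ^ 2 * ‖v‖ ^ 2 / 2)) ∂(gam n),
    integral_nonneg fun v => by positivity, fun u u' hu hu' d hd p p' hp hp' hpp => ?_⟩
  unfold Gm
  rw [← integral_sub (Gm_integrable hu (hp.trans_lt hρ)) (Gm_integrable hu' (hp'.trans_lt hρ)),
    ← integral_mul_const]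
  refine norm_integral_le_of_norm_le (((int_exp 4 h0 hρ).const_mul (K + 3)).mul_const d)
    (Eventually.of_forall fun v => ?_)
  exact Gm_integrand_lip h0 hρ hK hp hp' (good_abs hu' v) (hd v) hpp

/-- derivative of the integrand -/
noncomputable def DL (u : E n → ℝ) (p : E n) (D : E n → E n →L[ℝ] ℝ) (v : E n) :
    (E n × E n) →L[ℝ] E n :=
  (Real.exp ((inner ℝ p v) ^ 2 / 2) • ((D v).comp (ContinuousLinearMap.fst ℝ (E n) (E n)) +
    ((u v - inner ℝ p v) * inner ℝ p v - 1) •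
      (innerSL ℝ v).comp (ContinuousLinearMap.snd ℝ (E n) (E n)))).smulRight v

theorem DL_apply (u : E n → ℝ) (p : E n) (D : E n → E n →L[ℝ] ℝ) (v w z : E n) :
    DL u p D v (w, z) = Real.exp ((inner ℝ p v) ^ 2 / 2) •
      ((D v w + ((u v - inner ℝ p v) * inner ℝ p v - 1) * inner ℝ v z) • v) := by
  simp only [DL, ContinuousLinearMap.smulRight_apply, _root_.smul_apply, _root_.add_apply,
    ContinuousLinearMap.comp_apply, ContinuousLinearMap.coe_fst', ContinuousLinearMap.coe_snd',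
    innerSL_apply_apply, smul_eq_mul, smul_smul]

theorem hasFDerivAt_Gm {V : E n → E n → ℝ} {c p : E n} {K r : ℝ} (hr : 0 < r) (hK : 0 ≤ K)
    (hp : ‖p‖ < 1) (hgood : ∀ c', Good 1 (V c'))
    (hlip : ∀ c' ∈ Metric.ball c r, ∀ c'' ∈ Metric.ball c r, ∀ v,
      |V c' v - V c'' v| ≤ K * ‖v‖ * ‖c' - c''‖)
    (D : E n → E n →L[ℝ] ℝ) (hD : Measurable D)
    (hder : ∀ᵐ v ∂(gam n), HasFDerivAt (fun c' => V c' v) (D v) c) :
    Integrable (DL (V c) p D) (gam n) ∧
    HasFDerivAt (fun x : E n × E n => Gm (V x.1) x.2) (∫ v, DL (V c) p D v ∂(gam n)) (c, p) := by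
  set ρ : ℝ := (1 + ‖p‖) / 2 with hρd
  have hρ : ρ < 1 := by rw [hρd]; linarith
  have hρ0 : 0 ≤ ρ := by rw [hρd]; positivity
  set δ : ℝ := min r ((1 - ‖p‖) / 2) with hδ
  have hδ0 : 0 < δ := lt_min hr (by linarith)
  have hpr : ∀ x ∈ Metric.ball (c, p) δ, x.1 ∈ Metric.ball c r ∧ ‖x.2‖ ≤ ρ := by
    rintro ⟨x1, x2⟩ hx
    rw [Metric.mem_ball, Prod.dist_eq, max_lt_iff] at hx
    refine ⟨Metric.mem_ball.2 (hx.1.trans_le (min_le_left _ _)), ?_⟩
    have h1 : dist x2 p < (1 - ‖p‖) / 2 := hx.2.trans_le (min_le_right _ _)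
    rw [dist_eq_norm] at h1
    have h2 := norm_sub_norm_le x2 p
    simp only
    rw [hρd]
    linarith
  have hcont := good_cont (hgood c)
  refine hasFDerivAt_integral_of_dominated_loc_of_lip (μ := gam n)
    (F := fun (x : E n × E n) (v : E n) =>
      (Real.exp ((inner ℝ x.2 v) ^ 2 / 2) * (V x.1 v - inner ℝ x.2 v)) • v)
    (x₀ := (c, p)) (s := Metric.ball (c, p) δ)
    (bound := fun v => (K + 3) * ((1 + ‖v‖) ^ 4 * Real.exp (ρ ^ 2 * ‖v‖ ^ 2 / 2)))
    (F' := DL (V c) p D)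
    (Metric.ball_mem_nhds _ hδ0) (Eventually.of_forall fun x => ?_) (Gm_integrable (hgood c) hp)
    ?_ (Eventually.of_forall fun v => ?_) ((int_exp 4 hρ0 hρ).const_mul _) ?_
  · have hcx := good_cont (hgood x.1)
    exact (by fun_prop : Continuous _).aestronglyMeasurable
  · apply Measurable.aestronglyMeasurable
    have h1 : Measurable fun v : E n =>
        (D v).comp (ContinuousLinearMap.fst ℝ (E n) (E n)) := by
      have hc : Continuous fun A : E n →L[ℝ] ℝ =>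
          A.comp (ContinuousLinearMap.fst ℝ (E n) (E n)) := by fun_prop
      exact hc.measurable.comp hD
    have h2 : Continuous fun v : E n => ((V c v - inner ℝ p v) * inner ℝ p v - 1) •
      (innerSL ℝ v).comp (ContinuousLinearMap.snd ℝ (E n) (E n)) := by fun_prop
    have h3 : Measurable fun v : E n => Real.exp ((inner ℝ p v) ^ 2 / 2) •
        ((D v).comp (ContinuousLinearMap.fst ℝ (E n) (E n)) +
        ((V c v - inner ℝ p v) * inner ℝ p v - 1) •
      (innerSL ℝ v).comp (ContinuousLinearMap.snd ℝ (E n) (E n))) := by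
      have hc : Continuous fun v : E n => Real.exp ((inner ℝ p v : ℝ) ^ 2 / 2) := by fun_prop
      exact hc.measurable.smul (h1.add h2.measurable)
    have h4 : Continuous fun x : ((E n × E n) →L[ℝ] ℝ) × E n => x.1.smulRight x.2 := by fun_prop
    exact h4.measurable.comp (h3.prodMk measurable_id)
  · refine LipschitzOnWith.of_dist_le_mul fun x hx y hy => ?_
    obtain ⟨hx1, hx2⟩ := hpr x hx
    obtain ⟨hy1, hy2⟩ := hpr y hy
    have hb : (0 : ℝ) ≤ (K + 3) * ((1 + ‖v‖) ^ 4 * Real.exp (ρ ^ 2 * ‖v‖ ^ 2 / 2)) := by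
      positivity
    rw [dist_eq_norm, Real.coe_nnabs, abs_of_nonneg hb]
    refine Gm_integrand_lip hρ0 hρ hK hx2 hy2 (good_abs (hgood _) v) ?_ ?_
    · refine (hlip _ hx1 _ hy1 v).trans (mul_le_mul_of_nonneg_left ?_ (by positivity))
      rw [← dist_eq_norm, Prod.dist_eq]
      exact le_max_left _ _
    · rw [← dist_eq_norm, Prod.dist_eq]
      exact le_max_right _ _
  · filter_upwards [hder] with v hv
    have h1 : HasFDerivAt (fun x : E n × E n => V x.1 v)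
        ((D v).comp (ContinuousLinearMap.fst ℝ (E n) (E n))) (c, p) :=
      HasFDerivAt.comp (c, p) (f := Prod.fst) (g := fun c' => V c' v) hv hasFDerivAt_fst
    have h2 : HasFDerivAt (fun x : E n × E n => (inner ℝ x.2 v : ℝ))
        ((innerSL ℝ v).comp (ContinuousLinearMap.snd ℝ (E n) (E n))) (c, p) := by
      have h3 : HasFDerivAt (fun x : E n × E n => innerSL ℝ v x.2)
        ((innerSL ℝ v).comp (ContinuousLinearMap.snd ℝ (E n) (E n))) (c, p) :=
        HasFDerivAt.comp (c, p) (f := Prod.snd) (g := fun c' => innerSL ℝ v c')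
          (innerSL ℝ v).hasFDerivAt hasFDerivAt_snd
      refine h3.congr_of_eventuallyEq (Eventually.of_forall fun x => ?_)
      simp only [innerSL_apply_apply]
      exact real_inner_comm _ _
    have h4 := ((((h2.pow 2).mul_const (2 : ℝ)⁻¹).exp).mul (h1.sub h2)).smul_const v
    refine (h4.congr_of_eventuallyEq (Eventually.of_forall fun x => ?_)).congr_fderiv ?_
    · simp only [div_eq_mul_inv]
      rfl
    · refine ContinuousLinearMap.ext fun x => ?_
      obtain ⟨w, z⟩ := x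
      rw [DL_apply]
      simp only [_root_.add_apply, _root_.smul_apply, smul_eq_mul,
        ContinuousLinearMap.smulRight_apply, ContinuousLinearMap.comp_apply,
        ContinuousLinearMap.coe_fst', ContinuousLinearMap.coe_snd', innerSL_apply_apply,
        _root_.sub_apply, smul_smul]
      congr 1
      simp only [div_eq_mul_inv]
      norm_num
      ring

end Pool.Agent.K7.H34.FV
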