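import Pool.Agent.K7.H34.FV.Spec

/-!
# The Hilbert-Schmidt bound for `S`
-/

set_option autoImplicit false

open MeasureTheory Filter Topology

namespace Pool.Agent.K7.H34.FV

open Pool.Agent.W716.FV (E gam gd Good)

variable {n : ℕ}

/-- `E[κ²]` -/
noncomputable def k2 (u : E n → ℝ) (p : E n) : ℝ := ∫ g, kap u p g ^ 2 ∂(gam n)

theorem k2_nonneg (u : E n → ℝ) (p : E n) : 0 ≤ k2 u p := integral_nonneg fun _ => sq_nonneg _

theorem Sop_Sy {u : E n → ℝ} (hu : Good 1 u) (p : E n) : Sy (Sop u p) := fun x y =>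
  Sop_symm hu p x y

theorem int_kap_innr {u : E n → ℝ} (hu : Good 1 u) {p : E n} (h0 : tau u p = 0) (e : E n) :
    ∫ g, kap u p g * inner ℝ g e ∂(gam n) = 0 := by
  have h6 := PL.inner_int (kap_PL hu p) e
  rw [← h6]
  change (inner ℝ (tau u p) e : ℝ) = 0
  rw [h0, inner_zero_left]

theorem Sop_tr {u : E n → ℝ} (hu : Good 1 u) {p : E n} (h0 : tau u p = 0) :
    tr (Sop u p) = 0 := by
  have h1 : tr (Sop u p) = ∫ g, ‖g‖ ^ 2 * ka u p g ∂(gam n) := by
    unfold tr
    simp only [Sop_inner hu]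
    rw [← integral_finsetSum _ fun i _ =>
      (((ka_PL hu p).mul (PL.innr (bv n i))).mul (PL.innr (bv n i))).integrable]
    refine integral_congr_ae (Eventually.of_forall fun g => ?_)
    simp only
    rw [← sum_inner_sq g, Finset.sum_mul]
    refine Finset.sum_congr rfl fun i _ => ?_
    ring
  have h2 := hom_int' (n := n) (h := ka u p) (j := 2) (ka_PL hu p).continuous
    (fun t x ht => by
      unfold ka
      rw [kap_hom hu p t x ht, real_inner_smul_right]; ring)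
  rw [h1, h2]
  have h3 : ∫ g, ka u p g ∂(gam n) = 0 := by
    rw [← int_kap_innr hu h0 (eta p)]
    refine integral_congr_ae (Eventually.of_forall fun g => ?_)
    simp only [ka]
    rw [real_inner_comm]
  rw [h3, mul_zero]

theorem hs_eq {u : E n → ℝ} (hu : Good 1 u) (p : E n) :
    hs (Sop u p) = ∫ g, ka u p g * inner ℝ (Sop u p g) g ∂(gam n) := by
  unfold hs
  have h1 : ∀ i, ‖Sop u p (bv n i)‖ ^ 2 =
      ∫ g, ka u p g * inner ℝ g (bv n i) * inner ℝ g (Sop u p (bv n i)) ∂(gam n) := by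
    intro i
    rw [← Sop_inner hu, inner_pp]
  simp only [h1]
  rw [← integral_finsetSum _ fun i _ =>
      (((ka_PL hu p).mul (PL.innr (bv n i))).mul (PL.innr _)).integrable]
  refine integral_congr_ae (Eventually.of_forall fun g => ?_)
  simp only
  rw [← sum_A, Finset.mul_sum]
  refine Finset.sum_congr rfl fun i _ => ?_
  rw [real_inner_comm g]
  ring

/-- the test function -/
noncomputable def hh (A : E n →L[ℝ] E n) (η a g : E n) : ℝ :=
  inner ℝ g η * inner ℝ (A g) g - ‖g‖ ^ 2 * inner ℝ g a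

theorem hh_PL (A : E n →L[ℝ] E n) (η a : E n) : PL (hh A η a) :=
  ((PL.innr η).mul (PL.quad A)).sub (PL.norm_sq.mul (PL.innr a))

theorem hh_hom (A : E n →L[ℝ] E n) (η a : E n) (t : ℝ) (g : E n) (ht : 0 ≤ t) :
    hh A η a (t • g) = t ^ 3 * hh A η a g := by
  unfold hh
  simp only [map_smul, real_inner_smul_left, real_inner_smul_right, norm_smul, Real.norm_eq_abs,
    abs_of_nonneg ht]
  ring

theorem hh_sq_int {A : E n →L[ℝ] E n} (hA : Sy A) (h0 : tr A = 0) (η a : E n) :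
    ∫ g, hh A η a g ^ 2 ∂(gam n) = 2 * ‖η‖ ^ 2 * hs A + 8 * ‖A η‖ ^ 2 -
      2 * ((n + 4) * (2 * (inner ℝ (A η) a : ℝ))) + (n + 4) * ((n + 2) * ‖a‖ ^ 2) := by
  have i1 : Integrable (fun g : E n => (inner ℝ (A g) g : ℝ) ^ 2 * inner ℝ g η * inner ℝ g η)
      (gam n) := ((((PL.quad A).pow 2).mul (PL.innr η)).mul (PL.innr η)).integrable
  have i2 : Integrable (fun g : E n => ‖g‖ ^ 2 * (inner ℝ (A g) g * inner ℝ g a * inner ℝ g η))
      (gam n) :=
    (PL.norm_sq.mul (((PL.quad A).mul (PL.innr a)).mul (PL.innr η))).integrable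
  have i3 : Integrable (fun g : E n => ‖g‖ ^ 4 * (inner ℝ g a : ℝ) ^ 2) (gam n) := by
    have h := ((PL.norm_sq.pow 2).mul ((PL.innr a).pow 2)).integrable (n := n)
    refine h.congr (Eventually.of_forall fun g => ?_)
    simp only
    ring
  rw [← int_quad_sq_inner hA h0, ← int_norm_quad hA h0, ← int_norm_four, ← integral_const_mul,
    ← integral_sub i1 (i2.const_mul 2)]
  have i4 : Integrable (fun g : E n =>
    (inner ℝ (A g) g : ℝ) ^ 2 * inner ℝ g η * inner ℝ g η -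
      2 * (‖g‖ ^ 2 * (inner ℝ (A g) g * inner ℝ g a * inner ℝ g η))) (gam n) :=
    i1.sub (i2.const_mul 2)
  rw [← integral_add i4 i3]
  refine integral_congr_ae (Eventually.of_forall fun g => ?_)
  simp only [hh]
  ring

theorem kap_hh {u : E n → ℝ} (hu : Good 1 u) {p : E n} (h0 : tau u p = 0) (a : E n) :
    ∫ g, kap u p g * hh (Sop u p) (eta p) a g ∂(gam n) = hs (Sop u p) := by
  have i1 : Integrable (fun g : E n => ka u p g * inner ℝ (Sop u p g) g) (gam n) :=
    ((ka_PL hu p).mul (PL.quad _)).integrable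
  have i2 : Integrable (fun g : E n => ‖g‖ ^ 2 * (kap u p g * inner ℝ g a)) (gam n) :=
    (PL.norm_sq.mul ((kap_PL hu p).mul (PL.innr a))).integrable
  have h1 : ∫ g, ‖g‖ ^ 2 * (kap u p g * inner ℝ g a) ∂(gam n) = 0 := by
    rw [hom_int' (n := n) (h := fun g => kap u p g * inner ℝ g a) (j := 2)
      ((kap_PL hu p).mul (PL.innr a)).continuous (fun t x ht => by
        simp only [kap_hom hu p t x ht, real_inner_smul_left]; ring), int_kap_innr hu h0, mul_zero]
  rw [hs_eq hu, ← sub_zero (∫ g, ka u p g * inner ℝ (Sop u p g) g ∂(gam n)), ← h1,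
    ← integral_sub i1 i2]
  refine integral_congr_ae (Eventually.of_forall fun g => ?_)
  simp only [hh, ka]
  rw [real_inner_comm g (eta p)]
  ring

theorem hom_bd {h : E n → ℝ} {j : ℕ} (hj : 0 < j) (hm : Continuous h)
    (hh : ∀ (t : ℝ) (x : E n), 0 ≤ t → h (t • x) = t ^ j * h x) :
    ∃ C : ℝ, 0 ≤ C ∧ ∀ x, |h x| ≤ C * ‖x‖ ^ j := by
  obtain ⟨C, hC⟩ := (isCompact_closedBall (0 : E n) 1).exists_bound_of_continuousOn
    hm.continuousOn
  have hC0 : 0 ≤ C := (norm_nonneg _).trans (hC 0 (by simp))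
  refine ⟨C, hC0, fun x => ?_⟩
  by_cases hx : x = 0
  · subst hx
    have h2 := hh 0 0 le_rfl
    rw [zero_smul, zero_pow hj.ne', zero_mul] at h2
    rw [h2]
    simp [zero_pow hj.ne']
  · have hx' : 0 < ‖x‖ := norm_pos_iff.2 hx
    have h1 : x = ‖x‖ • (‖x‖⁻¹ • x) := by
      rw [smul_smul, mul_inv_cancel₀ hx'.ne', one_smul]
    have h2 : ‖x‖⁻¹ • x ∈ Metric.closedBall (0 : E n) 1 := by
      rw [mem_closedBall_zero_iff, norm_smul, norm_inv, norm_norm, inv_mul_cancel₀ hx'.ne']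
    have h3 := hC _ h2
    have h4 := hh ‖x‖ (‖x‖⁻¹ • x) hx'.le
    rw [← h1] at h4
    rw [h4, abs_mul, abs_of_pos (by positivity)]
    calc ‖x‖ ^ j * |h (‖x‖⁻¹ • x)| ≤ ‖x‖ ^ j * C :=
          mul_le_mul_of_nonneg_left h3 (by positivity)
      _ = _ := by ring

/-- Cauchy-Schwarz with weight `|g|²` for functions of degree 1 and 3 -/
theorem cs13 {f h : E n → ℝ} (hf : PL f) (hh : PL h)
    (hfh : ∀ (t : ℝ) (x : E n), 0 ≤ t → f (t • x) = t * f x)
    (hhh : ∀ (t : ℝ) (x : E n), 0 ≤ t → h (t • x) = t ^ 3 * h x) :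
    (n + 4) * (∫ g, f g * h g ∂(gam n)) ^ 2 ≤
      ((n + 2) * ∫ g, f g ^ 2 ∂(gam n)) * ∫ g, h g ^ 2 ∂(gam n) := by
  obtain ⟨C, hC0, hC⟩ := hom_bd (j := 3) (by norm_num) hh.continuous hhh
  have hk_m : Measurable fun g : E n => h g / ‖g‖ :=
    hh.continuous.measurable.div continuous_norm.measurable
  have hk_b : ∀ g : E n, |h g / ‖g‖| ≤ C * ‖g‖ ^ 2 := by
    intro g
    by_cases hg : g = 0
    · subst hg; simp
    · have hg' : 0 < ‖g‖ := norm_pos_iff.2 hg
      rw [abs_div, abs_of_pos hg', div_le_iff₀ hg']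
      refine (hC g).trans (le_of_eq ?_)
      ring
  have hk_b2 : ∀ g : E n, |(h g / ‖g‖) ^ 2| ≤ C ^ 2 * ‖g‖ ^ 4 := by
    intro g
    rw [abs_pow]
    calc |h g / ‖g‖| ^ 2 ≤ (C * ‖g‖ ^ 2) ^ 2 := pow_le_pow_left₀ (abs_nonneg _) (hk_b g) 2
      _ = _ := by ring
  have hk_h : ∀ (t : ℝ) (x : E n), 0 < t → (h (t • x) / ‖t • x‖) ^ 2 =
      t ^ 4 * (h x / ‖x‖) ^ 2 := by
    intro t x ht
    rw [hhh t x ht.le, norm_smul, Real.norm_eq_abs, abs_of_pos ht]
    by_cases hx : x = 0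
    · subst hx; simp
    · have hx' : 0 < ‖x‖ := norm_pos_iff.2 hx
      field_simp
  have ik : Integrable (fun g : E n => (h g / ‖g‖) ^ 2) (gam n) := by
    refine integ (C ^ 2) 4 (hk_m.pow_const 2).aestronglyMeasurable
      (Eventually.of_forall fun g => ?_)
    refine (hk_b2 g).trans (mul_le_mul_of_nonneg_left ?_ (sq_nonneg C))
    exact pow_le_pow_left₀ (norm_nonneg g) (by linarith) 4
  have e1 : ∫ g, h g ^ 2 ∂(gam n) = (n + 4) * ∫ g, (h g / ‖g‖) ^ 2 ∂(gam n) := by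
    have h1 := hom_int (n := n) (h := fun g => (h g / ‖g‖) ^ 2) (C := C ^ 2) (j := 4)
      (hk_m.pow_const 2) hk_b2 hk_h
    norm_num at h1
    rw [← h1]
    refine integral_congr_ae (Eventually.of_forall fun g => ?_)
    simp only
    by_cases hg : g = 0
    · subst hg
      have h2 := hhh 0 0 le_rfl
      rw [zero_smul, zero_pow (by norm_num), zero_mul] at h2
      rw [h2]; simp
    · have hg' : 0 < ‖g‖ := norm_pos_iff.2 hg
      field_simp
  have e2 : (n + 2) * ∫ g, f g ^ 2 ∂(gam n) = ∫ g, (f g * ‖g‖) ^ 2 ∂(gam n) := by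
    have h1 := hom_int' (n := n) (h := fun g => f g ^ 2) (j := 2)
      (hf.pow 2).continuous (fun t x ht => by simp only [hfh t x ht]; ring)
    norm_num at h1
    rw [← h1]
    refine integral_congr_ae (Eventually.of_forall fun g => ?_)
    simp only
    ring
  have e3 : ∀ g : E n, (f g * ‖g‖) * (h g / ‖g‖) = f g * h g := by
    intro g
    by_cases hg : g = 0
    · subst hg
      have h2 := hhh 0 0 le_rfl
      rw [zero_smul, zero_pow (by norm_num), zero_mul] at h2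
      rw [h2]; simp
    · have hg' : 0 < ‖g‖ := norm_pos_iff.2 hg
      field_simp
  have i2 : Integrable (fun g : E n => (f g * ‖g‖) ^ 2) (gam n) := by
    refine ((hf.pow 2).mul PL.norm_sq).integrable.congr (Eventually.of_forall fun g => ?_)
    simp only
    ring
  have h5 := cauchy (μ := gam n) (f := fun g => f g * ‖g‖) (g := fun g => h g / ‖g‖) i2 ik
    (by simp only [e3]; exact (hf.mul hh).integrable)
  simp only [e3] at h5
  rw [e1, e2]
  have h6 : (0 : ℝ) ≤ (n : ℝ) + 4 := by positivity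
  nlinarith

/-- the bound for the Hilbert-Schmidt norm -/
theorem hs_le {u : E n → ℝ} (hu : Good 1 u) {p : E n} (h0 : tau u p = 0) (hn : 0 < n) :
    (n + 4) * hs (Sop u p) ≤ 6 * n * ‖eta p‖ ^ 2 * k2 u p := by
  have hn' : (0 : ℝ) < n := by exact_mod_cast hn
  set A := Sop u p with hAd
  have hA : Sy A := Sop_Sy hu p
  have ht : tr A = 0 := Sop_tr hu h0
  set a : E n := (2 / ((n : ℝ) + 2)) • A (eta p) with ha
  have h1 := cs13 (kap_PL hu p) (hh_PL A (eta p) a) (fun t x ht => kap_hom hu p t x ht)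
    (hh_hom A (eta p) a)
  rw [kap_hh hu h0, hh_sq_int hA ht] at h1
  have h2 : (inner ℝ (A (eta p)) a : ℝ) = 2 / ((n : ℝ) + 2) * ‖A (eta p)‖ ^ 2 := by
    rw [ha, real_inner_smul_right, inner_pp]
  have h3 : ‖a‖ ^ 2 = (2 / ((n : ℝ) + 2)) ^ 2 * ‖A (eta p)‖ ^ 2 := by
    rw [ha, norm_smul, mul_pow, Real.norm_eq_abs, sq_abs]
  rw [h2, h3] at h1
  have h4 := norm_sq_le_hs hA ht hn (eta p)
  set X := ‖A (eta p)‖ ^ 2 with hX
  set c2 := ‖eta p‖ ^ 2 with hc2
  have h5 : 2 * c2 * hs A + 8 * X - 2 * ((n + 4) * (2 * (2 / ((n : ℝ) + 2) * X))) +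
      (n + 4) * ((n + 2) * ((2 / ((n : ℝ) + 2)) ^ 2 * X)) ≤ 6 * n / (n + 2) * (c2 * hs A) := by
    have e : 2 * c2 * hs A + 8 * X - 2 * ((n + 4) * (2 * (2 / ((n : ℝ) + 2) * X))) +
      (n + 4) * ((n + 2) * ((2 / ((n : ℝ) + 2)) ^ 2 * X)) =
      2 * c2 * hs A + 4 * n / (n + 2) * X := by
      field_simp
      ring
    rw [e]
    have h6 : 4 * n / (n + 2) * X ≤ 4 * n / (n + 2) * (((n : ℝ) - 1) / n * (c2 * hs A)) :=
      mul_le_mul_of_nonneg_left h4 (by positivity)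
    refine (add_le_add_right h6 _).trans (le_of_eq ?_)
    field_simp
    ring
  have hk := k2_nonneg u p
  have h7 : (n + 4) * hs A ^ 2 ≤ ((n + 2) * k2 u p) * (6 * n / (n + 2) * (c2 * hs A)) :=
    h1.trans (mul_le_mul_of_nonneg_left h5 (by positivity))
  have h8 : ((n + 2) * k2 u p) * (6 * n / (n + 2) * (c2 * hs A)) =
      (6 * n * c2 * k2 u p) * hs A := by
    field_simp
  rw [h8] at h7
  have hh0 := hs_nonneg A
  rcases hh0.eq_or_lt with h9 | h9
  · rw [← h9, mul_zero]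
    positivity
  · by_contra hcon
    push Not at hcon
    have := mul_lt_mul_of_pos_right hcon h9
    nlinarith

end Pool.Agent.K7.H34.FV
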