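import Pool.Agent.K7.H34.FV.PL

/-!
# Gaussian integration by parts, homogeneous functions
-/

set_option autoImplicit false

open MeasureTheory Filter Topology

namespace Pool.Agent.K7.H34.FV

open Pool.Agent.W716.FV (E gam gd)
open Pool.Agent.W762.FV (cc cc_pos gd_eq gd_nonneg gd_cont gd_shift gd_deriv)

variable {n : ℕ}

theorem wd (f : E n → ℝ) : ∫ x, f x ∂(gam n) = ∫ x, gd n x * f x :=
  Pool.Agent.W933.FVGM.int_gam f

/-- polynomials times a Gaussian -/
theorem int_pw_gauss (k : ℕ) {b : ℝ} (hb : 0 < b) :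
    Integrable (fun x : E n => (1 + ‖x‖) ^ k * Real.exp (-b * ‖x‖ ^ 2)) := by
  obtain ⟨K, hK0, hK⟩ : ∃ K : ℝ, 0 ≤ K ∧ ∀ t : ℝ, 0 ≤ t →
      (1 + t) ^ k * Real.exp (-b * t ^ 2) ≤ K * Real.exp (-(b / 2) * t ^ 2) := by
    set c : ℝ := b / 2 with hc
    have hc0 : 0 < c := by positivity
    refine ⟨(1 + 1 / c) ^ k * k.factorial * Real.exp 1 ^ 1 * 2 ^ k + (1 + 1 / c) ^ k * 2 ^ k *
      k.factorial * Real.exp (1 + 1), by positivity, fun t ht => ?_⟩
    -- (1+t) ≤ 2 (1 + 1/c) (1 + c t^2)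
    have h1 : 1 + t ≤ 2 * (1 + 1 / c) * (1 + c * t ^ 2) := by
      have h2 : 2 * (1 + 1 / c) * (1 + c * t ^ 2) = 2 + 2 / c + 2 * c * t ^ 2 + 2 * t ^ 2 := by
        field_simp
        ring
      rw [h2]
      have : 0 < 2 / c := by positivity
      nlinarith [mul_nonneg hc0.le (sq_nonneg t), sq_nonneg (t - 1)]
    have h3 : (1 + c * t ^ 2) ^ k ≤ k.factorial * Real.exp (1 + c * t ^ 2) := by
      have h4 := Real.pow_div_factorial_le_exp (1 + c * t ^ 2) (by positivity) k
      rw [div_le_iff₀ (by positivity)] at h4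
      linarith [mul_comm (k.factorial : ℝ) (Real.exp (1 + c * t ^ 2))]
    have h5 : (1 + t) ^ k ≤ (2 * (1 + 1 / c)) ^ k * (k.factorial * Real.exp (1 + c * t ^ 2)) := by
      calc (1 + t) ^ k ≤ (2 * (1 + 1 / c) * (1 + c * t ^ 2)) ^ k :=
            pow_le_pow_left₀ (by positivity) h1 k
        _ = (2 * (1 + 1 / c)) ^ k * (1 + c * t ^ 2) ^ k := mul_pow _ _ _
        _ ≤ _ := mul_le_mul_of_nonneg_left h3 (by positivity)
    have e : Real.exp (1 + c * t ^ 2) * Real.exp (-b * t ^ 2) =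
        Real.exp 1 * Real.exp (-c * t ^ 2) := by
      rw [← Real.exp_add, ← Real.exp_add]
      congr 1
      rw [hc]; ring
    calc (1 + t) ^ k * Real.exp (-b * t ^ 2) ≤
        (2 * (1 + 1 / c)) ^ k * (k.factorial * Real.exp (1 + c * t ^ 2)) *
          Real.exp (-b * t ^ 2) := mul_le_mul_of_nonneg_right h5 (Real.exp_pos _).le
      _ = (2 * (1 + 1 / c)) ^ k * k.factorial *
          (Real.exp (1 + c * t ^ 2) * Real.exp (-b * t ^ 2)) := by ring
      _ = (1 + 1 / c) ^ k * k.factorial * Real.exp 1 ^ 1 * 2 ^ k * Real.exp (-c * t ^ 2) := by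
          rw [e, mul_pow]; ring
      _ ≤ _ := by
          refine mul_le_mul_of_nonneg_right ?_ (Real.exp_pos _).le
          have : 0 ≤ (1 + 1 / c) ^ k * 2 ^ k * k.factorial * Real.exp (1 + 1) := by positivity
          linarith
  refine Integrable.mono' ((Pool.Agent.W933.FVGM.integrable_gauss n
    (by positivity : 0 < b / 2)).const_mul K) (by fun_prop) (Eventually.of_forall fun x => ?_)
  rw [Real.norm_of_nonneg (by positivity)]
  exact hK ‖x‖ (norm_nonneg x)

/-- Gaussian integration by parts -/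
theorem PL.ibp {f : E n → ℝ} (hf : PL f) (v : E n) :
    ∫ x, f x * inner ℝ x v ∂(gam n) = ∫ x, fderiv ℝ f x v ∂(gam n) := by
  have hfc := hf.continuous
  have hae := hf.ae_diff
  have hif := hf.integrable
  obtain ⟨C, k, hC, h0, h1⟩ := hf
  set K : ℝ := cc n * Real.exp (‖v‖ ^ 2 / 2) with hK
  have hK0 : 0 ≤ K := mul_nonneg (cc_pos n).le (Real.exp_pos _).le
  have hgi : ∀ m : ℕ, Integrable (fun x : E n => (1 + ‖x‖) ^ m * gd n x) := by
    intro m
    have h := (int_pow (n := n) m)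
    rw [Pool.Agent.W933.FVGM.integrable_gam] at h
    refine h.congr (Eventually.of_forall fun x => ?_)
    simp only
    ring
  -- right side
  have hder := (hasDerivAt_integral_of_dominated_loc_of_deriv_le (μ := (volume : Measure (E n)))
    (F := fun (t : ℝ) (x : E n) => f x * gd n (x - t • v))
    (F' := fun (t : ℝ) (x : E n) => f x * ((inner ℝ x v - t * ‖v‖ ^ 2) * gd n (x - t • v)))
    (x₀ := (0 : ℝ)) (s := Metric.closedBall 0 1)
    (bound := fun x => C * K * (‖v‖ + ‖v‖ ^ 2) * ((1 + ‖x‖) ^ (k + 1) *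
      Real.exp (-(1 / 4) * ‖x‖ ^ 2)))
    (Metric.closedBall_mem_nhds _ one_pos) (Filter.Eventually.of_forall fun t =>
      (hfc.mul ((gd_cont n).comp (by fun_prop))).aestronglyMeasurable)
    (by
      simp only [zero_smul, sub_zero]
      rw [Pool.Agent.W933.FVGM.integrable_gam] at hif
      refine hif.congr (Eventually.of_forall fun x => ?_)
      simp only
      ring) (by
      refine (hfc.mul (Continuous.mul ?_ ((gd_cont n).comp (by fun_prop)))).aestronglyMeasurable
      fun_prop)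
    (Filter.Eventually.of_forall fun x t ht => by
      have ht' : |t| ≤ 1 := by
        rw [Metric.mem_closedBall, Real.dist_eq, sub_zero] at ht
        exact ht
      have h2 : |inner ℝ x v - t * ‖v‖ ^ 2| ≤ (‖v‖ + ‖v‖ ^ 2) * (1 + ‖x‖) := by
        calc |inner ℝ x v - t * ‖v‖ ^ 2| ≤ |inner ℝ x v| + |t * ‖v‖ ^ 2| := abs_sub _ _
          _ ≤ ‖x‖ * ‖v‖ + 1 * ‖v‖ ^ 2 := by
            refine add_le_add (abs_real_inner_le_norm x v) ?_
            rw [abs_mul, abs_of_nonneg (sq_nonneg ‖v‖)]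
            exact mul_le_mul_of_nonneg_right ht' (sq_nonneg _)
          _ ≤ _ := by
            nlinarith [norm_nonneg x, norm_nonneg v, mul_nonneg (norm_nonneg x) (sq_nonneg ‖v‖)]
      rw [Real.norm_eq_abs, abs_mul, abs_mul, abs_of_nonneg (gd_nonneg _ _)]
      calc |f x| * (|inner ℝ x v - t * ‖v‖ ^ 2| * gd n (x - t • v))
          ≤ (C * (1 + ‖x‖) ^ k) * (((‖v‖ + ‖v‖ ^ 2) * (1 + ‖x‖)) *
              (K * Real.exp (-‖x‖ ^ 2 / 4))) := by
            refine mul_le_mul (h0 x) (mul_le_mul h2 (gd_shift x v ht') (gd_nonneg _ _)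
              (by positivity)) (mul_nonneg (abs_nonneg _) (gd_nonneg _ _)) (by positivity)
        _ = _ := by
            rw [show -‖x‖ ^ 2 / 4 = -(1 / 4) * ‖x‖ ^ 2 by ring, pow_succ]
            ring)
    ((int_pw_gauss (k + 1) (by norm_num)).const_mul _)
    (Filter.Eventually.of_forall fun x t _ => (gd_deriv x v t).const_mul (f x))).2
  -- left side
  set ε : ℝ := 1 / (2 * (‖v‖ + 1)) with hε
  have hε0 : 0 < ε := by positivity
  have hεv : ε * ‖v‖ ≤ 1 / 2 := by
    rw [hε, div_mul_eq_mul_div, div_le_iff₀ (by positivity)]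
    nlinarith [norm_nonneg v]
  have hm' : AEStronglyMeasurable (fun x : E n => fderiv ℝ f x v * gd n x) volume :=
    ((measurable_fderiv_apply_const ℝ f v).mul (gd_cont n).measurable).aestronglyMeasurable
  have hder2 := (hasDerivAt_integral_of_dominated_loc_of_lip (μ := (volume : Measure (E n)))
    (F := fun (t : ℝ) (x : E n) => f (x + t • v) * gd n x)
    (F' := fun (x : E n) => fderiv ℝ f x v * gd n x)
    (x₀ := (0 : ℝ)) (s := Metric.ball 0 ε)
    (bound := fun x => C * 2 ^ k * ‖v‖ * ((1 + ‖x‖) ^ k * gd n x))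
    (Metric.ball_mem_nhds _ hε0) (Filter.Eventually.of_forall fun t =>
      ((hfc.comp (by fun_prop)).mul (gd_cont n)).aestronglyMeasurable)
    (by
      simp only [zero_smul, add_zero]
      rw [Pool.Agent.W933.FVGM.integrable_gam] at hif
      refine hif.congr (Eventually.of_forall fun x => ?_)
      simp only
      ring) hm'
    (Filter.Eventually.of_forall fun x => by
      refine LipschitzOnWith.of_dist_le_mul fun t ht s hs => ?_
      rw [Metric.mem_ball, Real.dist_eq, sub_zero] at ht hs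
      have hg := gd_nonneg n x
      rw [Real.dist_eq, ← sub_mul, abs_mul, abs_of_nonneg hg]
      have hts : |t - s| ≤ 2 * ε := by
        have := abs_sub t s
        linarith
      have hy : ‖(t - s) • v‖ ≤ 1 := by
        rw [norm_smul, Real.norm_eq_abs]
        calc |t - s| * ‖v‖ ≤ 2 * ε * ‖v‖ := mul_le_mul_of_nonneg_right hts (norm_nonneg v)
          _ ≤ 1 := by linarith
      have h2 := h1 (x + s • v) ((t - s) • v) hy
      have e : x + s • v + (t - s) • v = x + t • v := by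
        rw [sub_smul]; abel
      rw [e, norm_smul, Real.norm_eq_abs] at h2
      have h3 : (1 + ‖x + s • v‖) ^ k ≤ 2 ^ k * (1 + ‖x‖) ^ k := by
        rw [← mul_pow]
        refine pow_le_pow_left₀ (by positivity) ?_ k
        have h4 : ‖s • v‖ ≤ 1 := by
          rw [norm_smul, Real.norm_eq_abs]
          have := mul_le_mul_of_nonneg_right hs.le (norm_nonneg v)
          linarith
        have h5 := norm_add_le x (s • v)
        linarith [norm_nonneg x]
      have h6 : |f (x + t • v) - f (x + s • v)| ≤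
          C * (2 ^ k * (1 + ‖x‖) ^ k) * (|t - s| * ‖v‖) :=
        h2.trans (mul_le_mul_of_nonneg_right (mul_le_mul_of_nonneg_left h3 hC) (by positivity))
      have hb : 0 ≤ C * 2 ^ k * ‖v‖ * ((1 + ‖x‖) ^ k * gd n x) := by positivity
      rw [Real.coe_nnabs, abs_of_nonneg hb]
      calc |f (x + t • v) - f (x + s • v)| * gd n x ≤
          C * (2 ^ k * (1 + ‖x‖) ^ k) * (|t - s| * ‖v‖) * gd n x :=
            mul_le_mul_of_nonneg_right h6 hg
        _ = _ := by rw [Real.dist_eq]; ring)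
    ((hgi k).const_mul _)
    (by
      filter_upwards [hae] with x hx
      have h2 : HasDerivAt (fun t : ℝ => x + t • v) v 0 := by
        have := ((hasDerivAt_id (0 : ℝ)).smul_const v).const_add x
        simpa using this
      have h3 : HasFDerivAt f (fderiv ℝ f x) (x + (0 : ℝ) • v) := by
        rw [zero_smul, add_zero]
        exact hx.hasFDerivAt
      exact (h3.comp_hasDerivAt (0 : ℝ) h2).mul_const _)).2
  have heq : (fun t : ℝ => ∫ x : E n, f (x + t • v) * gd n x) =
      fun t : ℝ => ∫ x : E n, f x * gd n (x - t • v) := by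
    funext t
    rw [← integral_add_right_eq_self (fun x : E n => f x * gd n (x - t • v)) (t • v)]
    refine integral_congr_ae (Eventually.of_forall fun x => ?_)
    simp only [add_sub_cancel_right]
  rw [heq] at hder2
  have huniq := hder.unique hder2
  rw [wd, wd]
  calc ∫ x : E n, gd n x * (f x * inner ℝ x v) =
      ∫ x : E n, f x * ((inner ℝ x v - (0 : ℝ) * ‖v‖ ^ 2) * gd n (x - (0 : ℝ) • v)) := by
        refine integral_congr_ae (Eventually.of_forall fun x => ?_)
        simp only [zero_mul, sub_zero, zero_smul]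
        ring
    _ = ∫ x : E n, fderiv ℝ f x v * gd n x := huniq
    _ = _ := by
        refine integral_congr_ae (Eventually.of_forall fun x => ?_)
        simp only
        ring

/-- product rule under the integral -/
theorem PL.ibp_mul {f g : E n → ℝ} (hf : PL f) (hg : PL g) (v : E n) :
    ∫ x, f x * g x * inner ℝ x v ∂(gam n) =
      (∫ x, fderiv ℝ f x v * g x ∂(gam n)) + ∫ x, f x * fderiv ℝ g x v ∂(gam n) := by
  rw [(hf.mul hg).ibp v]
  obtain ⟨C, k, hC, h0, h1⟩ := hf
  obtain ⟨D, l, hD, g0, g1⟩ := hg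
  have hf : PL f := ⟨C, k, hC, h0, h1⟩
  have hg : PL g := ⟨D, l, hD, g0, g1⟩
  have i1 : Integrable (fun x => fderiv ℝ f x v * g x) (gam n) := by
    refine integ (C * ‖v‖ * D) (k + l) ((measurable_fderiv_apply_const ℝ f v).mul
      hg.continuous.measurable).aestronglyMeasurable (Eventually.of_forall fun x => ?_)
    rw [norm_mul]
    calc ‖fderiv ℝ f x v‖ * ‖g x‖ ≤ (C * (1 + ‖x‖) ^ k * ‖v‖) * (D * (1 + ‖x‖) ^ l) := by
          refine mul_le_mul ?_ (g0 x) (norm_nonneg _) (by positivity)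
          exact (ContinuousLinearMap.le_opNorm _ _).trans
            (mul_le_mul_of_nonneg_right (fderiv_bd hC h1 x) (norm_nonneg v))
      _ = _ := by rw [pow_add]; ring
  have i2 : Integrable (fun x => f x * fderiv ℝ g x v) (gam n) := by
    refine integ (D * ‖v‖ * C) (l + k) (hf.continuous.measurable.mul
      (measurable_fderiv_apply_const ℝ g v)).aestronglyMeasurable (Eventually.of_forall fun x => ?_)
    rw [norm_mul]
    calc ‖f x‖ * ‖fderiv ℝ g x v‖ ≤ (C * (1 + ‖x‖) ^ k) * (D * (1 + ‖x‖) ^ l * ‖v‖) := by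
          refine mul_le_mul (h0 x) ?_ (norm_nonneg _) (by positivity)
          exact (ContinuousLinearMap.le_opNorm _ _).trans
            (mul_le_mul_of_nonneg_right (fderiv_bd hD g1 x) (norm_nonneg v))
      _ = _ := by rw [pow_add]; ring
  rw [← integral_add i1 i2]
  refine integral_congr_ae ?_
  filter_upwards [hf.ae_diff', hg.ae_diff'] with x hx1 hx2
  have h : HasFDerivAt (fun x => f x * g x) (f x • fderiv ℝ g x + g x • fderiv ℝ f x) x :=
    hx1.hasFDerivAt.mul hx2.hasFDerivAt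
  rw [h.fderiv]
  simp only [_root_.add_apply, _root_.smul_apply, smul_eq_mul]
  ring

theorem int_fderiv_mul {f g : E n → ℝ} (hf : PL f) (hg : PL g) (v : E n) :
    Integrable (fun x => fderiv ℝ f x v * g x) (gam n) := by
  obtain ⟨C, k, hC, h0, h1⟩ := hf
  obtain ⟨D, l, hD, g0, g1⟩ := hg
  have hg : PL g := ⟨D, l, hD, g0, g1⟩
  refine integ (C * ‖v‖ * D) (k + l) ((measurable_fderiv_apply_const ℝ f v).mul
      hg.continuous.measurable).aestronglyMeasurable (Eventually.of_forall fun x => ?_)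
  rw [norm_mul]
  calc ‖fderiv ℝ f x v‖ * ‖g x‖ ≤ (C * (1 + ‖x‖) ^ k * ‖v‖) * (D * (1 + ‖x‖) ^ l) := by
        refine mul_le_mul ?_ (g0 x) (norm_nonneg _) (by positivity)
        exact (ContinuousLinearMap.le_opNorm _ _).trans
          (mul_le_mul_of_nonneg_right (fderiv_bd hC h1 x) (norm_nonneg v))
    _ = _ := by rw [pow_add]; ring

/-- homogeneous functions -/
theorem hom_int {h : E n → ℝ} {C : ℝ} {j : ℕ} (hm : Measurable h)
    (hb : ∀ x, |h x| ≤ C * ‖x‖ ^ j) (hh : ∀ (t : ℝ) (x : E n), 0 < t → h (t • x) = t ^ j * h x) :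
    ∫ x, ‖x‖ ^ 2 * h x ∂(gam n) = (n + j) * ∫ x, h x ∂(gam n) := by
  -- f(R) = ∫ h exp(-R²|x|²/2)
  have hC' : ∀ x : E n, |h x| ≤ |C| * (1 + ‖x‖) ^ j := fun x => by
    refine (hb x).trans ?_
    calc C * ‖x‖ ^ j ≤ |C| * ‖x‖ ^ j := mul_le_mul_of_nonneg_right (le_abs_self C) (by positivity)
      _ ≤ _ := mul_le_mul_of_nonneg_left (pow_le_pow_left₀ (norm_nonneg x) (by linarith) j)
        (abs_nonneg C)
  have hder := (hasDerivAt_integral_of_dominated_loc_of_deriv_le (μ := (volume : Measure (E n)))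
    (F := fun (R : ℝ) (x : E n) => h x * Real.exp (-(R ^ 2) * ‖x‖ ^ 2 / 2))
    (F' := fun (R : ℝ) (x : E n) => h x * (-(R * ‖x‖ ^ 2) * Real.exp (-(R ^ 2) * ‖x‖ ^ 2 / 2)))
    (x₀ := (1 : ℝ)) (s := Metric.ball 1 (1 / 4))
    (bound := fun x => |C| * 2 * ((1 + ‖x‖) ^ (j + 2) * Real.exp (-(1 / 4) * ‖x‖ ^ 2)))
    (Metric.ball_mem_nhds _ (by norm_num)) (Filter.Eventually.of_forall fun t =>
      (hm.mul (by fun_prop)).aestronglyMeasurable)
    (by
      refine Integrable.mono' ((int_pw_gauss (n := n) j (by norm_num : (0:ℝ) < 1 / 2)).const_mul |C|)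
        (hm.mul (by fun_prop)).aestronglyMeasurable (Eventually.of_forall fun x => ?_)
      rw [Real.norm_eq_abs, abs_mul, abs_of_pos (Real.exp_pos _), ← mul_assoc]
      refine (mul_le_mul_of_nonneg_right (hC' x) (Real.exp_pos _).le).trans (le_of_eq ?_)
      congr 2
      ring)
    (hm.mul (by fun_prop)).aestronglyMeasurable
    (Filter.Eventually.of_forall fun x t ht => by
      rw [Metric.mem_ball, Real.dist_eq, abs_lt] at ht
      have ht1 : 3 / 4 < t := by linarith
      have ht2 : t < 5 / 4 := by linarith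
      rw [Real.norm_eq_abs, abs_mul, abs_mul, abs_of_pos (Real.exp_pos _), abs_neg,
        abs_of_nonneg (by positivity : 0 ≤ t * ‖x‖ ^ 2)]
      have h1 : Real.exp (-(t ^ 2) * ‖x‖ ^ 2 / 2) ≤ Real.exp (-(1 / 4) * ‖x‖ ^ 2) := by
        apply Real.exp_le_exp.2
        nlinarith [sq_nonneg ‖x‖, mul_nonneg (sub_nonneg.2 ht1.le) (sq_nonneg ‖x‖)]
      have h2 : t * ‖x‖ ^ 2 ≤ 2 * (1 + ‖x‖) ^ 2 := by
        nlinarith [norm_nonneg x, sq_nonneg ‖x‖]
      calc |h x| * (t * ‖x‖ ^ 2 * Real.exp (-(t ^ 2) * ‖x‖ ^ 2 / 2)) ≤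
          (|C| * (1 + ‖x‖) ^ j) * (2 * (1 + ‖x‖) ^ 2 * Real.exp (-(1 / 4) * ‖x‖ ^ 2)) := by
            refine mul_le_mul (hC' x) (mul_le_mul h2 h1 (Real.exp_pos _).le (by positivity))
              (by positivity) (by positivity)
        _ = _ := by rw [pow_add]; ring)
    ((int_pw_gauss (j + 2) (by norm_num)).const_mul _)
    (Filter.Eventually.of_forall fun x t _ => by
      have h1 : HasDerivAt (fun R : ℝ => -(R ^ 2) * ‖x‖ ^ 2 / 2) (-(t * ‖x‖ ^ 2)) t := by
        have := ((((hasDerivAt_pow 2 t).neg).mul_const (‖x‖ ^ 2)).div_const 2)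
        refine this.congr_deriv ?_
        norm_num
        ring
      refine (h1.exp.const_mul (h x)).congr_deriv ?_
      ring)).2
  have hscale : ∀ᶠ R : ℝ in 𝓝 1, (∫ x : E n, h x * Real.exp (-(R ^ 2) * ‖x‖ ^ 2 / 2)) =
      (R ^ (n + j))⁻¹ * ∫ x : E n, h x * Real.exp (-‖x‖ ^ 2 / 2) := by
    filter_upwards [Ioi_mem_nhds (show (0 : ℝ) < 1 by norm_num)] with R hR
    have hR : 0 < R := hR
    have h1 := Measure.integral_comp_smul (volume : Measure (E n))
      (fun x : E n => h x * Real.exp (-‖x‖ ^ 2 / 2)) R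
    have hfin : Module.finrank ℝ (E n) = n := by simp
    rw [hfin, abs_of_pos (by positivity)] at h1
    have h2 : (∫ x : E n, h (R • x) * Real.exp (-‖R • x‖ ^ 2 / 2)) =
        R ^ j * ∫ x : E n, h x * Real.exp (-(R ^ 2) * ‖x‖ ^ 2 / 2) := by
      rw [← integral_const_mul]
      refine integral_congr_ae (Eventually.of_forall fun x => ?_)
      simp only
      rw [hh R x hR, norm_smul, Real.norm_eq_abs, abs_of_pos hR, mul_assoc]
      congr 3
      ring
    rw [h2, smul_eq_mul] at h1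
    rw [pow_add, mul_inv]
    have : (∫ x : E n, h x * Real.exp (-(R ^ 2) * ‖x‖ ^ 2 / 2)) =
        (R ^ j)⁻¹ * (R ^ j * ∫ x : E n, h x * Real.exp (-(R ^ 2) * ‖x‖ ^ 2 / 2)) := by
      field_simp
    rw [this, h1]
    ring
  have hder3 : HasDerivAt (fun R : ℝ => (R ^ (n + j))⁻¹ *
      ∫ x : E n, h x * Real.exp (-‖x‖ ^ 2 / 2))
      (-((n + j : ℕ) : ℝ) * ∫ x : E n, h x * Real.exp (-‖x‖ ^ 2 / 2)) 1 := by
    have h1 := ((hasDerivAt_pow (n + j) (1 : ℝ)).inv (by simp)).mul_const
      (∫ x : E n, h x * Real.exp (-‖x‖ ^ 2 / 2))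
    refine h1.congr_deriv ?_
    simp
  have hder4 := hder.congr_of_eventuallyEq (EventuallyEq.symm hscale)
  have huniq := hder3.unique hder4
  rw [wd, wd]
  have e1 : ∫ x : E n, gd n x * (‖x‖ ^ 2 * h x) =
      -(cc n * ∫ x : E n, h x * (-((1:ℝ) * ‖x‖ ^ 2) * Real.exp (-((1:ℝ) ^ 2) * ‖x‖ ^ 2 / 2))) := by
    rw [← integral_const_mul, ← integral_neg]
    refine integral_congr_ae (Eventually.of_forall fun x => ?_)
    simp only [gd_eq]
    rw [show -((1:ℝ) ^ 2) * ‖x‖ ^ 2 / 2 = -‖x‖ ^ 2 / 2 by ring]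
    ring
  have e2 : ∫ x : E n, gd n x * h x = cc n * ∫ x : E n, h x * Real.exp (-‖x‖ ^ 2 / 2) := by
    rw [← integral_const_mul]
    refine integral_congr_ae (Eventually.of_forall fun x => ?_)
    simp only [gd_eq]
    ring
  rw [e1, e2, ← huniq]
  push_cast
  ring

end Pool.Agent.K7.H34.FV
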