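import Pool.Agent.K7.H34.FV.Three
import Pool.Agent.K7.H34.FV.CapFin

/-!
# The Jacobian in dimension three, for all radii
-/

set_option autoImplicit false

open MeasureTheory Metric Set Filter Topology InnerProductGeometry

namespace Pool.Agent.K7.H34.FV

open Pool.Agent.H241R3.FV (Sph RChart om Fill norm_sph)
open Pool.Agent.W716.FV (E gam gd Good)

/-- the polynomial -/
theorem poly3 {r : ℝ} (h1 : 47 / 100 ≤ r) (h2 : r ≤ 1) :
    0 ≤ 60563412 + 74495484 * r - 190406016 * r ^ 2 - 112795629 * r ^ 3 + 113615729 * r ^ 4 +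
      66643409 * r ^ 5 + 5068855 * r ^ 6 + 311836 * r ^ 7 := by
  have a : 0 ≤ r - 47 / 100 := by linarith
  have b : 0 ≤ 1 - r := by linarith
  have k0 := pow_nonneg b 7
  have k1 := mul_nonneg a (pow_nonneg b 6)
  have k2 := mul_nonneg (pow_nonneg a 2) (pow_nonneg b 5)
  have k3 := mul_nonneg (pow_nonneg a 3) (pow_nonneg b 4)
  have k4 := mul_nonneg (pow_nonneg a 4) (pow_nonneg b 3)
  have k5 := mul_nonneg (pow_nonneg a 5) (pow_nonneg b 2)
  have k6 := mul_nonneg (pow_nonneg a 6) b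
  have k7 := pow_nonneg a 7
  nlinarith [k0, k1, k2, k3, k4, k5, k6, k7]

/-- the bracket `β² - σ β + σ²` -/
noncomputable def brk (r : ℝ) : ℝ :=
  (73 + 9 * r) ^ 2 / 3136 - (17 + r) * (73 + 9 * r) / 1120 + (17 + r) ^ 2 / 400

theorem brk_nonneg {r : ℝ} (h1 : 0 ≤ r) : 0 ≤ brk r := by
  unfold brk
  nlinarith [mul_nonneg h1 h1]

theorem brk_le {r : ℝ} (h1 : 0 ≤ r) (h2 : r ≤ 1) : brk r ≤ 17 / 10 := by
  unfold brk
  nlinarith [mul_nonneg h1 h1]

theorem e1 {r : ℝ} (h1 : 47 / 100 ≤ r) (h2 : r ≤ 1) :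
    (1 - r ^ 2 / 3) * (1 - 7 / 5 * (7 / 27 * (1 - r) / (1 + r) * brk r)) ≤
      (20 + 3 * r - r ^ 2) / (20 * (1 + r)) * ((56 + 129 * r + 9 * r ^ 2) / (56 * (1 + r))) *
        ((280 + 153 * r - 31 * r ^ 2) / (280 * (1 + r))) := by
  have hp := poly3 h1 h2
  have hD : 0 < 1 + r := by linarith
  have key : (20 + 3 * r - r ^ 2) / (20 * (1 + r)) *
      ((56 + 129 * r + 9 * r ^ 2) / (56 * (1 + r))) *
        ((280 + 153 * r - 31 * r ^ 2) / (280 * (1 + r))) -
      (1 - r ^ 2 / 3) * (1 - 7 / 5 * (7 / 27 * (1 - r) / (1 + r) * brk r)) =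
      (60563412 + 74495484 * r - 190406016 * r ^ 2 - 112795629 * r ^ 3 + 113615729 * r ^ 4 +
        66643409 * r ^ 5 + 5068855 * r ^ 6 + 311836 * r ^ 7) /
        (405 * 20 * 56 * 280 * (1 + r) ^ 3) := by
    unfold brk
    field_simp
    ring
  have : 0 ≤ (60563412 + 74495484 * r - 190406016 * r ^ 2 - 112795629 * r ^ 3 +
      113615729 * r ^ 4 + 66643409 * r ^ 5 + 5068855 * r ^ 6 + 311836 * r ^ 7) /
        (405 * 20 * 56 * 280 * (1 + r) ^ 3) := div_nonneg hp (by positivity)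
  linarith

/-- the upper bound for the eigenvalues -/
noncomputable def s3 (r : ℝ) : ℝ := r * (17 + r) / (20 * (1 + r))

/-- the bound from below -/
noncomputable def b3 (r : ℝ) : ℝ := r * (73 + 9 * r) / (56 * (1 + r))

/-- the inequality for the Jacobian, outer part -/
theorem jac3_outer {r h K : ℝ} (h1 : 47 / 100 ≤ r) (h2 : r < 1) (hh : 0 ≤ h)
    (hhm : h ≤ 2 * (b3 r ^ 2 - s3 r * b3 r + s3 r ^ 2))
    (hK : 7 * (1 - r ^ 2) * h ≤ 18 * r ^ 2 * K) (hK3 : K / 3 ≤ 1) :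
    √(1 - K / 3) ^ 3 * (1 - r ^ 2 / 3) ≤ 1 - s3 r ^ 3 - (1 - s3 r) * h / 2 := by
  have hr0 : 0 < r := by linarith
  have hD : 0 < 1 + r := by linarith
  set g := 1 - r ^ 2 / 3 with hg
  have hg0 : 0 ≤ g := by rw [hg]; nlinarith
  set ε := 7 / 54 * (1 - r ^ 2) / r ^ 2 with hε
  have hε0 : 0 ≤ ε := by
    rw [hε]
    apply div_nonneg _ (sq_nonneg _)
    nlinarith
  set hm := 2 * (b3 r ^ 2 - s3 r * b3 r + s3 r ^ 2) with hhmdef
  have hεm : ε * hm = 7 / 27 * (1 - r) / (1 + r) * brk r := by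
    rw [hε, hhmdef]
    unfold b3 s3 brk
    field_simp
    ring
  have hεm5 : ε * hm ≤ 1 / 5 := by
    rw [hεm]
    have h3 := brk_le hr0.le h2.le
    have h4 := brk_nonneg hr0.le
    have h5 : 7 / 27 * (1 - r) / (1 + r) ≤ 1 / (5 * (17 / 10)) := by
      rw [div_le_div_iff₀ hD (by norm_num)]
      nlinarith
    calc 7 / 27 * (1 - r) / (1 + r) * brk r ≤ 1 / (5 * (17 / 10)) * (17 / 10) :=
          mul_le_mul h5 h3 h4 (by norm_num)
      _ = 1 / 5 := by norm_num
  -- the first factor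
  have hx : ε * h ≤ K / 3 := by
    rw [hε, div_mul_eq_mul_div, div_le_iff₀ (by positivity)]
    nlinarith
  have hεh : ε * h ≤ ε * hm := mul_le_mul_of_nonneg_left hhm hε0
  have hx0 : 0 ≤ ε * h := mul_nonneg hε0 hh
  have hX : 0 ≤ 1 - K / 3 := by linarith
  have hs : √(1 - K / 3) ^ 3 ≤ 1 - 7 / 5 * (ε * h) := by
    have h5 : √(1 - K / 3) ^ 2 = 1 - K / 3 := Real.sq_sqrt hX
    have h6 : √(1 - K / 3) ≤ 1 - K / 3 / 2 := by
      rw [Real.sqrt_le_left (by linarith)]
      nlinarith [sq_nonneg (K / 3)]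
    calc √(1 - K / 3) ^ 3 = √(1 - K / 3) ^ 2 * √(1 - K / 3) := by ring
      _ = (1 - K / 3) * √(1 - K / 3) := by rw [h5]
      _ ≤ (1 - K / 3) * (1 - K / 3 / 2) := mul_le_mul_of_nonneg_left h6 hX
      _ ≤ (1 - ε * h) * (1 - ε * h / 2) := by
          apply mul_le_mul (by linarith) (by linarith) (by linarith) (by linarith)
      _ ≤ _ := by nlinarith
  have h7 : √(1 - K / 3) ^ 3 * g ≤ (1 - 7 / 5 * (ε * h)) * g :=
    mul_le_mul_of_nonneg_right hs hg0
  refine h7.trans ?_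
  -- affine in `h`
  set s := s3 r with hsdef
  have hs0 : 0 ≤ s := by rw [hsdef]; unfold s3; positivity
  have hend0 : g ≤ 1 - s ^ 3 := by
    have h8 : s ≤ 9 / 20 * (2 * r / (1 + r)) := by
      rw [hsdef]
      unfold s3
      rw [mul_div_assoc', div_le_div_iff₀ (by positivity) (by positivity)]
      nlinarith
    have h9 : s ≤ 9 / 10 * r := by
      refine h8.trans ?_
      rw [mul_div_assoc', div_le_iff₀ hD]
      nlinarith
    have h9' : s ≤ 9 / 20 := by
      refine h8.trans ?_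
      rw [mul_div_assoc', div_le_iff₀ hD]
      nlinarith
    have h10 : s ^ 2 ≤ (9 / 10 * r) * (9 / 20) * 2 := by nlinarith
    have h11 : s ^ 3 ≤ r ^ 2 / 3 := by
      have : s ^ 2 ≤ (9 / 10 * r) ^ 2 := pow_le_pow_left₀ hs0 h9 2
      have h12 : s ^ 3 ≤ (9 / 10 * r) ^ 2 * (9 / 20) := by
        calc s ^ 3 = s ^ 2 * s := by ring
          _ ≤ (9 / 10 * r) ^ 2 * (9 / 20) := mul_le_mul this h9' hs0 (by positivity)
      -- `0.3645 r²` is too large: use `s ≤ 9 / 20 * (2 r / (1 + r))` again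
      have h13 : s ≤ 9 / 10 * r / (1 + r) := by
        refine h8.trans (le_of_eq ?_)
        field_simp
        norm_num
      have h14 : s * (1 + r) ≤ 9 / 10 * r := by rwa [le_div_iff₀ hD] at h13
      have h15 : s * (147 / 100) ≤ 9 / 10 * r := by nlinarith
      have h16 : s ≤ 62 / 100 * r := by linarith
      have h17 : s ^ 2 ≤ (62 / 100 * r) ^ 2 := pow_le_pow_left₀ hs0 h16 2
      calc s ^ 3 = s ^ 2 * s := by ring
        _ ≤ (62 / 100 * r) ^ 2 * (9 / 20) := mul_le_mul h17 h9' hs0 (by positivity)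
        _ ≤ _ := by nlinarith [sq_nonneg r]
    rw [hg]
    linarith
  have hendm : (1 - 7 / 5 * (ε * hm)) * g ≤ 1 - s ^ 3 - (1 - s) * hm / 2 := by
    have h8 := e1 h1 h2.le
    rw [hεm, mul_comm]
    refine h8.trans (le_of_eq ?_)
    rw [hhmdef, hsdef]
    unfold b3 s3
    field_simp
    ring
  rcases le_or_gt 0 (7 / 5 * ε * g - (1 - s) / 2) with h8 | h8
  · have := mul_nonneg h8 hh
    nlinarith
  · have : 0 ≤ (7 / 5 * ε * g - (1 - s) / 2) * (h - hm) :=
      mul_nonneg_of_nonpos_of_nonpos h8.le (by linarith)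
    nlinarith

/-- the determinant, in terms of the eigenvalues -/
theorem det3_aux {x y z s b h : ℝ} (h0 : x + y + z = 0) (hh : h = x ^ 2 + y ^ 2 + z ^ 2)
    (hx : x ≤ s) (hy : y ≤ s) (hz : z ≤ s) (hz0 : z ≤ 0) (hzb : -b ≤ z) (hsb : s ≤ b)
    : 1 - s ^ 3 - (1 - s) * h / 2 ≤ (1 - x) * (1 - y) * (1 - z) ∧
      h ≤ 2 * (b ^ 2 - s * b + s ^ 2) := by
  have hzz : z = -x - y := by linarith
  have k1 := mul_nonneg (mul_nonneg (sub_nonneg.2 hx) (sub_nonneg.2 hy)) (sub_nonneg.2 hz)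
  have k2 := mul_nonneg (sub_nonneg.2 hx) (sub_nonneg.2 hy)
  constructor
  · rw [hh]
    rw [hzz] at k1 ⊢
    nlinarith
  · have k3 : h ≤ 2 * (z ^ 2 + s * z + s ^ 2) := by
      rw [hh, hzz]
      nlinarith
    have k4 : z ^ 2 + s * z ≤ b ^ 2 - s * b := by
      have : 0 ≤ (b + z) * (b - z - s) := mul_nonneg (by linarith) (by linarith)
      nlinarith
    linarith

theorem det3 {A : E 3 →L[ℝ] E 3} (hA : Sy A) (h0 : tr A = 0) {s b : ℝ}
    (h : ∀ x : E 3, ‖x‖ = 1 → (inner ℝ (A x) x : ℝ) ≤ s)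
    (h' : ∀ x : E 3, ‖x‖ = 1 → -(inner ℝ (A x) x : ℝ) ≤ b) (hsb : s ≤ b) :
    1 - s ^ 3 - (1 - s) * hs A / 2 ≤ (ContinuousLinearMap.id ℝ (E 3) - A).det ∧
      hs A ≤ 2 * (b ^ 2 - s * b + s ^ 2) := by
  obtain ⟨ev, bb, hb, hhs, htr, hdet⟩ := spec hA
  have e1 : ∀ i, ev i ≤ s := fun i => by
    have := h (bb i) (bb.norm_eq_one i)
    rwa [hb, real_inner_smul_left, real_inner_self_eq_norm_sq, bb.norm_eq_one, one_pow,
      mul_one] at this
  have e2 : ∀ i, -b ≤ ev i := fun i => by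
    have := h' (bb i) (bb.norm_eq_one i)
    rw [hb, real_inner_smul_left, real_inner_self_eq_norm_sq, bb.norm_eq_one, one_pow,
      mul_one] at this
    linarith
  rw [hdet]
  rw [h0] at htr
  simp only [Fin.sum_univ_three, Fin.prod_univ_three] at *
  by_cases c0 : ev 0 ≤ 0
  · have := det3_aux (x := ev 1) (y := ev 2) (z := ev 0) (h := hs A) (by linarith)
      (by rw [hhs]; ring) (e1 1) (e1 2) (e1 0) c0 (e2 0) hsb
    refine ⟨?_, this.2⟩
    linarith [this.1, mul_comm ((1 - ev 1) * (1 - ev 2)) (1 - ev 0),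
      mul_assoc (1 - ev 0) (1 - ev 1) (1 - ev 2)]
  · by_cases c1 : ev 1 ≤ 0
    · have := det3_aux (x := ev 0) (y := ev 2) (z := ev 1) (h := hs A) (by linarith)
        (by rw [hhs]; ring) (e1 0) (e1 2) (e1 1) c1 (e2 1) hsb
      refine ⟨?_, this.2⟩
      have e : (1 - ev 0) * (1 - ev 2) * (1 - ev 1) = (1 - ev 0) * (1 - ev 1) * (1 - ev 2) := by
        ring
      linarith [this.1]
    · have := det3_aux (x := ev 0) (y := ev 1) (z := ev 2) (h := hs A) (by linarith)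
        (by rw [hhs]) (e1 0) (e1 1) (e1 2) (by linarith) (e2 2) hsb
      exact this

theorem det_pos' {n : ℕ} {A : E n →L[ℝ] E n} (hA : Sy A) {s : ℝ} (hs1 : s < 1)
    (h : ∀ x : E n, ‖x‖ = 1 → (inner ℝ (A x) x : ℝ) ≤ s) :
    0 < (ContinuousLinearMap.id ℝ (E n) - A).det := by
  obtain ⟨ev, bb, hb, hhs, htr, hdet⟩ := spec hA
  rw [hdet]
  refine Finset.prod_pos fun i _ => ?_
  have := h (bb i) (bb.norm_eq_one i)
  rw [hb, real_inner_smul_left, real_inner_self_eq_norm_sq, bb.norm_eq_one, one_pow,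
    mul_one] at this
  linarith

/-- the bound for the Jacobian in dimension three -/
theorem jac3_all {u : E 3 → ℝ} (hu : Good 1 u) {p : E 3} (hp : ‖p‖ < 1) (h0 : tau u p = 0) :
    √(1 - k2 u p / (3 : ℕ)) ^ 3 ≤ (1 - ‖p‖ ^ 2 / 3)⁻¹ *
      (ContinuousLinearMap.id ℝ (E 3) - Sop u p).det ∧
      0 < (ContinuousLinearMap.id ℝ (E 3) - Sop u p).det := by
  set r := ‖p‖ with hr
  have hr0 : 0 ≤ r := norm_nonneg _
  have hg : 0 < 1 - r ^ 2 / 3 := by nlinarith
  rcases le_or_gt (31 * r ^ 2) 7 with hc | hc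
  · obtain ⟨h1, h2⟩ := jac_gen (n := 3) (by norm_num) hu (p := p) (by
      push_cast
      rw [← hr]
      linarith) h0
    refine ⟨h1.trans ?_, h2⟩
    rw [le_inv_mul_iff₀ hg]
    nlinarith
  · have hr47 : 47 / 100 ≤ r := by
      by_contra hcon
      push Not at hcon
      nlinarith
    have hD : 0 < 1 + r := by linarith
    have htop : ∀ x : E 3, ‖x‖ = 1 → (inner ℝ (Sop u p x) x : ℝ) ≤ s3 r := by
      intro x hx
      have h1 := top_le hu hp h0 hx (t := 1 / 4) (by norm_num)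
      refine h1.trans (le_of_eq ?_)
      unfold s3
      rw [← hr]
      push_cast
      field_simp
      ring
    have hbot : ∀ x : E 3, ‖x‖ = 1 → -(inner ℝ (Sop u p x) x : ℝ) ≤ b3 r := by
      intro x hx
      have h1 := bot_le hu hp h0 hx (B := 4 / 7) (by norm_num)
      refine h1.trans (le_of_eq ?_)
      unfold b3
      rw [← hr]
      push_cast
      field_simp
      ring
    have hs1 : s3 r < 1 := by
      unfold s3
      rw [div_lt_one (by positivity)]
      nlinarith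
    have hsb : s3 r ≤ b3 r := by
      unfold s3 b3
      rw [div_le_div_iff₀ (by positivity) (by positivity)]
      have : 0 ≤ r * (1 + r) := by positivity
      nlinarith
    obtain ⟨h1, h2⟩ := det3 (Sop_Sy hu p) (Sop_tr hu h0) htop hbot hsb
    refine ⟨?_, det_pos' (Sop_Sy hu p) hs1 htop⟩
    have hK : 7 * (1 - r ^ 2) * hs (Sop u p) ≤ 18 * r ^ 2 * k2 u p := by
      have h3 := hs_le hu h0 (by norm_num : 0 < 3)
      rw [norm_eta_sq hp] at h3
      push_cast at h3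
      have hz := pz_pos hp
      have hz2 := pz_sq hp
      rw [← hr] at hz2 h3
      rw [← hz2]
      have h4 := mul_le_mul_of_nonneg_left h3 (sq_nonneg (pz p))
      have h5 : pz p ^ 2 * (6 * 3 * (r ^ 2 / pz p ^ 2) * k2 u p) = 18 * r ^ 2 * k2 u p := by
        field_simp
        ring
      rw [h5] at h4
      linarith
    have hk3 := k2_le hu hp h0 (by norm_num : 0 < 3)
    push_cast at hk3 ⊢
    have h6 := jac3_outer hr47 hp (hs_nonneg _) h2 hK hk3
    rw [le_inv_mul_iff₀ hg, mul_comm]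
    exact h6.trans h1

theorem int_four : (∫ t in (0 : ℝ)..(Real.pi / 2), Real.sin t ^ 2) -
    1 / 3 * ∫ t in (0 : ℝ)..(Real.pi / 2), Real.sin t ^ 4 = 3 * Real.pi / 16 := by
  have h1 : ∫ t in (0 : ℝ)..(Real.pi / 2), Real.sin t ^ 4 =
      3 / 4 * ∫ t in (0 : ℝ)..(Real.pi / 2), Real.sin t ^ 2 := by
    rw [integral_sin_pow (n := 2)]
    simp
    norm_num
  rw [h1, integral_sin_sq]
  simp
  ring

theorem ball_three {r : ℝ} (hr0 : 0 ≤ r) (hr1 : r < Real.pi / 2) :
    ∫⁻ p in ball (0 : E 3) (Real.sin r), ENNReal.ofReal ((1 - ‖p‖ ^ 2 / 3) *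
      (√(1 - ‖p‖ ^ 2))⁻¹) = ENNReal.ofReal (4 * Real.pi *
        ((∫ t in (0 : ℝ)..r, Real.sin t ^ 2) - 1 / 3 * ∫ t in (0 : ℝ)..r, Real.sin t ^ 4)) := by
  have hs0 : 0 ≤ Real.sin r := Real.sin_nonneg_of_nonneg_of_le_pi hr0 (by linarith [Real.pi_pos])
  have hs1 : Real.sin r < 1 := by
    rw [← Real.sin_pi_div_two]
    exact Real.sin_lt_sin_of_lt_of_le_pi_div_two (by linarith [Real.pi_pos]) le_rfl hr1
  have hpos : ∀ t ∈ Icc 0 (Real.sin r), 0 < 1 - t ^ 2 := by
    intro t ht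
    have := ht.1
    have := ht.2
    nlinarith
  have hc : ContinuousOn (fun t : ℝ => (√(1 - t ^ 2))⁻¹) (Icc 0 (Real.sin r)) :=
    ContinuousOn.inv₀ (by fun_prop) fun t ht => (Real.sqrt_pos.2 (hpos t ht)).ne'
  have h1 := rad (n := 3) (by norm_num) hs0
    (φ := fun t => (1 - t ^ 2 / 3) * (√(1 - t ^ 2))⁻¹)
    (ContinuousOn.mul (by fun_prop) hc) (fun t ht => by
      have := hpos t ht
      have : 0 ≤ 1 - t ^ 2 / 3 := by linarith
      positivity)
  have h2 : om 3 = Real.pi * 4 / 3 := by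
    unfold om
    rw [measureReal_def, EuclideanSpace.volume_ball_fin_three]
    have : 0 ≤ Real.pi * 4 / 3 := by positivity
    simp [this]
  have hcu : ContinuousOn (fun t : ℝ => (√(1 - t ^ 2))⁻¹) (uIcc 0 (Real.sin r)) := by
    rwa [uIcc_of_le hs0]
  have h3 : ∫ y in (0 : ℝ)..Real.sin r, y ^ (3 - 1) * ((1 - y ^ 2 / 3) * (√(1 - y ^ 2))⁻¹) =
      (∫ t in (0 : ℝ)..r, Real.sin t ^ 2) - 1 / 3 * ∫ t in (0 : ℝ)..r, Real.sin t ^ 4 := by
    rw [← subst_sin hr0 hr1, ← subst_sin hr0 hr1, ← intervalIntegral.integral_const_mul,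
      ← intervalIntegral.integral_sub]
    · refine intervalIntegral.integral_congr fun y _ => ?_
      ring
    · exact (ContinuousOn.mul (by fun_prop) hcu).intervalIntegrable
    · exact (ContinuousOn.mul (by fun_prop) (ContinuousOn.mul (by fun_prop)
        hcu)).intervalIntegrable
  rw [h1, h3, h2]
  congr 1
  push_cast
  ring

/-- **Three quarters in dimension three.** -/
theorem three_quarters {M : Type} [MetricSpace M] [CompactSpace M] (S : Fill 2 M)
    (hS : S.NonShort) (htop : S.Triangulated ∨ S.NoRetraction) :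
    ENNReal.ofReal (3 / 4 * Real.pi ^ 2) ≤ S.vol := by
  have := S.countable
  have hpi := Real.pi_pos
  have hn : 0 < 3 := by norm_num
  have hb : ∀ y z : Sph 3, capd 1 y z ≤ dist (S.bd y) (S.bd z) := fun y z => by
    rw [capd_one]
    exact hS y z
  have hfam := UC_fam (l := 1) S.bd hn zero_le_one le_rfl
  have hUb : ∀ (G : E 3) (x : Sph 3), UC 1 S.bd (S.bd x) G = 1 * inner ℝ G (x : E 3) :=
    fun G x => UC_bd S.bd hn zero_le_one le_rfl hb G x
  have key : ∀ r : ℝ, 0 ≤ r → r < Real.pi / 2 → ENNReal.ofReal (4 * Real.pi *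
      ((∫ t in (0 : ℝ)..r, Real.sin t ^ 2) - 1 / 3 * ∫ t in (0 : ℝ)..r, Real.sin t ^ 4)) ≤
        S.vol := by
    intro r hr0 hr1
    have hy1 : Real.sin r < 1 := by
      rw [← Real.sin_pi_div_two]
      exact Real.sin_lt_sin_of_lt_of_le_pi_div_two (by linarith) le_rfl hr1
    rw [← ball_three hr0 hr1]
    refine ball_le fun ρ hρ0 hρy => ?_
    have hρ : ρ < 1 := hρy.trans hy1
    set Jb : E 3 → ℝ := fun p => (max (1 - ‖p‖ ^ 2 / 3) (2 / 3))⁻¹ with hJb
    have hJe : ∀ p : E 3, ‖p‖ ≤ ρ → Jb p = (1 - ‖p‖ ^ 2 / 3)⁻¹ := by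
      intro p hp
      have h1 := norm_nonneg p
      rw [hJb]
      simp only
      rw [max_eq_left (by nlinarith)]
    have h := main_ineq hfam hn hρ0 hρ Jb
      (by
        rw [hJb]
        exact (Measurable.max (by fun_prop) measurable_const).inv)
      (fun p => by
        rw [hJb]
        exact inv_pos.2 (lt_of_lt_of_le (by norm_num) (le_max_right _ _)))
      (fun u hu p hp htau => by
        rw [hJe p hp]
        exact jac3_all hu (hp.trans_lt hρ) htau)
      (fun i => S.chart i) ?_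
    · refine le_trans (le_of_eq ?_) h
      refine setLIntegral_congr_fun measurableSet_closedBall fun p hp => ?_
      have hp' := mem_closedBall_zero_iff.1 hp
      rw [hJe p hp', mul_inv, inv_inv, mul_comm]
      rfl
    · intro p hp
      obtain ⟨q, hq⟩ := cover_zero S.bd htop one_pos le_rfl hb (UC 1 S.bd)
        (fun q => hfam.good _) (fun q q' G => hfam.lipq _ _ G) hUb (hp.trans_lt hρ)
      rcases S.cover q with ⟨x, hx⟩ | ⟨i, c, hc, hx⟩
      · exfalso
        have hp1 : ‖p‖ < 1 := hp.trans_lt hρ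
        have h1 : UC 1 S.bd q = fun G => 1 * inner ℝ G (x : E 3) := by
          funext G
          rw [← hx]
          exact hUb G x
        rw [h1, Gm_lin hp1, smul_eq_zero_iff_right (inv_ne_zero (pz_pos hp1).ne')] at hq
        have h2 : (1 : ℝ) • (x : E 3) - p = 0 := by
          rw [← BI_BB hp1 ((1 : ℝ) • (x : E 3) - p),
            ← BI_BB hp1 (BB p ((1 : ℝ) • (x : E 3) - p)), hq, map_zero, map_zero]
        have h3 : ‖p‖ = 1 := by
          rw [← sub_eq_zero.1 h2, norm_smul, norm_sph, mul_one]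
          norm_num
        linarith
      · exact ⟨i, c, hc, by rw [hx]; exact hq⟩
  -- the limit
  have hcont : Continuous fun r : ℝ => ENNReal.ofReal (4 * Real.pi *
      ((∫ t in (0 : ℝ)..r, Real.sin t ^ 2) - 1 / 3 * ∫ t in (0 : ℝ)..r, Real.sin t ^ 4)) := by
    have h1 : ∀ k : ℕ, Continuous fun r : ℝ => ∫ t in (0 : ℝ)..r, Real.sin t ^ k := fun k =>
      intervalIntegral.continuous_primitive (fun a b =>
        (by fun_prop : Continuous fun t : ℝ => Real.sin t ^ k).intervalIntegrable a b) 0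
    exact ENNReal.continuous_ofReal.comp
      (continuous_const.mul ((h1 2).sub (continuous_const.mul (h1 4))))
  have hval : ENNReal.ofReal (3 / 4 * Real.pi ^ 2) = ENNReal.ofReal (4 * Real.pi *
      ((∫ t in (0 : ℝ)..(Real.pi / 2), Real.sin t ^ 2) -
        1 / 3 * ∫ t in (0 : ℝ)..(Real.pi / 2), Real.sin t ^ 4)) := by
    rw [int_four]
    congr 1
    ring
  rw [hval]
  refine le_of_tendsto ((hcont.tendsto (Real.pi / 2)).mono_left
    (nhdsWithin_le_nhds (s := Iio (Real.pi / 2)))) ?_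
  have hI : Ioo (0 : ℝ) (Real.pi / 2) ∈ 𝓝[<] (Real.pi / 2) := Ioo_mem_nhdsLT (by positivity)
  filter_upwards [hI] with r hr
  exact key r hr.1.le hr.2

end Pool.Agent.K7.H34.FV
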