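import Pool.Agent.K7.H34.FV.NTwo
import Pool.Agent.K7.H34.FV.CapFin

/-!
# The Jacobian in dimension two, for all radii
-/

set_option autoImplicit false

open MeasureTheory Metric Set Filter Topology InnerProductGeometry

namespace Pool.Agent.K7.H34.FV

open Pool.Agent.H241R3.FV (Sph RChart om Fill norm_sph)
open Pool.Agent.W716.FV (E gam gd Good)

/-- the polynomial inequality -/
theorem poly_ineq {r w : ℝ} (hr : 0 ≤ r) (hw : 7 / 5 ≤ w) (hw2 : w ^ 2 = 2) :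
    0 ≤ (6 * r ^ 2 - 1) / 30 * (r + w) ^ 4 -
      r ^ 2 * (r + w) ^ 2 * (17 - 3 * ((31 - 6 * r ^ 2) / 30)) / 16 +
      (31 - 6 * r ^ 2) / 30 * (1 - r ^ 2) * (3 * r / 4 + w) ^ 2 / 2 := by
  have e : (6 * r ^ 2 - 1) / 30 * (r + w) ^ 4 -
      r ^ 2 * (r + w) ^ 2 * (17 - 3 * ((31 - 6 * r ^ 2) / 30)) / 16 +
      (31 - 6 * r ^ 2) / 30 * (1 - r ^ 2) * (3 * r / 4 + w) ^ 2 / 2 =
      9 / 10 - 2189 / 960 * r ^ 2 + 245 / 192 * r ^ 4 + 7 / 32 * r ^ 6 +
        w * (r * (61 / 120 - 287 / 240 * r ^ 2 + 7 / 8 * r ^ 4)) := by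
    have h3 : w ^ 3 = 2 * w := by rw [pow_succ, hw2]
    have h4 : w ^ 4 = 4 := by
      have : w ^ 4 = (w ^ 2) ^ 2 := by ring
      rw [this, hw2]; norm_num
    have e1 : (r + w) ^ 4 = r ^ 4 + 4 * w * r ^ 3 + 6 * w ^ 2 * r ^ 2 + 4 * w ^ 3 * r + w ^ 4 := by
      ring
    have e2 : (r + w) ^ 2 = r ^ 2 + 2 * w * r + w ^ 2 := by ring
    have e3 : (3 * r / 4 + w) ^ 2 = 9 / 16 * r ^ 2 + 3 / 2 * w * r + w ^ 2 := by ring
    rw [e1, e2, e3, h3, h4, hw2]
    ring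
  rw [e]
  have h1 : 0 ≤ r * (61 / 120 - 287 / 240 * r ^ 2 + 7 / 8 * r ^ 4) := by
    refine mul_nonneg hr ?_
    nlinarith [sq_nonneg (r ^ 2 - 41 / 60)]
  have h2 := mul_le_mul_of_nonneg_right hw h1
  refine le_trans ?_ (add_le_add_right h2 _)
  have hs := sq_nonneg (r - 169 / 200)
  nlinarith [hs, mul_nonneg hr hs, mul_nonneg (pow_nonneg hr 2) hs,
    mul_nonneg (pow_nonneg hr 3) hs, mul_nonneg (pow_nonneg hr 4) hs]

/-- the inequality for the Jacobian, outer part -/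
theorem jac_outer {r l K : ℝ} (hr : 1 ≤ 3 * r ^ 2) (hr0 : 0 ≤ r) (hr1 : r < 1) (hl : 0 ≤ l)
    (hl1 : l ≤ s2 r) (hK : (1 - r ^ 2) * l ^ 2 ≤ r ^ 2 * K) :
    (31 - 6 * r ^ 2) / 30 * (1 - 3 / 16 * l ^ 2 - (1 - l / 4) ^ 2 * K / 2) ≤
      (1 - l ^ 2 / 16) * (1 - l ^ 2) := by
  have hw2 : √2 ^ 2 = (2 : ℝ) := Real.sq_sqrt (by norm_num)
  have hw : 7 / 5 ≤ √(2 : ℝ) := Real.le_sqrt_of_sq_le (by norm_num)
  set w := √(2 : ℝ) with hwdef
  have hrp : 0 < r := by nlinarith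
  have hrw : 0 < r + w := by linarith
  set L := s2 r with hL
  have hLr : L * (r + w) = r := by
    rw [hL, s2, ← hwdef]; field_simp
  have hL0 : 0 ≤ L := hl.trans hl1
  have hLlt : L < 1 := by
    by_contra hcon
    push Not at hcon
    nlinarith
  set g := (31 - 6 * r ^ 2) / 30 with hg
  have hg0 : 0 ≤ g := by rw [hg]; nlinarith
  have hg1 : g ≤ 1 := by rw [hg]; nlinarith
  set y := (1 - r ^ 2) / r ^ 2 with hy
  have hy0 : 0 ≤ y := div_nonneg (by nlinarith) (sq_nonneg _)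
  have hyr : y * r ^ 2 = 1 - r ^ 2 := by rw [hy]; field_simp
  have hKy : y * l ^ 2 ≤ K := by
    have h1 : r ^ 2 * (y * l ^ 2) ≤ r ^ 2 * K := by
      calc r ^ 2 * (y * l ^ 2) = (y * r ^ 2) * l ^ 2 := by ring
        _ = (1 - r ^ 2) * l ^ 2 := by rw [hyr]
        _ ≤ _ := hK
    exact le_of_mul_le_mul_left h1 (by positivity)
  -- the bracket
  set B := 17 / 16 - 3 / 16 * g - g * (1 - L / 4) ^ 2 * y / 2 with hB
  have hfin : L ^ 2 * B ≤ 1 - g := by
    have h1 := poly_ineq hr0 hw hw2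
    have e : (6 * r ^ 2 - 1) / 30 * (r + w) ^ 4 -
        r ^ 2 * (r + w) ^ 2 * (17 - 3 * ((31 - 6 * r ^ 2) / 30)) / 16 +
        (31 - 6 * r ^ 2) / 30 * (1 - r ^ 2) * (3 * r / 4 + w) ^ 2 / 2 =
        (r + w) ^ 4 * (1 - g - L ^ 2 * B) := by
      have h2 : (r + w) ^ 4 * (L ^ 2 * B) = (r + w) ^ 2 * ((L * (r + w)) ^ 2 *
          (17 / 16 - 3 / 16 * g)) - g * ((L * (r + w)) ^ 2 * y) *
          ((r + w) - L * (r + w) / 4) ^ 2 / 2 := by
        rw [hB]; ring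
      have h3 : r ^ 2 * y = 1 - r ^ 2 := by rw [mul_comm]; exact hyr
      have h6 : (r + w) ^ 4 * (1 - g - L ^ 2 * B) =
          (1 - g) * (r + w) ^ 4 - (r + w) ^ 4 * (L ^ 2 * B) := by ring
      rw [h6, h2, hLr, h3, hg]
      ring
    rw [e] at h1
    have h2 := nonneg_of_mul_nonneg_right h1 (by positivity)
    linarith
  have h1 : (1 - L / 4) ^ 2 ≤ (1 - l / 4) ^ 2 :=
    pow_le_pow_left₀ (by linarith) (by linarith) 2
  have h2 : (1 - L / 4) ^ 2 * (y * l ^ 2) ≤ (1 - l / 4) ^ 2 * K :=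
    mul_le_mul h1 hKy (by positivity) (sq_nonneg _)
  have h3 : g * ((1 - L / 4) ^ 2 * (y * l ^ 2)) ≤ g * ((1 - l / 4) ^ 2 * K) :=
    mul_le_mul_of_nonneg_left h2 hg0
  have h4 : l ^ 2 * B ≤ 1 - g := by
    rcases le_or_gt B 0 with hB0 | hB0
    · have := mul_nonneg (sq_nonneg l) (neg_nonneg.2 hB0)
      linarith
    · have h5 : l ^ 2 ≤ L ^ 2 := pow_le_pow_left₀ hl hl1 2
      exact (mul_le_mul_of_nonneg_right h5 hB0.le).trans hfin
  have h5 : l ^ 2 * B = 17 / 16 * l ^ 2 - 3 / 16 * g * l ^ 2 -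
      g * ((1 - L / 4) ^ 2 * (y * l ^ 2)) / 2 := by rw [hB]; ring
  nlinarith [sq_nonneg (l ^ 2)]

/-- the inequality for the Jacobian, inner part -/
theorem jac_inner {r l K : ℝ} (hr : 3 * r ^ 2 ≤ 1) (hr0 : 0 ≤ r)
    (hK : (1 - r ^ 2) * l ^ 2 ≤ r ^ 2 * K) (hK0 : 0 ≤ K) : 1 - K / 2 ≤ 1 - l ^ 2 := by
  have h1 : (1 - r ^ 2) * l ^ 2 ≤ (1 - r ^ 2) * (K / 2) := by
    refine hK.trans ?_
    nlinarith
  have := le_of_mul_le_mul_left h1 (by nlinarith)
  linarith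

/-- the reciprocal of the bound for the Jacobian -/
noncomputable def gg (r : ℝ) : ℝ := if 3 * r ^ 2 ≤ 1 then 1 else (31 - 6 * r ^ 2) / 30

/-- the main inequality, with a general bound for the determinant of `N` -/
theorem main_ineq' {n : ℕ} {M : Type} [MetricSpace M] {U : M → E n → ℝ} (hU : Fam U) {ρ : ℝ}
    (hρ0 : 0 ≤ ρ) (hρ : ρ < 1) (Jb : E n → ℝ) (hJm : Measurable Jb) (hJ0 : ∀ p, 0 < Jb p)
    (hJ : ∀ u : E n → ℝ, Good 1 u → ∀ p : E n, ‖p‖ ≤ ρ → tau u p = 0 →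
      ∀ G : Matrix (Fin n) (Fin n) ℝ, G.PosDef → ∀ D : E n → E n →L[ℝ] ℝ, Measurable D →
        DB u G D → |(Nop D p).det| ≤
          Jb p * (ContinuousLinearMap.id ℝ (E n) - Sop u p).det * √G.det ∧
        0 < (ContinuousLinearMap.id ℝ (E n) - Sop u p).det)
    {ι : Type} [Countable ι] (C : ι → RChart n M)
    (hcov : ∀ p : E n, ‖p‖ ≤ ρ → ∃ i, ∃ c ∈ (C i).D, Gm (U ((C i).map c)) p = 0) :
    ∫⁻ p in closedBall (0 : E n) ρ, ENNReal.ofReal (pz p * Jb p)⁻¹ ≤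
      ∑' i, ∫⁻ c in (C i).D, ENNReal.ofReal √((C i).G c).det := by
  have hpzm : Measurable (pz : E n → ℝ) := by
    have : Continuous (pz : E n → ℝ) := by unfold pz; fun_prop
    exact this.measurable
  have hfm : ∀ i, AEMeasurable (ff U (C i)) (volume.restrict (Zs U (C i) ρ)) := fun i =>
    (ff_cont hU (C i) hρ0 hρ).aemeasurable (Zs_meas hU (C i) hρ0 hρ)
  have hGm : ∀ i, AEMeasurable (fun c => √((C i).G c).det) (volume.restrict (Zs U (C i) ρ)) := by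
    intro i
    have hc : ContinuousOn (fun c => √((C i).G c).det) (C i).U := by
      have h1 : Continuous fun A : Matrix (Fin n) (Fin n) ℝ => √A.det := by fun_prop
      exact h1.comp_continuousOn (C i).cont_G
    exact (hc.mono fun c hc => (C i).D_sub hc.1).aemeasurable (Zs_meas hU (C i) hρ0 hρ)
  have harea := area_within (volume : Measure (E n)) (fun i => Zs U (C i) ρ)
    (fun i => ff U (C i))
    (fun i c => ENNReal.ofReal (pz (ff U (C i) c) * Jb (ff U (C i) c) * √((C i).G c).det))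
    (closedBall (0 : E n) ρ) (fun p => ENNReal.ofReal (pz p * Jb p)⁻¹)
    (fun i => Zs_meas hU (C i) hρ0 hρ) hfm
    (fun i => ((((hpzm.comp_aemeasurable (hfm i)).mul (hJm.comp_aemeasurable (hfm i))).mul
      (hGm i)).ennreal_ofReal))
    (fun i t ht h0 => null_within (ff_lip hU (C i) hρ0 hρ) ht h0) ?_
    measurableSet_closedBall ((hpzm.mul hJm).inv.ennreal_ofReal) ?_
  · refine harea.trans (ENNReal.tsum_le_tsum fun i => ?_)
    have h1 : ∫⁻ c in Zs U (C i) ρ, ENNReal.ofReal (pz (ff U (C i) c) * Jb (ff U (C i) c) *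
        √((C i).G c).det) * ENNReal.ofReal (pz (ff U (C i) c) * Jb (ff U (C i) c))⁻¹ =
        ∫⁻ c in Zs U (C i) ρ, ENNReal.ofReal √((C i).G c).det := by
      refine setLIntegral_congr_fun (Zs_meas hU (C i) hρ0 hρ) fun c hc => ?_
      have h2 := pz_pos ((ff_spec hU hρ hc).1.trans_lt hρ)
      have h3 := hJ0 (ff U (C i) c)
      rw [← ENNReal.ofReal_mul (by positivity)]
      congr 1
      field_simp
    rw [h1]
    exact lintegral_mono_set fun c hc => hc.1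
  · intro i
    filter_upwards [chart_diff hU (C i)] with c hcd hc
    obtain ⟨D, hD, hder, hDB⟩ := hcd ((C i).D_sub hc.1)
    obtain ⟨L, hL1, hL2⟩ := ff_hasFDeriv hU (C i) hρ0 hρ hc D hD hder hDB
    refine ⟨L, hL1, ENNReal.ofReal_le_ofReal ?_⟩
    obtain ⟨hp1, hz⟩ := ff_spec hU hρ hc
    have hp := hp1.trans_lt hρ
    have h0 := pz_pos hp
    have htau := (Gm_eq_zero hp).1 hz
    have h1 := det_rel hp hL2
    obtain ⟨h3, h4⟩ := hJ _ (hU.good ((C i).map c)) _ hp1 htau _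
      ((C i).pos_G c ((C i).D_sub hc.1)) D hD hDB
    set p := ff U (C i) c
    set δ := (ContinuousLinearMap.id ℝ (E n) - Sop (U ((C i).map c)) p).det
    have h5 : δ * |L.det| = pz p * |(Nop D p).det| := by
      rw [← abs_of_pos h4, ← abs_mul, h1, abs_mul, abs_of_pos h0]
    have h6 : δ * |L.det| ≤ δ * (pz p * Jb p * √((C i).G c).det) := by
      rw [h5]
      calc pz p * |(Nop D p).det| ≤
          pz p * (Jb p * δ * √((C i).G c).det) := mul_le_mul_of_nonneg_left h3 h0.le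
        _ = _ := by ring
    exact le_of_mul_le_mul_left h6 h4
  · intro p hp
    obtain ⟨i, c, hc, hz⟩ := hcov p (mem_closedBall_zero_iff.1 hp)
    refine mem_iUnion.2 ⟨i, c, ⟨hc, p, mem_closedBall_zero_iff.1 hp, hz⟩, ?_⟩
    exact ff_eq hU ((mem_closedBall_zero_iff.1 hp).trans_lt hρ) hz

theorem gg_pos (r : ℝ) (hr0 : 0 ≤ r) (hr : r < 1) : 0 < gg r := by
  unfold gg
  split_ifs
  · exact one_pos
  · nlinarith

/-- the bound for the Jacobian in dimension two -/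
theorem jac_all {u : E 2 → ℝ} (hu : Good 1 u) {p : E 2} (hp : ‖p‖ < 1) (h0 : tau u p = 0)
    {G : Matrix (Fin 2) (Fin 2) ℝ} (hG : G.PosDef) {D : E 2 → E 2 →L[ℝ] ℝ}
    (hD : Measurable D) (h : DB u G D) :
    |(Nop D p).det| ≤ (gg ‖p‖)⁻¹ * (ContinuousLinearMap.id ℝ (E 2) - Sop u p).det * √G.det ∧
      0 < (ContinuousLinearMap.id ℝ (E 2) - Sop u p).det := by
  set r := ‖p‖ with hr
  have hr0 : 0 ≤ r := norm_nonneg _
  have hS := Sop_Sy hu p
  have ht := Sop_tr hu h0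
  obtain ⟨l, hl⟩ : ∃ l : ℝ, l = √(hs (Sop u p) / 2) := ⟨_, rfl⟩
  have hl0 : 0 ≤ l := by rw [hl]; exact Real.sqrt_nonneg _
  have hh : hs (Sop u p) = 2 * l ^ 2 := by
    rw [hl, Real.sq_sqrt (by have := hs_nonneg (Sop u p); positivity)]
    ring
  have hw : 0 < √(2 : ℝ) := Real.sqrt_pos.2 (by norm_num)
  have hs20 : 0 ≤ s2 r := by unfold s2; positivity
  have hls : l ≤ s2 r := by
    have h1 := hs_two hS ht (s := s2 r) (Sop_le_two hu hp h0)
    rw [hh] at h1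
    apply (le_abs_self _).trans (abs_le_of_sq_le_sq _ hs20)
    linarith
  have hs21 : s2 r < 1 / 2 := by
    have hw2 : 7 / 5 ≤ √(2 : ℝ) := Real.le_sqrt_of_sq_le (by norm_num)
    unfold s2
    rw [div_lt_iff₀ (by positivity)]
    linarith
  have hk := k2_nonneg u p
  have hK : (1 - r ^ 2) * l ^ 2 ≤ r ^ 2 * k2 u p := by
    have h2 := hs_le hu h0 (by norm_num : 0 < 2)
    rw [hh, norm_eta_sq hp] at h2
    push_cast at h2
    have hz := pz_pos hp
    have hz2 := pz_sq hp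
    rw [← hz2]
    have h3 : pz p ^ 2 * (6 * 2 * (r ^ 2 / pz p ^ 2) * k2 u p) = 12 * (r ^ 2 * k2 u p) := by
      field_simp
      ring
    have h4 := mul_le_mul_of_nonneg_left h2 (sq_nonneg (pz p))
    rw [h3] at h4
    nlinarith
  have hdet : (ContinuousLinearMap.id ℝ (E 2) - Sop u p).det = 1 - l ^ 2 := by
    rw [det_two hS ht, hh]; ring
  have hdet0 : 0 < 1 - l ^ 2 := by nlinarith
  rw [hdet]
  refine ⟨?_, hdet0⟩
  have hsG : 0 ≤ √G.det := Real.sqrt_nonneg _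
  unfold gg
  split_ifs with hc
  · have h1 := Nop_det hu hG hD h hp h0 (by norm_num)
    have h2 := k2_le hu hp h0 (by norm_num : 0 < 2)
    rw [Real.sq_sqrt (by linarith)] at h1
    push_cast at h1
    rw [inv_one, one_mul]
    exact h1.trans (mul_le_mul_of_nonneg_right (jac_inner hc hr0 hK hk) hsG)
  · push Not at hc
    have h1 := Nop_det_two hu hG hD h hp h0 hl0 (by linarith) hh
    have h2 := jac_outer hc.le hr0 hp hl0 hls hK
    set N := |(Nop D p).det|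
    set g := (31 - 6 * r ^ 2) / 30 with hg
    have hg0 : 0 < g := by rw [hg]; nlinarith
    have h3 : (1 - l ^ 2 / 16) * (g * N) ≤ (1 - l ^ 2 / 16) * ((1 - l ^ 2) * √G.det) := by
      calc (1 - l ^ 2 / 16) * (g * N) = g * ((1 - l ^ 2 / 16) * N) := by ring
        _ ≤ g * ((1 - 3 / 16 * l ^ 2 - (1 - l / 4) ^ 2 * k2 u p / 2) * √G.det) :=
            mul_le_mul_of_nonneg_left h1 hg0.le
        _ = (g * (1 - 3 / 16 * l ^ 2 - (1 - l / 4) ^ 2 * k2 u p / 2)) * √G.det := by ring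
        _ ≤ ((1 - l ^ 2 / 16) * (1 - l ^ 2)) * √G.det := mul_le_mul_of_nonneg_right h2 hsG
        _ = _ := by ring
    have h4 := le_of_mul_le_mul_left h3 (by nlinarith)
    calc N = g⁻¹ * (g * N) := by field_simp
      _ ≤ g⁻¹ * ((1 - l ^ 2) * √G.det) := mul_le_mul_of_nonneg_left h4 (by positivity)
      _ = _ := by ring

end Pool.Agent.K7.H34.FV
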