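import Pool.Agent.K7.H34.FV.HS
import Pool.Agent.H241R3.FV.TMat
import Pool.Agent.W753.FV.BC

/-!
# The bound for the Jacobian
-/

set_option autoImplicit false

open MeasureTheory Filter Topology

namespace Pool.Agent.K7.H34.FV

open Pool.Agent.W716.FV (E gam gd Good)
open Pool.Agent.H241R3.FV (mat act gnorm det_mat)

variable {n : ℕ}

/-- the quadratic form of a matrix -/
noncomputable def qf (G : Matrix (Fin n) (Fin n) ℝ) (w : E n) : ℝ := ∑ i, ∑ j, w i * G i j * w j

theorem qf_act {G A : Matrix (Fin n) (Fin n) ℝ} (h : A.transpose * G * A = 1) (x : E n) :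
    qf G (act A x) = ‖x‖ ^ 2 := by
  unfold qf
  have h1 : (∑ i, ∑ j, (act A x) i * G i j * (act A x) j) =
      dotProduct (A.mulVec (fun k => x k)) (G.mulVec (A.mulVec (fun k => x k))) := by
    simp only [dotProduct, Matrix.mulVec, act, Finset.mul_sum, mul_assoc]
  have h2 : dotProduct (A.mulVec (fun k => x k)) (G.mulVec (A.mulVec (fun k => x k))) =
      dotProduct (fun k => x k) ((A.transpose * G * A).mulVec (fun k => x k)) := by
    rw [Matrix.mul_assoc, ← Matrix.mulVec_mulVec, ← Matrix.mulVec_mulVec,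
      Matrix.dotProduct_mulVec (fun k => x k) A.transpose, Matrix.vecMul_transpose]
  rw [h1, h2, h, Matrix.one_mulVec]
  have h5 : ‖x‖ ^ 2 = ∑ i, ‖x i‖ ^ 2 := EuclideanSpace.norm_sq_eq _
  rw [h5]
  simp only [dotProduct]
  refine Finset.sum_congr rfl fun i _ => ?_
  rw [Real.norm_eq_abs, sq_abs]
  ring

theorem inner_bv (x : E n) (i : Fin n) : (inner ℝ x (bv n i) : ℝ) = x i := by
  simp [EuclideanSpace.inner_single_right]

theorem act_eq_sum (A : Matrix (Fin n) (Fin n) ℝ) (x : E n) :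
    act A x = ∑ i, ∑ j, (x i * A j i) • bv n j := by
  ext k
  have : ∀ i, (∑ j, (x i * A j i) • bv n j) k = x i * A k i := by
    intro i
    simp [bv, Pi.single_apply, Finset.sum_apply]
  simp only [act]
  rw [WithLp.ofLp_sum, Finset.sum_apply]
  refine Finset.sum_congr rfl fun i _ => ?_
  rw [this, mul_comm]

/-- the bound for the derivative -/
def DB (u : E n → ℝ) (G : Matrix (Fin n) (Fin n) ℝ) (D : E n → E n →L[ℝ] ℝ) : Prop :=
  ∀ᵐ v ∂(volume : Measure (E n)), ∀ w : E n, (D v w) ^ 2 ≤ (‖v‖ ^ 2 - u v ^ 2) * qf G w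

theorem qf_le {G : Matrix (Fin n) (Fin n) ℝ} (w : E n) :
    qf G w ≤ (∑ i, ∑ j, |G i j|) * ‖w‖ ^ 2 := by
  unfold qf
  rw [Finset.sum_mul]
  refine Finset.sum_le_sum fun i _ => ?_
  rw [Finset.sum_mul]
  refine Finset.sum_le_sum fun j _ => ?_
  have hi : |w i| ≤ ‖w‖ := by
    have := PiLp.norm_apply_le w i
    simpa using this
  have hj : |w j| ≤ ‖w‖ := by
    have := PiLp.norm_apply_le w j
    simpa using this
  calc w i * G i j * w j ≤ |w i * G i j * w j| := le_abs_self _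
    _ = |G i j| * (|w i| * |w j|) := by rw [abs_mul, abs_mul]; ring
    _ ≤ |G i j| * (‖w‖ * ‖w‖) := by gcongr
    _ = |G i j| * ‖w‖ ^ 2 := by ring

theorem DB_norm {u : E n → ℝ} {G : Matrix (Fin n) (Fin n) ℝ} {D : E n → E n →L[ℝ] ℝ}
    (hu : Good 1 u) (h : DB u G D) : ∃ K : ℝ, 0 ≤ K ∧
      ∀ᵐ v ∂(volume : Measure (E n)), ‖D v‖ ≤ K * ‖v‖ := by
  refine ⟨√(∑ i, ∑ j, |G i j|), Real.sqrt_nonneg _, ?_⟩
  filter_upwards [h] with v hv
  refine ContinuousLinearMap.opNorm_le_bound _ (by positivity) fun w => ?_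
  have h1 : (D v w) ^ 2 ≤ ‖v‖ ^ 2 * ((∑ i, ∑ j, |G i j|) * ‖w‖ ^ 2) := by
    have h3 : 0 ≤ ‖v‖ ^ 2 - u v ^ 2 := by
      have h5 := pow_le_pow_left₀ (abs_nonneg _) (good_abs hu v) 2
      rw [sq_abs] at h5
      linarith
    refine (hv w).trans ?_
    have h2 := qf_le (G := G) w
    have h4 : 0 ≤ (∑ i, ∑ j, |G i j|) * ‖w‖ ^ 2 := by positivity
    calc (‖v‖ ^ 2 - u v ^ 2) * qf G w ≤ (‖v‖ ^ 2 - u v ^ 2) * ((∑ i, ∑ j, |G i j|) * ‖w‖ ^ 2) :=
          mul_le_mul_of_nonneg_left h2 h3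
      _ ≤ _ := mul_le_mul_of_nonneg_right (by linarith [sq_nonneg (u v)]) h4
  rw [Real.norm_eq_abs]
  apply abs_le_of_sq_le_sq _ (by positivity)
  refine h1.trans (le_of_eq ?_)
  rw [mul_pow, mul_pow, Real.sq_sqrt (by positivity)]
  ring

/-- the variable `X` -/
theorem X_eq {u : E n → ℝ} {p : E n} (hp : ‖p‖ < 1) (g : E n) :
    ‖BB p g‖ ^ 2 - u (BB p g) ^ 2 =
      ‖g‖ ^ 2 - kap u p g ^ 2 - 2 * (kap u p g * inner ℝ g (eta p)) := by
  rw [norm_BB_sq hp]
  unfold kap
  rw [real_inner_comm g (eta p)]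
  ring

theorem int_X {u : E n → ℝ} (hu : Good 1 u) {p : E n} (hp : ‖p‖ < 1) (h0 : tau u p = 0) :
    Integrable (fun g => ‖BB p g‖ ^ 2 - u (BB p g) ^ 2) (gam n) ∧
    ∫ g, (‖BB p g‖ ^ 2 - u (BB p g) ^ 2) ∂(gam n) = n - k2 u p := by
  simp only [X_eq hp]
  have i1 : Integrable (fun g : E n => ‖g‖ ^ 2) (gam n) := PL.norm_sq.integrable
  have i2 : Integrable (fun g : E n => kap u p g ^ 2) (gam n) := ((kap_PL hu p).pow 2).integrable
  have i3 : Integrable (fun g : E n => kap u p g * inner ℝ g (eta p)) (gam n) :=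
    ((kap_PL hu p).mul (PL.innr _)).integrable
  have i4 : Integrable (fun g : E n => ‖g‖ ^ 2 - kap u p g ^ 2) (gam n) := i1.sub i2
  refine ⟨i4.sub (i3.const_mul 2), ?_⟩
  rw [integral_sub i4 (i3.const_mul 2), integral_sub i1 i2, integral_const_mul,
    int_kap_innr hu h0, (Pool.Agent.W933.FVGM.main n).2.2.2.2]
  unfold k2
  ring

theorem Nop_trace {u : E n → ℝ} (hu : Good 1 u) {G : Matrix (Fin n) (Fin n) ℝ}
    {D : E n → E n →L[ℝ] ℝ} (hD : Measurable D) (h : DB u G D) {p : E n} (hp : ‖p‖ < 1)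
    (h0 : tau u p = 0) (hn : 0 < n) (A : Matrix (Fin n) (Fin n) ℝ)
    (hA : A.transpose * G * A = 1) :
    (mat (Nop D p) * A).trace ≤ n * √(1 - k2 u p / n) := by
  have hn' : (0 : ℝ) < n := by exact_mod_cast hn
  obtain ⟨K, hK, hb⟩ := DB_norm hu h
  have hi := Nop_integrable hD hK hb hp
  have hi1 : ∀ w : E n, Integrable (fun g => D (BB p g) w • g) (gam n) := fun w =>
    (ContinuousLinearMap.apply ℝ (E n) w).integrable_comp hi
  have hi2 : ∀ (w : E n) (i : Fin n), Integrable (fun g => D (BB p g) w * g i) (gam n) := by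
    intro w i
    have h2 := (innerSL ℝ (bv n i)).integrable_comp (hi1 w)
    refine h2.congr (Eventually.of_forall fun g => ?_)
    simp only [innerSL_apply_apply, real_inner_smul_right]
    rw [real_inner_comm, inner_bv]
  have hcomp : ∀ (w : E n) (i : Fin n), (Nop D p w) i = ∫ g, D (BB p g) w * g i ∂(gam n) := by
    intro w i
    rw [← inner_bv, real_inner_comm, Nop_apply hD hK hb hp, ← integral_inner (hi1 w)]
    refine integral_congr_ae (Eventually.of_forall fun g => ?_)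
    simp only [real_inner_smul_right]
    rw [real_inner_comm, inner_bv]
  have h1 : (mat (Nop D p) * A).trace = ∫ g, D (BB p g) (act A g) ∂(gam n) := by
    have e1 : (mat (Nop D p) * A).trace =
        ∑ i, ∑ j, A j i * ∫ g, D (BB p g) (bv n j) * g i ∂(gam n) := by
      simp only [Matrix.trace, Matrix.diag, Matrix.mul_apply, mat]
      refine Finset.sum_congr rfl fun i _ => Finset.sum_congr rfl fun j _ => ?_
      rw [hcomp]
      ring
    rw [e1]
    have e2 : ∀ g : E n, D (BB p g) (act A g) =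
        ∑ i, ∑ j, A j i * (D (BB p g) (bv n j) * g i) := by
      intro g
      rw [act_eq_sum, map_sum]
      refine Finset.sum_congr rfl fun i _ => ?_
      rw [map_sum]
      refine Finset.sum_congr rfl fun j _ => ?_
      rw [map_smul, smul_eq_mul]
      ring
    simp only [e2]
    rw [integral_finsetSum _ fun i _ => integrable_finsetSum _ fun j _ => (hi2 _ i).const_mul _]
    refine Finset.sum_congr rfl fun i _ => ?_
    rw [integral_finsetSum _ fun j _ => (hi2 _ i).const_mul _]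
    refine Finset.sum_congr rfl fun j _ => ?_
    rw [integral_const_mul]
  obtain ⟨hX1, hX2⟩ := int_X hu hp h0
  have hXn : ∀ v : E n, 0 ≤ ‖v‖ ^ 2 - u v ^ 2 := by
    intro v
    have h5 := pow_le_pow_left₀ (abs_nonneg _) (good_abs hu v) 2
    rw [sq_abs] at h5
    linarith
  have hsq : ∀ g : E n, √(‖BB p g‖ ^ 2 - u (BB p g) ^ 2) ^ 2 =
      ‖BB p g‖ ^ 2 - u (BB p g) ^ 2 := fun g => Real.sq_sqrt (hXn _)
  have hc := good_cont hu
  have i5 : Integrable (fun g : E n => √(‖BB p g‖ ^ 2 - u (BB p g) ^ 2) * ‖g‖) (gam n) := by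
    refine integ ‖BB p‖ 2 (by fun_prop : Continuous _).aestronglyMeasurable
      (Eventually.of_forall fun g => ?_)
    rw [Real.norm_of_nonneg (by positivity)]
    have h3 : √(‖BB p g‖ ^ 2 - u (BB p g) ^ 2) ≤ ‖BB p g‖ := by
      rw [Real.sqrt_le_left (norm_nonneg _)]
      linarith [sq_nonneg (u (BB p g))]
    calc √(‖BB p g‖ ^ 2 - u (BB p g) ^ 2) * ‖g‖ ≤ (‖BB p‖ * ‖g‖) * ‖g‖ :=
          mul_le_mul_of_nonneg_right (h3.trans ((BB p).le_opNorm g)) (norm_nonneg _)
      _ = ‖BB p‖ * ‖g‖ ^ 2 := by ring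
      _ ≤ _ := mul_le_mul_of_nonneg_left (pow_le_pow_left₀ (norm_nonneg g) (by linarith) 2)
          (norm_nonneg _)
  have h2 : ∫ g, D (BB p g) (act A g) ∂(gam n) ≤
      ∫ g, √(‖BB p g‖ ^ 2 - u (BB p g) ^ 2) * ‖g‖ ∂(gam n) := by
    have i6 : Integrable (fun g => D (BB p g) (act A g)) (gam n) := by
      have e2 : ∀ g : E n, D (BB p g) (act A g) =
          ∑ i, ∑ j, A j i * (D (BB p g) (bv n j) * g i) := by
        intro g
        rw [act_eq_sum, map_sum]
        refine Finset.sum_congr rfl fun i _ => ?_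
        rw [map_sum]
        refine Finset.sum_congr rfl fun j _ => ?_
        rw [map_smul, smul_eq_mul]
        ring
      simp only [e2]
      exact integrable_finsetSum _ fun i _ => integrable_finsetSum _ fun j _ =>
        (hi2 _ i).const_mul _
    refine integral_mono_ae i6 i5 ?_
    filter_upwards [ae_BB hp h] with g hg
    have h3 := hg (act A g)
    rw [qf_act hA] at h3
    refine (le_abs_self _).trans (abs_le_of_sq_le_sq ?_ (by positivity))
    rw [mul_pow, hsq]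
    exact h3
  have h3 := cauchy (μ := gam n) (f := fun g : E n => √(‖BB p g‖ ^ 2 - u (BB p g) ^ 2))
    (g := fun g : E n => ‖g‖) (by simp only [hsq]; exact hX1) PL.norm_sq.integrable i5
  simp only [hsq] at h3
  rw [hX2, (Pool.Agent.W933.FVGM.main n).2.2.2.2] at h3
  rw [h1]
  refine h2.trans ((le_abs_self _).trans (abs_le_of_sq_le_sq ?_ (by positivity)))
  refine h3.trans (le_of_eq ?_)
  have h4 : 0 ≤ 1 - k2 u p / n := by
    have h5 : 0 ≤ (n : ℝ) - k2 u p := by
      rw [← hX2]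
      exact integral_nonneg fun g => hXn _
    rw [sub_nonneg, div_le_one hn']
    linarith
  rw [mul_pow, Real.sq_sqrt h4]
  field_simp

theorem k2_le {u : E n → ℝ} (hu : Good 1 u) {p : E n} (hp : ‖p‖ < 1) (h0 : tau u p = 0)
    (hn : 0 < n) : k2 u p / n ≤ 1 := by
  have hn' : (0 : ℝ) < n := by exact_mod_cast hn
  obtain ⟨hX1, hX2⟩ := int_X hu hp h0
  have h5 : 0 ≤ (n : ℝ) - k2 u p := by
    rw [← hX2]
    refine integral_nonneg fun g => ?_
    have h5 := pow_le_pow_left₀ (abs_nonneg _) (good_abs hu (BB p g)) 2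
    rw [sq_abs] at h5
    simp only [Pi.zero_apply]
    linarith
  rw [div_le_one hn']
  linarith

/-- the determinant of `N` -/
theorem Nop_det {u : E n → ℝ} (hu : Good 1 u) {G : Matrix (Fin n) (Fin n) ℝ} (hG : G.PosDef)
    {D : E n → E n →L[ℝ] ℝ} (hD : Measurable D) (h : DB u G D) {p : E n} (hp : ‖p‖ < 1)
    (h0 : tau u p = 0) (hn : 0 < n) :
    |(Nop D p).det| ≤ √(1 - k2 u p / n) ^ n * √G.det := by
  rw [det_mat]
  exact Pool.Agent.H241R3.FV.TMat.taskMat n hn _ G hG _ (Real.sqrt_nonneg _)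
    (Nop_trace hu hD h hp h0 hn)

theorem det_comp' (A B : E n →L[ℝ] E n) : (A ∘L B).det = A.det * B.det :=
  LinearMap.det_comp (A : E n →ₗ[ℝ] E n) (B : E n →ₗ[ℝ] E n)

/-- the determinant of the derivative of the natural map -/
theorem det_rel {u : E n → ℝ} {D : E n → E n →L[ℝ] ℝ} {p : E n} (hp : ‖p‖ < 1)
    {L : E n →L[ℝ] E n} (hL : ∀ w, Nop D p w + Sop u p (BB p (L w)) - BB p (L w) = 0) :
    (ContinuousLinearMap.id ℝ (E n) - Sop u p).det * L.det = pz p * (Nop D p).det := by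
  have h0 := pz_pos hp
  have h1 : Nop D p = (ContinuousLinearMap.id ℝ (E n) - Sop u p) ∘L ((BB p) ∘L L) := by
    ext1 w
    have := hL w
    simp only [ContinuousLinearMap.comp_apply, _root_.sub_apply, ContinuousLinearMap.id_apply]
    have h2 : Nop D p w = BB p (L w) - Sop u p (BB p (L w)) := by
      rw [← sub_eq_zero, ← this]; abel
    exact h2
  have h2 : (Nop D p).det = (ContinuousLinearMap.id ℝ (E n) - Sop u p).det *
      ((BB p).det * L.det) := by
    rw [h1, det_comp', det_comp']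
  rw [h2, det_BB hp]
  field_simp

end Pool.Agent.K7.H34.FV
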