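import Pool.Agent.K7.H34.FV.Ibp
import Pool.Agent.H241R3.FV.Base

/-!
# The linear maps attached to a point of the open ball
-/

set_option autoImplicit false

open MeasureTheory Filter Topology

namespace Pool.Agent.K7.H34.FV

open Pool.Agent.W716.FV (E gam gd)

variable {n : ℕ}

/-- `√(1 - |p|²)` -/
noncomputable def pz (p : E n) : ℝ := √(1 - ‖p‖ ^ 2)

/-- `p / √(1 - |p|²)` -/
noncomputable def eta (p : E n) : E n := (pz p)⁻¹ • p

/-- `(1 - p pᵀ)^(-1/2)` -/
noncomputable def BB (p : E n) : E n →L[ℝ] E n :=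
  ContinuousLinearMap.id ℝ (E n) +
    (pz p * (1 + pz p))⁻¹ • (innerSL ℝ p).smulRight p

/-- `(1 - p pᵀ)^(1/2)` -/
noncomputable def BI (p : E n) : E n →L[ℝ] E n :=
  ContinuousLinearMap.id ℝ (E n) - (1 + pz p)⁻¹ • (innerSL ℝ p).smulRight p

theorem BB_apply (p x : E n) : BB p x = x + ((pz p * (1 + pz p))⁻¹ * inner ℝ p x) • p := by
  simp [BB, smul_smul]

theorem BI_apply (p x : E n) : BI p x = x - ((1 + pz p)⁻¹ * inner ℝ p x) • p := by
  simp [BI, smul_smul]

theorem pz_nonneg (p : E n) : 0 ≤ pz p := Real.sqrt_nonneg _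

theorem pz_pos {p : E n} (hp : ‖p‖ < 1) : 0 < pz p := by
  unfold pz
  apply Real.sqrt_pos.2
  nlinarith [norm_nonneg p]

theorem pz_sq {p : E n} (hp : ‖p‖ < 1) : pz p ^ 2 = 1 - ‖p‖ ^ 2 := by
  unfold pz
  apply Real.sq_sqrt
  nlinarith [norm_nonneg p]

theorem pz_le_one (p : E n) : pz p ≤ 1 := by
  unfold pz
  rw [Real.sqrt_le_iff]
  exact ⟨zero_le_one, by nlinarith [norm_nonneg p]⟩

theorem pz_norm {p : E n} (hp : ‖p‖ < 1) : ‖p‖ ^ 2 = (1 - pz p) * (1 + pz p) := by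
  have := pz_sq hp
  nlinarith

theorem inner_pp (p : E n) : (inner ℝ p p : ℝ) = ‖p‖ ^ 2 := real_inner_self_eq_norm_sq p

theorem inner_p_BB {p : E n} (hp : ‖p‖ < 1) (x : E n) :
    (inner ℝ p (BB p x) : ℝ) = (pz p)⁻¹ * inner ℝ p x := by
  have h0 := pz_pos hp
  rw [BB_apply, inner_add_right, real_inner_smul_right, inner_pp, pz_norm hp]
  field_simp
  ring

theorem inner_p_BI {p : E n} (hp : ‖p‖ < 1) (x : E n) :
    (inner ℝ p (BI p x) : ℝ) = pz p * inner ℝ p x := by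
  have h0 := pz_pos hp
  rw [BI_apply, inner_sub_right, real_inner_smul_right, inner_pp, pz_norm hp]
  field_simp
  ring

theorem BI_BB {p : E n} (hp : ‖p‖ < 1) (x : E n) : BI p (BB p x) = x := by
  have h0 := pz_pos hp
  rw [BI_apply, inner_p_BB hp, BB_apply]
  rw [add_sub_assoc, ← sub_smul]
  have : (pz p * (1 + pz p))⁻¹ * inner ℝ p x - (1 + pz p)⁻¹ * ((pz p)⁻¹ * inner ℝ p x) = 0 := by
    field_simp
    ring
  rw [this, zero_smul, add_zero]

theorem BB_BI {p : E n} (hp : ‖p‖ < 1) (x : E n) : BB p (BI p x) = x := by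
  have h0 := pz_pos hp
  rw [BB_apply, inner_p_BI hp, BI_apply]
  rw [sub_add, ← sub_smul]
  have : (1 + pz p)⁻¹ * inner ℝ p x - (pz p * (1 + pz p))⁻¹ * (pz p * inner ℝ p x) = 0 := by
    field_simp
    ring
  rw [this, zero_smul, sub_zero]

theorem BB_symm (p x y : E n) : (inner ℝ (BB p x) y : ℝ) = inner ℝ x (BB p y) := by
  rw [BB_apply, BB_apply, inner_add_left, inner_add_right, real_inner_smul_left,
    real_inner_smul_right, real_inner_comm x p]
  ring

theorem BI_symm (p x y : E n) : (inner ℝ (BI p x) y : ℝ) = inner ℝ x (BI p y) := by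
  rw [BI_apply, BI_apply, inner_sub_left, inner_sub_right, real_inner_smul_left,
    real_inner_smul_right, real_inner_comm x p]
  ring

theorem inner_eta (p x : E n) : (inner ℝ (eta p) x : ℝ) = (pz p)⁻¹ * inner ℝ p x := by
  rw [eta, real_inner_smul_left]

theorem inner_p_BB' {p : E n} (hp : ‖p‖ < 1) (x : E n) :
    (inner ℝ p (BB p x) : ℝ) = inner ℝ (eta p) x := by
  rw [inner_p_BB hp, inner_eta]

theorem BB_p {p : E n} (hp : ‖p‖ < 1) : BB p p = eta p := by
  have h0 := pz_pos hp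
  rw [BB_apply, inner_pp, pz_norm hp, eta]
  nth_rw 1 [← one_smul ℝ p]
  rw [← add_smul]
  congr 1
  field_simp
  ring

theorem BI_p {p : E n} (hp : ‖p‖ < 1) : BI p p = pz p • p := by
  have h0 := pz_pos hp
  rw [BI_apply, inner_pp, pz_norm hp]
  nth_rw 1 [← one_smul ℝ p]
  rw [← sub_smul]
  congr 1
  field_simp
  ring

theorem BB_eta {p : E n} (hp : ‖p‖ < 1) : BB p (eta p) = ((pz p) ^ 2)⁻¹ • p := by
  have h0 := pz_pos hp
  rw [eta, map_smul, BB_p hp, eta, smul_smul]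
  congr 1
  field_simp

theorem BI_eta {p : E n} (hp : ‖p‖ < 1) : BI p (eta p) = p := by
  rw [← BB_p hp, BI_BB hp]

theorem norm_eta_sq {p : E n} (hp : ‖p‖ < 1) : ‖eta p‖ ^ 2 = ‖p‖ ^ 2 / pz p ^ 2 := by
  have h0 := pz_pos hp
  rw [eta, norm_smul, norm_inv, Real.norm_eq_abs, abs_of_pos h0]
  field_simp

theorem norm_BB_sq {p : E n} (hp : ‖p‖ < 1) (x : E n) :
    ‖BB p x‖ ^ 2 = ‖x‖ ^ 2 + (inner ℝ (eta p) x : ℝ) ^ 2 := by
  have h0 := pz_pos hp
  rw [← inner_pp (BB p x), BB_symm]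
  nth_rw 2 [BB_apply]
  rw [map_add, map_smul, BB_p hp, inner_add_right, real_inner_smul_right, BB_apply,
    inner_add_right, real_inner_smul_right, inner_pp, real_inner_comm (eta p) x, inner_eta,
    real_inner_comm p x]
  field_simp
  ring

theorem norm_le_BB {p : E n} (hp : ‖p‖ < 1) (x : E n) : ‖x‖ ≤ ‖BB p x‖ := by
  apply le_of_sq_le_sq _ (norm_nonneg _)
  rw [norm_BB_sq hp]
  nlinarith [sq_nonneg (inner ℝ (eta p) x : ℝ)]

/-- the equivalence given by `BB p` -/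
noncomputable def BE {p : E n} (hp : ‖p‖ < 1) : E n ≃L[ℝ] E n :=
  ContinuousLinearEquiv.equivOfInverse (BB p) (BI p) (BI_BB hp) (BB_BI hp)

theorem det_rk1 (a : ℝ) (p : E n) :
    (ContinuousLinearMap.id ℝ (E n) + a • (innerSL ℝ p).smulRight p).det = 1 + a * ‖p‖ ^ 2 := by
  rw [Pool.Agent.H241R3.FV.det_mat]
  have h : Pool.Agent.H241R3.FV.mat
      (ContinuousLinearMap.id ℝ (E n) + a • (innerSL ℝ p).smulRight p) =
      1 + Matrix.replicateCol Unit (fun i => a * p i) * Matrix.replicateRow Unit (fun i => p i) := by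
    ext i j
    simp only [Pool.Agent.H241R3.FV.mat, Matrix.add_apply, Matrix.mul_apply,
      Matrix.replicateCol_apply, Matrix.replicateRow_apply, Finset.univ_unique,
      Finset.sum_const, Finset.card_singleton, one_smul, Matrix.one_apply]
    simp [EuclideanSpace.inner_single_right]
    ring_nf
  rw [h, Matrix.det_one_add_replicateCol_mul_replicateRow]
  congr 1
  rw [EuclideanSpace.norm_sq_eq, dotProduct, Finset.mul_sum]
  refine Finset.sum_congr rfl fun i _ => ?_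
  rw [Real.norm_eq_abs, sq_abs]
  ring

theorem det_BB {p : E n} (hp : ‖p‖ < 1) : (BB p).det = (pz p)⁻¹ := by
  have h0 := pz_pos hp
  rw [BB, det_rk1, pz_norm hp]
  field_simp
  ring

end Pool.Agent.K7.H34.FV
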