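import Pool.Agent.K7.H34.FV.Zero

/-!
# The natural map in a chart
-/

set_option autoImplicit false

open MeasureTheory Metric Set Filter Topology InnerProductGeometry Asymptotics

namespace Pool.Agent.K7.H34.FV

open Pool.Agent.H241R3.FV (Sph RChart)
open Pool.Agent.W716.FV (E gam gd Good)

variable {n : ℕ} {M : Type} [MetricSpace M]

open Classical in
/-- the zero attached to a point of the chart -/
noncomputable def ff (U : M → E n → ℝ) (C : RChart n M) (c : E n) : E n :=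
  if h : ∃ p : E n, ‖p‖ < 1 ∧ Gm (U (C.map c)) p = 0 then h.choose else 0

/-- the set of the points of the chart whose zero has norm at most `ρ` -/
def Zs (U : M → E n → ℝ) (C : RChart n M) (ρ : ℝ) : Set (E n) :=
  {c | c ∈ C.D ∧ ∃ p : E n, ‖p‖ ≤ ρ ∧ Gm (U (C.map c)) p = 0}

theorem ff_eq {U : M → E n → ℝ} (hU : Fam U) {C : RChart n M} {c p : E n} (hp : ‖p‖ < 1)
    (hz : Gm (U (C.map c)) p = 0) : ff U C c = p := by
  have h : ∃ p : E n, ‖p‖ < 1 ∧ Gm (U (C.map c)) p = 0 := ⟨p, hp, hz⟩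
  unfold ff
  rw [dif_pos h]
  exact zero_unique (hU.good _) hp h.choose_spec.1 hz h.choose_spec.2

theorem ff_spec {U : M → E n → ℝ} (hU : Fam U) {C : RChart n M} {ρ : ℝ} (hρ : ρ < 1) {c : E n}
    (hc : c ∈ Zs U C ρ) : ‖ff U C c‖ ≤ ρ ∧ Gm (U (C.map c)) (ff U C c) = 0 := by
  obtain ⟨-, p, hp, hz⟩ := hc
  rw [ff_eq hU (hp.trans_lt hρ) hz]
  exact ⟨hp, hz⟩

theorem Zs_meas {U : M → E n → ℝ} (hU : Fam U) (C : RChart n M) {ρ : ℝ} (hρ0 : 0 ≤ ρ)
    (hρ : ρ < 1) : MeasurableSet (Zs U C ρ) := by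
  set Z : Set (E n) := {c | c ∈ C.U ∧ ∃ p : E n, ‖p‖ ≤ ρ ∧ Gm (U (C.map c)) p = 0} with hZ
  obtain ⟨C0, hC0, hlip⟩ := Gm_lip (n := n) hρ0 hρ (K := 1) zero_le_one
  have hopen : IsOpen (C.U \ Z) := by
    rw [Metric.isOpen_iff]
    intro c0 hc0
    have hcU : c0 ∈ C.U := hc0.1
    have hnz : ∀ p : E n, ‖p‖ ≤ ρ → Gm (U (C.map c0)) p ≠ 0 := fun p hp h =>
      hc0.2 ⟨hcU, p, hp, h⟩
    have hcont : ContinuousOn (fun p => ‖Gm (U (C.map c0)) p‖) (closedBall (0 : E n) ρ) := by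
      have hL : LipschitzOnWith (Real.toNNReal C0) (fun p => Gm (U (C.map c0)) p)
          (closedBall (0 : E n) ρ) := by
        refine LipschitzOnWith.of_dist_le_mul fun p hp p' hp' => ?_
        rw [dist_eq_norm, dist_eq_norm, Real.coe_toNNReal _ hC0]
        exact hlip _ _ (hU.good _) (hU.good _) ‖p - p'‖ (fun v => by
          rw [sub_self, abs_zero]; positivity) p p' (mem_closedBall_zero_iff.1 hp)
          (mem_closedBall_zero_iff.1 hp') le_rfl
      exact hL.continuousOn.norm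
    obtain ⟨p0, hp0, hmin⟩ := (isCompact_closedBall (0 : E n) ρ).exists_isMinOn
      ⟨0, mem_closedBall_self hρ0⟩ hcont
    set δ := ‖Gm (U (C.map c0)) p0‖ with hδ
    have hδ0 : 0 < δ := norm_pos_iff.2 (hnz p0 (mem_closedBall_zero_iff.1 hp0))
    obtain ⟨r, K, hr, hK, hrU, hrK⟩ := chart_lip C c0 hcU
    refine ⟨min r (δ / (C0 * K + 1)), lt_min hr (by positivity), fun c hc => ?_⟩
    have hc1 : c ∈ closedBall c0 r :=
      mem_closedBall.2 ((mem_ball.1 hc).le.trans (min_le_left _ _))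
    have hc2 : ‖c - c0‖ < δ / (C0 * K + 1) := by
      rw [← dist_eq_norm]
      exact (mem_ball.1 hc).trans_le (min_le_right _ _)
    refine ⟨hrU hc1, ?_⟩
    rintro ⟨-, p, hp, hz⟩
    have h1 := hlip (U (C.map c0)) (U (C.map c)) (hU.good _) (hU.good _)
      (dist (C.map c0) (C.map c)) (fun v => by rw [one_mul]; exact hU.lipq _ _ v) p p hp hp
      (by simp)
    rw [hz, sub_zero] at h1
    have h2 : δ ≤ ‖Gm (U (C.map c0)) p‖ := hmin (mem_closedBall_zero_iff.2 hp)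
    have h3 := hrK c0 (mem_closedBall_self hr.le) c hc1
    rw [norm_sub_rev] at h3
    have h4 : C0 * dist (C.map c0) (C.map c) ≤ C0 * (K * ‖c - c0‖) :=
      mul_le_mul_of_nonneg_left h3 hC0
    rw [lt_div_iff₀ (by positivity)] at hc2
    nlinarith [norm_nonneg (c - c0)]
  have h1 : Zs U C ρ = C.D ∩ (C.U \ (C.U \ Z)) := by
    ext c
    constructor
    · rintro ⟨hcD, p, hp, hz⟩
      exact ⟨hcD, C.D_sub hcD, fun h => h.2 ⟨C.D_sub hcD, p, hp, hz⟩⟩
    · rintro ⟨hcD, hcU, h⟩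
      by_contra hcon
      refine h ⟨hcU, fun hZc => hcon ?_⟩
      exact ⟨hcD, hZc.2⟩
  rw [h1]
  exact C.meas_D.inter (C.isOpen_U.measurableSet.diff hopen.measurableSet)

theorem ff_lip {U : M → E n → ℝ} (hU : Fam U) (C : RChart n M) {ρ : ℝ} (hρ0 : 0 ≤ ρ)
    (hρ : ρ < 1) : ∀ c ∈ Zs U C ρ, ∃ r : ℝ, 0 < r ∧ ∃ K : ℝ, ∀ y ∈ Zs U C ρ ∩ ball c r,
      ∀ z ∈ Zs U C ρ ∩ ball c r, ‖ff U C y - ff U C z‖ ≤ K * ‖y - z‖ := by
  intro c hc
  obtain ⟨C0, hC0, hlip⟩ := Gm_lip (n := n) hρ0 hρ (K := 1) zero_le_one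
  obtain ⟨r, K, hr, hK, hrU, hrK⟩ := chart_lip C c (C.D_sub hc.1)
  have hs : 0 < √(1 - ρ ^ 2) := Real.sqrt_pos.2 (by nlinarith)
  refine ⟨r, hr, 2 / √(1 - ρ ^ 2) * (C0 * K), fun y hy z hz => ?_⟩
  obtain ⟨hy1, hy2⟩ := ff_spec hU hρ hy.1
  obtain ⟨hz1, hz2⟩ := ff_spec hU hρ hz.1
  have h1 := stab (hU.good (C.map z)) hρ hz1 hy1 hz2
  have h2 := hlip (U (C.map z)) (U (C.map y)) (hU.good _) (hU.good _)
    (dist (C.map z) (C.map y)) (fun v => by rw [one_mul]; exact hU.lipq _ _ v) (ff U C y)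
    (ff U C y) hy1 hy1 (by simp)
  rw [hy2, sub_zero] at h2
  have h3 := hrK z (ball_subset_closedBall hz.2) y (ball_subset_closedBall hy.2)
  rw [norm_sub_rev] at h3
  have h4 : √(1 - ρ ^ 2) / 2 * ‖ff U C y - ff U C z‖ ≤ C0 * (K * ‖y - z‖) :=
    h1.trans (h2.trans (mul_le_mul_of_nonneg_left h3 hC0))
  have h5 : ‖ff U C y - ff U C z‖ =
      2 / √(1 - ρ ^ 2) * (√(1 - ρ ^ 2) / 2 * ‖ff U C y - ff U C z‖) := by
    field_simp
  rw [h5]
  calc 2 / √(1 - ρ ^ 2) * (√(1 - ρ ^ 2) / 2 * ‖ff U C y - ff U C z‖) ≤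
      2 / √(1 - ρ ^ 2) * (C0 * (K * ‖y - z‖)) := mul_le_mul_of_nonneg_left h4 (by positivity)
    _ = _ := by ring

theorem ff_cont {U : M → E n → ℝ} (hU : Fam U) (C : RChart n M) {ρ : ℝ} (hρ0 : 0 ≤ ρ)
    (hρ : ρ < 1) : ContinuousOn (ff U C) (Zs U C ρ) := by
  intro c hc
  obtain ⟨r, hr, K, hK⟩ := ff_lip hU C hρ0 hρ c hc
  rw [ContinuousWithinAt, tendsto_iff_dist_tendsto_zero]
  have hlim : Tendsto (fun y : E n => K * ‖y - c‖) (𝓝[Zs U C ρ] c) (𝓝 0) := by
    have hcc : Continuous (fun y : E n => K * ‖y - c‖) := by fun_prop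
    have := (hcc.tendsto c).mono_left (nhdsWithin_le_nhds (s := Zs U C ρ))
    simpa using this
  refine squeeze_zero' (Eventually.of_forall fun _ => dist_nonneg) ?_ hlim
  filter_upwards [self_mem_nhdsWithin, nhdsWithin_le_nhds (ball_mem_nhds c hr)] with y hy1 hy2
  rw [dist_eq_norm]
  exact hK y ⟨hy1, hy2⟩ c ⟨hc, mem_ball_self hr⟩

theorem ff_hasFDeriv {U : M → E n → ℝ} (hU : Fam U) (C : RChart n M) {ρ : ℝ} (hρ0 : 0 ≤ ρ)
    (hρ : ρ < 1) {c : E n} (hc : c ∈ Zs U C ρ) (D : E n → E n →L[ℝ] ℝ) (hD : Measurable D)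
    (hder : ∀ᵐ G ∂(volume : Measure (E n)), HasFDerivAt (fun c' => U (C.map c') G) (D G) c)
    (hDB : DB (U (C.map c)) (C.G c) D) :
    ∃ L : E n →L[ℝ] E n, HasFDerivWithinAt (ff U C) L (Zs U C ρ) c ∧
      ∀ w, Nop D (ff U C c) w + Sop (U (C.map c)) (ff U C c) (BB (ff U C c) (L w)) -
        BB (ff U C c) (L w) = 0 := by
  obtain ⟨hp1, hz⟩ := ff_spec hU hρ hc
  set p := ff U C c with hpd
  have hp : ‖p‖ < 1 := hp1.trans_lt hρ
  have h0 := pz_pos hp
  have htau : tau (U (C.map c)) p = 0 := (Gm_eq_zero hp).1 hz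
  obtain ⟨r, K, hr, hK, hrU, hrK⟩ := chart_lip C c (C.D_sub hc.1)
  obtain ⟨hi, hF⟩ := hasFDerivAt_Gm (V := fun c' => U (C.map c')) (c := c) (p := p) hr hK hp
    (fun c' => hU.good _) (fun c' hc' c'' hc'' v => by
      have h1 := hrK c' (ball_subset_closedBall hc') c'' (ball_subset_closedBall hc'')
      calc |U (C.map c') v - U (C.map c'') v| ≤ ‖v‖ * dist (C.map c') (C.map c'') :=
            hU.lipq _ _ v
        _ ≤ ‖v‖ * (K * ‖c' - c''‖) := mul_le_mul_of_nonneg_left h1 (norm_nonneg v)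
        _ = _ := by ring) D hD (ac_gam.ae_le hder)
  obtain ⟨K1, hK1, hb⟩ := DB_norm (hU.good _) hDB
  have hDL := int_DL (hU.good (C.map c)) hD hK1 hb hp hi
  set F' := ∫ v, DL (U (C.map c)) p D v ∂(gam n) with hF'
  set T : E n →L[ℝ] E n := F'.comp (ContinuousLinearMap.inr ℝ (E n) (E n)) with hT
  have hTz : ∀ z, T z = (pz p)⁻¹ • BB p (Sop (U (C.map c)) p (BB p z) - BB p z) := by
    intro z
    have h1 : T z = F' (0, z) := rfl
    rw [h1, hDL, map_zero, zero_add]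
  have hinj : Function.Injective (T : E n →ₗ[ℝ] E n) := by
    rw [← LinearMap.ker_eq_bot, LinearMap.ker_eq_bot']
    intro z hz0
    have h1 : T z = 0 := hz0
    rw [hTz, smul_eq_zero_iff_right (inv_ne_zero h0.ne')] at h1
    have h2 : Sop (U (C.map c)) p (BB p z) - BB p z = 0 := by
      rw [← BI_BB hp (Sop (U (C.map c)) p (BB p z) - BB p z), h1, map_zero]
    have h3 := Sop_quad (hU.good (C.map c)) hp (BB p z)
    rw [sub_eq_zero.1 h2, inner_pp, htau, inner_zero_left, mul_zero, mul_zero, add_zero] at h3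
    have h4 := sg_lt p hp
    have h5 : ‖BB p z‖ ^ 2 ≤ 0 := by nlinarith [sq_nonneg ‖BB p z‖]
    have h6 : BB p z = 0 := by
      have : ‖BB p z‖ = 0 := by nlinarith [norm_nonneg (BB p z)]
      exact norm_eq_zero.1 this
    rw [← BI_BB hp z, h6, map_zero]
  set e : E n ≃L[ℝ] E n :=
    (LinearEquiv.ofInjectiveEndo (T : E n →ₗ[ℝ] E n) hinj).toContinuousLinearEquiv with he
  have heT : ∀ z, e z = T z := fun z => rfl
  set L : E n →L[ℝ] E n :=
    -((e.symm : E n →L[ℝ] E n).comp (F'.comp (ContinuousLinearMap.inl ℝ (E n) (E n)))) with hL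
  have hLw : ∀ w, L w = -(e.symm (F' (w, 0))) := fun w => rfl
  have hsplit : ∀ w z, F' (w, z) = F' (w, 0) + e z := by
    intro w z
    have h1 : ((w, z) : E n × E n) = (w, 0) + (0, z) := by simp
    rw [h1, map_add]
    rfl
  refine ⟨L, ?_, fun w => ?_⟩
  · have hcontw := ff_cont hU C hρ0 hρ c hc
    have ht : Tendsto (fun c' => ((c', ff U C c') : E n × E n)) (𝓝[Zs U C ρ] c) (𝓝 (c, p)) := by
      rw [nhds_prod_eq]
      exact (tendsto_id.mono_left nhdsWithin_le_nhds).prodMk hcontw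
    have hlo := (hF.isLittleO.comp_tendsto ht)
    have hO : (fun c' : E n => ((c', ff U C c') : E n × E n) - (c, p)) =O[𝓝[Zs U C ρ] c]
        fun c' => c' - c := by
      obtain ⟨r', hr', K', hK'⟩ := ff_lip hU C hρ0 hρ c hc
      refine IsBigO.of_bound (max 1 K') ?_
      filter_upwards [self_mem_nhdsWithin, nhdsWithin_le_nhds (ball_mem_nhds c hr')] with y hy1 hy2
      have h1 := hK' y ⟨hy1, hy2⟩ c ⟨hc, mem_ball_self hr'⟩
      rw [Prod.mk_sub_mk, Prod.norm_def]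
      refine max_le ?_ ?_
      · calc ‖y - c‖ = 1 * ‖y - c‖ := (one_mul _).symm
          _ ≤ _ := mul_le_mul_of_nonneg_right (le_max_left _ _) (norm_nonneg _)
      · exact h1.trans (mul_le_mul_of_nonneg_right (le_max_right _ _) (norm_nonneg _))
    have hlo2 := hlo.trans_isBigO hO
    have hlo3 : (fun c' => F' (((c', ff U C c') : E n × E n) - (c, p))) =o[𝓝[Zs U C ρ] c]
        fun c' => c' - c := by
      refine (hlo2.neg_left).congr' ?_ (EventuallyEq.refl _ _)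
      filter_upwards [self_mem_nhdsWithin] with y hy
      have h1 := (ff_spec hU hρ hy).2
      simp only [Function.comp_apply]
      rw [h1, hz]
      simp
    have hlo4 : (fun c' => e.symm (F' (((c', ff U C c') : E n × E n) - (c, p))))
        =o[𝓝[Zs U C ρ] c] fun c' => c' - c :=
      ((e.symm : E n →L[ℝ] E n).isBigO_comp _ _).trans_isLittleO hlo3
    rw [hasFDerivWithinAt_iff_isLittleO]
    refine hlo4.congr (fun y => ?_) (fun y => rfl)
    rw [Prod.mk_sub_mk, hsplit, map_add, ContinuousLinearEquiv.symm_apply_apply, hLw]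
    abel
  · have h1 : F' (w, L w) = 0 := by
      rw [hsplit, hLw, map_neg, ContinuousLinearEquiv.apply_symm_apply, add_neg_cancel]
    rw [hDL, smul_eq_zero_iff_right (inv_ne_zero h0.ne')] at h1
    rw [← BI_BB hp (Nop D p w + Sop (U (C.map c)) p (BB p (L w)) - BB p (L w)), h1, map_zero]

/-- The main inequality. -/
theorem main_ineq {U : M → E n → ℝ} (hU : Fam U) (hn : 0 < n) {ρ : ℝ} (hρ0 : 0 ≤ ρ)
    (hρ : ρ < 1) (Jb : E n → ℝ) (hJm : Measurable Jb) (hJ0 : ∀ p, 0 < Jb p)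
    (hJ : ∀ u : E n → ℝ, Good 1 u → ∀ p : E n, ‖p‖ ≤ ρ → tau u p = 0 →
      √(1 - k2 u p / n) ^ n ≤ Jb p * (ContinuousLinearMap.id ℝ (E n) - Sop u p).det ∧
        0 < (ContinuousLinearMap.id ℝ (E n) - Sop u p).det)
    {ι : Type} [Countable ι] (C : ι → RChart n M)
    (hcov : ∀ p : E n, ‖p‖ ≤ ρ → ∃ i, ∃ c ∈ (C i).D, Gm (U ((C i).map c)) p = 0) :
    ∫⁻ p in closedBall (0 : E n) ρ, ENNReal.ofReal (pz p * Jb p)⁻¹ ≤
      ∑' i, ∫⁻ c in (C i).D, ENNReal.ofReal √((C i).G c).det := by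
  have hpzm : Measurable (pz : E n → ℝ) := by
    have : Continuous (pz : E n → ℝ) := by unfold pz; fun_prop
    exact this.measurable
  have hfm : ∀ i, AEMeasurable (ff U (C i)) (volume.restrict (Zs U (C i) ρ)) := fun i =>
    (ff_cont hU (C i) hρ0 hρ).aemeasurable (Zs_meas hU (C i) hρ0 hρ)
  have hGm : ∀ i, AEMeasurable (fun c => √((C i).G c).det) (volume.restrict (Zs U (C i) ρ)) := by
    intro i
    have hc : ContinuousOn (fun c => √((C i).G c).det) (C i).U := by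
      have h1 : Continuous fun A : Matrix (Fin n) (Fin n) ℝ => √A.det := by fun_prop
      exact h1.comp_continuousOn (C i).cont_G
    exact (hc.mono fun c hc => (C i).D_sub hc.1).aemeasurable (Zs_meas hU (C i) hρ0 hρ)
  have harea := area_within (volume : Measure (E n)) (fun i => Zs U (C i) ρ)
    (fun i => ff U (C i))
    (fun i c => ENNReal.ofReal (pz (ff U (C i) c) * Jb (ff U (C i) c) * √((C i).G c).det))
    (closedBall (0 : E n) ρ) (fun p => ENNReal.ofReal (pz p * Jb p)⁻¹)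
    (fun i => Zs_meas hU (C i) hρ0 hρ) hfm
    (fun i => ((((hpzm.comp_aemeasurable (hfm i)).mul (hJm.comp_aemeasurable (hfm i))).mul
      (hGm i)).ennreal_ofReal))
    (fun i t ht h0 => null_within (ff_lip hU (C i) hρ0 hρ) ht h0) ?_
    measurableSet_closedBall ((hpzm.mul hJm).inv.ennreal_ofReal) ?_
  · refine harea.trans (ENNReal.tsum_le_tsum fun i => ?_)
    have h1 : ∫⁻ c in Zs U (C i) ρ, ENNReal.ofReal (pz (ff U (C i) c) * Jb (ff U (C i) c) *
        √((C i).G c).det) * ENNReal.ofReal (pz (ff U (C i) c) * Jb (ff U (C i) c))⁻¹ =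
        ∫⁻ c in Zs U (C i) ρ, ENNReal.ofReal √((C i).G c).det := by
      refine setLIntegral_congr_fun (Zs_meas hU (C i) hρ0 hρ) fun c hc => ?_
      have h2 := pz_pos ((ff_spec hU hρ hc).1.trans_lt hρ)
      have h3 := hJ0 (ff U (C i) c)
      rw [← ENNReal.ofReal_mul (by positivity)]
      congr 1
      field_simp
    rw [h1]
    exact lintegral_mono_set fun c hc => hc.1
  · intro i
    filter_upwards [chart_diff hU (C i)] with c hcd hc
    obtain ⟨D, hD, hder, hDB⟩ := hcd ((C i).D_sub hc.1)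
    obtain ⟨L, hL1, hL2⟩ := ff_hasFDeriv hU (C i) hρ0 hρ hc D hD hder hDB
    refine ⟨L, hL1, ENNReal.ofReal_le_ofReal ?_⟩
    obtain ⟨hp1, hz⟩ := ff_spec hU hρ hc
    have hp := hp1.trans_lt hρ
    have h0 := pz_pos hp
    have htau := (Gm_eq_zero hp).1 hz
    have h1 := det_rel hp hL2
    have h2 := Nop_det (hU.good _) ((C i).pos_G c ((C i).D_sub hc.1)) hD hDB hp htau hn
    obtain ⟨h3, h4⟩ := hJ _ (hU.good ((C i).map c)) _ hp1 htau
    set p := ff U (C i) c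
    set δ := (ContinuousLinearMap.id ℝ (E n) - Sop (U ((C i).map c)) p).det
    have h5 : δ * |L.det| = pz p * |(Nop D p).det| := by
      rw [← abs_of_pos h4, ← abs_mul, h1, abs_mul, abs_of_pos h0]
    have h6 : δ * |L.det| ≤ δ * (pz p * Jb p * √((C i).G c).det) := by
      rw [h5]
      calc pz p * |(Nop D p).det| ≤
          pz p * (√(1 - k2 (U ((C i).map c)) p / n) ^ n * √((C i).G c).det) :=
            mul_le_mul_of_nonneg_left h2 h0.le
        _ ≤ pz p * ((Jb p * δ) * √((C i).G c).det) :=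
            mul_le_mul_of_nonneg_left (mul_le_mul_of_nonneg_right h3 (Real.sqrt_nonneg _)) h0.le
        _ = _ := by ring
    exact le_of_mul_le_mul_left h6 h4
  · intro p hp
    obtain ⟨i, c, hc, hz⟩ := hcov p (mem_closedBall_zero_iff.1 hp)
    refine mem_iUnion.2 ⟨i, c, ⟨hc, p, mem_closedBall_zero_iff.1 hp, hz⟩, ?_⟩
    exact ff_eq hU ((mem_closedBall_zero_iff.1 hp).trans_lt hρ) hz

end Pool.Agent.K7.H34.FV
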