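import Pool.Agent.K7.H34.FV.Two

/-!
# The determinant of `N` in dimension two: a bound which uses `S`
-/

set_option autoImplicit false

open MeasureTheory Filter Topology

namespace Pool.Agent.K7.H34.FV

open Pool.Agent.W716.FV (E gam gd Good)
open Pool.Agent.H241R3.FV (mat act gnorm det_mat)

variable {n : ℕ}

/-- the function `X` -/
noncomputable def XX (u : E n → ℝ) (p g : E n) : ℝ := ‖BB p g‖ ^ 2 - u (BB p g) ^ 2

theorem XX_nonneg {u : E n → ℝ} (hu : Good 1 u) (p g : E n) : 0 ≤ XX u p g := by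
  have h5 := pow_le_pow_left₀ (abs_nonneg _) (good_abs hu (BB p g)) 2
  rw [sq_abs] at h5
  unfold XX
  linarith

theorem XX_cont {u : E n → ℝ} (hu : Good 1 u) (p : E n) : Continuous (XX u p) := by
  have hc := good_cont hu
  unfold XX
  fun_prop

theorem XX_hom {u : E n → ℝ} (hu : Good 1 u) (p : E n) (t : ℝ) (g : E n) (ht : 0 ≤ t) :
    XX u p (t • g) = t ^ 2 * XX u p g := by
  unfold XX
  rw [map_smul, hu.hom t _ ht, norm_smul, mul_pow, Real.norm_eq_abs, sq_abs]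
  ring

theorem XX_PL {u : E n → ℝ} (hu : Good 1 u) (p : E n) : PL (XX u p) := by
  have h1 : PL (fun g => u (BB p g)) := by
    refine PL.of_lip (L := ‖BB p‖) (norm_nonneg _) fun x y => ?_
    refine (hu.lip _ _).trans ?_
    rw [one_mul, ← map_sub]
    exact (BB p).le_opNorm _
  have h2 : PL (fun g => ‖BB p g‖) := by
    refine PL.of_lip (L := ‖BB p‖) (norm_nonneg _) fun x y => ?_
    refine (abs_norm_sub_norm_le _ _).trans ?_
    rw [← map_sub]
    exact (BB p).le_opNorm _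
  exact (h2.pow 2).sub (h1.pow 2)

theorem trace_R {u : E n → ℝ} (hu : Good 1 u) {G : Matrix (Fin n) (Fin n) ℝ}
    {D : E n → E n →L[ℝ] ℝ} (hD : Measurable D) (h : DB u G D) {p : E n} (hp : ‖p‖ < 1)
    (A : Matrix (Fin n) (Fin n) ℝ) (hA : A.transpose * G * A = 1) (R : E n →L[ℝ] E n)
    (hR : Sy R) :
    (mat (R ∘L Nop D p) * A).trace ≤ ∫ g, √(XX u p g) * ‖R g‖ ∂(gam n) := by
  obtain ⟨K, hK, hb⟩ := DB_norm hu h
  have hi := Nop_integrable hD hK hb hp
  have hi1 : ∀ w : E n, Integrable (fun g => D (BB p g) w • g) (gam n) := fun w =>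
    (ContinuousLinearMap.apply ℝ (E n) w).integrable_comp hi
  have hi2 : ∀ (w : E n) (i : Fin n), Integrable (fun g => D (BB p g) w * (R g) i) (gam n) := by
    intro w i
    have h2 := (innerSL ℝ (R (bv n i))).integrable_comp (hi1 w)
    refine h2.congr (Eventually.of_forall fun g => ?_)
    simp only [innerSL_apply_apply, real_inner_smul_right]
    rw [hR, inner_bv]
  have hcomp : ∀ (w : E n) (i : Fin n), (R (Nop D p w)) i =
      ∫ g, D (BB p g) w * (R g) i ∂(gam n) := by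
    intro w i
    rw [← inner_bv, hR, Nop_apply hD hK hb hp, ← integral_inner (hi1 w)]
    refine integral_congr_ae (Eventually.of_forall fun g => ?_)
    simp only [real_inner_smul_right]
    rw [hR, inner_bv]
  have e2 : ∀ g : E n, D (BB p g) (act A (R g)) =
      ∑ i, ∑ j, A j i * (D (BB p g) (bv n j) * (R g) i) := by
    intro g
    rw [act_eq_sum, map_sum]
    refine Finset.sum_congr rfl fun i _ => ?_
    rw [map_sum]
    refine Finset.sum_congr rfl fun j _ => ?_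
    rw [map_smul, smul_eq_mul]
    ring
  have h1 : (mat (R ∘L Nop D p) * A).trace = ∫ g, D (BB p g) (act A (R g)) ∂(gam n) := by
    have e1 : (mat (R ∘L Nop D p) * A).trace =
        ∑ i, ∑ j, A j i * ∫ g, D (BB p g) (bv n j) * (R g) i ∂(gam n) := by
      simp only [Matrix.trace, Matrix.diag, Matrix.mul_apply, mat,
        ContinuousLinearMap.comp_apply]
      refine Finset.sum_congr rfl fun i _ => Finset.sum_congr rfl fun j _ => ?_
      rw [hcomp]
      ring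
    rw [e1]
    simp only [e2]
    rw [integral_finsetSum _ fun i _ => integrable_finsetSum _ fun j _ => (hi2 _ i).const_mul _]
    refine Finset.sum_congr rfl fun i _ => ?_
    rw [integral_finsetSum _ fun j _ => (hi2 _ i).const_mul _]
    refine Finset.sum_congr rfl fun j _ => ?_
    rw [integral_const_mul]
  have hXn := XX_nonneg hu p
  have hXc := XX_cont hu p
  have i5 : Integrable (fun g : E n => √(XX u p g) * ‖R g‖) (gam n) := by
    refine integ (‖BB p‖ * ‖R‖) 2 (by fun_prop : Continuous _).aestronglyMeasurable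
      (Eventually.of_forall fun g => ?_)
    rw [Real.norm_of_nonneg (by positivity)]
    have h3 : √(XX u p g) ≤ ‖BB p g‖ := by
      rw [Real.sqrt_le_left (norm_nonneg _)]
      unfold XX
      linarith [sq_nonneg (u (BB p g))]
    calc √(XX u p g) * ‖R g‖ ≤ (‖BB p‖ * ‖g‖) * (‖R‖ * ‖g‖) :=
          mul_le_mul (h3.trans ((BB p).le_opNorm g)) (R.le_opNorm g) (norm_nonneg _)
            (by positivity)
      _ = (‖BB p‖ * ‖R‖) * ‖g‖ ^ 2 := by ring
      _ ≤ _ := mul_le_mul_of_nonneg_left (pow_le_pow_left₀ (norm_nonneg g) (by linarith) 2)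
          (by positivity)
  have i6 : Integrable (fun g => D (BB p g) (act A (R g))) (gam n) := by
    simp only [e2]
    exact integrable_finsetSum _ fun i _ => integrable_finsetSum _ fun j _ =>
      (hi2 _ i).const_mul _
  rw [h1]
  refine integral_mono_ae i6 i5 ?_
  filter_upwards [ae_BB hp h] with g hg
  have h3 := hg (act A (R g))
  rw [qf_act hA] at h3
  refine (le_abs_self _).trans (abs_le_of_sq_le_sq ?_ (by positivity))
  rw [mul_pow, Real.sq_sqrt (hXn g)]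
  exact h3

theorem int_norm4 : ∫ g : E n, (‖g‖ ^ 2) ^ 2 ∂(gam n) = n * (n + 2) := by
  have h := hom_int' (n := n) (h := fun g : E n => ‖g‖ ^ 2) (j := 2) (by fun_prop)
    (fun t x ht => by simp only [norm_smul, Real.norm_eq_abs, abs_of_nonneg ht]; ring)
  rw [(Pool.Agent.W933.FVGM.main n).2.2.2.2] at h
  push_cast at h
  rw [mul_comm, ← h]
  refine integral_congr_ae (Eventually.of_forall fun g => ?_)
  simp only
  ring

/-- Cauchy-Schwarz for the trace -/
theorem cs_R {u : E n → ℝ} (hu : Good 1 u) (p : E n) (R : E n →L[ℝ] E n) :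
    (n + 2) * (∫ g, √(XX u p g) * ‖R g‖ ∂(gam n)) ^ 2 ≤
      n * ∫ g, XX u p g * ‖R g‖ ^ 2 ∂(gam n) := by
  have hXn := XX_nonneg hu p
  have hXc := XX_cont hu p
  have h1 := hom_int' (n := n) (h := fun g : E n => √(XX u p g) * ‖R g‖) (j := 2)
    (by fun_prop) (fun t x ht => by
      simp only [XX_hom hu p t x ht, map_smul, norm_smul, Real.norm_eq_abs, abs_of_nonneg ht]
      rw [Real.sqrt_mul (sq_nonneg t), Real.sqrt_sq ht]
      ring)
  have i1 : Integrable (fun g : E n => XX u p g * ‖R g‖ ^ 2) (gam n) := by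
    have h2 : PL (fun g => ‖R g‖) := by
      refine PL.of_lip (L := ‖R‖) (norm_nonneg _) fun x y => ?_
      refine (abs_norm_sub_norm_le _ _).trans ?_
      rw [← map_sub]
      exact R.le_opNorm _
    exact ((XX_PL hu p).mul (h2.pow 2)).integrable
  have i2 : Integrable (fun g : E n => (‖g‖ ^ 2) ^ 2) (gam n) := (PL.norm_sq.pow 2).integrable
  have i3 : Integrable (fun g : E n => (√(XX u p g) * ‖R g‖) * ‖g‖ ^ 2) (gam n) := by
    refine integ (‖BB p‖ * ‖R‖) 4 (by fun_prop : Continuous _).aestronglyMeasurable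
      (Eventually.of_forall fun g => ?_)
    rw [Real.norm_of_nonneg (by positivity)]
    have h3 : √(XX u p g) ≤ ‖BB p g‖ := by
      rw [Real.sqrt_le_left (norm_nonneg _)]
      unfold XX
      linarith [sq_nonneg (u (BB p g))]
    calc √(XX u p g) * ‖R g‖ * ‖g‖ ^ 2 ≤ (‖BB p‖ * ‖g‖) * (‖R‖ * ‖g‖) * ‖g‖ ^ 2 :=
          mul_le_mul_of_nonneg_right (mul_le_mul (h3.trans ((BB p).le_opNorm g))
            (R.le_opNorm g) (norm_nonneg _) (by positivity)) (by positivity)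
      _ = (‖BB p‖ * ‖R‖) * ‖g‖ ^ 4 := by ring
      _ ≤ _ := mul_le_mul_of_nonneg_left (pow_le_pow_left₀ (norm_nonneg g) (by linarith) 4)
          (by positivity)
  have e1 : ∀ g : E n, (√(XX u p g) * ‖R g‖) ^ 2 = XX u p g * ‖R g‖ ^ 2 := fun g => by
    rw [mul_pow, Real.sq_sqrt (hXn g)]
  have h3 := cauchy (μ := gam n) (f := fun g : E n => √(XX u p g) * ‖R g‖)
    (g := fun g : E n => ‖g‖ ^ 2) (by simp only [e1]; exact i1) i2 i3
  simp only [e1] at h3
  rw [int_norm4] at h3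
  have e2 : ∫ g, √(XX u p g) * ‖R g‖ * ‖g‖ ^ 2 ∂(gam n) =
      (n + 2) * ∫ g, √(XX u p g) * ‖R g‖ ∂(gam n) := by
    push_cast at h1
    rw [← h1]
    refine integral_congr_ae (Eventually.of_forall fun g => ?_)
    simp only
    ring
  rw [e2] at h3
  have hn : (0 : ℝ) < n + 2 := by positivity
  have h4 : ((n : ℝ) + 2) * (((n : ℝ) + 2) * (∫ g, √(XX u p g) * ‖R g‖ ∂(gam n)) ^ 2) ≤
      ((n : ℝ) + 2) * (n * ∫ g, XX u p g * ‖R g‖ ^ 2 ∂(gam n)) := by
    calc ((n : ℝ) + 2) * (((n : ℝ) + 2) * (∫ g, √(XX u p g) * ‖R g‖ ∂(gam n)) ^ 2) =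
        (((n : ℝ) + 2) * ∫ g, √(XX u p g) * ‖R g‖ ∂(gam n)) ^ 2 := by ring
      _ ≤ _ := h3
      _ = _ := by ring
  exact le_of_mul_le_mul_left h4 hn

/-- traceless symmetric operators in dimension two -/
theorem two_struct {A : E 2 →L[ℝ] E 2} (hA : Sy A) (h0 : tr A = 0) (x : E 2) :
    ‖A x‖ ^ 2 = hs A / 2 * ‖x‖ ^ 2 := by
  have hx : A x = x 0 • A (bv 2 0) + x 1 • A (bv 2 1) := by
    rw [← map_smul, ← map_smul, ← map_add]
    congr 1
    ext i
    fin_cases i <;> simp [bv]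
  have h1 := hA (bv 2 0) (bv 2 1)
  rw [inner_bv, inner_bv] at h1
  have h2 : tr A = (A (bv 2 0)) 0 + (A (bv 2 1)) 1 := by
    unfold tr
    rw [Fin.sum_univ_two, inner_bv, inner_bv]
  rw [h0] at h2
  have h3 : hs A = ((A (bv 2 0)) 0 ^ 2 + (A (bv 2 0)) 1 ^ 2) +
      ((A (bv 2 1)) 0 ^ 2 + (A (bv 2 1)) 1 ^ 2) := by
    unfold hs
    rw [Fin.sum_univ_two, norm2, norm2]
  have h4 : (A x) 0 = x 0 * (A (bv 2 0)) 0 + x 1 * (A (bv 2 1)) 0 := by
    rw [hx]; simp
  have h5 : (A x) 1 = x 0 * (A (bv 2 0)) 1 + x 1 * (A (bv 2 1)) 1 := by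
    rw [hx]; simp
  rw [norm2 (A x), norm2 x, h4, h5, h3, ← h1]
  have h6 : (A (bv 2 1)) 1 = -(A (bv 2 0)) 0 := by linarith
  rw [h6]
  ring

theorem two_abs {A : E 2 →L[ℝ] E 2} (hA : Sy A) (h0 : tr A = 0) {l : ℝ} (hl : 0 ≤ l)
    (hh : hs A = 2 * l ^ 2) (x : E 2) : -(l * ‖x‖ ^ 2) ≤ (inner ℝ (A x) x : ℝ) := by
  have h1 := abs_real_inner_le_norm (A x) x
  have h2 := two_struct hA h0 x
  rw [hh] at h2
  have h3 : ‖A x‖ = l * ‖x‖ := by
    refine (sq_eq_sq₀ (norm_nonneg _) (by positivity)).1 ?_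
    rw [h2]; ring
  rw [h3] at h1
  have := (abs_le.1 h1).1
  linarith

theorem int_lin6 {α : Type*} [MeasurableSpace α] {μ : Measure α} {f1 f2 f3 f4 f5 f6 : α → ℝ}
    (h1 : Integrable f1 μ) (h2 : Integrable f2 μ) (h3 : Integrable f3 μ) (h4 : Integrable f4 μ)
    (h5 : Integrable f5 μ) (h6 : Integrable f6 μ) {c1 c2 c3 c4 c5 : ℝ} :
    ∫ x, (c1 * f1 x + c2 * f2 x - c3 * f3 x - c4 * f4 x - c5 * f5 x - f6 x) ∂μ =
      c1 * (∫ x, f1 x ∂μ) + c2 * (∫ x, f2 x ∂μ) - c3 * (∫ x, f3 x ∂μ) - c4 * (∫ x, f4 x ∂μ) -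
        c5 * (∫ x, f5 x ∂μ) - ∫ x, f6 x ∂μ := by
  have a1 : Integrable (fun x => c1 * f1 x + c2 * f2 x) μ := (h1.const_mul _).add (h2.const_mul _)
  have a2 : Integrable (fun x => c1 * f1 x + c2 * f2 x - c3 * f3 x) μ := a1.sub (h3.const_mul _)
  have a3 : Integrable (fun x => c1 * f1 x + c2 * f2 x - c3 * f3 x - c4 * f4 x) μ :=
    a2.sub (h4.const_mul _)
  have a4 : Integrable (fun x => c1 * f1 x + c2 * f2 x - c3 * f3 x - c4 * f4 x - c5 * f5 x) μ :=
    a3.sub (h5.const_mul _)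
  rw [integral_sub a4 h6, integral_sub a3 (h5.const_mul _), integral_sub a2 (h4.const_mul _),
    integral_sub a1 (h3.const_mul _), integral_add (h1.const_mul _) (h2.const_mul _)]
  simp only [integral_const_mul]

/-- the weighted integral of `X` -/
theorem int_XR {u : E 2 → ℝ} (hu : Good 1 u) {p : E 2} (hp : ‖p‖ < 1) (h0 : tau u p = 0)
    {l : ℝ} (hl : 0 ≤ l) (hh : hs (Sop u p) = 2 * l ^ 2) :
    ∫ g, XX u p g * ‖(ContinuousLinearMap.id ℝ (E 2) - (-(1 / 4 : ℝ)) • Sop u p) g‖ ^ 2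
      ∂(gam 2) ≤ 8 - 3 / 2 * l ^ 2 - 4 * (1 - l / 4) ^ 2 * k2 u p := by
  set S := Sop u p with hS
  have hA : Sy S := Sop_Sy hu p
  have ht : tr S = 0 := Sop_tr hu h0
  have e1 : ∀ g : E 2, ‖(ContinuousLinearMap.id ℝ (E 2) - (-(1 / 4 : ℝ)) • S) g‖ ^ 2 =
      (1 + l ^ 2 / 16) * ‖g‖ ^ 2 + 1 / 2 * inner ℝ (S g) g := by
    intro g
    have h1 : (ContinuousLinearMap.id ℝ (E 2) - (-(1 / 4 : ℝ)) • S) g = g + (1 / 4 : ℝ) • S g := by
      simp [sub_neg_eq_add]
    rw [h1, norm_add_sq_real, norm_smul, mul_pow, two_struct hA ht, hh, real_inner_smul_right,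
      real_inner_comm]
    norm_num
    ring
  have e2 : ∀ g : E 2, XX u p g = ‖g‖ ^ 2 - kap u p g ^ 2 - 2 * ka u p g := by
    intro g
    unfold XX ka
    rw [X_eq hp, real_inner_comm g (eta p)]
  have hk2 : PL (fun g => kap u p g ^ 2) := (kap_PL hu p).pow 2
  have j1 : Integrable (fun g : E 2 => (‖g‖ ^ 2) ^ 2) (gam 2) := (PL.norm_sq.pow 2).integrable
  have j2 : Integrable (fun g : E 2 => ‖g‖ ^ 2 * inner ℝ (S g) g) (gam 2) :=
    (PL.norm_sq.mul (PL.quad S)).integrable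
  have j3 : Integrable (fun g : E 2 => ‖g‖ ^ 2 * kap u p g ^ 2) (gam 2) :=
    (PL.norm_sq.mul hk2).integrable
  have j4 : Integrable (fun g : E 2 => kap u p g ^ 2 * inner ℝ (S g) g) (gam 2) :=
    (hk2.mul (PL.quad S)).integrable
  have j5 : Integrable (fun g : E 2 => ‖g‖ ^ 2 * ka u p g) (gam 2) :=
    (PL.norm_sq.mul (ka_PL hu p)).integrable
  have j6 : Integrable (fun g : E 2 => ka u p g * inner ℝ (S g) g) (gam 2) :=
    ((ka_PL hu p).mul (PL.quad S)).integrable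
  have v1 : ∫ g : E 2, (‖g‖ ^ 2) ^ 2 ∂(gam 2) = 8 := by
    rw [int_norm4]; norm_num
  have v2 : ∫ g : E 2, ‖g‖ ^ 2 * inner ℝ (S g) g ∂(gam 2) = 0 := by
    rw [hom_int' (n := 2) (h := fun g : E 2 => (inner ℝ (S g) g : ℝ)) (j := 2)
      (PL.quad S).continuous (fun t x _ => by
        simp only [map_smul, real_inner_smul_left, real_inner_smul_right]; ring), int_quad, ht,
      mul_zero]
  have v3 : ∫ g : E 2, ‖g‖ ^ 2 * kap u p g ^ 2 ∂(gam 2) = 4 * k2 u p := by
    rw [hom_int' (n := 2) (h := fun g : E 2 => kap u p g ^ 2) (j := 2)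
      hk2.continuous (fun t x ht => by simp only [kap_hom hu p t x ht]; ring)]
    unfold k2
    norm_num
  have v4 : -(l * (4 * k2 u p)) ≤ ∫ g : E 2, kap u p g ^ 2 * inner ℝ (S g) g ∂(gam 2) := by
    rw [← v3, ← integral_const_mul, ← integral_neg]
    refine integral_mono (j3.const_mul l).neg j4 fun g => ?_
    have h1 := two_abs hA ht hl hh g
    have h2 := mul_le_mul_of_nonneg_left h1 (sq_nonneg (kap u p g))
    simp only
    linarith
  have v5 : ∫ g : E 2, ‖g‖ ^ 2 * ka u p g ∂(gam 2) = 0 := by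
    rw [hom_int' (n := 2) (h := ka u p) (j := 2) (ka_PL hu p).continuous
      (fun t x ht => by
        unfold ka
        rw [kap_hom hu p t x ht, real_inner_smul_right]; ring)]
    have h3 : ∫ g, ka u p g ∂(gam 2) = 0 := by
      rw [← int_kap_innr hu h0 (eta p)]
      refine integral_congr_ae (Eventually.of_forall fun g => ?_)
      simp only [ka]
      rw [real_inner_comm]
    rw [h3, mul_zero]
  have v6 : ∫ g : E 2, ka u p g * inner ℝ (S g) g ∂(gam 2) = 2 * l ^ 2 := by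
    rw [← hh, hs_eq hu]
  have hsum : ∫ g, XX u p g * ‖(ContinuousLinearMap.id ℝ (E 2) - (-(1 / 4 : ℝ)) • S) g‖ ^ 2
      ∂(gam 2) = (1 + l ^ 2 / 16) * (∫ g : E 2, (‖g‖ ^ 2) ^ 2 ∂(gam 2)) +
      1 / 2 * (∫ g : E 2, ‖g‖ ^ 2 * inner ℝ (S g) g ∂(gam 2)) -
      (1 + l ^ 2 / 16) * (∫ g : E 2, ‖g‖ ^ 2 * kap u p g ^ 2 ∂(gam 2)) -
      1 / 2 * (∫ g : E 2, kap u p g ^ 2 * inner ℝ (S g) g ∂(gam 2)) -
      2 * (1 + l ^ 2 / 16) * (∫ g : E 2, ‖g‖ ^ 2 * ka u p g ∂(gam 2)) -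
      (∫ g : E 2, ka u p g * inner ℝ (S g) g ∂(gam 2)) := by
    rw [← int_lin6 j1 j2 j3 j4 j5 j6]
    refine integral_congr_ae (Eventually.of_forall fun g => ?_)
    simp only
    rw [e1, e2]
    ring
  rw [hsum, v1, v2, v3, v5, v6]
  nlinarith

/-- the bound for the determinant of `N` -/
theorem Nop_det_two {u : E 2 → ℝ} (hu : Good 1 u) {G : Matrix (Fin 2) (Fin 2) ℝ}
    (hG : G.PosDef) {D : E 2 → E 2 →L[ℝ] ℝ} (hD : Measurable D) (h : DB u G D) {p : E 2}
    (hp : ‖p‖ < 1) (h0 : tau u p = 0) {l : ℝ} (hl : 0 ≤ l) (hl1 : l < 1)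
    (hh : hs (Sop u p) = 2 * l ^ 2) :
    (1 - l ^ 2 / 16) * |(Nop D p).det| ≤
      (1 - 3 / 16 * l ^ 2 - (1 - l / 4) ^ 2 * k2 u p / 2) * √G.det := by
  set S := Sop u p with hS
  have hA : Sy S := Sop_Sy hu p
  have ht : tr S = 0 := Sop_tr hu h0
  set R := ContinuousLinearMap.id ℝ (E 2) - (-(1 / 4 : ℝ)) • S with hR
  have hRS : Sy R := by
    intro x y
    have h1 := hA x y
    simp only [hR, _root_.sub_apply, ContinuousLinearMap.id_apply, _root_.smul_apply,
      inner_sub_left, real_inner_smul_left]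
    rw [h1, real_inner_comm x y]
  have hsS : hs ((-(1 / 4 : ℝ)) • S) = l ^ 2 / 8 := by
    have : hs ((-(1 / 4 : ℝ)) • S) = 1 / 16 * hs S := by
      unfold hs
      rw [Finset.mul_sum]
      refine Finset.sum_congr rfl fun i _ => ?_
      rw [_root_.smul_apply, norm_smul, mul_pow]
      norm_num
    rw [this, hh]
    ring
  have hSS : Sy ((-(1 / 4 : ℝ)) • S) := by
    intro x y
    simp only [_root_.smul_apply, real_inner_smul_left]
    rw [hA x y]
  have htS : tr ((-(1 / 4 : ℝ)) • S) = 0 := by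
    have : tr ((-(1 / 4 : ℝ)) • S) = (-(1 / 4 : ℝ)) * tr S := by
      unfold tr
      rw [Finset.mul_sum]
      refine Finset.sum_congr rfl fun i _ => ?_
      rw [_root_.smul_apply, real_inner_smul_left]
    rw [this, ht, mul_zero]
  have hdetR : R.det = 1 - l ^ 2 / 16 := by
    rw [hR, det_two hSS htS, hsS]
    ring
  have hI := int_XR hu hp h0 hl hh
  rw [← hS, ← hR] at hI
  have hI0 : 0 ≤ ∫ g, XX u p g * ‖R g‖ ^ 2 ∂(gam 2) :=
    integral_nonneg fun g => mul_nonneg (XX_nonneg hu p g) (sq_nonneg _)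
  have hcs := cs_R hu p R
  have htr0 : ∀ A : Matrix (Fin 2) (Fin 2) ℝ, A.transpose * G * A = 1 →
      (mat (R ∘L Nop D p) * A).trace ≤ ∫ g, √(XX u p g) * ‖R g‖ ∂(gam 2) := fun A hA' =>
    trace_R hu hD h hp A hA' R hRS
  clear_value R
  generalize (∫ g, XX u p g * ‖R g‖ ^ 2 ∂(gam 2)) = I at hI hI0 hcs
  generalize (∫ g, √(XX u p g) * ‖R g‖ ∂(gam 2)) = T at hcs htr0
  have htr : ∀ A : Matrix (Fin 2) (Fin 2) ℝ, A.transpose * G * A = 1 →
      (mat (R ∘L Nop D p) * A).trace ≤ (2 : ℕ) * √(I / 8) := by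
    intro A hA'
    refine (htr0 A hA').trans
      ((le_abs_self _).trans (abs_le_of_sq_le_sq ?_ (by positivity)))
    rw [mul_pow, Real.sq_sqrt (by positivity)]
    push_cast at hcs ⊢
    linarith
  have h1 := Pool.Agent.H241R3.FV.TMat.taskMat 2 (by norm_num) _ G hG _
    (Real.sqrt_nonneg (I / 8)) htr
  rw [← det_mat, det_comp', abs_mul, hdetR, Real.sq_sqrt (by positivity),
    abs_of_pos (by nlinarith : (0 : ℝ) < 1 - l ^ 2 / 16)] at h1
  refine h1.trans (mul_le_mul_of_nonneg_right ?_ (Real.sqrt_nonneg _))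
  linarith

end Pool.Agent.K7.H34.FV
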