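import Pool.Agent.K7.H34.FV.JTwo

/-!
# Fillings of the circle: nine tenths of the area of the hemisphere
-/

set_option autoImplicit false

open MeasureTheory Metric Set Filter Topology InnerProductGeometry

namespace Pool.Agent.K7.H34.FV

open Pool.Agent.H241R3.FV (Sph RChart om Fill norm_sph)
open Pool.Agent.W716.FV (E gam gd Good)

theorem int_poly {y a b : ℝ} (hy0 : 0 ≤ y) (hy1 : y < 1) :
    ∫ t in (0 : ℝ)..y, t ^ (2 - 1) * ((a + b * (1 - t ^ 2)) * (√(1 - t ^ 2))⁻¹) =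
      (a + b / 3) - (a * √(1 - y ^ 2) + b / 3 * √(1 - y ^ 2) ^ 3) := by
  have hpos : ∀ t ∈ uIcc 0 y, 0 < 1 - t ^ 2 := by
    intro t ht
    rw [uIcc_of_le hy0] at ht
    have := ht.1
    have := ht.2
    nlinarith
  have hder : ∀ t ∈ uIcc 0 y, HasDerivAt (fun t : ℝ => -(a * √(1 - t ^ 2) +
      b / 3 * √(1 - t ^ 2) ^ 3)) (t ^ (2 - 1) * ((a + b * (1 - t ^ 2)) * (√(1 - t ^ 2))⁻¹)) t := by
    intro t ht
    have h0 := hpos t ht
    have h1 : HasDerivAt (fun t : ℝ => 1 - t ^ 2) (-(2 * t)) t := by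
      have := (hasDerivAt_pow 2 t).const_sub 1
      simpa using this
    have h2 := h1.sqrt h0.ne'
    have h3 := ((h2.const_mul a).add ((h2.pow 3).const_mul (b / 3))).neg
    refine h3.congr_deriv ?_
    have h4 : 0 < √(1 - t ^ 2) := Real.sqrt_pos.2 h0
    have h5 : √(1 - t ^ 2) ^ 2 = 1 - t ^ 2 := Real.sq_sqrt h0.le
    simp only [Nat.cast_ofNat, Nat.add_one_sub_one, pow_one]
    field_simp
    rw [h5]
    ring
  have hcont : ContinuousOn (fun t : ℝ => t ^ (2 - 1) *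
      ((a + b * (1 - t ^ 2)) * (√(1 - t ^ 2))⁻¹)) (uIcc 0 y) := by
    refine ContinuousOn.mul (by fun_prop) (ContinuousOn.mul (by fun_prop)
      (ContinuousOn.inv₀ (by fun_prop) fun t ht => (Real.sqrt_pos.2 (hpos t ht)).ne'))
  rw [intervalIntegral.integral_eq_sub_of_hasDerivAt hder hcont.intervalIntegrable]
  norm_num
  ring

/-- integral over a ball of the plane -/
theorem ball_poly {y a b : ℝ} (hy0 : 0 ≤ y) (hy1 : y < 1) (ha : 0 ≤ a) (hb : 0 ≤ b) :
    ∫⁻ p in ball (0 : E 2) y, ENNReal.ofReal ((a + b * (1 - ‖p‖ ^ 2)) * (√(1 - ‖p‖ ^ 2))⁻¹) =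
      ENNReal.ofReal (2 * Real.pi * ((a + b / 3) -
        (a * √(1 - y ^ 2) + b / 3 * √(1 - y ^ 2) ^ 3))) := by
  have hpos : ∀ t ∈ Icc 0 y, 0 < 1 - t ^ 2 := by
    intro t ht
    have := ht.1
    have := ht.2
    nlinarith
  have h1 := rad (n := 2) (by norm_num) hy0
    (φ := fun t => (a + b * (1 - t ^ 2)) * (√(1 - t ^ 2))⁻¹)
    (ContinuousOn.mul (by fun_prop) (ContinuousOn.inv₀ (by fun_prop) fun t ht =>
      (Real.sqrt_pos.2 (hpos t ht)).ne')) (fun t ht => by
      have := hpos t ht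
      positivity)
  have h2 : om 2 = Real.pi := by
    unfold om
    rw [measureReal_def, EuclideanSpace.volume_ball_fin_two]
    simp [Real.pi_pos.le]
  rw [h1, int_poly hy0 hy1, h2]
  push_cast
  rfl

theorem gg_meas : Measurable gg := by
  unfold gg
  exact Measurable.ite (measurableSet_le (by fun_prop) measurable_const) measurable_const
    (by fun_prop)

/-- the lower bound for the integral -/
theorem total {y : ℝ} (hy : y = √(1 - 1 / 10 ^ 8)) :
    ENNReal.ofReal (9 / 10 * (2 * Real.pi)) ≤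
      ∫⁻ p in ball (0 : E 2) y, ENNReal.ofReal (gg ‖p‖ * (√(1 - ‖p‖ ^ 2))⁻¹) := by
  have hy0 : 0 ≤ y := by rw [hy]; exact Real.sqrt_nonneg _
  have hy2 : y ^ 2 = 1 - 1 / 10 ^ 8 := by rw [hy, Real.sq_sqrt (by norm_num)]
  have hy1 : y < 1 := by nlinarith
  obtain ⟨x, hx⟩ : ∃ x : ℝ, x = √(1 / 3) := ⟨_, rfl⟩
  have hx0 : 0 ≤ x := by rw [hx]; exact Real.sqrt_nonneg _
  have hx2 : x ^ 2 = 1 / 3 := by rw [hx, Real.sq_sqrt (by norm_num)]
  have hx1 : x < 1 := by nlinarith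
  have hxy : x ≤ y := by
    apply (le_abs_self _).trans (abs_le_of_sq_le_sq _ hy0)
    rw [hx2, hy2]; norm_num
  have hsub : ball (0 : E 2) x ⊆ ball 0 y := ball_subset_ball hxy
  have hsplit : ∀ f : E 2 → ENNReal, ∫⁻ p in ball (0 : E 2) y, f p =
      (∫⁻ p in ball (0 : E 2) x, f p) + ∫⁻ p in ball (0 : E 2) y \ ball 0 x, f p := by
    intro f
    rw [← lintegral_inter_add_sdiff f (ball (0 : E 2) y) (measurableSet_ball (x := (0 : E 2))
      (ε := x)), inter_eq_self_of_subset_right hsub]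
  rw [hsplit]
  have h1 := ball_poly (a := 1) (b := 0) hx0 hx1 (by norm_num) le_rfl
  have h2 := ball_poly (a := 25 / 30) (b := 6 / 30) hx0 hx1 (by norm_num) (by norm_num)
  have h3 := ball_poly (a := 25 / 30) (b := 6 / 30) hy0 hy1 (by norm_num) (by norm_num)
  rw [hsplit, h2] at h3
  set X := ∫⁻ p in ball (0 : E 2) y \ ball 0 x, ENNReal.ofReal
    ((25 / 30 + 6 / 30 * (1 - ‖p‖ ^ 2)) * (√(1 - ‖p‖ ^ 2))⁻¹) with hX
  have e1 : ∫⁻ p in ball (0 : E 2) x, ENNReal.ofReal (gg ‖p‖ * (√(1 - ‖p‖ ^ 2))⁻¹) =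
      ∫⁻ p in ball (0 : E 2) x, ENNReal.ofReal ((1 + 0 * (1 - ‖p‖ ^ 2)) *
        (√(1 - ‖p‖ ^ 2))⁻¹) := by
    refine setLIntegral_congr_fun measurableSet_ball fun p hp => ?_
    have hp' := mem_ball_zero_iff.1 hp
    have hn := norm_nonneg p
    have : gg ‖p‖ = 1 := by
      unfold gg
      rw [if_pos]
      nlinarith
    simp only [this, zero_mul, add_zero]
  have e2 : X ≤ ∫⁻ p in ball (0 : E 2) y \ ball 0 x,
      ENNReal.ofReal (gg ‖p‖ * (√(1 - ‖p‖ ^ 2))⁻¹) := by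
    refine setLIntegral_mono' (measurableSet_ball.diff measurableSet_ball) fun p hp => ?_
    refine ENNReal.ofReal_le_ofReal (mul_le_mul_of_nonneg_right ?_ (by positivity))
    have hp' : x ≤ ‖p‖ := by
      have := hp.2
      rw [mem_ball_zero_iff] at this
      linarith
    unfold gg
    split_ifs with h
    · nlinarith
    · apply le_of_eq; ring
  rw [e1, h1]
  refine le_trans ?_ (add_le_add_right e2 _)
  -- the value of `X`
  have hT : √(1 - y ^ 2) = 1 / 10 ^ 4 := by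
    rw [hy2, show (1 : ℝ) - (1 - 1 / 10 ^ 8) = (1 / 10 ^ 4) ^ 2 by norm_num,
      Real.sqrt_sq (by norm_num)]
  obtain ⟨w, hw⟩ : ∃ w : ℝ, w = √(1 - x ^ 2) := ⟨_, rfl⟩
  have hw0 : 0 ≤ w := by rw [hw]; exact Real.sqrt_nonneg _
  have hw2 : w ^ 2 = 2 / 3 := by rw [hw, Real.sq_sqrt (by rw [hx2]; norm_num), hx2]; norm_num
  have hw3 : w ^ 3 = 2 / 3 * w := by rw [pow_succ, hw2]
  have hw1 : w ≤ 817 / 1000 := by
    apply (le_abs_self _).trans (abs_le_of_sq_le_sq _ (by norm_num))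
    rw [hw2]; norm_num
  rw [← hw, hw3, hT] at h3
  rw [← hw, hw3]
  have hpi := Real.pi_pos
  have hXv : ENNReal.ofReal (2 * Real.pi * (79 / 90 * w - 1 / 10000)) ≤ X := by
    have h4 : ENNReal.ofReal (2 * Real.pi * (25 / 30 + 6 / 30 / 3 - (25 / 30 * w +
        6 / 30 / 3 * (2 / 3 * w)))) + ENNReal.ofReal (2 * Real.pi * (79 / 90 * w - 1 / 10000)) ≤
        ENNReal.ofReal (2 * Real.pi * (25 / 30 + 6 / 30 / 3 - (25 / 30 * w +
        6 / 30 / 3 * (2 / 3 * w)))) + X := by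
      rw [h3]
      rw [← ENNReal.ofReal_add]
      · refine ENNReal.ofReal_le_ofReal ?_
        rw [← mul_add]
        refine mul_le_mul_of_nonneg_left ?_ (by positivity)
        norm_num
        linarith
      · refine mul_nonneg (by positivity) ?_
        linarith
      · refine mul_nonneg (by positivity) ?_
        nlinarith
    exact (ENNReal.add_le_add_iff_left ENNReal.ofReal_ne_top).1 h4
  refine le_trans ?_ (add_le_add_right hXv _)
  rw [← ENNReal.ofReal_add]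
  · refine ENNReal.ofReal_le_ofReal ?_
    rw [← mul_add]
    nlinarith
  · refine mul_nonneg (by positivity) ?_
    linarith
  · refine mul_nonneg (by positivity) ?_
    nlinarith

/-- **Nine tenths.** -/
theorem nine_tenths {M : Type} [MetricSpace M] [CompactSpace M] (S : Fill 1 M)
    (hS : S.NonShort) (htop : S.Triangulated ∨ S.NoRetraction) :
    ENNReal.ofReal (9 / 10 * (2 * Real.pi)) ≤ S.vol := by
  have := S.countable
  have hn : 0 < 2 := by norm_num
  have hb : ∀ y z : Sph 2, capd 1 y z ≤ dist (S.bd y) (S.bd z) := fun y z => by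
    rw [capd_one]
    exact hS y z
  have hfam := UC_fam (l := 1) S.bd hn zero_le_one le_rfl
  have hUb : ∀ (G : E 2) (x : Sph 2), UC 1 S.bd (S.bd x) G = 1 * inner ℝ G (x : E 2) :=
    fun G x => UC_bd S.bd hn zero_le_one le_rfl hb G x
  obtain ⟨y, hy⟩ : ∃ y : ℝ, y = √(1 - 1 / 10 ^ 8) := ⟨_, rfl⟩
  have hy0 : 0 ≤ y := by rw [hy]; exact Real.sqrt_nonneg _
  have hy2 : y ^ 2 = 1 - 1 / 10 ^ 8 := by rw [hy, Real.sq_sqrt (by norm_num)]
  have hy1 : y < 1 := by nlinarith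
  refine (total hy).trans (ball_le fun ρ hρ0 hρy => ?_)
  have hρ : ρ < 1 := hρy.trans hy1
  have hggl : ∀ r : ℝ, 0 ≤ r → r < 1 → 5 / 6 ≤ gg r := by
    intro r hr0 hr1
    unfold gg
    split_ifs
    · norm_num
    · nlinarith
  set Jb : E 2 → ℝ := fun p => (max (gg ‖p‖) (5 / 6))⁻¹ with hJb
  have hJe : ∀ p : E 2, ‖p‖ ≤ ρ → Jb p = (gg ‖p‖)⁻¹ := by
    intro p hp
    rw [hJb]
    simp only
    rw [max_eq_left (hggl _ (norm_nonneg _) (hp.trans_lt hρ))]
  have h := main_ineq' hfam hρ0 hρ Jb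
    (by
      rw [hJb]
      exact ((gg_meas.comp measurable_norm).max measurable_const).inv)
    (fun p => by
      rw [hJb]
      exact inv_pos.2 (lt_of_lt_of_le (by norm_num) (le_max_right _ _)))
    (fun u hu p hp htau G hG D hD hDB => by
      rw [hJe p hp]
      exact jac_all hu (hp.trans_lt hρ) htau hG hD hDB)
    (fun i => S.chart i) ?_
  · refine le_trans (le_of_eq ?_) h
    refine setLIntegral_congr_fun measurableSet_closedBall fun p hp => ?_
    have hp' := mem_closedBall_zero_iff.1 hp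
    rw [hJe p hp', mul_inv, inv_inv, mul_comm]
    rfl
  · intro p hp
    obtain ⟨q, hq⟩ := cover_zero S.bd htop one_pos le_rfl hb (UC 1 S.bd)
      (fun q => hfam.good _) (fun q q' G => hfam.lipq _ _ G) hUb (hp.trans_lt hρ)
    rcases S.cover q with ⟨x, hx⟩ | ⟨i, c, hc, hx⟩
    · exfalso
      have hp1 : ‖p‖ < 1 := hp.trans_lt hρ
      have h1 : UC 1 S.bd q = fun G => 1 * inner ℝ G (x : E 2) := by
        funext G
        rw [← hx]
        exact hUb G x
      rw [h1, Gm_lin hp1, smul_eq_zero_iff_right (inv_ne_zero (pz_pos hp1).ne')] at hq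
      have h2 : (1 : ℝ) • (x : E 2) - p = 0 := by
        rw [← BI_BB hp1 ((1 : ℝ) • (x : E 2) - p),
          ← BI_BB hp1 (BB p ((1 : ℝ) • (x : E 2) - p)), hq, map_zero, map_zero]
      have h3 : ‖p‖ = 1 := by
        rw [← sub_eq_zero.1 h2, norm_smul, norm_sph, mul_one]
        norm_num
      linarith
    · exact ⟨i, c, hc, by rw [hx]; exact hq⟩

end Pool.Agent.K7.H34.FV
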