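import Pool.Agent.W933.FV.GM
import Pool.Agent.W762.FV.GI

/-!
# Gaussian integration by parts for locally Lipschitz functions with polynomial growth
-/

set_option autoImplicit false

open MeasureTheory Filter Topology

namespace Pool.Agent.K7.H34.FV

open Pool.Agent.W716.FV (E gam gd)
open Pool.Agent.W762.FV (cc cc_pos gd_eq gd_nonneg gd_cont gd_shift gd_deriv)

/-- locally Lipschitz with polynomial growth -/
def PL {n : ℕ} (f : E n → ℝ) : Prop :=
  ∃ (C : ℝ) (k : ℕ), 0 ≤ C ∧ (∀ x, |f x| ≤ C * (1 + ‖x‖) ^ k) ∧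
    ∀ x y : E n, ‖y‖ ≤ 1 → |f (x + y) - f x| ≤ C * (1 + ‖x‖) ^ k * ‖y‖

variable {n : ℕ}

theorem one_le_pw (x : E n) (k : ℕ) : 1 ≤ (1 + ‖x‖) ^ k :=
  one_le_pow₀ (by linarith [norm_nonneg x])

theorem PL.mono {f : E n → ℝ} {C : ℝ} {k : ℕ} {D : ℝ} {l : ℕ} (hC : 0 ≤ C) (hCD : C ≤ D)
    (hkl : k ≤ l) (h0 : ∀ x, |f x| ≤ C * (1 + ‖x‖) ^ k)
    (h1 : ∀ x y : E n, ‖y‖ ≤ 1 → |f (x + y) - f x| ≤ C * (1 + ‖x‖) ^ k * ‖y‖) :
    (∀ x, |f x| ≤ D * (1 + ‖x‖) ^ l) ∧
    ∀ x y : E n, ‖y‖ ≤ 1 → |f (x + y) - f x| ≤ D * (1 + ‖x‖) ^ l * ‖y‖ := by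
  have key : ∀ x : E n, C * (1 + ‖x‖) ^ k ≤ D * (1 + ‖x‖) ^ l := fun x =>
    mul_le_mul hCD (pow_le_pow_right₀ (by linarith [norm_nonneg x]) hkl) (by positivity)
      (hC.trans hCD)
  exact ⟨fun x => (h0 x).trans (key x), fun x y hy => (h1 x y hy).trans
    (mul_le_mul_of_nonneg_right (key x) (norm_nonneg y))⟩

theorem PL.add {f g : E n → ℝ} (hf : PL f) (hg : PL g) : PL (fun x => f x + g x) := by
  obtain ⟨C, k, hC, h0, h1⟩ := hf
  obtain ⟨D, l, hD, g0, g1⟩ := hg
  obtain ⟨h0', h1'⟩ := PL.mono hC le_rfl (le_max_left k l) h0 h1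
  obtain ⟨g0', g1'⟩ := PL.mono hD le_rfl (le_max_right k l) g0 g1
  refine ⟨C + D, max k l, by positivity, fun x => ?_, fun x y hy => ?_⟩
  · calc |f x + g x| ≤ |f x| + |g x| := abs_add_le _ _
      _ ≤ _ := by rw [add_mul]; exact add_le_add (h0' x) (g0' x)
  · calc |f (x + y) + g (x + y) - (f x + g x)| =
          |(f (x + y) - f x) + (g (x + y) - g x)| := by ring_nf
      _ ≤ |f (x + y) - f x| + |g (x + y) - g x| := abs_add_le _ _
      _ ≤ _ := by rw [add_mul, add_mul]; exact add_le_add (h1' x y hy) (g1' x y hy)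

theorem PL.const (c : ℝ) : PL (fun _ : E n => c) :=
  ⟨|c|, 0, abs_nonneg c, fun x => by simp, fun x y _ => by
    simp only [sub_self, abs_zero, pow_zero, mul_one]; positivity⟩

theorem PL.mul {f g : E n → ℝ} (hf : PL f) (hg : PL g) : PL (fun x => f x * g x) := by
  obtain ⟨C, k, hC, h0, h1⟩ := hf
  obtain ⟨D, l, hD, g0, g1⟩ := hg
  refine ⟨3 * (C * D), k + l, by positivity, fun x => ?_, fun x y hy => ?_⟩
  · rw [abs_mul]
    calc |f x| * |g x| ≤ (C * (1 + ‖x‖) ^ k) * (D * (1 + ‖x‖) ^ l) :=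
          mul_le_mul (h0 x) (g0 x) (abs_nonneg _) (by positivity)
      _ = 1 * (C * D * (1 + ‖x‖) ^ (k + l)) := by rw [pow_add]; ring
      _ ≤ 3 * (C * D * (1 + ‖x‖) ^ (k + l)) :=
          mul_le_mul_of_nonneg_right (by norm_num) (by positivity)
      _ = _ := by ring
  · have e : f (x + y) * g (x + y) - f x * g x =
        (f (x + y) - f x) * (g (x + y) - g x) + (f (x + y) - f x) * g x +
          f x * (g (x + y) - g x) := by ring
    set A := (1 + ‖x‖) ^ k with hA
    set B := (1 + ‖x‖) ^ l with hB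
    have hA0 : 0 ≤ A := by positivity
    have hB0 : 0 ≤ B := by positivity
    have a1 := h1 x y hy
    have a2 := g1 x y hy
    have a3 := h0 x
    have a4 := g0 x
    have hy0 := norm_nonneg y
    have b1 : |f (x + y) - f x| * |g (x + y) - g x| ≤ (C * A * ‖y‖) * (D * B * 1) := by
      refine mul_le_mul a1 (a2.trans ?_) (abs_nonneg _) (by positivity)
      exact mul_le_mul_of_nonneg_left hy (by positivity)
    have b2 : |f (x + y) - f x| * |g x| ≤ (C * A * ‖y‖) * (D * B) :=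
      mul_le_mul a1 a4 (abs_nonneg _) (by positivity)
    have b3 : |f x| * |g (x + y) - g x| ≤ (C * A) * (D * B * ‖y‖) :=
      mul_le_mul a3 a2 (abs_nonneg _) (by positivity)
    rw [e]
    calc |(f (x + y) - f x) * (g (x + y) - g x) + (f (x + y) - f x) * g x +
          f x * (g (x + y) - g x)|
        ≤ |(f (x + y) - f x) * (g (x + y) - g x)| + |(f (x + y) - f x) * g x| +
          |f x * (g (x + y) - g x)| := abs_add_three _ _ _
      _ = |f (x + y) - f x| * |g (x + y) - g x| + |f (x + y) - f x| * |g x| +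
          |f x| * |g (x + y) - g x| := by rw [abs_mul, abs_mul, abs_mul]
      _ ≤ (C * A * ‖y‖) * (D * B * 1) + (C * A * ‖y‖) * (D * B) + (C * A) * (D * B * ‖y‖) :=
          add_le_add (add_le_add b1 b2) b3
      _ = 3 * (C * D) * (A * B) * ‖y‖ := by ring
      _ = _ := by rw [hA, hB, ← pow_add]

theorem PL.smulc (c : ℝ) {f : E n → ℝ} (hf : PL f) : PL (fun x => c * f x) :=
  (PL.const c).mul hf

theorem PL.neg {f : E n → ℝ} (hf : PL f) : PL (fun x => -f x) := by
  have := hf.smulc (-1)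
  simpa using this

theorem PL.sub {f g : E n → ℝ} (hf : PL f) (hg : PL g) : PL (fun x => f x - g x) := by
  have := hf.add hg.neg
  simpa [sub_eq_add_neg] using this

theorem PL.pow {f : E n → ℝ} (hf : PL f) (k : ℕ) : PL (fun x => f x ^ k) := by
  induction k with
  | zero => simpa using PL.const (n := n) 1
  | succ k ih =>
    have := ih.mul hf
    simpa [pow_succ] using this

theorem PL.of_lip {f : E n → ℝ} {L : ℝ} (hL : 0 ≤ L) (h : ∀ x y, |f x - f y| ≤ L * ‖x - y‖) :
    PL f := by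
  refine ⟨|f 0| + L, 1, by positivity, fun x => ?_, fun x y _ => ?_⟩
  · have h1 := h x 0
    rw [sub_zero] at h1
    have h2 : |f x| ≤ |f x - f 0| + |f 0| := by
      have := abs_add_le (f x - f 0) (f 0)
      rwa [sub_add_cancel] at this
    rw [pow_one]
    nlinarith [norm_nonneg x, abs_nonneg (f 0), mul_nonneg (abs_nonneg (f 0)) (norm_nonneg x)]
  · have h1 := h (x + y) x
    rw [add_sub_cancel_left] at h1
    refine h1.trans (mul_le_mul_of_nonneg_right ?_ (norm_nonneg y))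
    rw [pow_one]
    nlinarith [norm_nonneg x, abs_nonneg (f 0), mul_nonneg (abs_nonneg (f 0)) (norm_nonneg x),
      mul_nonneg hL (norm_nonneg x)]

theorem PL.innr (v : E n) : PL (fun x => (inner ℝ x v : ℝ)) :=
  PL.of_lip (norm_nonneg v) fun x y => by
    rw [← inner_sub_left, mul_comm]
    exact abs_real_inner_le_norm _ _

theorem PL.innl (v : E n) : PL (fun x => (inner ℝ v x : ℝ)) := by
  have := PL.innr v
  simpa only [real_inner_comm] using this

theorem PL.norm_sq : PL (fun x : E n => ‖x‖ ^ 2) :=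
  (PL.of_lip zero_le_one (fun x y => by
    rw [one_mul]; exact abs_norm_sub_norm_le x y) : PL fun x : E n => ‖x‖).pow 2

theorem PL.continuous {f : E n → ℝ} (hf : PL f) : Continuous f := by
  obtain ⟨C, k, hC, -, h1⟩ := hf
  rw [continuous_iff_continuousAt]
  intro x
  rw [ContinuousAt, tendsto_iff_dist_tendsto_zero]
  have hlim : Tendsto (fun y : E n => C * (1 + ‖x‖) ^ k * ‖y - x‖) (𝓝 x) (𝓝 0) := by
    have hc : Continuous (fun y : E n => C * (1 + ‖x‖) ^ k * ‖y - x‖) := by fun_prop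
    have := hc.tendsto x
    simpa using this
  refine squeeze_zero' (Eventually.of_forall fun _ => dist_nonneg) ?_ hlim
  filter_upwards [Metric.ball_mem_nhds x one_pos] with y hy
  have hy' : ‖y - x‖ ≤ 1 := by
    rw [← dist_eq_norm]
    exact (Metric.mem_ball.1 hy).le
  have := h1 x (y - x) hy'
  rw [add_sub_cancel] at this
  rw [Real.dist_eq]
  exact this

theorem int_pow (k : ℕ) : Integrable (fun x : E n => (1 + ‖x‖) ^ k) (gam n) := by
  have hmom := (Pool.Agent.W933.FVGM.main n).2.1 k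
  have hp := (Pool.Agent.W933.FVGM.main n).1
  refine Integrable.mono' (g := fun x : E n => 2 ^ k * (1 + ‖x‖ ^ k))
    (((integrable_const 1).add hmom).const_mul _) (by fun_prop)
    (Eventually.of_forall fun x => ?_)
  rw [Real.norm_of_nonneg (by positivity)]
  have hx := norm_nonneg x
  rcases le_total ‖x‖ 1 with h | h
  · calc (1 + ‖x‖) ^ k ≤ 2 ^ k := pow_le_pow_left₀ (by positivity) (by linarith) k
      _ ≤ 2 ^ k * (1 + ‖x‖ ^ k) := by
        have : (0 : ℝ) ≤ 2 ^ k * ‖x‖ ^ k := by positivity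
        linarith
  · calc (1 + ‖x‖) ^ k ≤ (2 * ‖x‖) ^ k := pow_le_pow_left₀ (by positivity) (by linarith) k
      _ = 2 ^ k * ‖x‖ ^ k := by rw [mul_pow]
      _ ≤ 2 ^ k * (1 + ‖x‖ ^ k) := by
        have : (0 : ℝ) ≤ 2 ^ k := by positivity
        linarith

theorem integ {F : Type*} [NormedAddCommGroup F] {f : E n → F} (C : ℝ) (k : ℕ)
    (hf : AEStronglyMeasurable f (gam n)) (h : ∀ᵐ x ∂(gam n), ‖f x‖ ≤ C * (1 + ‖x‖) ^ k) :
    Integrable f (gam n) :=
  Integrable.mono' ((int_pow k).const_mul C) hf h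

theorem PL.integrable {f : E n → ℝ} (hf : PL f) : Integrable f (gam n) := by
  have hc := hf.continuous
  obtain ⟨C, k, hC, h0, -⟩ := hf
  exact integ C k hc.aestronglyMeasurable (Eventually.of_forall h0)

theorem ac_gam : gam n ≪ volume := withDensity_absolutelyContinuous _ _

theorem PL.ae_diff {f : E n → ℝ} (hf : PL f) : ∀ᵐ x ∂(volume : Measure (E n)),
    DifferentiableAt ℝ f x := by
  obtain ⟨C, k, hC, -, h1⟩ := hf
  rw [ae_iff]
  apply measure_null_of_locally_null
  intro p _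
  refine ⟨{x | ¬ DifferentiableAt ℝ f x} ∩ Metric.ball p (1 / 2), ?_, ?_⟩
  · exact inter_mem_nhdsWithin _ (Metric.ball_mem_nhds p (by norm_num))
  · set K : ℝ := C * (2 + ‖p‖) ^ k with hK
    have hK0 : 0 ≤ K := by positivity
    have hL : LipschitzOnWith (Real.toNNReal K) f (Metric.ball p (1 / 2)) := by
      refine LipschitzOnWith.of_dist_le_mul fun y hy z hz => ?_
      rw [Real.dist_eq, dist_eq_norm, Real.coe_toNNReal K hK0]
      rw [Metric.mem_ball, dist_eq_norm] at hy hz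
      have hyz : ‖y - z‖ ≤ 1 := by
        have := norm_sub_le_norm_sub_add_norm_sub y p z
        rw [norm_sub_rev p z] at this
        linarith
      have h2 := h1 z (y - z) hyz
      rw [add_sub_cancel] at h2
      refine h2.trans (mul_le_mul_of_nonneg_right ?_ (norm_nonneg _))
      refine mul_le_mul_of_nonneg_left (pow_le_pow_left₀ (by positivity) ?_ k) hC
      have := norm_sub_norm_le z p
      linarith
    have h := hL.ae_differentiableWithinAt (μ := (volume : Measure (E n)))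
      Metric.isOpen_ball.measurableSet
    rw [ae_restrict_iff' Metric.isOpen_ball.measurableSet] at h
    refine measure_mono_null ?_ h
    rintro q ⟨hq1, hq2⟩
    intro hq3
    exact hq1 ((hq3 hq2).differentiableAt (Metric.isOpen_ball.mem_nhds hq2))

theorem PL.ae_diff' {f : E n → ℝ} (hf : PL f) : ∀ᵐ x ∂(gam n), DifferentiableAt ℝ f x :=
  ac_gam.ae_le hf.ae_diff

theorem fderiv_bd {f : E n → ℝ} {C : ℝ} {k : ℕ} (hC : 0 ≤ C)
    (h1 : ∀ x y : E n, ‖y‖ ≤ 1 → |f (x + y) - f x| ≤ C * (1 + ‖x‖) ^ k * ‖y‖) (x : E n) :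
    ‖fderiv ℝ f x‖ ≤ C * (1 + ‖x‖) ^ k := by
  by_cases hd : DifferentiableAt ℝ f x
  · refine hd.hasFDerivAt.le_of_lip' (by positivity) ?_
    filter_upwards [Metric.ball_mem_nhds x one_pos] with y hy
    have hy' : ‖y - x‖ ≤ 1 := by
      rw [← dist_eq_norm]
      exact (Metric.mem_ball.1 hy).le
    have := h1 x (y - x) hy'
    rw [add_sub_cancel] at this
    rw [Real.norm_eq_abs]
    exact this
  · rw [fderiv_zero_of_not_differentiableAt hd, norm_zero]
    positivity

theorem PL.int_fderiv {f : E n → ℝ} (hf : PL f) (v : E n) :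
    Integrable (fun x => fderiv ℝ f x v) (gam n) := by
  obtain ⟨C, k, hC, -, h1⟩ := hf
  refine integ (C * ‖v‖) k (measurable_fderiv_apply_const ℝ f v).aestronglyMeasurable
    (Eventually.of_forall fun x => ?_)
  calc ‖fderiv ℝ f x v‖ ≤ ‖fderiv ℝ f x‖ * ‖v‖ := ContinuousLinearMap.le_opNorm _ _
    _ ≤ C * (1 + ‖x‖) ^ k * ‖v‖ := mul_le_mul_of_nonneg_right (fderiv_bd hC h1 x) (norm_nonneg v)
    _ = _ := by ring

end Pool.Agent.K7.H34.FV
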