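import Pool.Agent.K7.H34.FV.Stab

/-!
# Gaussian moments of quadratic forms
-/

set_option autoImplicit false

open MeasureTheory Filter Topology

namespace Pool.Agent.K7.H34.FV

open Pool.Agent.W716.FV (E gam gd Good)

variable {n : ℕ}

/-- basis vectors -/
noncomputable abbrev bv (n : ℕ) (i : Fin n) : E n := EuclideanSpace.single i 1

theorem sum_bv (x : E n) : ∑ i, (inner ℝ x (bv n i) : ℝ) • bv n i = x := by
  have h := (EuclideanSpace.basisFun (Fin n) ℝ).sum_repr' x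
  simp only [EuclideanSpace.basisFun_apply] at h
  conv_rhs => rw [← h]
  refine Finset.sum_congr rfl fun i _ => ?_
  rw [real_inner_comm]

theorem sum_inner_bv (x y : E n) :
    ∑ i, (inner ℝ x (bv n i) : ℝ) * inner ℝ y (bv n i) = inner ℝ x y := by
  conv_rhs => rw [← sum_bv x]
  rw [sum_inner]
  refine Finset.sum_congr rfl fun i _ => ?_
  rw [real_inner_smul_left, real_inner_comm y]

theorem sum_inner_sq (x : E n) : ∑ i, (inner ℝ x (bv n i) : ℝ) ^ 2 = ‖x‖ ^ 2 := by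
  rw [← inner_pp, ← sum_inner_bv]
  refine Finset.sum_congr rfl fun i _ => ?_
  ring

/-- symmetric operators -/
def Sy (A : E n →L[ℝ] E n) : Prop := ∀ x y : E n, (inner ℝ (A x) y : ℝ) = inner ℝ (A y) x

/-- the trace -/
noncomputable def tr (A : E n →L[ℝ] E n) : ℝ := ∑ i, inner ℝ (A (bv n i)) (bv n i)

/-- the square of the Hilbert-Schmidt norm -/
noncomputable def hs (A : E n →L[ℝ] E n) : ℝ := ∑ i, ‖A (bv n i)‖ ^ 2

theorem hs_nonneg (A : E n →L[ℝ] E n) : 0 ≤ hs A := Finset.sum_nonneg fun _ _ => sq_nonneg _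

theorem sum_A (A : E n →L[ℝ] E n) (x y : E n) :
    ∑ i, (inner ℝ x (bv n i) : ℝ) * inner ℝ (A (bv n i)) y = inner ℝ (A x) y := by
  conv_rhs => rw [← sum_bv x]
  rw [map_sum, sum_inner]
  refine Finset.sum_congr rfl fun i _ => ?_
  rw [map_smul, real_inner_smul_left]

theorem PL.quad (A : E n →L[ℝ] E n) : PL (fun x => (inner ℝ (A x) x : ℝ)) := by
  refine ⟨2 * ‖A‖, 2, by positivity, fun x => ?_, fun x y hy => ?_⟩
  · have h1 := abs_real_inner_le_norm (A x) x
    have h2 := A.le_opNorm x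
    have hx := norm_nonneg x
    have hA := norm_nonneg A
    calc |(inner ℝ (A x) x : ℝ)| ≤ (‖A‖ * ‖x‖) * ‖x‖ :=
          h1.trans (mul_le_mul_of_nonneg_right h2 hx)
      _ = ‖A‖ * ‖x‖ ^ 2 := by ring
      _ ≤ ‖A‖ * (2 * (1 + ‖x‖) ^ 2) := mul_le_mul_of_nonneg_left (by nlinarith) hA
      _ = _ := by ring
  · have e : (inner ℝ (A (x + y)) (x + y) : ℝ) - inner ℝ (A x) x =
        inner ℝ (A x) y + inner ℝ (A y) x + inner ℝ (A y) y := by
      rw [map_add, inner_add_left, inner_add_right, inner_add_right]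
      ring
    rw [e]
    have hx := norm_nonneg x
    have hy0 := norm_nonneg y
    have hA := norm_nonneg A
    have k1 : |(inner ℝ (A x) y : ℝ)| ≤ ‖A‖ * ‖x‖ * ‖y‖ :=
      (abs_real_inner_le_norm _ _).trans (mul_le_mul_of_nonneg_right (A.le_opNorm x) hy0)
    have k2 : |(inner ℝ (A y) x : ℝ)| ≤ ‖A‖ * ‖y‖ * ‖x‖ :=
      (abs_real_inner_le_norm _ _).trans (mul_le_mul_of_nonneg_right (A.le_opNorm y) hx)
    have k3 : |(inner ℝ (A y) y : ℝ)| ≤ ‖A‖ * ‖y‖ * 1 :=
      (abs_real_inner_le_norm _ _).trans (mul_le_mul (A.le_opNorm y) hy hy0 (by positivity))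
    calc |(inner ℝ (A x) y : ℝ) + inner ℝ (A y) x + inner ℝ (A y) y| ≤
        |(inner ℝ (A x) y : ℝ)| + |(inner ℝ (A y) x : ℝ)| + |(inner ℝ (A y) y : ℝ)| :=
          abs_add_three _ _ _
      _ ≤ ‖A‖ * ‖x‖ * ‖y‖ + ‖A‖ * ‖y‖ * ‖x‖ + ‖A‖ * ‖y‖ * 1 :=
          add_le_add (add_le_add k1 k2) k3
      _ = (‖A‖ * ‖y‖) * (2 * ‖x‖ + 1) := by ring
      _ ≤ (‖A‖ * ‖y‖) * (2 * (1 + ‖x‖) ^ 2) :=
          mul_le_mul_of_nonneg_left (by nlinarith) (by positivity)
      _ = _ := by ring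

theorem fderiv_innr (b x v : E n) : fderiv ℝ (fun x : E n => (inner ℝ x b : ℝ)) x v = inner ℝ v b := by
  have h5 : HasFDerivAt (fun x : E n => (inner ℝ x b : ℝ)) (innerSL ℝ b) x := by
    refine (innerSL ℝ b).hasFDerivAt.congr_of_eventuallyEq (Eventually.of_forall fun x => ?_)
    simp only [innerSL_apply_apply]
    exact real_inner_comm _ _
  rw [h5.fderiv, innerSL_apply_apply, real_inner_comm]

theorem hasFDerivAt_quad (A : E n →L[ℝ] E n) (x : E n) :
    ∃ L : E n →L[ℝ] ℝ, HasFDerivAt (fun x : E n => (inner ℝ (A x) x : ℝ)) L x ∧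
      ∀ v, L v = inner ℝ (A x) v + inner ℝ (A v) x := by
  have h := (A.hasFDerivAt (x := x)).inner ℝ (hasFDerivAt_id x)
  refine ⟨_, h, fun v => ?_⟩
  simp

theorem fderiv_quad {A : E n →L[ℝ] E n} (hA : Sy A) (x v : E n) :
    fderiv ℝ (fun x : E n => (inner ℝ (A x) x : ℝ)) x v = 2 * inner ℝ (A v) x := by
  obtain ⟨L, hL, hL2⟩ := hasFDerivAt_quad A x
  rw [hL.fderiv, hL2, hA x v]
  ring

theorem fderiv_quad_sq {A : E n →L[ℝ] E n} (hA : Sy A) (x v : E n) :
    fderiv ℝ (fun x : E n => (inner ℝ (A x) x : ℝ) ^ 2) x v =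
      4 * (inner ℝ (A x) x * inner ℝ (A v) x) := by
  obtain ⟨L, hL, hL2⟩ := hasFDerivAt_quad A x
  rw [(hL.pow 2).fderiv]
  simp only [_root_.smul_apply, smul_eq_mul, hL2, hA x v]
  norm_num
  ring

theorem int_innr_innr (v w : E n) :
    ∫ x, (inner ℝ x v : ℝ) * inner ℝ x w ∂(gam n) = inner ℝ v w :=
  (Pool.Agent.W933.FVGM.main n).2.2.2.1 v w

theorem int_quad (A : E n →L[ℝ] E n) : ∫ x, (inner ℝ (A x) x : ℝ) ∂(gam n) = tr A := by
  have h1 : ∀ x : E n, (inner ℝ (A x) x : ℝ) =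
      ∑ i, (inner ℝ x (bv n i) : ℝ) * inner ℝ x (A (bv n i)) := fun x => by
    rw [← sum_A]
    refine Finset.sum_congr rfl fun i _ => ?_
    rw [real_inner_comm x]
  simp only [h1]
  rw [integral_finsetSum _ fun i _ => ((PL.innr (bv n i)).mul (PL.innr (A (bv n i)))).integrable]
  unfold tr
  refine Finset.sum_congr rfl fun i _ => ?_
  rw [int_innr_innr, real_inner_comm]

theorem quad_ibp {A : E n →L[ℝ] E n} (hA : Sy A) (b v : E n) :
    ∫ x, (inner ℝ (A x) x : ℝ) * inner ℝ x b * inner ℝ x v ∂(gam n) =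
      2 * inner ℝ (A v) b + inner ℝ v b * tr A := by
  rw [(PL.quad A).ibp_mul (PL.innr b) v]
  simp only [fderiv_quad hA, fderiv_innr]
  congr 1
  · have h1 : ∀ x : E n, 2 * (inner ℝ (A v) x : ℝ) * inner ℝ x b =
        2 * (inner ℝ x (A v) * inner ℝ x b) := fun x => by
      rw [real_inner_comm x (A v)]; ring
    simp only [h1]
    rw [integral_const_mul, int_innr_innr]
  · rw [integral_mul_const, int_quad]
    ring

theorem int_quad_sq {A : E n →L[ℝ] E n} (hA : Sy A) (h0 : tr A = 0) :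
    ∫ x, (inner ℝ (A x) x : ℝ) ^ 2 ∂(gam n) = 2 * hs A := by
  have h1 : ∀ x : E n, (inner ℝ (A x) x : ℝ) ^ 2 =
      ∑ i, (inner ℝ (A x) x : ℝ) * inner ℝ x (A (bv n i)) * inner ℝ x (bv n i) := fun x => by
    rw [sq]
    nth_rw 2 [← sum_A]
    rw [Finset.mul_sum]
    refine Finset.sum_congr rfl fun i _ => ?_
    rw [real_inner_comm x (A (bv n i))]
    ring
  simp only [h1]
  rw [integral_finsetSum _ fun i _ =>
    (((PL.quad A).mul (PL.innr (A (bv n i)))).mul (PL.innr (bv n i))).integrable]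
  unfold hs
  rw [Finset.mul_sum]
  refine Finset.sum_congr rfl fun i _ => ?_
  rw [quad_ibp hA, h0, mul_zero, add_zero, inner_pp]

theorem int_quad_sq_inner {A : E n →L[ℝ] E n} (hA : Sy A) (h0 : tr A = 0) (e : E n) :
    ∫ x, (inner ℝ (A x) x : ℝ) ^ 2 * inner ℝ x e * inner ℝ x e ∂(gam n) =
      2 * ‖e‖ ^ 2 * hs A + 8 * ‖A e‖ ^ 2 := by
  rw [((PL.quad A).pow 2).ibp_mul (PL.innr e) e]
  simp only [fderiv_quad_sq hA, fderiv_innr]
  rw [add_comm]
  congr 1
  · rw [integral_mul_const, int_quad_sq hA h0, inner_pp]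
    ring
  · have h1 : ∀ x : E n, 4 * ((inner ℝ (A x) x : ℝ) * inner ℝ (A e) x) * inner ℝ x e =
        4 * (inner ℝ (A x) x * inner ℝ x (A e) * inner ℝ x e) := fun x => by
      rw [real_inner_comm x (A e)]; ring
    simp only [h1]
    rw [integral_const_mul, quad_ibp hA, h0, mul_zero, add_zero, inner_pp]
    ring

/-- moments of homogeneous functions of class `PL` -/
theorem hom_int' {h : E n → ℝ} {j : ℕ} (hm : Continuous h)
    (hh : ∀ (t : ℝ) (x : E n), 0 ≤ t → h (t • x) = t ^ j * h x) :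
    ∫ x, ‖x‖ ^ 2 * h x ∂(gam n) = (n + j) * ∫ x, h x ∂(gam n) := by
  obtain ⟨C, hC⟩ : ∃ C : ℝ, ∀ x ∈ Metric.closedBall (0 : E n) 1, |h x| ≤ C := by
    have := (isCompact_closedBall (0 : E n) 1).exists_bound_of_continuousOn hm.continuousOn
    obtain ⟨C, hC⟩ := this
    exact ⟨C, fun x hx => by simpa using hC x hx⟩
  refine hom_int (C := C) (j := j) hm.measurable (fun x => ?_) (fun t x ht => hh t x ht.le)
  by_cases hx : x = 0
  · subst hx
    have h1 := hC 0 (by simp)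
    rcases Nat.eq_zero_or_pos j with hj | hj
    · rw [hj]; simpa using h1
    · have h2 := hh 0 0 le_rfl
      rw [zero_smul, zero_pow hj.ne', zero_mul] at h2
      rw [h2]
      simp [zero_pow hj.ne']
  · have hx' : 0 < ‖x‖ := norm_pos_iff.2 hx
    have h1 : x = ‖x‖ • (‖x‖⁻¹ • x) := by
      rw [smul_smul, mul_inv_cancel₀ hx'.ne', one_smul]
    have h2 : ‖x‖⁻¹ • x ∈ Metric.closedBall (0 : E n) 1 := by
      rw [mem_closedBall_zero_iff, norm_smul, norm_inv, norm_norm, inv_mul_cancel₀ hx'.ne']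
    have h3 := hC _ h2
    have h4 := hh ‖x‖ (‖x‖⁻¹ • x) hx'.le
    rw [← h1] at h4
    rw [h4, abs_mul, abs_of_pos (by positivity)]
    calc ‖x‖ ^ j * |h (‖x‖⁻¹ • x)| ≤ ‖x‖ ^ j * C :=
          mul_le_mul_of_nonneg_left h3 (by positivity)
      _ = _ := by ring

theorem int_norm_sq_innr (b v : E n) :
    ∫ x, ‖x‖ ^ 2 * (inner ℝ x b * inner ℝ x v) ∂(gam n) = (n + 2) * (inner ℝ b v : ℝ) := by
  have h := hom_int' (n := n) (h := fun x : E n => (inner ℝ x b : ℝ) * inner ℝ x v) (j := 2)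
    (by fun_prop) (fun t x _ => by
      simp only [real_inner_smul_left]; ring)
  rw [h, int_innr_innr]
  norm_num

theorem int_norm_four (b : E n) :
    ∫ x, ‖x‖ ^ 4 * (inner ℝ x b : ℝ) ^ 2 ∂(gam n) = (n + 4) * ((n + 2) * ‖b‖ ^ 2) := by
  have h := hom_int' (n := n) (h := fun x : E n => ‖x‖ ^ 2 * (inner ℝ x b * inner ℝ x b)) (j := 4)
    (by fun_prop) (fun t x ht => by
      simp only [real_inner_smul_left, norm_smul, Real.norm_eq_abs, abs_of_nonneg ht]; ring)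
  rw [int_norm_sq_innr, inner_pp] at h
  norm_num at h
  rw [← h]
  refine integral_congr_ae (Eventually.of_forall fun x => ?_)
  simp only
  ring

theorem int_norm_quad {A : E n →L[ℝ] E n} (hA : Sy A) (h0 : tr A = 0) (b v : E n) :
    ∫ x, ‖x‖ ^ 2 * (inner ℝ (A x) x * inner ℝ x b * inner ℝ x v) ∂(gam n) =
      (n + 4) * (2 * (inner ℝ (A v) b : ℝ)) := by
  have h := hom_int' (n := n) (h := fun x : E n => (inner ℝ (A x) x : ℝ) * inner ℝ x b *
    inner ℝ x v) (j := 4) (((PL.quad A).mul (PL.innr b)).mul (PL.innr v)).continuous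
    (fun t x _ => by
      simp only [map_smul, real_inner_smul_left, real_inner_smul_right]; ring)
  rw [h, quad_ibp hA, h0, mul_zero, add_zero]
  norm_num

/-- Cauchy-Schwarz -/
theorem cauchy {α : Type*} [MeasurableSpace α] {μ : Measure α} {f g : α → ℝ}
    (hf : Integrable (fun x => f x ^ 2) μ) (hg : Integrable (fun x => g x ^ 2) μ)
    (hfg : Integrable (fun x => f x * g x) μ) :
    (∫ x, f x * g x ∂μ) ^ 2 ≤ (∫ x, f x ^ 2 ∂μ) * ∫ x, g x ^ 2 ∂μ := by
  have h1 : ∀ t : ℝ, 0 ≤ (∫ x, g x ^ 2 ∂μ) * (t * t) + (-2 * ∫ x, f x * g x ∂μ) * t +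
      ∫ x, f x ^ 2 ∂μ := by
    intro t
    have h2 : 0 ≤ ∫ x, (f x - t * g x) ^ 2 ∂μ := integral_nonneg fun _ => sq_nonneg _
    have h3 : ∫ x, (f x - t * g x) ^ 2 ∂μ =
        ∫ x, (f x ^ 2 + (-2 * t) * (f x * g x)) + t ^ 2 * g x ^ 2 ∂μ := by
      refine integral_congr_ae (Eventually.of_forall fun x => ?_)
      simp only
      ring
    have i1 : Integrable (fun x => f x ^ 2 + (-2 * t) * (f x * g x)) μ :=
      hf.add (hfg.const_mul _)
    rw [h3, integral_add i1 (hg.const_mul _), integral_add hf (hfg.const_mul _),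
      integral_const_mul, integral_const_mul] at h2
    linarith
  have h4 := discrim_le_zero h1
  unfold discrim at h4
  nlinarith

end Pool.Agent.K7.H34.FV
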