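import Pool.Agent.K7.H34.FV.NMap
import Pool.Agent.H241R3.FV.TPolar

/-!
# Radial integrals, limits
-/

set_option autoImplicit false

open MeasureTheory Metric Set Filter Topology InnerProductGeometry

namespace Pool.Agent.K7.H34.FV

open Pool.Agent.H241R3.FV (Sph RChart om)
open Pool.Agent.W716.FV (E gam gd Good)

variable {n : ℕ}

theorem rad (hn : 0 < n) {l : ℝ} (hl : 0 ≤ l) {φ : ℝ → ℝ} (hφ : ContinuousOn φ (Icc 0 l))
    (h0 : ∀ y ∈ Icc 0 l, 0 ≤ φ y) :
    ∫⁻ p in ball (0 : E n) l, ENNReal.ofReal (φ ‖p‖) =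
      ENNReal.ofReal (n * om n * ∫ y in (0 : ℝ)..l, y ^ (n - 1) * φ y) := by
  have : Nonempty (Fin n) := ⟨⟨0, hn⟩⟩
  have hdim : Module.finrank ℝ (E n) = n := by simp
  set f : ℝ → ℝ := (Iio l).indicator φ with hf
  have h1 : ∫⁻ p in ball (0 : E n) l, ENNReal.ofReal (φ ‖p‖) =
      ∫⁻ p : E n, ENNReal.ofReal (f ‖p‖) := by
    rw [← lintegral_indicator measurableSet_ball]
    refine lintegral_congr fun p => ?_
    by_cases hp : ‖p‖ < l
    · rw [indicator_of_mem (mem_ball_zero_iff.2 hp), hf, indicator_of_mem (mem_Iio.2 hp)]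
    · rw [indicator_of_notMem (by rwa [mem_ball_zero_iff]), hf,
        indicator_of_notMem (by rwa [mem_Iio]), ENNReal.ofReal_zero]
  have hcont : ContinuousOn (fun y : ℝ => y ^ (n - 1) * φ y) (Icc 0 l) :=
    (continuousOn_id.pow _).mul hφ
  have hI : IntegrableOn (fun y : ℝ => y ^ (n - 1) * φ y) (Ioc 0 l) :=
    (hcont.integrableOn_Icc).mono_set Ioc_subset_Icc_self
  have hint : Integrable (fun p : E n => f ‖p‖) := by
    have h2 := (integrableOn_fun_norm_addHaar (μ := (volume : Measure (E n))) (f := φ)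
      (r := l)).2 (by
        rw [hdim]
        simp only [smul_eq_mul]
        exact hI.mono_set Ioo_subset_Ioc_self)
    rw [← integrable_indicator_iff measurableSet_ball] at h2
    refine h2.congr (Eventually.of_forall fun p => ?_)
    by_cases hp : ‖p‖ < l
    · simp only [hf]
      rw [indicator_of_mem (mem_ball_zero_iff.2 hp), indicator_of_mem (mem_Iio.2 hp)]
    · simp only [hf]
      rw [indicator_of_notMem (by rwa [mem_ball_zero_iff]), indicator_of_notMem (by rwa [mem_Iio])]
  have hnn : ∀ p : E n, 0 ≤ f ‖p‖ := by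
    intro p
    rw [hf]
    by_cases hp : ‖p‖ < l
    · rw [indicator_of_mem (mem_Iio.2 hp)]
      exact h0 _ ⟨norm_nonneg _, hp.le⟩
    · rw [indicator_of_notMem (by rwa [mem_Iio])]
  rw [h1, ← ofReal_integral_eq_lintegral_ofReal hint (Eventually.of_forall hnn)]
  congr 1
  rw [integral_fun_norm_addHaar, hdim, intervalIntegral.integral_of_le hl]
  have h3 : ∫ y in Ioi (0 : ℝ), y ^ (n - 1) • f y = ∫ y in Ioc 0 l, y ^ (n - 1) * φ y := by
    rw [integral_Ioc_eq_integral_Ioo, ← integral_indicator measurableSet_Ioi,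
      ← integral_indicator measurableSet_Ioo]
    refine integral_congr_ae (Eventually.of_forall fun y => ?_)
    by_cases hy : 0 < y
    · by_cases hy2 : y < l
      · have hm : y ∈ Ioo 0 l := ⟨hy, hy2⟩
        simp only [hf]
        rw [indicator_of_mem (mem_Ioi.2 hy), indicator_of_mem (mem_Iio.2 hy2),
          indicator_of_mem hm, smul_eq_mul]
      · simp only [hf]
        rw [indicator_of_mem (mem_Ioi.2 hy), indicator_of_notMem (by rwa [mem_Iio]),
          indicator_of_notMem (fun h => hy2 h.2), smul_zero]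
    · rw [indicator_of_notMem (by rwa [mem_Ioi]), indicator_of_notMem (fun h => hy h.1)]
  rw [h3, nsmul_eq_mul, smul_eq_mul]
  unfold om
  ring

/-- monotone limit of closed balls -/
theorem ball_le {l : ℝ} {w : E n → ENNReal} {A : ENNReal}
    (h : ∀ ρ : ℝ, 0 ≤ ρ → ρ < l → ∫⁻ p in closedBall (0 : E n) ρ, w p ≤ A) :
    ∫⁻ p in ball (0 : E n) l, w p ≤ A := by
  rcases le_or_gt l 0 with hl | hl
  · rw [ball_eq_empty.2 hl]
    simp
  set r : ℕ → ℝ := fun k => l * (1 - 1 / (k + 1)) with hr
  have hr0 : ∀ k, 0 ≤ r k := by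
    intro k
    have h1 : (1 : ℝ) / (k + 1) ≤ 1 := by
      rw [div_le_one (by positivity)]
      have : (0 : ℝ) ≤ k := Nat.cast_nonneg k
      linarith
    exact mul_nonneg hl.le (by linarith)
  have hr1 : ∀ k, r k < l := by
    intro k
    have h1 : (0 : ℝ) < 1 / (k + 1) := by positivity
    rw [hr]
    simp only
    nlinarith
  have hmono : Monotone r := by
    intro j k hjk
    rw [hr]
    simp only
    refine mul_le_mul_of_nonneg_left ?_ hl.le
    have : (1 : ℝ) / (k + 1) ≤ 1 / (j + 1) := by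
      apply one_div_le_one_div_of_le (by positivity)
      have : (j : ℝ) ≤ k := by exact_mod_cast hjk
      linarith
    linarith
  have hU : ball (0 : E n) l = ⋃ k, closedBall (0 : E n) (r k) := by
    ext p
    simp only [mem_iUnion, mem_ball_zero_iff, mem_closedBall_zero_iff]
    constructor
    · intro hp
      have ht : Tendsto r atTop (𝓝 l) := by
        have h1 : Tendsto (fun k : ℕ => l * (1 - 1 / ((k : ℝ) + 1))) atTop (𝓝 (l * (1 - 0))) :=
          (tendsto_const_nhds.sub tendsto_one_div_add_atTop_nhds_zero_nat).const_mul l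
        rw [sub_zero, mul_one] at h1
        exact h1
      obtain ⟨k, hk⟩ := (ht.eventually (lt_mem_nhds hp)).exists
      exact ⟨k, hk.le⟩
    · rintro ⟨k, hk⟩
      exact hk.trans_lt (hr1 k)
  have h2 : ∀ s : Set (E n), MeasurableSet s → ∫⁻ p in s, w p = (volume.withDensity w) s :=
    fun s hs => (withDensity_apply w hs).symm
  rw [h2 _ measurableSet_ball, hU]
  have hdir : Directed (· ⊆ ·) fun k => closedBall (0 : E n) (r k) :=
    (monotone_nat_of_le_succ fun k => closedBall_subset_closedBall (hmono (Nat.le_succ k)) :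
      Monotone fun k => closedBall (0 : E n) (r k)).directed_le
  rw [hdir.measure_iUnion]
  refine iSup_le fun k => ?_
  rw [← h2 _ measurableSet_closedBall]
  exact h (r k) (hr0 k) (hr1 k)

/-- the substitution `y = sin t` -/
theorem subst_sin {r : ℝ} (hr0 : 0 ≤ r) (hr1 : r < Real.pi / 2) (k : ℕ) :
    ∫ y in (0 : ℝ)..Real.sin r, y ^ k * (√(1 - y ^ 2))⁻¹ = ∫ t in (0 : ℝ)..r, Real.sin t ^ k := by
  have hc : ∀ t ∈ uIcc 0 r, 0 < Real.cos t := by
    intro t ht
    rw [uIcc_of_le hr0] at ht
    exact Real.cos_pos_of_mem_Ioo ⟨by linarith [ht.1, Real.pi_pos], lt_of_le_of_lt ht.2 hr1⟩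
  have hs : Real.sin r < 1 := by
    have := Real.sin_lt_sin_of_lt_of_le_pi_div_two (x := r) (y := Real.pi / 2)
      (by linarith [Real.pi_pos]) le_rfl hr1
    rwa [Real.sin_pi_div_two] at this
  have himg : ∀ t ∈ uIcc 0 r, Real.sin t ∈ Icc 0 (Real.sin r) := by
    intro t ht
    rw [uIcc_of_le hr0] at ht
    refine ⟨Real.sin_nonneg_of_nonneg_of_le_pi ht.1 (by linarith [ht.2, Real.pi_pos]), ?_⟩
    exact Real.sin_le_sin_of_le_of_le_pi_div_two (by linarith [ht.1, Real.pi_pos]) hr1.le ht.2
  have h := intervalIntegral.integral_comp_mul_deriv'' (a := 0) (b := r) (f := Real.sin)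
    (f' := Real.cos) (g := fun y => y ^ k * (√(1 - y ^ 2))⁻¹) Real.continuous_sin.continuousOn
    (fun t _ => (Real.hasDerivAt_sin t).hasDerivWithinAt) Real.continuous_cos.continuousOn ?_
  · rw [Real.sin_zero] at h
    rw [← h]
    refine intervalIntegral.integral_congr fun t ht => ?_
    have hct := hc t ht
    simp only [Function.comp_apply]
    have e : √(1 - Real.sin t ^ 2) = Real.cos t := by
      rw [← Real.cos_sq', Real.sqrt_sq hct.le]
    rw [e]
    field_simp
  · have h2 : ContinuousOn (fun y : ℝ => y ^ k * (√(1 - y ^ 2))⁻¹) (Icc 0 (Real.sin r)) := by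
      refine (continuousOn_id.pow k).mul (ContinuousOn.inv₀ (by fun_prop) fun y hy => ?_)
      have : 0 < 1 - y ^ 2 := by
        have := hy.1
        have := hy.2
        nlinarith
      exact (Real.sqrt_pos.2 this).ne'
    refine h2.mono ?_
    rintro _ ⟨t, ht, rfl⟩
    exact himg t ht

/-- the total volume -/
theorem sphere_total (d : ℕ) :
    (volume : Measure (E (d + 2))).toSphere univ / 2 =
      ENNReal.ofReal ((d + 1 : ℕ) * om (d + 1) * ∫ t in (0 : ℝ)..(Real.pi / 2), Real.sin t ^ d) := by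
  have h1 := Pool.Agent.H241R3.FV.TPolar.taskPolar (d + 1) (by omega) (fun _ => 1) continuous_const
  simp only [integral_const, smul_eq_mul, mul_one, one_mul, Nat.add_sub_cancel] at h1
  have h2 : ∫ t in (0 : ℝ)..Real.pi, Real.sin t ^ d =
      2 * ∫ t in (0 : ℝ)..(Real.pi / 2), Real.sin t ^ d := by
    have hi : ∀ a b : ℝ, IntervalIntegrable (fun t => Real.sin t ^ d) volume a b := fun a b =>
      (by fun_prop : Continuous fun t : ℝ => Real.sin t ^ d).intervalIntegrable _ _
    rw [← intervalIntegral.integral_add_adjacent_intervals (hi 0 (Real.pi / 2))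
      (hi (Real.pi / 2) Real.pi)]
    have h3 := intervalIntegral.integral_comp_sub_left (a := 0) (b := Real.pi / 2)
      (fun t => Real.sin t ^ d) Real.pi
    simp only [Real.sin_pi_sub, sub_zero] at h3
    rw [h3, show Real.pi - Real.pi / 2 = Real.pi / 2 by ring]
    ring
  have h4 : (volume : Measure (E (d + 2))).toSphere univ =
      ENNReal.ofReal ((volume : Measure (E (d + 2))).toSphere.real univ) := by
    rw [Measure.real, ENNReal.ofReal_toReal (measure_ne_top _ _)]
  rw [h4]
  have h5 : (volume : Measure (E (d + 2))).toSphere.real univ =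
      ((d + 1 : ℕ) : ℝ) * om (d + 1) * (2 * ∫ t in (0 : ℝ)..(Real.pi / 2), Real.sin t ^ d) := by
    rw [← h2]
    exact h1
  rw [h5, ENNReal.div_eq_inv_mul, show (2 : ENNReal)⁻¹ = ENNReal.ofReal 2⁻¹ by
    rw [ENNReal.ofReal_inv_of_pos (by norm_num)]; norm_num, ← ENNReal.ofReal_mul (by norm_num)]
  congr 1
  ring

end Pool.Agent.K7.H34.FV
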