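import Pool.Agent.K7.H34.FV.Gm

/-!
# The operator `S`
-/

set_option autoImplicit false

open MeasureTheory Filter Topology

namespace Pool.Agent.K7.H34.FV

open Pool.Agent.W716.FV (E gam gd Good)

variable {n : ℕ}

/-- the function `κ` -/
noncomputable def kap (u : E n → ℝ) (p g : E n) : ℝ := u (BB p g) - inner ℝ (eta p) g

/-- its first moment -/
noncomputable def tau (u : E n → ℝ) (p : E n) : E n := ∫ g, kap u p g • g ∂(gam n)

theorem kap_PL {u : E n → ℝ} (hu : Good 1 u) (p : E n) : PL (kap u p) := by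
  have h1 : PL (fun g => u (BB p g)) := by
    refine PL.of_lip (L := ‖BB p‖) (norm_nonneg _) fun x y => ?_
    refine (hu.lip _ _).trans ?_
    rw [one_mul, ← map_sub]
    exact (BB p).le_opNorm _
  exact h1.sub (PL.innl _)

theorem kap_hom {u : E n → ℝ} (hu : Good 1 u) (p : E n) (t : ℝ) (g : E n) (ht : 0 ≤ t) :
    kap u p (t • g) = t * kap u p g := by
  unfold kap
  rw [map_smul, hu.hom t _ ht, real_inner_smul_right]
  ring

theorem kap_abs {u : E n → ℝ} (hu : Good 1 u) (p g : E n) :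
    |kap u p g| ≤ (‖BB p‖ + ‖eta p‖) * ‖g‖ := by
  unfold kap
  calc |u (BB p g) - inner ℝ (eta p) g| ≤ |u (BB p g)| + |inner ℝ (eta p) g| := abs_sub _ _
    _ ≤ ‖BB p‖ * ‖g‖ + ‖eta p‖ * ‖g‖ :=
        add_le_add ((good_abs hu _).trans ((BB p).le_opNorm _)) (abs_real_inner_le_norm _ _)
    _ = _ := by ring

theorem PL.int_smul {f : E n → ℝ} (hf : PL f) : Integrable (fun g => f g • g) (gam n) := by
  have hc := hf.continuous
  obtain ⟨C, k, hC, h0, -⟩ := hf
  refine integ C (k + 1) (by fun_prop : Continuous _).aestronglyMeasurable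
    (Eventually.of_forall fun x => ?_)
  rw [norm_smul, Real.norm_eq_abs, pow_succ, ← mul_assoc]
  exact mul_le_mul (h0 x) (by linarith) (norm_nonneg _) (by positivity)

theorem PL.inner_int {f : E n → ℝ} (hf : PL f) (e : E n) :
    (inner ℝ (∫ g, f g • g ∂(gam n)) e : ℝ) = ∫ g, f g * inner ℝ g e ∂(gam n) := by
  rw [real_inner_comm, ← integral_inner hf.int_smul]
  refine integral_congr_ae (Eventually.of_forall fun g => ?_)
  simp only
  rw [real_inner_smul_right, real_inner_comm]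

theorem int_inner_smul (e : E n) : ∫ g, (inner ℝ g e : ℝ) • g ∂(gam n) = e := by
  refine ext_inner_right ℝ fun w => ?_
  rw [PL.inner_int (PL.innr e)]
  rw [(Pool.Agent.W933.FVGM.main n).2.2.2.1]

theorem Gm_eq {u : E n → ℝ} {p : E n} (hp : ‖p‖ < 1) :
    Gm u p = (pz p)⁻¹ • BB p (tau u p) := by
  have h1 := whiten hp (fun v => (u v - inner ℝ p v) • v)
  have h2 : Gm u p = ∫ v, Real.exp ((inner ℝ p v) ^ 2 / 2) • (u v - inner ℝ p v) • v ∂(gam n) := by
    unfold Gm
    refine integral_congr_ae (Eventually.of_forall fun v => ?_)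
    simp only [smul_smul]
  rw [h2, h1]
  congr 1
  have h3 := (BE hp).integral_comp_comm (μ := gam n) (fun g => kap u p g • g)
  have h4 : BB p (tau u p) = ∫ g, BB p (kap u p g • g) ∂(gam n) := h3.symm
  rw [h4]
  refine integral_congr_ae (Eventually.of_forall fun g => ?_)
  simp only [map_smul, kap, inner_p_BB' hp]

theorem Gm_eq_zero {u : E n → ℝ} {p : E n} (hp : ‖p‖ < 1) : Gm u p = 0 ↔ tau u p = 0 := by
  rw [Gm_eq hp, smul_eq_zero_iff_right (inv_ne_zero (pz_pos hp).ne')]
  constructor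
  · intro h
    have := BI_BB hp (tau u p)
    rw [h, map_zero] at this
    exact this.symm
  · intro h
    rw [h, map_zero]

/-- the kernel `κ ⟨η, g⟩` -/
noncomputable def ka (u : E n → ℝ) (p g : E n) : ℝ := kap u p g * inner ℝ (eta p) g

theorem ka_PL {u : E n → ℝ} (hu : Good 1 u) (p : E n) : PL (ka u p) :=
  (kap_PL hu p).mul (PL.innl _)

/-- the operator `S` -/
noncomputable def Sop (u : E n → ℝ) (p : E n) : E n →L[ℝ] E n :=
  ∫ g, ka u p g • (innerSL ℝ g).smulRight g ∂(gam n)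

theorem Sop_integrable {u : E n → ℝ} (hu : Good 1 u) (p : E n) :
    Integrable (fun g : E n => ka u p g • (innerSL ℝ g).smulRight g) (gam n) := by
  have hc := (ka_PL hu p).continuous
  obtain ⟨C, k, hC, h0, -⟩ := ka_PL hu p
  have h4 : Continuous fun x : (E n →L[ℝ] ℝ) × E n => x.1.smulRight x.2 := by fun_prop
  have h5 : Continuous fun g : E n => (innerSL ℝ g).smulRight g :=
    h4.comp ((innerSL ℝ).continuous.prodMk continuous_id)
  refine integ C (k + 2) (hc.smul h5).aestronglyMeasurable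
    (Eventually.of_forall fun x => ?_)
  rw [norm_smul, Real.norm_eq_abs, ContinuousLinearMap.norm_smulRight_apply, innerSL_apply_norm]
  calc |ka u p x| * (‖x‖ * ‖x‖) ≤ (C * (1 + ‖x‖) ^ k) * (1 + ‖x‖) ^ 2 := by
        refine mul_le_mul (h0 x) ?_ (by positivity) (by positivity)
        nlinarith [norm_nonneg x]
    _ = _ := by ring

theorem Sop_apply {u : E n → ℝ} (hu : Good 1 u) (p e : E n) :
    Sop u p e = ∫ g, (ka u p g * inner ℝ g e) • g ∂(gam n) := by
  unfold Sop
  rw [ContinuousLinearMap.integral_apply (Sop_integrable hu p)]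
  refine integral_congr_ae (Eventually.of_forall fun g => ?_)
  simp [smul_smul]

theorem Sop_inner {u : E n → ℝ} (hu : Good 1 u) (p e f : E n) :
    (inner ℝ (Sop u p e) f : ℝ) = ∫ g, ka u p g * inner ℝ g e * inner ℝ g f ∂(gam n) := by
  rw [Sop_apply hu, PL.inner_int ((ka_PL hu p).mul (PL.innr e))]

theorem Sop_symm {u : E n → ℝ} (hu : Good 1 u) (p e f : E n) :
    (inner ℝ (Sop u p e) f : ℝ) = inner ℝ (Sop u p f) e := by
  rw [Sop_inner hu, Sop_inner hu]
  refine integral_congr_ae (Eventually.of_forall fun g => ?_)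
  simp only
  ring

/-- one sided bound for a directional derivative -/
theorem fderiv_le {f : E n → ℝ} {g v : E n} {C : ℝ} (hC : 0 ≤ C)
    (h : ∀ t : ℝ, 0 ≤ t → f (g + t • v) - f g ≤ t * C) : fderiv ℝ f g v ≤ C := by
  by_cases hd : DifferentiableAt ℝ f g
  · have h1 : HasDerivAt (fun t : ℝ => f (g + t • v)) (fderiv ℝ f g v) 0 :=
      hd.hasFDerivAt.hasLineDerivAt v
    rw [hasDerivAt_iff_tendsto_slope_zero] at h1
    have h2 : Tendsto (fun t : ℝ => t⁻¹ • (f (g + (0 + t) • v) - f (g + (0 : ℝ) • v)))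
        (𝓝[>] 0) (𝓝 (fderiv ℝ f g v)) :=
      (h1.mono_left (nhdsWithin_mono _ fun t ht => ne_of_gt ht))
    refine le_of_tendsto h2 ?_
    filter_upwards [self_mem_nhdsWithin] with t ht
    have ht : (0 : ℝ) < t := ht
    rw [zero_add, zero_smul, add_zero, smul_eq_mul, inv_mul_le_iff₀ ht]
    exact h t ht.le
  · rw [fderiv_zero_of_not_differentiableAt hd]
    simpa using hC

/-- the constant `|p| / (1 + |p|)` -/
noncomputable def sg (p : E n) : ℝ := ‖p‖ / (1 + ‖p‖)

theorem sg_nonneg (p : E n) : 0 ≤ sg p := by unfold sg; positivity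

theorem sg_lt (p : E n) (hp : ‖p‖ < 1) : sg p < 1 / 2 := by
  unfold sg
  rw [div_lt_iff₀ (by positivity)]
  linarith

theorem dkap_le {u : E n → ℝ} (hu : Good 1 u) {p : E n} (hp : ‖p‖ < 1) (g : E n) :
    fderiv ℝ (kap u p) g (eta p) ≤ sg p := by
  have h0 := pz_pos hp
  refine fderiv_le (sg_nonneg p) fun t ht => ?_
  unfold kap
  have h1 := hu.lip (BB p (g + t • eta p)) (BB p g)
  rw [one_mul, ← map_sub, add_sub_cancel_left, map_smul, norm_smul, Real.norm_eq_abs,
    abs_of_nonneg ht, BB_eta hp, norm_smul, Real.norm_eq_abs,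
    abs_of_pos (by positivity : (0 : ℝ) < (pz p ^ 2)⁻¹)] at h1
  have h2 := (abs_le.1 h1).2
  rw [inner_add_right, real_inner_smul_right, inner_pp, norm_eta_sq hp]
  have h3 : sg p = (pz p ^ 2)⁻¹ * ‖p‖ - ‖p‖ ^ 2 / pz p ^ 2 := by
    have h4 : pz p ^ 2 = (1 - ‖p‖) * (1 + ‖p‖) := by rw [pz_sq hp]; ring
    have h5 : (1 - ‖p‖) ≠ 0 := by linarith
    have h6 : (1 + ‖p‖) ≠ 0 := by positivity
    rw [sg, h4]
    field_simp
  rw [h3]
  linarith

/-- the quadratic form of `S` -/
theorem Sop_quad {u : E n → ℝ} (hu : Good 1 u) {p : E n} (hp : ‖p‖ < 1) (e : E n) :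
    (inner ℝ (Sop u p e) e : ℝ) ≤
      sg p * ‖e‖ ^ 2 + 2 * (inner ℝ (eta p) e * inner ℝ (tau u p) e) := by
  rw [Sop_inner hu]
  have h1 := (kap_PL hu p).ibp_mul ((PL.innr e).pow 2) (eta p)
  have h2 : ∫ g, ka u p g * inner ℝ g e * inner ℝ g e ∂(gam n) =
      ∫ g, kap u p g * (inner ℝ g e) ^ 2 * inner ℝ g (eta p) ∂(gam n) := by
    refine integral_congr_ae (Eventually.of_forall fun g => ?_)
    simp only [ka]
    rw [real_inner_comm g (eta p)]
    ring
  rw [h2, h1]
  refine add_le_add ?_ (le_of_eq ?_)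
  · have h3 : ∫ g : E n, (inner ℝ g e : ℝ) ^ 2 ∂(gam n) = ‖e‖ ^ 2 := by
      have := (Pool.Agent.W933.FVGM.main n).2.2.2.1 e e
      rw [inner_pp] at this
      rw [← this]
      refine integral_congr_ae (Eventually.of_forall fun g => ?_)
      simp only
      ring
    rw [← h3, ← integral_const_mul]
    refine integral_mono (int_fderiv_mul (kap_PL hu p) ((PL.innr e).pow 2) _)
      (((PL.innr e).pow 2).integrable.const_mul _) fun g => ?_
    exact mul_le_mul_of_nonneg_right (dkap_le hu hp g) (sq_nonneg _)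
  · have h4 : ∀ g : E n, fderiv ℝ (fun x : E n => (inner ℝ x e : ℝ) ^ 2) g (eta p) =
        2 * inner ℝ (eta p) e * inner ℝ g e := by
      intro g
      have h5 : HasFDerivAt (fun x : E n => (inner ℝ x e : ℝ)) (innerSL ℝ e) g := by
        refine (innerSL ℝ e).hasFDerivAt.congr_of_eventuallyEq (Eventually.of_forall fun x => ?_)
        simp only [innerSL_apply_apply]
        exact real_inner_comm _ _
      rw [(h5.pow 2).fderiv]
      simp only [_root_.smul_apply, innerSL_apply_apply, smul_eq_mul]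
      rw [real_inner_comm (eta p) e]
      norm_num
      ring
    simp only [h4]
    have h6 := PL.inner_int (kap_PL hu p) e
    have h7 : (inner ℝ (tau u p) e : ℝ) = ∫ g, kap u p g * inner ℝ g e ∂(gam n) := h6
    rw [h7, ← mul_assoc, ← integral_const_mul]
    refine integral_congr_ae (Eventually.of_forall fun g => ?_)
    simp only
    ring

/-- almost everywhere statements pass through `BB p` -/
theorem ae_BB {P : E n → Prop} {p : E n} (hp : ‖p‖ < 1)
    (h : ∀ᵐ v ∂(volume : Measure (E n)), P v) : ∀ᵐ g ∂(gam n), P (BB p g) := by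
  have h0 := pz_pos hp
  refine ac_gam.ae_le ?_
  have hd : LinearMap.det ((BB p : E n →L[ℝ] E n) : E n →ₗ[ℝ] E n) = (pz p)⁻¹ := det_BB hp
  have h1 := Measure.map_linearMap_addHaar_eq_smul_addHaar (volume : Measure (E n))
      (f := ((BB p : E n →L[ℝ] E n) : E n →ₗ[ℝ] E n)) (by rw [hd]; positivity)
  have h2 : ∀ᵐ v ∂(Measure.map (BB p) (volume : Measure (E n))), P v := by
    have h3 : Measure.map (BB p) (volume : Measure (E n)) =
      ENNReal.ofReal |(LinearMap.det ((BB p : E n →L[ℝ] E n) : E n →ₗ[ℝ] E n))⁻¹| •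
        (volume : Measure (E n)) := h1
    rw [h3]
    exact Measure.ae_smul_measure h _
  exact ae_of_ae_map (BB p).continuous.aemeasurable h2

/-- the operator `N` -/
noncomputable def Nop (D : E n → E n →L[ℝ] ℝ) (p : E n) : E n →L[ℝ] E n :=
  ∫ g, (D (BB p g)).smulRight g ∂(gam n)

theorem Nop_integrable {D : E n → E n →L[ℝ] ℝ} (hD : Measurable D) {K : ℝ} (hK : 0 ≤ K)
    (hb : ∀ᵐ v ∂(volume : Measure (E n)), ‖D v‖ ≤ K * ‖v‖) {p : E n} (hp : ‖p‖ < 1) :
    Integrable (fun g : E n => (D (BB p g)).smulRight g) (gam n) := by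
  have h4 : Continuous fun x : (E n →L[ℝ] ℝ) × E n => x.1.smulRight x.2 := by fun_prop
  have h5 : Measurable fun g : E n => (D (BB p g)).smulRight g :=
    h4.measurable.comp ((hD.comp (BB p).continuous.measurable).prodMk measurable_id)
  refine integ (K * ‖BB p‖) 2 h5.aestronglyMeasurable ?_
  filter_upwards [ae_BB hp hb] with g hg
  rw [ContinuousLinearMap.norm_smulRight_apply]
  calc ‖D (BB p g)‖ * ‖g‖ ≤ (K * (‖BB p‖ * ‖g‖)) * ‖g‖ := by
        refine mul_le_mul_of_nonneg_right (hg.trans ?_) (norm_nonneg _)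
        exact mul_le_mul_of_nonneg_left ((BB p).le_opNorm _) hK
    _ = K * ‖BB p‖ * ‖g‖ ^ 2 := by ring
    _ ≤ _ := by
        refine mul_le_mul_of_nonneg_left ?_ (by positivity)
        exact pow_le_pow_left₀ (norm_nonneg g) (by linarith) 2

theorem Nop_apply {D : E n → E n →L[ℝ] ℝ} (hD : Measurable D) {K : ℝ} (hK : 0 ≤ K)
    (hb : ∀ᵐ v ∂(volume : Measure (E n)), ‖D v‖ ≤ K * ‖v‖) {p : E n} (hp : ‖p‖ < 1) (w : E n) :
    Nop D p w = ∫ g, D (BB p g) w • g ∂(gam n) := by
  unfold Nop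
  rw [ContinuousLinearMap.integral_apply (Nop_integrable hD hK hb hp)]
  rfl

/-- the total derivative in terms of `N` and `S` -/
theorem int_DL {u : E n → ℝ} (hu : Good 1 u) {D : E n → E n →L[ℝ] ℝ} (hD : Measurable D) {K : ℝ}
    (hK : 0 ≤ K) (hb : ∀ᵐ v ∂(volume : Measure (E n)), ‖D v‖ ≤ K * ‖v‖) {p : E n} (hp : ‖p‖ < 1)
    (hi : Integrable (DL u p D) (gam n)) (w z : E n) :
    (∫ v, DL u p D v ∂(gam n)) (w, z) =
      (pz p)⁻¹ • BB p (Nop D p w + Sop u p (BB p z) - BB p z) := by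
  rw [ContinuousLinearMap.integral_apply hi]
  simp only [DL_apply]
  rw [whiten hp (fun v => (D v w + ((u v - inner ℝ p v) * inner ℝ p v - 1) * inner ℝ v z) • v)]
  congr 1
  have h3 := (BE hp).integral_comp_comm (μ := gam n) (fun g =>
    D (BB p g) w • g + (ka u p g * inner ℝ g (BB p z)) • g - (inner ℝ g (BB p z) : ℝ) • g)
  have i1 : Integrable (fun g => D (BB p g) w • g) (gam n) :=
    (ContinuousLinearMap.apply ℝ (E n) w).integrable_comp (Nop_integrable hD hK hb hp)
  have i2 : Integrable (fun g => (ka u p g * inner ℝ g (BB p z)) • g) (gam n) :=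
    ((ka_PL hu p).mul (PL.innr _)).int_smul
  have i3 : Integrable (fun g : E n => (inner ℝ g (BB p z) : ℝ) • g) (gam n) :=
    (PL.innr _).int_smul
  have h5 : ∫ g, (D (BB p g) w • g + (ka u p g * inner ℝ g (BB p z)) • g -
      (inner ℝ g (BB p z) : ℝ) • g) ∂(gam n) = Nop D p w + Sop u p (BB p z) - BB p z := by
    have i4 : Integrable (fun g => D (BB p g) w • g + (ka u p g * inner ℝ g (BB p z)) • g)
        (gam n) := i1.add i2
    rw [integral_sub i4 i3]
    have h6 : ∫ g, (D (BB p g) w • g + (ka u p g * inner ℝ g (BB p z)) • g) ∂(gam n) =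
        ∫ g, D (BB p g) w • g ∂(gam n) + ∫ g, (ka u p g * inner ℝ g (BB p z)) • g ∂(gam n) :=
      integral_add i1 i2
    rw [h6, ← Nop_apply hD hK hb hp, ← Sop_apply hu, int_inner_smul]
  rw [← h5]
  refine Eq.trans ?_ h3
  refine integral_congr_ae (Eventually.of_forall fun g => ?_)
  have e4 : ∀ x, (BE hp) x = BB p x := fun _ => rfl
  simp only [e4, ← add_smul, ← sub_smul, map_smul]
  congr 1
  rw [inner_p_BB' hp, BB_symm]
  unfold ka kap
  ring

end Pool.Agent.K7.H34.FV
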