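import Pool.Agent.K7.H34.FV.Quad
import Pool.Agent.TH253.FV.DL

/-!
# Symmetric operators of trace zero
-/

set_option autoImplicit false

open MeasureTheory Filter Topology

namespace Pool.Agent.K7.H34.FV

open Pool.Agent.W716.FV (E gam gd Good)

variable {n : ℕ}

/-- diagonalisation -/
theorem spec {A : E n →L[ℝ] E n} (hA : Sy A) : ∃ (ev : Fin n → ℝ)
    (b : OrthonormalBasis (Fin n) ℝ (E n)), (∀ i, A (b i) = ev i • b i) ∧
    hs A = ∑ i, ev i ^ 2 ∧ tr A = ∑ i, ev i ∧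
    (ContinuousLinearMap.id ℝ (E n) - A).det = ∏ i, (1 - ev i) := by
  set T : E n →ₗ[ℝ] E n := (A : E n →ₗ[ℝ] E n) with hTdef
  have hT : T.IsSymmetric := by
    intro v w
    have h := hA v w
    rw [real_inner_comm] at h
    rw [real_inner_comm] at h
    exact h.trans (real_inner_comm _ _)
  have hn : Module.finrank ℝ (E n) = n := by simp
  set ev := hT.eigenvalues hn with hev
  set b := hT.eigenvectorBasis hn with hb
  refine ⟨ev, b, fun i => ?_, ?_, ?_, ?_⟩
  · have := hT.apply_eigenvectorBasis hn i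
    exact this
  · have h1 := LinearMap.trace_eq_sum_inner (T ∘ₗ T) (EuclideanSpace.basisFun (Fin n) ℝ)
    have h2 := LinearMap.trace_eq_sum_inner (T ∘ₗ T) b
    have h3 : hs A = LinearMap.trace ℝ (E n) (T ∘ₗ T) := by
      rw [h1]
      refine Finset.sum_congr rfl (fun i _ => ?_)
      rw [LinearMap.comp_apply, ← hT, EuclideanSpace.basisFun_apply, real_inner_self_eq_norm_sq]
      rfl
    rw [h3, h2]
    refine Finset.sum_congr rfl (fun i _ => ?_)
    rw [LinearMap.comp_apply, ← hT, hT.apply_eigenvectorBasis hn i, real_inner_self_eq_norm_sq,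
      norm_smul, mul_pow]
    rw [(hT.eigenvectorBasis hn).norm_eq_one]
    simp [hev]
  · have htr : LinearMap.trace ℝ (E n) T = ∑ i, ev i := by
      have := hT.trace_eq_sum_eigenvalues hn
      simpa using this
    rw [← htr, LinearMap.trace_eq_sum_inner T (EuclideanSpace.basisFun (Fin n) ℝ)]
    refine Finset.sum_congr rfl (fun i _ => ?_)
    rw [EuclideanSpace.basisFun_apply, real_inner_comm]
    rfl
  · rw [ContinuousLinearMap.det]
    have h1 : ((ContinuousLinearMap.id ℝ (E n) - A : E n →L[ℝ] E n) : E n →ₗ[ℝ] E n) =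
        LinearMap.id - T := by
      ext v; simp [hTdef]
    rw [h1, ← LinearMap.det_toMatrix b.toBasis, map_sub, LinearMap.toMatrix_id,
      hT.toMatrix_eigenvectorBasis hn]
    rw [← Matrix.diagonal_one, Matrix.diagonal_sub, Matrix.det_diagonal]
    rfl

/-- one vector and the Hilbert-Schmidt norm -/
theorem norm_sq_le_hs {A : E n →L[ℝ] E n} (hA : Sy A) (h0 : tr A = 0) (hn : 0 < n) (x : E n) :
    ‖A x‖ ^ 2 ≤ ((n : ℝ) - 1) / n * (‖x‖ ^ 2 * hs A) := by
  obtain ⟨ev, b, hb, hhs, htr, -⟩ := spec hA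
  have hn' : (0 : ℝ) < n := by exact_mod_cast hn
  have key : ∀ k, ev k ^ 2 ≤ ((n : ℝ) - 1) / n * hs A := by
    intro k
    rw [h0] at htr
    have h1 : ev k = -∑ i ∈ Finset.univ.erase k, ev i := by
      have := Finset.add_sum_erase Finset.univ ev (Finset.mem_univ k)
      linarith
    have h2 : (∑ i ∈ Finset.univ.erase k, ev i) ^ 2 ≤
        ((n : ℝ) - 1) * ∑ i ∈ Finset.univ.erase k, ev i ^ 2 := by
      have h3 := sq_sum_le_card_mul_sum_sq (s := Finset.univ.erase k) (f := ev)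
      have h4 : ((Finset.univ.erase k).card : ℝ) = (n : ℝ) - 1 := by
        rw [Finset.card_erase_of_mem (Finset.mem_univ k), Finset.card_univ, Fintype.card_fin,
          Nat.cast_sub hn, Nat.cast_one]
      rw [h4] at h3
      exact h3
    have h5 : ∑ i ∈ Finset.univ.erase k, ev i ^ 2 = hs A - ev k ^ 2 := by
      rw [hhs]
      have := Finset.add_sum_erase Finset.univ (fun i => ev i ^ 2) (Finset.mem_univ k)
      linarith
    have h6 : ev k ^ 2 ≤ ((n : ℝ) - 1) * (hs A - ev k ^ 2) := by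
      rw [← h5]
      calc ev k ^ 2 = (∑ i ∈ Finset.univ.erase k, ev i) ^ 2 := by
            conv_lhs => rw [h1]
            ring
        _ ≤ _ := h2
    rw [div_mul_eq_mul_div, le_div_iff₀ hn']
    linarith
  have h1 : ‖A x‖ ^ 2 = ∑ i, (inner ℝ (b i) x : ℝ) ^ 2 * ev i ^ 2 := by
    rw [← b.sum_sq_norm_inner_right (A x)]
    refine Finset.sum_congr rfl fun i _ => ?_
    rw [Real.norm_eq_abs, sq_abs, real_inner_comm, hA, hb, real_inner_smul_left]
    ring
  have h2 : ‖x‖ ^ 2 = ∑ i, (inner ℝ (b i) x : ℝ) ^ 2 := by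
    rw [← b.sum_sq_norm_inner_right x]
    refine Finset.sum_congr rfl fun i _ => ?_
    rw [Real.norm_eq_abs, sq_abs]
  rw [h1, h2]
  have h3 : ((n : ℝ) - 1) / n * ((∑ i, (inner ℝ (b i) x : ℝ) ^ 2) * hs A) =
      ∑ i, (inner ℝ (b i) x : ℝ) ^ 2 * (((n : ℝ) - 1) / n * hs A) := by
    rw [← Finset.sum_mul]
    ring
  rw [h3]
  exact Finset.sum_le_sum fun i _ => mul_le_mul_of_nonneg_left (key i) (sq_nonneg _)

theorem num_aux : (20 : ℝ) / 13 ≤ Real.exp (259 / 600) := by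
  have h := Real.sum_le_exp_of_nonneg (x := 259 / 600) (by norm_num) 6
  refine le_trans ?_ h
  norm_num [Finset.sum_range_succ, Nat.factorial]

/-- `1 - t` from below -/
theorem one_sub_ge {t : ℝ} (ht : t ≤ 7 / 20) : Real.exp (-t - 2 / 3 * t ^ 2) ≤ 1 - t := by
  rcases le_total 0 t with h0 | h0
  · have h1 := Pool.Agent.TH253.FV.DL.exp_ineq (t := t) (s := 7 / 20) (by norm_num) (by norm_num)
      ht (by rw [abs_of_nonneg h0]; linarith)
    refine le_trans (Real.exp_le_exp.2 ?_) h1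
    have h2 : -(259 / 600 : ℝ) ≤ Real.log (1 - 7 / 20) := by
      rw [Real.le_log_iff_exp_le (by norm_num), Real.exp_neg, inv_le_comm₀ (Real.exp_pos _)
        (by norm_num)]
      refine le_trans ?_ num_aux
      norm_num
    have h3 : -(2 / 3 * (7 / 20 : ℝ) ^ 2) ≤ Real.log (1 - 7 / 20) + 7 / 20 := by
      have : -(2 / 3 * (7 / 20 : ℝ) ^ 2) = -(259 / 600) + 7 / 20 := by norm_num
      linarith
    have h4 : t ^ 2 / (7 / 20) ^ 2 * -(2 / 3 * (7 / 20 : ℝ) ^ 2) ≤
        t ^ 2 / (7 / 20) ^ 2 * (Real.log (1 - 7 / 20) + 7 / 20) :=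
      mul_le_mul_of_nonneg_left h3 (by positivity)
    have h5 : t ^ 2 / (7 / 20) ^ 2 * -(2 / 3 * (7 / 20 : ℝ) ^ 2) = -(2 / 3 * t ^ 2) := by
      ring
    linarith
  · rw [← Real.le_log_iff_exp_le (by linarith)]
    have h2 := Real.le_log_one_add_of_nonneg (x := -t) (by linarith)
    have e : 1 + -t = 1 - t := by ring
    rw [e] at h2
    have h3 : -t - t ^ 2 / 2 ≤ 2 * -t / (-t + 2) := by
      rw [le_div_iff₀ (by linarith)]
      nlinarith [mul_nonneg (sq_nonneg t) (neg_nonneg.2 h0)]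
    nlinarith [sq_nonneg t]

/-- eigenvalues are bounded by the quadratic form -/
theorem ev_le {A : E n →L[ℝ] E n} {s : ℝ} (h : ∀ x : E n, (inner ℝ (A x) x : ℝ) ≤ s * ‖x‖ ^ 2)
    {b : OrthonormalBasis (Fin n) ℝ (E n)} {i : Fin n} {e : ℝ} (hb : A (b i) = e • b i) :
    e ≤ s := by
  have h1 := h (b i)
  rw [hb, real_inner_smul_left, real_inner_self_eq_norm_sq, b.norm_eq_one] at h1
  linarith

/-- lower bound for the determinant -/
theorem det_ge {A : E n →L[ℝ] E n} (hA : Sy A) (h0 : tr A = 0)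
    (h : ∀ x : E n, (inner ℝ (A x) x : ℝ) ≤ 7 / 20 * ‖x‖ ^ 2) :
    Real.exp (-(2 / 3 * hs A)) ≤ (ContinuousLinearMap.id ℝ (E n) - A).det := by
  obtain ⟨ev, b, hb, hhs, htr, hdet⟩ := spec hA
  rw [hdet]
  have e : -(2 / 3 * hs A) = ∑ i, (-ev i - 2 / 3 * ev i ^ 2) := by
    rw [Finset.sum_sub_distrib, Finset.sum_neg_distrib, ← Finset.mul_sum, ← hhs, ← htr, h0]
    ring
  rw [e, Real.exp_sum]
  exact Finset.prod_le_prod (fun i _ => (Real.exp_pos _).le)
    (fun i _ => one_sub_ge (ev_le h (hb i)))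

/-- the determinant in dimension two -/
theorem det_two {A : E 2 →L[ℝ] E 2} (hA : Sy A) (h0 : tr A = 0) :
    (ContinuousLinearMap.id ℝ (E 2) - A).det = 1 - hs A / 2 := by
  obtain ⟨ev, b, hb, hhs, htr, hdet⟩ := spec hA
  rw [hdet, hhs]
  rw [h0] at htr
  simp only [Fin.sum_univ_two, Fin.prod_univ_two] at *
  have : ev 1 = -ev 0 := by linarith
  rw [this]
  ring

/-- bound for the Hilbert-Schmidt norm in dimension two -/
theorem hs_two {A : E 2 →L[ℝ] E 2} (hA : Sy A) (h0 : tr A = 0) {s : ℝ}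
    (h : ∀ x : E 2, (inner ℝ (A x) x : ℝ) ≤ s * ‖x‖ ^ 2) : hs A ≤ 2 * s ^ 2 := by
  obtain ⟨ev, b, hb, hhs, htr, hdet⟩ := spec hA
  rw [hhs]
  rw [h0] at htr
  have e0 := ev_le h (hb 0)
  have e1 := ev_le h (hb 1)
  simp only [Fin.sum_univ_two] at *
  have : ev 1 = -ev 0 := by linarith
  rw [this] at e1 ⊢
  nlinarith

end Pool.Agent.K7.H34.FV
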