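import Pool.Agent.K7.H34.FV.Sop

/-!
# Monotonicity along segments: uniqueness and stability of the zero
-/

set_option autoImplicit false

open MeasureTheory Filter Topology

namespace Pool.Agent.K7.H34.FV

open Pool.Agent.W716.FV (E gam gd Good)

variable {n : ℕ}

theorem Nop_zero (p : E n) : Nop (fun _ => (0 : E n →L[ℝ] ℝ)) p = 0 := by
  unfold Nop
  have : (fun g : E n => (0 : E n →L[ℝ] ℝ).smulRight g) = fun _ => (0 : E n →L[ℝ] E n) := by
    funext g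
    ext v
    simp
  rw [this, integral_zero]

/-- derivative along a line -/
theorem hasDerivAt_Gm {u : E n → ℝ} (hu : Good 1 u) {a b : E n} {t : ℝ}
    (hp : ‖a + t • b‖ < 1) :
    HasDerivAt (fun t : ℝ => Gm u (a + t • b))
      ((pz (a + t • b))⁻¹ • BB (a + t • b) (Sop u (a + t • b) (BB (a + t • b) b) -
        BB (a + t • b) b)) t := by
  obtain ⟨h1, h2⟩ := hasFDerivAt_Gm (V := fun _ => u) (c := (0 : E n)) (p := a + t • b) (K := 0)
    (r := 1) one_pos le_rfl hp (fun _ => hu) (fun c' _ c'' _ v => by simp)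
    (fun _ => (0 : E n →L[ℝ] ℝ)) measurable_const
    (Eventually.of_forall fun v => hasFDerivAt_const _ _)
  have h3 : HasDerivAt (fun t : ℝ => ((0 : E n), a + t • b)) (0, b) t := by
    refine HasDerivAt.prodMk (hasDerivAt_const _ _) ?_
    have := ((hasDerivAt_id t).smul_const b).const_add a
    simpa using this
  have h4 := h2.comp_hasDerivAt t h3
  rw [int_DL hu measurable_const (K := 0) le_rfl (Eventually.of_forall fun v => by simp) hp h1,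
    Nop_zero, _root_.zero_apply, zero_add] at h4
  exact h4

theorem deriv_le {u : E n → ℝ} (hu : Good 1 u) {p : E n} (hp : ‖p‖ < 1) (b : E n) :
    -2 * inner ℝ p b * inner ℝ (Gm u p) b + pz p ^ 2 * inner ℝ ((pz p)⁻¹ • BB p
      (Sop u p (BB p b) - BB p b)) b ≤ -(pz p * ‖b‖ ^ 2 / 2) := by
  have h0 := pz_pos hp
  have h1 := Sop_quad hu hp (BB p b)
  have h2 : (inner ℝ (eta p) (BB p b) : ℝ) = (pz p ^ 2)⁻¹ * inner ℝ p b := by
    rw [← BB_symm, BB_eta hp, real_inner_smul_left]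
  have h3 : (inner ℝ (Gm u p) b : ℝ) = (pz p)⁻¹ * inner ℝ (tau u p) (BB p b) := by
    rw [Gm_eq hp, real_inner_smul_left, BB_symm]
  rw [real_inner_smul_left, BB_symm, inner_sub_left, inner_pp, h3]
  rw [h2] at h1
  have h4 : sg p ≤ 1 / 2 := (sg_lt p hp).le
  have h5 := norm_le_BB hp b
  have h6 : ‖b‖ ^ 2 ≤ ‖BB p b‖ ^ 2 := pow_le_pow_left₀ (norm_nonneg _) h5 2
  have h7 : sg p * ‖BB p b‖ ^ 2 ≤ 1 / 2 * ‖BB p b‖ ^ 2 :=
    mul_le_mul_of_nonneg_right h4 (sq_nonneg _)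
  set S := (inner ℝ (Sop u p (BB p b)) (BB p b) : ℝ)
  set T := (inner ℝ (tau u p) (BB p b) : ℝ)
  set P := (inner ℝ p b : ℝ)
  have h8 : S - ‖BB p b‖ ^ 2 ≤ -(‖b‖ ^ 2 / 2) + 2 * ((pz p ^ 2)⁻¹ * P * T) := by linarith
  have h9 : pz p ^ 2 * ((pz p)⁻¹ * (S - ‖BB p b‖ ^ 2)) ≤
      pz p * (-(‖b‖ ^ 2 / 2) + 2 * ((pz p ^ 2)⁻¹ * P * T)) := by
    have e : pz p ^ 2 * ((pz p)⁻¹ * (S - ‖BB p b‖ ^ 2)) = pz p * (S - ‖BB p b‖ ^ 2) := by
      field_simp
    rw [e]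
    exact mul_le_mul_of_nonneg_left h8 h0.le
  have h10 : pz p * (-(‖b‖ ^ 2 / 2) + 2 * ((pz p ^ 2)⁻¹ * P * T)) =
      -(pz p * ‖b‖ ^ 2 / 2) + 2 * P * ((pz p)⁻¹ * T) := by
    field_simp
  rw [h10] at h9
  linarith

/-- stability -/
theorem stab {u : E n → ℝ} (hu : Good 1 u) {ρ : ℝ} (hρ : ρ < 1) {p q : E n}
    (hp : ‖p‖ ≤ ρ) (hq : ‖q‖ ≤ ρ) (hz : Gm u p = 0) :
    √(1 - ρ ^ 2) / 2 * ‖q - p‖ ≤ ‖Gm u q‖ := by
  have hρ0 : 0 ≤ ρ := (norm_nonneg p).trans hp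
  set b := q - p with hb
  have hseg : ∀ t ∈ Set.Icc (0 : ℝ) 1, ‖p + t • b‖ ≤ ρ := by
    intro t ht
    have h1 : p + t • b = (1 - t) • p + t • q := by
      rw [hb, smul_sub, sub_smul, one_smul]; abel
    rw [h1]
    calc ‖(1 - t) • p + t • q‖ ≤ ‖(1 - t) • p‖ + ‖t • q‖ := norm_add_le _ _
      _ = (1 - t) * ‖p‖ + t * ‖q‖ := by
        rw [norm_smul, norm_smul, Real.norm_of_nonneg (by linarith [ht.2]),
          Real.norm_of_nonneg ht.1]
      _ ≤ (1 - t) * ρ + t * ρ := by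
        have := mul_le_mul_of_nonneg_left hp (by linarith [ht.2] : 0 ≤ 1 - t)
        have := mul_le_mul_of_nonneg_left hq ht.1
        linarith
      _ = ρ := by ring
  have hder : ∀ t ∈ Set.Icc (0 : ℝ) 1, HasDerivAt
      (fun t : ℝ => (1 - ‖p + t • b‖ ^ 2) * inner ℝ (Gm u (p + t • b)) b)
      (-2 * inner ℝ (p + t • b) b * inner ℝ (Gm u (p + t • b)) b + pz (p + t • b) ^ 2 *
        inner ℝ ((pz (p + t • b))⁻¹ • BB (p + t • b)
          (Sop u (p + t • b) (BB (p + t • b) b) - BB (p + t • b) b)) b) t := by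
    intro t ht
    have hlt : ‖p + t • b‖ < 1 := (hseg t ht).trans_lt hρ
    have h1 := hasDerivAt_Gm hu hlt
    have h2 := h1.inner ℝ (hasDerivAt_const t b)
    have h3 : HasDerivAt (fun t : ℝ => p + t • b) b t := by
      have := ((hasDerivAt_id t).smul_const b).const_add p
      simpa using this
    have h4 := (h3.norm_sq.const_sub 1).mul h2
    refine h4.congr_deriv ?_
    rw [pz_sq hlt, inner_zero_right]
    ring
  obtain ⟨c, hc, hc'⟩ := exists_hasDerivAt_eq_slope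
    (fun t : ℝ => (1 - ‖p + t • b‖ ^ 2) * inner ℝ (Gm u (p + t • b)) b) _ (zero_lt_one (α := ℝ))
    (fun t ht => (hder t ht).continuousAt.continuousWithinAt)
    (fun t ht => hder t (Set.Ioo_subset_Icc_self ht))
  have hcI := Set.Ioo_subset_Icc_self hc
  have hlt : ‖p + c • b‖ < 1 := (hseg c hcI).trans_lt hρ
  have h5 := deriv_le hu hlt b
  rw [hc'] at h5
  simp only [one_smul, zero_smul, add_zero, hz, inner_zero_left, mul_zero, sub_zero, div_one] at h5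
  have hpb : p + b = q := by rw [hb]; abel
  rw [hpb] at h5
  have h6 : √(1 - ρ ^ 2) ≤ pz (p + c • b) := by
    unfold pz
    apply Real.sqrt_le_sqrt
    have := pow_le_pow_left₀ (norm_nonneg _) (hseg c hcI) 2
    linarith
  have h7 : √(1 - ρ ^ 2) * ‖b‖ ^ 2 / 2 ≤ ‖Gm u q‖ * ‖b‖ := by
    have h8 := abs_real_inner_le_norm (Gm u q) b
    have h9 := (abs_le.1 h8).1
    have h10 : (0 : ℝ) ≤ ‖q‖ ^ 2 := sq_nonneg _
    have h11 : 0 ≤ 1 - ‖q‖ ^ 2 := by nlinarith [norm_nonneg q]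
    have h12 : (1 - ‖q‖ ^ 2) * -(‖Gm u q‖ * ‖b‖) ≤ (1 - ‖q‖ ^ 2) * inner ℝ (Gm u q) b :=
      mul_le_mul_of_nonneg_left h9 h11
    have h13 : √(1 - ρ ^ 2) * ‖b‖ ^ 2 ≤ pz (p + c • b) * ‖b‖ ^ 2 :=
      mul_le_mul_of_nonneg_right h6 (sq_nonneg _)
    have h14 : 0 ≤ ‖Gm u q‖ * ‖b‖ := by positivity
    nlinarith
  by_cases hb0 : ‖b‖ = 0
  · rw [hb0, mul_zero]
    exact norm_nonneg _
  · have hbp : 0 < ‖b‖ := lt_of_le_of_ne (norm_nonneg _) (Ne.symm hb0)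
    by_contra hcon
    push Not at hcon
    have := mul_lt_mul_of_pos_right hcon hbp
    nlinarith

theorem zero_unique {u : E n → ℝ} (hu : Good 1 u) {p q : E n} (hp : ‖p‖ < 1) (hq : ‖q‖ < 1)
    (hzp : Gm u p = 0) (hzq : Gm u q = 0) : q = p := by
  have hm : max ‖p‖ ‖q‖ < 1 := max_lt hp hq
  have h1 := stab hu hm (le_max_left _ _) (le_max_right _ _) hzp
  rw [hzq, norm_zero] at h1
  have h2 : 0 < √(1 - (max ‖p‖ ‖q‖) ^ 2) := by
    apply Real.sqrt_pos.2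
    nlinarith [norm_nonneg p, le_max_left ‖p‖ ‖q‖]
  have h3 : ‖q - p‖ ≤ 0 := by
    by_contra hcon
    push Not at hcon
    have : 0 < √(1 - (max ‖p‖ ‖q‖) ^ 2) / 2 * ‖q - p‖ := by positivity
    linarith
  exact sub_eq_zero.1 (norm_le_zero_iff.1 h3)

end Pool.Agent.K7.H34.FV
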