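import Pool.Agent.K7.H34.FV.Two

/-!
# Bounds for the eigenvalues of `S` from above and from below, in every dimension
-/

set_option autoImplicit false

open MeasureTheory Filter Topology

namespace Pool.Agent.K7.H34.FV

open Pool.Agent.W716.FV (E gam gd Good)

variable {n : ℕ}

/-- Euler's relation -/
theorem kap_euler {u : E n → ℝ} (hu : Good 1 u) (p : E n) {g : E n}
    (hd : DifferentiableAt ℝ (kap u p) g) : fderiv ℝ (kap u p) g g = kap u p g := by
  have h1 : HasDerivAt (fun t : ℝ => kap u p (g + t • g)) (fderiv ℝ (kap u p) g g) 0 :=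
    hd.hasFDerivAt.hasLineDerivAt g
  have h2 : HasDerivAt (fun t : ℝ => (1 + t) * kap u p g) (kap u p g) 0 := by
    have := ((hasDerivAt_id (0 : ℝ)).const_add 1).mul_const (kap u p g)
    simpa using this
  refine h1.unique (h2.congr_of_eventuallyEq ?_)
  have h3 : ∀ᶠ t : ℝ in 𝓝 0, -1 < t := lt_mem_nhds (by norm_num)
  filter_upwards [h3] with t ht
  have : g + t • g = (1 + t) • g := by rw [add_smul, one_smul]
  rw [this, kap_hom hu p _ _ (by linarith)]

theorem int_euler {u : E n → ℝ} (hu : Good 1 u) {p : E n} (h0 : tau u p = 0) (e : E n) :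
    ∫ g, fderiv ℝ (kap u p) g g * inner ℝ g e ∂(gam n) = 0 := by
  rw [← int_kap_innr hu h0 e]
  refine integral_congr_ae ?_
  filter_upwards [(kap_PL hu p).ae_diff'] with g hg
  rw [kap_euler hu p hg]

theorem integrable_euler {u : E n → ℝ} (hu : Good 1 u) (p : E n) (e : E n) :
    Integrable (fun g => fderiv ℝ (kap u p) g g * inner ℝ g e) (gam n) := by
  refine ((kap_PL hu p).mul (PL.innr e)).integrable.congr ?_
  filter_upwards [(kap_PL hu p).ae_diff'] with g hg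
  rw [kap_euler hu p hg]

/-- the vector field `⟨g, η⟩ e - ⟨e, η⟩ g` -/
noncomputable def mf (η e g : E n) : E n := (inner ℝ g η : ℝ) • e - (inner ℝ e η : ℝ) • g

theorem mf_inner (η e g : E n) : (inner ℝ η (mf η e g) : ℝ) = 0 := by
  unfold mf
  rw [inner_sub_right, real_inner_smul_right, real_inner_smul_right, real_inner_comm e η,
    real_inner_comm g η]
  ring

theorem mf_norm (η e g : E n) (he : ‖e‖ = 1) :
    ‖mf η e g‖ ^ 2 ≤ ‖η‖ ^ 2 * (‖g‖ ^ 2 - (inner ℝ g e : ℝ) ^ 2) := by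
  -- Lagrange: decompose `g` and `η`
  set a : ℝ := inner ℝ g e with ha
  set k : ℝ := inner ℝ e η with hk
  set w : ℝ := inner ℝ g η with hw
  have hee : (inner ℝ e e : ℝ) = 1 := by rw [inner_pp, he]; norm_num
  have h1 : ‖mf η e g‖ ^ 2 = w ^ 2 - 2 * w * k * a + k ^ 2 * ‖g‖ ^ 2 := by
    unfold mf
    rw [norm_sub_sq_real, norm_smul, norm_smul, mul_pow, mul_pow, real_inner_smul_left,
      real_inner_smul_right, Real.norm_eq_abs, sq_abs, Real.norm_eq_abs, sq_abs, he,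
      real_inner_comm g e]
    ring
  -- `|w - a k| ≤ |g - a e| |η - k e|`
  have h2 : (inner ℝ (g - a • e) (η - k • e) : ℝ) = w - a * k := by
    rw [inner_sub_left, inner_sub_right, inner_sub_right, real_inner_smul_left,
      real_inner_smul_right, real_inner_smul_left, real_inner_smul_right, hee,
      ← ha, ← hk, ← hw]
    ring
  have h3 : ‖g - a • e‖ ^ 2 = ‖g‖ ^ 2 - a ^ 2 := by
    rw [norm_sub_sq_real, norm_smul, mul_pow, real_inner_smul_right, Real.norm_eq_abs, sq_abs,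
      he, ← ha]
    ring
  have h4 : ‖η - k • e‖ ^ 2 = ‖η‖ ^ 2 - k ^ 2 := by
    rw [norm_sub_sq_real, norm_smul, mul_pow, real_inner_smul_right, Real.norm_eq_abs, sq_abs,
      he, real_inner_comm e η, ← hk]
    ring
  have h5 := abs_real_inner_le_norm (g - a • e) (η - k • e)
  have h6 := pow_le_pow_left₀ (abs_nonneg _) h5 2
  rw [sq_abs, mul_pow, h2, h3, h4] at h6
  rw [h1]
  nlinarith

theorem diff_inner {u : E n → ℝ} (hu : Good 1 u) {p : E n} (h0 : tau u p = 0) (e : E n) :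
    (inner ℝ (Sop u p e) e : ℝ) =
      ∫ g, fderiv ℝ (kap u p) g (eta p) * (inner ℝ g e * inner ℝ g e) ∂(gam n) := by
  rw [Sop_inner hu, ← kap_two hu h0]
  refine integral_congr_ae (Eventually.of_forall fun g => ?_)
  simp only [ka]
  rw [real_inner_comm g (eta p)]
  ring

theorem diff_inner' {u : E n → ℝ} (hu : Good 1 u) {p : E n} (h0 : tau u p = 0) (e : E n) :
    (inner ℝ (Sop u p e) e : ℝ) =
      ∫ g, fderiv ℝ (kap u p) g e * (inner ℝ g e * inner ℝ g (eta p)) ∂(gam n) := by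
  rw [Sop_inner hu, ← kap_two hu h0]
  refine integral_congr_ae (Eventually.of_forall fun g => ?_)
  simp only [ka]
  rw [real_inner_comm g (eta p)]
  ring

theorem hsqi' (a : E n) : ∫ g : E n, (inner ℝ g a : ℝ) ^ 2 ∂(gam n) = ‖a‖ ^ 2 := by
  rw [← inner_pp, ← int_innr_innr]
  refine integral_congr_ae (Eventually.of_forall fun g => ?_)
  simp only
  ring

theorem int_fd_two {u : E n → ℝ} (hu : Good 1 u) (p : E n) (v a b : E n) :
    Integrable (fun g => fderiv ℝ (kap u p) g v * (inner ℝ g a * inner ℝ g b)) (gam n) :=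
  int_fderiv_mul (kap_PL hu p) ((PL.innr a).mul (PL.innr b)) v

/-- upper bound for the quadratic form of `S` -/
theorem quad_top {u : E n → ℝ} (hu : Good 1 u) {p : E n} (hp : ‖p‖ < 1) (h0 : tau u p = 0)
    {e : E n} (he : ‖e‖ = 1) {t m : ℝ} (hm : 0 < m) :
    (1 + t) * (inner ℝ (Sop u p e) e : ℝ) ≤
      ‖eta p‖ * ((1 + ‖eta p‖ ^ 2 + (n - 1) * t ^ 2) / m + m) / 2 - ‖eta p‖ ^ 2 := by
  set c := ‖eta p‖ with hc
  have hc0 : 0 ≤ c := norm_nonneg _
  have i1 := int_fd_two hu p (eta p) e e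
  have i2 := int_fd_two hu p e e (eta p)
  have i3 := integrable_euler hu p e
  have h1 : (1 + t) * (inner ℝ (Sop u p e) e : ℝ) =
      ∫ g, (fderiv ℝ (kap u p) g (eta p) * (inner ℝ g e * inner ℝ g e) +
        t * (fderiv ℝ (kap u p) g e * (inner ℝ g e * inner ℝ g (eta p))) -
        (t * inner ℝ e (eta p)) * (fderiv ℝ (kap u p) g g * inner ℝ g e)) ∂(gam n) := by
    have a1 : Integrable (fun g => fderiv ℝ (kap u p) g (eta p) * (inner ℝ g e * inner ℝ g e) +
        t * (fderiv ℝ (kap u p) g e * (inner ℝ g e * inner ℝ g (eta p)))) (gam n) :=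
      i1.add (i2.const_mul t)
    rw [integral_sub a1 (i3.const_mul _), integral_add i1 (i2.const_mul _), integral_const_mul,
      integral_const_mul, int_euler hu h0, ← diff_inner hu h0, ← diff_inner' hu h0]
    ring
  have hsq : Integrable (fun g : E n => (inner ℝ g e : ℝ) ^ 2) (gam n) :=
    ((PL.innr e).pow 2).integrable
  have hnq : Integrable (fun g : E n => ‖g‖ ^ 2) (gam n) := PL.norm_sq.integrable
  have h2 : ∀ g : E n, fderiv ℝ (kap u p) g (eta p) * (inner ℝ g e * inner ℝ g e) +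
        t * (fderiv ℝ (kap u p) g e * (inner ℝ g e * inner ℝ g (eta p))) -
        (t * inner ℝ e (eta p)) * (fderiv ℝ (kap u p) g g * inner ℝ g e) ≤
      (c * ((1 + c ^ 2 - t ^ 2) / m + m) / 2 - c ^ 2) * (inner ℝ g e) ^ 2 +
        (c * t ^ 2 / m / 2) * ‖g‖ ^ 2 := by
    intro g
    set a : ℝ := inner ℝ g e with ha
    set v : E n := (a ^ 2) • eta p + (t * a) • mf (eta p) e g with hv
    have e1 : fderiv ℝ (kap u p) g (eta p) * (a * a) +
        t * (fderiv ℝ (kap u p) g e * (a * inner ℝ g (eta p))) -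
        (t * inner ℝ e (eta p)) * (fderiv ℝ (kap u p) g g * a) = fderiv ℝ (kap u p) g v := by
      rw [hv, map_add, map_smul, map_smul, mf, map_sub, map_smul, map_smul, smul_eq_mul,
        smul_eq_mul, smul_eq_mul, smul_eq_mul]
      ring
    rw [e1]
    have e2 := dkap_gen hu hp g v
    have e3 : (inner ℝ (eta p) v : ℝ) = a ^ 2 * c ^ 2 := by
      rw [hv, inner_add_right, real_inner_smul_right, real_inner_smul_right, mf_inner, inner_pp]
      ring
    have hmn := mf_norm (eta p) e g he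
    rw [← ha, ← hc] at hmn
    have e4 : ‖v‖ ^ 2 = a ^ 4 * c ^ 2 + (t * a) ^ 2 * ‖mf (eta p) e g‖ ^ 2 := by
      rw [hv, norm_add_sq_real, norm_smul, norm_smul, mul_pow, mul_pow,
        real_inner_smul_left, real_inner_smul_right, mf_inner, Real.norm_eq_abs, sq_abs,
        Real.norm_eq_abs, sq_abs]
      ring
    have e5 : ‖BB p v‖ ^ 2 ≤ c ^ 2 * a ^ 2 * ((1 + c ^ 2) * a ^ 2 +
        t ^ 2 * (‖g‖ ^ 2 - a ^ 2)) := by
      have h := norm_BB_sq hp v
      rw [h, e4, e3]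
      have h3 : (t * a) ^ 2 * ‖mf (eta p) e g‖ ^ 2 ≤
          (t * a) ^ 2 * (c ^ 2 * (‖g‖ ^ 2 - a ^ 2)) := mul_le_mul_of_nonneg_left hmn (sq_nonneg _)
      calc a ^ 4 * c ^ 2 + (t * a) ^ 2 * ‖mf (eta p) e g‖ ^ 2 + (a ^ 2 * c ^ 2) ^ 2 ≤
          a ^ 4 * c ^ 2 + (t * a) ^ 2 * (c ^ 2 * (‖g‖ ^ 2 - a ^ 2)) + (a ^ 2 * c ^ 2) ^ 2 := by
            linarith
        _ = _ := by ring
    have hw0 : 0 ≤ ‖g‖ ^ 2 - a ^ 2 := by
      have h7 := abs_real_inner_le_norm g e
      rw [he, mul_one, ← ha] at h7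
      have h8 := pow_le_pow_left₀ (abs_nonneg _) h7 2
      rw [sq_abs] at h8
      linarith
    have e6 : ‖BB p v‖ ≤ c * (((1 + c ^ 2) * a ^ 2 + t ^ 2 * (‖g‖ ^ 2 - a ^ 2)) / m +
        m * a ^ 2) / 2 := by
      apply (le_abs_self _).trans (abs_le_of_sq_le_sq _ (by positivity))
      refine e5.trans ?_
      set Y := (1 + c ^ 2) * a ^ 2 + t ^ 2 * (‖g‖ ^ 2 - a ^ 2) with hY
      have h7 : Y * a ^ 2 ≤ ((Y / m + m * a ^ 2) / 2) ^ 2 := by
        have : ((Y / m + m * a ^ 2) / 2) ^ 2 - Y * a ^ 2 = ((Y / m - m * a ^ 2) / 2) ^ 2 := by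
          field_simp
          ring
        nlinarith [sq_nonneg ((Y / m - m * a ^ 2) / 2)]
      calc c ^ 2 * a ^ 2 * Y = c ^ 2 * (Y * a ^ 2) := by ring
        _ ≤ c ^ 2 * ((Y / m + m * a ^ 2) / 2) ^ 2 := mul_le_mul_of_nonneg_left h7 (sq_nonneg _)
        _ = _ := by ring
    rw [e3] at e2
    refine e2.trans ((sub_le_sub_right e6 _).trans (le_of_eq ?_))
    ring
  have i4 : Integrable (fun g : E n => (c * ((1 + c ^ 2 - t ^ 2) / m + m) / 2 - c ^ 2) *
      (inner ℝ g e : ℝ) ^ 2 + (c * t ^ 2 / m / 2) * ‖g‖ ^ 2) (gam n) :=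
    (hsq.const_mul _).add (hnq.const_mul _)
  rw [h1]
  refine (integral_mono ((i1.add (i2.const_mul t)).sub (i3.const_mul _)) i4 h2).trans
    (le_of_eq ?_)
  rw [integral_add (hsq.const_mul _) (hnq.const_mul _), integral_const_mul,
    integral_const_mul, hsqi', he, (Pool.Agent.W933.FVGM.main n).2.2.2.2]
  ring

/-- lower bound for the quadratic form of `S` -/
theorem quad_bot {u : E n → ℝ} (hu : Good 1 u) {p : E n} (hp : ‖p‖ < 1) (h0 : tau u p = 0)
    {e : E n} (he : ‖e‖ = 1) {B m : ℝ} (hB : 0 ≤ B) (hm : 0 < m) :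
    -(inner ℝ (Sop u p e) e : ℝ) ≤
      ‖eta p‖ * (((n - 1) * B ^ 2 * (1 + ‖eta p‖ ^ 2) + (1 - B) ^ 2) / m + m * (n - 1)) / 2 -
        (n - 1) * B * ‖eta p‖ ^ 2 := by
  set c := ‖eta p‖ with hc
  have hc0 : 0 ≤ c := norm_nonneg _
  have i0 : Integrable (fun g => fderiv ℝ (kap u p) g (eta p) * ‖g‖ ^ 2) (gam n) :=
    int_fderiv_mul (kap_PL hu p) PL.norm_sq _
  have i1 := int_fd_two hu p (eta p) e e
  have i2 := int_fd_two hu p e e (eta p)
  have i3 := integrable_euler hu p e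
  have hN : ∫ g, fderiv ℝ (kap u p) g (eta p) * ‖g‖ ^ 2 ∂(gam n) = 0 := by
    have h1 := (kap_PL hu p).ibp_mul PL.norm_sq (eta p)
    have h2 : ∫ g, kap u p g * ‖g‖ ^ 2 * inner ℝ g (eta p) ∂(gam n) = 0 := by
      have h3 : ∫ g, ‖g‖ ^ 2 * (kap u p g * inner ℝ g (eta p)) ∂(gam n) = 0 := by
        rw [hom_int' (n := n) (h := fun g => kap u p g * inner ℝ g (eta p)) (j := 2)
          ((kap_PL hu p).mul (PL.innr _)).continuous (fun t x ht => by
            simp only [kap_hom hu p t x ht, real_inner_smul_left]; ring), int_kap_innr hu h0,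
          mul_zero]
      rw [← h3]
      refine integral_congr_ae (Eventually.of_forall fun g => ?_)
      simp only
      ring
    have h4 : ∫ g, kap u p g * fderiv ℝ (fun x : E n => ‖x‖ ^ 2) g (eta p) ∂(gam n) = 0 := by
      have h5 : ∀ g : E n, fderiv ℝ (fun x : E n => ‖x‖ ^ 2) g (eta p) =
          2 * inner ℝ g (eta p) := by
        intro g
        rw [(hasStrictFDerivAt_norm_sq g).hasFDerivAt.fderiv]
        simp
      simp only [h5]
      have h6 : ∫ g, kap u p g * (2 * inner ℝ g (eta p)) ∂(gam n) =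
          2 * ∫ g, kap u p g * inner ℝ g (eta p) ∂(gam n) := by
        rw [← integral_const_mul]
        refine integral_congr_ae (Eventually.of_forall fun g => ?_)
        simp only
        ring
      rw [h6, int_kap_innr hu h0 (eta p), mul_zero]
    rw [h2, h4, add_zero] at h1
    exact h1.symm
  have h1 : -(inner ℝ (Sop u p e) e : ℝ) =
      ∫ g, (B * (fderiv ℝ (kap u p) g (eta p) * ‖g‖ ^ 2) -
        B * (fderiv ℝ (kap u p) g (eta p) * (inner ℝ g e * inner ℝ g e)) -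
        (1 - B) * (fderiv ℝ (kap u p) g e * (inner ℝ g e * inner ℝ g (eta p))) +
        ((1 - B) * inner ℝ e (eta p)) * (fderiv ℝ (kap u p) g g * inner ℝ g e)) ∂(gam n) := by
    have a1 : Integrable (fun g => B * (fderiv ℝ (kap u p) g (eta p) * ‖g‖ ^ 2) -
        B * (fderiv ℝ (kap u p) g (eta p) * (inner ℝ g e * inner ℝ g e))) (gam n) :=
      (i0.const_mul B).sub (i1.const_mul B)
    have a2 : Integrable (fun g => B * (fderiv ℝ (kap u p) g (eta p) * ‖g‖ ^ 2) -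
        B * (fderiv ℝ (kap u p) g (eta p) * (inner ℝ g e * inner ℝ g e)) -
        (1 - B) * (fderiv ℝ (kap u p) g e * (inner ℝ g e * inner ℝ g (eta p)))) (gam n) :=
      a1.sub (i2.const_mul _)
    rw [integral_add a2 (i3.const_mul _), integral_sub a1 (i2.const_mul _),
      integral_sub (i0.const_mul _) (i1.const_mul _), integral_const_mul, integral_const_mul,
      integral_const_mul, integral_const_mul, int_euler hu h0, hN, ← diff_inner hu h0,
      ← diff_inner' hu h0]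
    ring
  have hsq : Integrable (fun g : E n => (inner ℝ g e : ℝ) ^ 2) (gam n) :=
    ((PL.innr e).pow 2).integrable
  have hnq : Integrable (fun g : E n => ‖g‖ ^ 2) (gam n) := PL.norm_sq.integrable
  have h2 : ∀ g : E n, B * (fderiv ℝ (kap u p) g (eta p) * ‖g‖ ^ 2) -
        B * (fderiv ℝ (kap u p) g (eta p) * (inner ℝ g e * inner ℝ g e)) -
        (1 - B) * (fderiv ℝ (kap u p) g e * (inner ℝ g e * inner ℝ g (eta p))) +
        ((1 - B) * inner ℝ e (eta p)) * (fderiv ℝ (kap u p) g g * inner ℝ g e) ≤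
      (c * ((1 - B) ^ 2 / m) / 2) * (inner ℝ g e) ^ 2 +
        (c * (B ^ 2 * (1 + c ^ 2) / m + m) / 2 - B * c ^ 2) *
          (‖g‖ ^ 2 - (inner ℝ g e) ^ 2) := by
    intro g
    set a : ℝ := inner ℝ g e with ha
    set w : ℝ := ‖g‖ ^ 2 - a ^ 2 with hw
    set v : E n := (B * w) • eta p - ((1 - B) * a) • mf (eta p) e g with hv
    have e1 : B * (fderiv ℝ (kap u p) g (eta p) * ‖g‖ ^ 2) -
        B * (fderiv ℝ (kap u p) g (eta p) * (a * a)) -
        (1 - B) * (fderiv ℝ (kap u p) g e * (a * inner ℝ g (eta p))) +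
        ((1 - B) * inner ℝ e (eta p)) * (fderiv ℝ (kap u p) g g * a) =
        fderiv ℝ (kap u p) g v := by
      rw [hv, map_sub, map_smul, map_smul, mf, map_sub, map_smul, map_smul, smul_eq_mul,
        smul_eq_mul, smul_eq_mul, smul_eq_mul, hw]
      ring
    rw [e1]
    have e2 := dkap_gen hu hp g v
    have e3 : (inner ℝ (eta p) v : ℝ) = B * w * c ^ 2 := by
      rw [hv, inner_sub_right, real_inner_smul_right, real_inner_smul_right, mf_inner, inner_pp]
      ring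
    have hmn := mf_norm (eta p) e g he
    rw [← ha, ← hc, ← hw] at hmn
    have e4 : ‖v‖ ^ 2 = (B * w) ^ 2 * c ^ 2 + ((1 - B) * a) ^ 2 * ‖mf (eta p) e g‖ ^ 2 := by
      rw [hv, norm_sub_sq_real, norm_smul, norm_smul, mul_pow, mul_pow,
        real_inner_smul_left, real_inner_smul_right, mf_inner, Real.norm_eq_abs, sq_abs,
        Real.norm_eq_abs, sq_abs]
      ring
    have hw0 : 0 ≤ w := by
      have h7 := abs_real_inner_le_norm g e
      rw [he, mul_one, ← ha] at h7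
      have h8 := pow_le_pow_left₀ (abs_nonneg _) h7 2
      rw [sq_abs] at h8
      rw [hw]
      linarith
    have e5 : ‖BB p v‖ ^ 2 ≤ c ^ 2 * w * (B ^ 2 * (1 + c ^ 2) * w + (1 - B) ^ 2 * a ^ 2) := by
      have h := norm_BB_sq hp v
      rw [h, e4, e3]
      have h3 : ((1 - B) * a) ^ 2 * ‖mf (eta p) e g‖ ^ 2 ≤
          ((1 - B) * a) ^ 2 * (c ^ 2 * w) := mul_le_mul_of_nonneg_left hmn (sq_nonneg _)
      calc (B * w) ^ 2 * c ^ 2 + ((1 - B) * a) ^ 2 * ‖mf (eta p) e g‖ ^ 2 +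
            (B * w * c ^ 2) ^ 2 ≤
          (B * w) ^ 2 * c ^ 2 + ((1 - B) * a) ^ 2 * (c ^ 2 * w) + (B * w * c ^ 2) ^ 2 := by
            linarith
        _ = _ := by ring
    have e6 : ‖BB p v‖ ≤ c * ((B ^ 2 * (1 + c ^ 2) * w + (1 - B) ^ 2 * a ^ 2) / m +
        m * w) / 2 := by
      apply (le_abs_self _).trans (abs_le_of_sq_le_sq _ (by positivity))
      refine e5.trans ?_
      set Y := B ^ 2 * (1 + c ^ 2) * w + (1 - B) ^ 2 * a ^ 2 with hY
      have h7 : Y * w ≤ ((Y / m + m * w) / 2) ^ 2 := by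
        have : ((Y / m + m * w) / 2) ^ 2 - Y * w = ((Y / m - m * w) / 2) ^ 2 := by
          field_simp
          ring
        nlinarith [sq_nonneg ((Y / m - m * w) / 2)]
      calc c ^ 2 * w * Y = c ^ 2 * (Y * w) := by ring
        _ ≤ c ^ 2 * ((Y / m + m * w) / 2) ^ 2 := mul_le_mul_of_nonneg_left h7 (sq_nonneg _)
        _ = _ := by ring
    rw [e3] at e2
    refine e2.trans ((sub_le_sub_right e6 _).trans (le_of_eq ?_))
    ring
  have i4 : Integrable (fun g : E n => (c * ((1 - B) ^ 2 / m) / 2) * (inner ℝ g e : ℝ) ^ 2 +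
        (c * (B ^ 2 * (1 + c ^ 2) / m + m) / 2 - B * c ^ 2) *
          (‖g‖ ^ 2 - (inner ℝ g e : ℝ) ^ 2)) (gam n) :=
    (hsq.const_mul _).add ((hnq.sub hsq).const_mul _)
  have hd : Integrable (fun g : E n => ‖g‖ ^ 2 - (inner ℝ g e : ℝ) ^ 2) (gam n) := hnq.sub hsq
  rw [h1]
  refine (integral_mono ((((i0.const_mul B).sub (i1.const_mul B)).sub (i2.const_mul _)).add
    (i3.const_mul _)) i4 h2).trans (le_of_eq ?_)
  rw [integral_add (hsq.const_mul _) (hd.const_mul _), integral_const_mul,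
    integral_const_mul, integral_sub hnq hsq, hsqi', he, (Pool.Agent.W933.FVGM.main n).2.2.2.2]
  ring

theorem eta_eq {p : E n} (hp : ‖p‖ < 1) : ‖eta p‖ = ‖p‖ / pz p := by
  have hz := pz_pos hp
  have h1 : (‖p‖ / pz p) ^ 2 = ‖p‖ ^ 2 / pz p ^ 2 := by rw [div_pow]
  exact (sq_eq_sq₀ (norm_nonneg _) (by positivity)).1 (by rw [norm_eta_sq hp, h1])

/-- explicit upper bound -/
theorem top_le {u : E n → ℝ} (hu : Good 1 u) {p : E n} (hp : ‖p‖ < 1) (h0 : tau u p = 0)
    {e : E n} (he : ‖e‖ = 1) {t : ℝ} (ht : 0 ≤ t) :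
    (inner ℝ (Sop u p e) e : ℝ) ≤
      (‖p‖ / (1 + ‖p‖) + (n - 1) * t ^ 2 * ‖p‖ / 2) / (1 + t) := by
  have hz := pz_pos hp
  have hz2 := pz_sq hp
  have h1 := quad_top hu hp h0 he (t := t) (m := (pz p)⁻¹) (by positivity)
  rw [le_div_iff₀ (by positivity), mul_comm]
  refine h1.trans (le_of_eq ?_)
  rw [eta_eq hp]
  have h2 : 1 + (‖p‖ / pz p) ^ 2 = (pz p ^ 2)⁻¹ := by
    rw [div_pow]
    field_simp
    rw [hz2]; ring
  rw [h2]
  have h3 : pz p ^ 2 = (1 - ‖p‖) * (1 + ‖p‖) := by rw [hz2]; ring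
  have h5 : (1 - ‖p‖) ≠ 0 := by linarith
  have h6 : (1 + ‖p‖) ≠ 0 := by positivity
  have h7 : ‖p‖ / pz p * (((pz p ^ 2)⁻¹ + (n - 1) * t ^ 2) / (pz p)⁻¹ + (pz p)⁻¹) / 2 -
      (‖p‖ / pz p) ^ 2 = ‖p‖ * (1 - ‖p‖) / pz p ^ 2 + (n - 1) * t ^ 2 * ‖p‖ / 2 := by
    field_simp
    ring
  rw [h7, h3]
  field_simp

/-- explicit lower bound -/
theorem bot_le {u : E n → ℝ} (hu : Good 1 u) {p : E n} (hp : ‖p‖ < 1) (h0 : tau u p = 0)
    {e : E n} (he : ‖e‖ = 1) {B : ℝ} (hB : 0 < B) :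
    -(inner ℝ (Sop u p e) e : ℝ) ≤
      (n - 1) * B * (‖p‖ / (1 + ‖p‖)) + (1 - B) ^ 2 * ‖p‖ / (2 * B) := by
  have hz := pz_pos hp
  have hz2 := pz_sq hp
  have h1 := quad_bot hu hp h0 he hB.le (m := B * (pz p)⁻¹) (by positivity)
  refine h1.trans (le_of_eq ?_)
  rw [eta_eq hp]
  have h2 : 1 + (‖p‖ / pz p) ^ 2 = (pz p ^ 2)⁻¹ := by
    rw [div_pow]
    field_simp
    rw [hz2]; ring
  rw [h2]
  have h3 : pz p ^ 2 = (1 - ‖p‖) * (1 + ‖p‖) := by rw [hz2]; ring
  have h5 : (1 - ‖p‖) ≠ 0 := by linarith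
  have h6 : (1 + ‖p‖) ≠ 0 := by positivity
  have h7 : ‖p‖ / pz p * (((n - 1) * B ^ 2 * (pz p ^ 2)⁻¹ + (1 - B) ^ 2) / (B * (pz p)⁻¹) +
      B * (pz p)⁻¹ * (n - 1)) / 2 - (n - 1) * B * (‖p‖ / pz p) ^ 2 =
      (n - 1) * B * (‖p‖ * (1 - ‖p‖) / pz p ^ 2) + (1 - B) ^ 2 * ‖p‖ / (2 * B) := by
    field_simp
    ring
  rw [h7, h3]
  field_simp

end Pool.Agent.K7.H34.FV
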