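import Pool.Agent.K7.H34.FV.Zero

/-!
# The operator `S` in dimension two: a better bound for the eigenvalues
-/

set_option autoImplicit false

open MeasureTheory Filter Topology

namespace Pool.Agent.K7.H34.FV

open Pool.Agent.W716.FV (E gam gd Good)

/-- the rotation by a right angle -/
noncomputable def rot (x : E 2) : E 2 := WithLp.toLp 2 ![-x 1, x 0]

theorem rot0 (x : E 2) : (rot x) 0 = -x 1 := rfl

theorem rot1 (x : E 2) : (rot x) 1 = x 0 := rfl

theorem inner2 (x y : E 2) : (inner ℝ x y : ℝ) = x 0 * y 0 + x 1 * y 1 := by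
  rw [PiLp.inner_apply, Fin.sum_univ_two]
  simp only [RCLike.inner_apply, conj_trivial]
  ring

theorem norm2 (x : E 2) : ‖x‖ ^ 2 = x 0 ^ 2 + x 1 ^ 2 := by
  rw [← inner_pp, inner2]; ring

theorem rot_inner (x : E 2) : (inner ℝ x (rot x) : ℝ) = 0 := by
  rw [inner2, rot0, rot1]; ring

theorem rot_norm (x : E 2) : ‖rot x‖ ^ 2 = ‖x‖ ^ 2 := by
  rw [norm2, norm2, rot0, rot1]; ring

theorem rot_id (g x y : E 2) : (inner ℝ g x : ℝ) * inner ℝ g y +
    inner ℝ g (rot x) * inner ℝ g (rot y) = ‖g‖ ^ 2 * inner ℝ x y := by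
  simp only [inner2, norm2, rot0, rot1]; ring

theorem BB_orth {n : ℕ} {p x : E n} (h : (inner ℝ p x : ℝ) = 0) : BB p x = x := by
  rw [BB_apply, h, mul_zero, zero_smul, add_zero]

/-- the directional derivative of `κ` -/
theorem dkap_gen {n : ℕ} {u : E n → ℝ} (hu : Good 1 u) {p : E n} (hp : ‖p‖ < 1) (g v : E n) :
    fderiv ℝ (kap u p) g v ≤ ‖BB p v‖ - inner ℝ (eta p) v := by
  have hC : 0 ≤ ‖BB p v‖ - inner ℝ (eta p) v := by
    have h1 := norm_BB_sq hp v
    have h2 : (inner ℝ (eta p) v : ℝ) ≤ ‖BB p v‖ := by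
      apply (le_abs_self _).trans (abs_le_of_sq_le_sq _ (norm_nonneg _))
      rw [h1]
      nlinarith [sq_nonneg ‖v‖]
    linarith
  refine fderiv_le hC fun t ht => ?_
  unfold kap
  have h1 := hu.lip (BB p (g + t • v)) (BB p g)
  rw [one_mul, ← map_sub, add_sub_cancel_left, map_smul, norm_smul, Real.norm_eq_abs,
    abs_of_nonneg ht] at h1
  have h2 := (abs_le.1 h1).2
  rw [inner_add_right, real_inner_smul_right]
  linarith

theorem fderiv_two {n : ℕ} (e f x v : E n) :
    fderiv ℝ (fun x : E n => (inner ℝ x e : ℝ) * inner ℝ x f) x v =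
      inner ℝ v e * inner ℝ x f + inner ℝ x e * inner ℝ v f := by
  have h5 : ∀ e : E n, HasFDerivAt (fun x : E n => (inner ℝ x e : ℝ)) (innerSL ℝ e) x := by
    intro e
    refine (innerSL ℝ e).hasFDerivAt.congr_of_eventuallyEq (Eventually.of_forall fun x => ?_)
    simp only [innerSL_apply_apply]
    exact real_inner_comm _ _
  have h6 : HasFDerivAt (fun x : E n => (inner ℝ x e : ℝ) * inner ℝ x f)
      ((inner ℝ x e : ℝ) • innerSL ℝ f + (inner ℝ x f : ℝ) • innerSL ℝ e) x := (h5 e).mul (h5 f)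
  rw [h6.fderiv]
  simp only [_root_.add_apply, _root_.smul_apply, innerSL_apply_apply, smul_eq_mul]
  rw [real_inner_comm e v, real_inner_comm f v]
  ring

/-- integration by parts against a product of two linear functions -/
theorem kap_two {n : ℕ} {u : E n → ℝ} (hu : Good 1 u) {p : E n} (h0 : tau u p = 0)
    (e f v : E n) :
    ∫ g, kap u p g * (inner ℝ g e * inner ℝ g f) * inner ℝ g v ∂(gam n) =
      ∫ g, fderiv ℝ (kap u p) g v * (inner ℝ g e * inner ℝ g f) ∂(gam n) := by
  rw [(kap_PL hu p).ibp_mul ((PL.innr e).mul (PL.innr f)) v]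
  simp only [fderiv_two]
  have h1 : ∫ g, kap u p g * (inner ℝ v e * inner ℝ g f + inner ℝ g e * inner ℝ v f)
      ∂(gam n) = 0 := by
    have e1 : ∀ g : E n, kap u p g * (inner ℝ v e * inner ℝ g f + inner ℝ g e * inner ℝ v f) =
        inner ℝ v e * (kap u p g * inner ℝ g f) + inner ℝ v f * (kap u p g * inner ℝ g e) := by
      intro g; ring
    simp only [e1]
    rw [integral_add (((kap_PL hu p).mul (PL.innr f)).integrable.const_mul _)
      (((kap_PL hu p).mul (PL.innr e)).integrable.const_mul _), integral_const_mul,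
      integral_const_mul, int_kap_innr hu h0, int_kap_innr hu h0]
    ring
  rw [h1, add_zero]

/-- the quadratic form of `S` in dimension two -/
theorem quad_two {u : E 2 → ℝ} (hu : Good 1 u) {p : E 2} (hp : ‖p‖ < 1) (h0 : tau u p = 0)
    {e : E 2} (he : ‖e‖ = 1) {t m : ℝ} (ht : 0 ≤ t) (hm : 0 < m) :
    (1 + t) * (inner ℝ (Sop u p e) e : ℝ) ≤
      ‖eta p‖ * ((1 + ‖eta p‖ ^ 2 + t ^ 2) / m + m) / 2 - ‖eta p‖ ^ 2 := by
  set c := ‖eta p‖ with hc
  have hc0 : 0 ≤ c := norm_nonneg _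
  have hpz := pz_pos hp
  have hS1 : (inner ℝ (Sop u p e) e : ℝ) =
      ∫ g, fderiv ℝ (kap u p) g (eta p) * (inner ℝ g e * inner ℝ g e) ∂(gam 2) := by
    rw [Sop_inner hu, ← kap_two hu h0]
    refine integral_congr_ae (Eventually.of_forall fun g => ?_)
    simp only [ka]
    rw [real_inner_comm g (eta p)]
    ring
  have hS2 : (inner ℝ (Sop u p e) e : ℝ) =
      -∫ g, fderiv ℝ (kap u p) g (rot (eta p)) * (inner ℝ g e * inner ℝ g (rot e)) ∂(gam 2) := by
    rw [← kap_two hu h0, Sop_inner hu]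
    have e1 : ∫ g, ‖g‖ ^ 2 * (kap u p g * inner ℝ g e) ∂(gam 2) = 0 := by
      rw [hom_int' (n := 2) (h := fun g => kap u p g * inner ℝ g e) (j := 2)
        ((kap_PL hu p).mul (PL.innr e)).continuous (fun t x ht => by
          simp only [kap_hom hu p t x ht, real_inner_smul_left]; ring), int_kap_innr hu h0,
        mul_zero]
    have e2 : ∫ g, (ka u p g * inner ℝ g e * inner ℝ g e +
        kap u p g * (inner ℝ g e * inner ℝ g (rot e)) * inner ℝ g (rot (eta p))) ∂(gam 2) =
        (inner ℝ (eta p) e : ℝ) * ∫ g, ‖g‖ ^ 2 * (kap u p g * inner ℝ g e) ∂(gam 2) := by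
      rw [← integral_const_mul]
      refine integral_congr_ae (Eventually.of_forall fun g => ?_)
      simp only [ka]
      rw [real_inner_comm g (eta p)]
      linear_combination (kap u p g * inner ℝ g e) * rot_id g (eta p) e
    rw [e1, mul_zero, integral_add
      (((ka_PL hu p).mul (PL.innr e)).mul (PL.innr e)).integrable
      (((kap_PL hu p).mul ((PL.innr e).mul (PL.innr (rot e)))).mul (PL.innr _)).integrable] at e2
    linarith
  have hint : ∀ (v a b : E 2), Integrable (fun g => fderiv ℝ (kap u p) g v *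
      (inner ℝ g a * inner ℝ g b)) (gam 2) := fun v a b =>
    int_fderiv_mul (kap_PL hu p) ((PL.innr a).mul (PL.innr b)) v
  have h1 : (1 + t) * (inner ℝ (Sop u p e) e : ℝ) =
      ∫ g, (fderiv ℝ (kap u p) g (eta p) * (inner ℝ g e * inner ℝ g e) -
        t * (fderiv ℝ (kap u p) g (rot (eta p)) * (inner ℝ g e * inner ℝ g (rot e)))) ∂(gam 2) := by
    rw [integral_sub (hint _ _ _) ((hint _ _ _).const_mul _), integral_const_mul, ← hS1]
    linear_combination t * hS2
  have hsq : ∀ a : E 2, Integrable (fun g : E 2 => (inner ℝ g a : ℝ) ^ 2) (gam 2) := fun a =>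
    ((PL.innr a).pow 2).integrable
  have hsqi : ∀ a : E 2, ∫ g : E 2, (inner ℝ g a : ℝ) ^ 2 ∂(gam 2) = ‖a‖ ^ 2 := by
    intro a
    rw [← inner_pp, ← int_innr_innr]
    refine integral_congr_ae (Eventually.of_forall fun g => ?_)
    simp only
    ring
  have h2 : ∀ g : E 2, fderiv ℝ (kap u p) g (eta p) * (inner ℝ g e * inner ℝ g e) -
        t * (fderiv ℝ (kap u p) g (rot (eta p)) * (inner ℝ g e * inner ℝ g (rot e))) ≤
      (c * ((1 + c ^ 2) / m + m) / 2 - c ^ 2) * (inner ℝ g e) ^ 2 +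
        (c * t ^ 2 / m / 2) * (inner ℝ g (rot e)) ^ 2 := by
    intro g
    set a : ℝ := inner ℝ g e with ha
    set b : ℝ := inner ℝ g (rot e) with hb
    set v : E 2 := (a ^ 2) • eta p - (t * (a * b)) • rot (eta p) with hv
    have e1 : fderiv ℝ (kap u p) g (eta p) * (a * a) -
        t * (fderiv ℝ (kap u p) g (rot (eta p)) * (a * b)) = fderiv ℝ (kap u p) g v := by
      rw [hv, map_sub, map_smul, map_smul, smul_eq_mul, smul_eq_mul]
      ring
    rw [e1]
    have e2 := dkap_gen hu hp g v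
    have e3 : (inner ℝ (eta p) v : ℝ) = a ^ 2 * c ^ 2 := by
      rw [hv, inner_sub_right, real_inner_smul_right, real_inner_smul_right, rot_inner, inner_pp]
      ring
    have e4 : ‖v‖ ^ 2 = c ^ 2 * (a ^ 4 + t ^ 2 * (a * b) ^ 2) := by
      rw [hv, norm_sub_sq_real, norm_smul, norm_smul, mul_pow, mul_pow, rot_norm,
        real_inner_smul_left, real_inner_smul_right, rot_inner, Real.norm_eq_abs, sq_abs,
        Real.norm_eq_abs, sq_abs]
      ring
    have e5 : ‖BB p v‖ ^ 2 = c ^ 2 * a ^ 2 * ((1 + c ^ 2) * a ^ 2 + t ^ 2 * b ^ 2) := by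
      have h := norm_BB_sq hp v
      rw [h, e4]
      have h3 : (inner ℝ (eta p) v : ℝ) = a ^ 2 * c ^ 2 := e3
      rw [h3]
      ring
    have e6 : ‖BB p v‖ ≤ c * (((1 + c ^ 2) * a ^ 2 + t ^ 2 * b ^ 2) / m + m * a ^ 2) / 2 := by
      apply (le_abs_self _).trans (abs_le_of_sq_le_sq _ (by positivity))
      rw [e5]
      set Y := (1 + c ^ 2) * a ^ 2 + t ^ 2 * b ^ 2 with hY
      have h7 : Y * a ^ 2 ≤ ((Y / m + m * a ^ 2) / 2) ^ 2 := by
        have : ((Y / m + m * a ^ 2) / 2) ^ 2 - Y * a ^ 2 = ((Y / m - m * a ^ 2) / 2) ^ 2 := by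
          field_simp
          ring
        nlinarith [sq_nonneg ((Y / m - m * a ^ 2) / 2)]
      calc c ^ 2 * a ^ 2 * Y = c ^ 2 * (Y * a ^ 2) := by ring
        _ ≤ c ^ 2 * ((Y / m + m * a ^ 2) / 2) ^ 2 := mul_le_mul_of_nonneg_left h7 (sq_nonneg _)
        _ = _ := by ring
    rw [e3] at e2
    refine e2.trans ((sub_le_sub_right e6 _).trans (le_of_eq ?_))
    ring
  have i1 : Integrable (fun g : E 2 => (c * ((1 + c ^ 2) / m + m) / 2 - c ^ 2) *
      (inner ℝ g e : ℝ) ^ 2 + (c * t ^ 2 / m / 2) * (inner ℝ g (rot e) : ℝ) ^ 2) (gam 2) :=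
    ((hsq e).const_mul _).add ((hsq _).const_mul _)
  rw [h1]
  refine (integral_mono ((hint _ _ _).sub ((hint _ _ _).const_mul _)) i1 h2).trans
    (le_of_eq ?_)
  rw [integral_add ((hsq e).const_mul _) ((hsq _).const_mul _), integral_const_mul,
    integral_const_mul, hsqi, hsqi, rot_norm, he]
  ring

/-- the bound for the eigenvalues of `S` in dimension two -/
noncomputable def s2 (r : ℝ) : ℝ := r / (r + √2)

theorem Sop_le_two {u : E 2 → ℝ} (hu : Good 1 u) {p : E 2} (hp : ‖p‖ < 1) (h0 : tau u p = 0)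
    (x : E 2) : (inner ℝ (Sop u p x) x : ℝ) ≤ s2 ‖p‖ * ‖x‖ ^ 2 := by
  have key : ∀ e : E 2, ‖e‖ = 1 → (inner ℝ (Sop u p e) e : ℝ) ≤ s2 ‖p‖ := by
    intro e he
    set r := ‖p‖ with hr
    have hr0 : 0 ≤ r := norm_nonneg _
    have hz := pz_pos hp
    have hz2 := pz_sq hp
    have hw : √2 ^ 2 = (2 : ℝ) := Real.sq_sqrt (by norm_num)
    have hw0 : 0 < √(2 : ℝ) := Real.sqrt_pos.2 (by norm_num)
    have hc2 : ‖eta p‖ ^ 2 = r ^ 2 / pz p ^ 2 := norm_eta_sq hp
    have hc : ‖eta p‖ = r / pz p := by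
      have h1 : (r / pz p) ^ 2 = r ^ 2 / pz p ^ 2 := by rw [div_pow]
      exact (sq_eq_sq₀ (norm_nonneg _) (by positivity)).1 (by rw [hc2, h1])
    rcases hr0.eq_or_lt with h | h
    · have h1 := quad_two hu hp h0 he (t := 0) (m := 1) le_rfl one_pos
      rw [hc, ← h] at h1
      rw [← h]
      simp only [s2, zero_div]
      simp only [zero_div] at h1
      linarith
    · obtain ⟨t, ht⟩ : ∃ t : ℝ, t = 1 / (1 + √2 * r) := ⟨_, rfl⟩
      have ht0 : 0 < t := by rw [ht]; positivity
      have ht1 : t * (1 + √2 * r) = 1 := by rw [ht]; field_simp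
      have ht2 : t < 1 := by
        rw [ht, div_lt_one (by positivity)]
        nlinarith [mul_pos hw0 h]
      have hm : 0 < (1 - t * pz p ^ 2) / (pz p * r) := by
        apply div_pos _ (by positivity)
        rw [hz2]
        nlinarith
      have h1 := quad_two hu hp h0 he ht0.le hm
      rw [hc] at h1
      have h2 : r / pz p * ((1 + (r / pz p) ^ 2 + t ^ 2) /
          ((1 - t * pz p ^ 2) / (pz p * r)) + (1 - t * pz p ^ 2) / (pz p * r)) / 2 -
          (r / pz p) ^ 2 = 1 - t := by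
        have h3 : 1 + (r / pz p) ^ 2 + t ^ 2 = ((1 - t * pz p ^ 2) / (pz p * r)) ^ 2 := by
          rw [div_pow, div_pow, mul_pow]
          have h4 : (1 - t) ^ 2 = 2 * t ^ 2 * r ^ 2 := by
            have : 1 - t = √2 * t * r := by linear_combination -ht1
            rw [this, mul_pow, mul_pow, hw]
          have h5 : pz p ^ 2 ≠ 0 := by positivity
          have h6 : r ^ 2 ≠ 0 := by positivity
          rw [eq_div_iff (by positivity)]
          have h7 : (1 + r ^ 2 / pz p ^ 2 + t ^ 2) * (pz p ^ 2 * r ^ 2) =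
              (pz p ^ 2 + r ^ 2 + t ^ 2 * pz p ^ 2) * r ^ 2 := by
            field_simp
          rw [h7]
          rw [hz2]
          linear_combination (-(1 - r ^ 2)) * h4
        rw [h3, sq ((1 - t * pz p ^ 2) / (pz p * r)), mul_div_assoc
          ((1 - t * pz p ^ 2) / (pz p * r)), div_self hm.ne', mul_one]
        have h8 : r / pz p * ((1 - t * pz p ^ 2) / (pz p * r) +
            (1 - t * pz p ^ 2) / (pz p * r)) / 2 - (r / pz p) ^ 2 =
            (1 - t * pz p ^ 2 - r ^ 2) / pz p ^ 2 := by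
          field_simp
          ring
        rw [h8, div_eq_iff (by positivity), hz2]
        ring
      rw [h2] at h1
      have h3 : s2 r = (1 - t) / (1 + t) := by
        unfold s2
        rw [div_eq_div_iff (by positivity) (by positivity)]
        have h4 : 1 - t = √2 * t * r := by linear_combination -ht1
        rw [h4]
        have h5 : 1 = t + √2 * t * r := by linear_combination h4
        linear_combination r * h5 - t * r * hw
      rw [h3, le_div_iff₀ (by positivity), mul_comm]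
      exact h1
  by_cases hx : x = 0
  · subst hx
    simp
  · have hx' : 0 < ‖x‖ := norm_pos_iff.2 hx
    have h1 := key (‖x‖⁻¹ • x) (by
      rw [norm_smul, norm_inv, norm_norm, inv_mul_cancel₀ hx'.ne'])
    rw [map_smul, real_inner_smul_left, real_inner_smul_right] at h1
    have h2 : (inner ℝ (Sop u p x) x : ℝ) = ‖x‖ ^ 2 * (‖x‖⁻¹ * (‖x‖⁻¹ * inner ℝ (Sop u p x) x)) := by
      field_simp
    rw [h2, mul_comm]
    exact mul_le_mul_of_nonneg_right h1 (sq_nonneg _)

end Pool.Agent.K7.H34.FV
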