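import Pool.Agent.K7.H34.FV.Cover

/-!
# Existence of the zero, null sets, area inequality
-/

set_option autoImplicit false

open MeasureTheory Metric Set Filter Topology InnerProductGeometry

namespace Pool.Agent.K7.H34.FV

open Pool.Agent.H241R3.FV (Sph RChart Triang TaskGen TaskParity TaskEven coneOf norm_sph)
open Pool.Agent.W716.FV (E gam gd Good)

variable {n : ℕ}

theorem tau_lin {p : E n} (hp : ‖p‖ < 1) (l : ℝ) (x : E n) :
    tau (fun G => l * inner ℝ G x) p = BB p (l • x - p) := by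
  unfold tau
  rw [← int_inner_smul (BB p (l • x - p))]
  refine integral_congr_ae (Eventually.of_forall fun g => ?_)
  simp only
  congr 1
  unfold kap
  rw [← inner_p_BB' hp, ← BB_symm p g, inner_sub_right, real_inner_smul_right,
    real_inner_comm (BB p g) p]

theorem Gm_lin {p : E n} (hp : ‖p‖ < 1) (l : ℝ) (x : E n) :
    Gm (fun G => l * inner ℝ G x) p = (pz p)⁻¹ • BB p (BB p (l • x - p)) := by
  rw [Gm_eq hp, tau_lin hp]

/-- topological hypothesis: triangulated, or no retraction onto the boundary sphere -/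
def Topo {d : ℕ} {N : Type} [MetricSpace N] (b : Sph (d + 1) → N) : Prop :=
  (∀ ε : ℝ, 0 < ε → Nonempty (Triang b ε)) ∨
    ¬ ∃ r : N → Sph (d + 1), Continuous r ∧ ∀ x, r (b x) = x

theorem cover_zero {d : ℕ} {N : Type} [MetricSpace N] [CompactSpace N]
    (b : Sph (d + 1) → N) (hT : Topo b) {l : ℝ} (hl0 : 0 < l) (hl1 : l ≤ 1)
    (hb : ∀ y z, capd l y z ≤ dist (b y) (b z)) (U : N → E (d + 1) → ℝ)
    (hU : ∀ q, Good 1 (U q)) (hUq : ∀ q q' G, |U q G - U q' G| ≤ ‖G‖ * dist q q')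
    (hUb : ∀ G x, U (b x) G = l * inner ℝ G (x : E (d + 1)))
    {p : E (d + 1)} (hp : ‖p‖ < l) : ∃ q : N, Gm (U q) p = 0 := by
  have hp1 : ‖p‖ < 1 := hp.trans_le hl1
  have h0 := pz_pos hp1
  set Φ : N → E (d + 1) := fun q => p + pz p • BI p (BI p (Gm (U q) p)) with hΦ
  obtain ⟨C, hC0, hC⟩ := Gm_lip (n := d + 1) (norm_nonneg p) hp1 (K := 1) zero_le_one
  have hlip : ∀ q q', ‖Φ q - Φ q'‖ ≤ dist q q' * (pz p * (‖BI p‖ * (‖BI p‖ * C))) := by
    intro q q'
    have h1 : Φ q - Φ q' = pz p • BI p (BI p (Gm (U q) p - Gm (U q') p)) := by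
      rw [hΦ]
      simp only
      rw [add_sub_add_left_eq_sub, ← smul_sub, ← map_sub, ← map_sub]
    have h2 := hC (U q) (U q') (hU q) (hU q') (dist q q')
      (fun v => by rw [one_mul]; exact hUq q q' v) p p le_rfl le_rfl (by simp)
    rw [h1, norm_smul, Real.norm_of_nonneg h0.le]
    have h3 : ‖BI p (BI p (Gm (U q) p - Gm (U q') p))‖ ≤ ‖BI p‖ * (‖BI p‖ * (C * dist q q')) :=
      ((BI p).le_opNorm _).trans (mul_le_mul_of_nonneg_left
        (((BI p).le_opNorm _).trans (mul_le_mul_of_nonneg_left h2 (norm_nonneg _)))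
          (norm_nonneg _))
    calc pz p * ‖BI p (BI p (Gm (U q) p - Gm (U q') p))‖ ≤
        pz p * (‖BI p‖ * (‖BI p‖ * (C * dist q q'))) := mul_le_mul_of_nonneg_left h3 h0.le
      _ = _ := by ring
  have hcont : Continuous Φ := by
    rw [continuous_iff_continuousAt]
    intro q
    rw [ContinuousAt, tendsto_iff_dist_tendsto_zero]
    have hlim : Tendsto (fun q' : N => dist q' q * (pz p * (‖BI p‖ * (‖BI p‖ * C)))) (𝓝 q)
        (𝓝 0) := by
      have hc : Continuous (fun q' : N => dist q' q * (pz p * (‖BI p‖ * (‖BI p‖ * C)))) := by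
        fun_prop
      have := hc.tendsto q
      simpa using this
    refine squeeze_zero (fun _ => dist_nonneg) (fun q' => ?_) hlim
    rw [dist_eq_norm]
    exact hlip q' q
  have hbd : ∀ x, Φ (b x) = l • (x : E (d + 1)) := by
    intro x
    have h1 : U (b x) = fun G => l * inner ℝ G (x : E (d + 1)) := funext fun G => hUb G x
    rw [hΦ]
    simp only
    rw [h1, Gm_lin hp1, map_smul, map_smul, BI_BB hp1, BI_BB hp1, smul_smul,
      mul_inv_cancel₀ h0.ne', one_smul]
    abel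
  have hcov : ball (0 : E (d + 1)) l ⊆ range Φ := by
    rcases hT with hT | hT
    · refine coverT' Pool.Agent.H241R3.FV.TGen.taskGen Pool.Agent.H241R3.FV.TParity.taskParity
        Pool.Agent.H241R3.FV.TEven.taskEven d N b (2 * l / Real.pi) (by positivity) (fun x y => ?_) hT Φ
        l _ hl0 hcont hlip hbd
      exact (capd_ge hl0.le hl1 x y).trans (hb x y)
    · exact Pool.Agent.H241R3.FV.TCover.taskCover (d + 1) (Nat.succ_pos d) N b hT Φ l hl0 hcont hbd
  obtain ⟨q, hq⟩ := hcov (mem_ball_zero_iff.2 hp)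
  refine ⟨q, ?_⟩
  rw [hΦ] at hq
  simp only at hq
  have h1 : pz p • BI p (BI p (Gm (U q) p)) = 0 := by
    have := hq
    rwa [add_eq_left] at this
  rw [smul_eq_zero_iff_right h0.ne'] at h1
  have h2 : BI p (Gm (U q) p) = 0 := by
    rw [← BB_BI hp1 (BI p (Gm (U q) p)), h1, map_zero]
  rw [← BB_BI hp1 (Gm (U q) p), h2, map_zero]

/-- locally Lipschitz maps on a set do not increase null sets -/
theorem null_within {s t : Set (E n)} {f : E n → E n}
    (hf : ∀ p ∈ s, ∃ r : ℝ, 0 < r ∧ ∃ K : ℝ, ∀ y ∈ s ∩ ball p r, ∀ z ∈ s ∩ ball p r,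
      ‖f y - f z‖ ≤ K * ‖y - z‖) (hts : t ⊆ s) (ht : volume t = 0) : volume (f '' t) = 0 := by
  have hfin : Module.finrank ℝ (E n) = n := by simp
  have hH : (μH[(n : ℝ)] : Measure (E n)).IsAddHaarMeasure := by
    have h := MeasureTheory.isAddHaarMeasure_hausdorffMeasure (E := E n)
    rw [hfin] at h
    exact h
  have hac1 : (μH[(n : ℝ)] : Measure (E n)) ≪ (volume : Measure (E n)) :=
    Measure.absolutelyContinuous_isAddHaarMeasure _ _
  have hac2 : (volume : Measure (E n)) ≪ (μH[(n : ℝ)] : Measure (E n)) :=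
    Measure.absolutelyContinuous_isAddHaarMeasure _ _
  have hs' : (μH[(n : ℝ)] : Measure (E n)) t = 0 := hac1 ht
  apply hac2
  have key : (OuterMeasure.comap f (μH[(n : ℝ)] : Measure (E n)).toOuterMeasure) t = 0 := by
    apply MeasureTheory.measure_null_of_locally_null
    intro p hp
    obtain ⟨r, hr, K, hK⟩ := hf p (hts hp)
    refine ⟨t ∩ ball p r, inter_mem_nhdsWithin _ (ball_mem_nhds _ hr), ?_⟩
    rw [OuterMeasure.comap_apply]
    have hL : LipschitzOnWith (Real.toNNReal K) f (t ∩ ball p r) := by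
      refine LipschitzOnWith.of_dist_le_mul fun y hy z hz => ?_
      rw [dist_eq_norm, dist_eq_norm]
      refine (hK y ⟨hts hy.1, hy.2⟩ z ⟨hts hz.1, hz.2⟩).trans ?_
      exact mul_le_mul_of_nonneg_right (Real.le_coe_toNNReal K) (norm_nonneg _)
    have h1 := hL.hausdorffMeasure_image_le (d := (n : ℝ)) (Nat.cast_nonneg n)
    have h2 : (μH[(n : ℝ)] : Measure (E n)) (t ∩ ball p r) = 0 :=
      measure_mono_null inter_subset_left hs'
    rw [h2, mul_zero] at h1
    exact nonpos_iff_eq_zero.mp h1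
  rwa [OuterMeasure.comap_apply] at key

/-- area inequality for maps with a derivative within a set -/
theorem area_within {V : Type} [NormedAddCommGroup V] [NormedSpace ℝ V] [FiniteDimensional ℝ V]
    [MeasurableSpace V] [BorelSpace V] (μ : Measure V) [μ.IsAddHaarMeasure]
    {ι : Type} [Countable ι] (s : ι → Set V) (f : ι → V → V) (h : ι → V → ENNReal) (Ω : Set V)
    (w : V → ENNReal) (hs : ∀ i, MeasurableSet (s i))
    (hf : ∀ i, AEMeasurable (f i) (μ.restrict (s i)))
    (hh : ∀ i, AEMeasurable (h i) (μ.restrict (s i)))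
    (hnull : ∀ i, ∀ t ⊆ s i, μ t = 0 → μ (f i '' t) = 0)
    (hdiff : ∀ i, ∀ᵐ x ∂μ, x ∈ s i → ∃ L : V →L[ℝ] V, HasFDerivWithinAt (f i) L (s i) x ∧
      ENNReal.ofReal |L.det| ≤ h i x)
    (_hΩ : MeasurableSet Ω) (hw : Measurable w) (hsub : Ω ⊆ ⋃ i, f i '' s i) :
    ∫⁻ y in Ω, w y ∂μ ≤ ∑' i, ∫⁻ x in s i, h i x * w (f i x) ∂μ := by
  classical
  let J : ι → V → ENNReal := fun i => (hh i).mk (h i)
  have hJ : ∀ i, Measurable (J i) := fun i => (hh i).measurable_mk
  have hhJ : ∀ i, ∀ᵐ x ∂(μ.restrict (s i)), h i x = J i x := fun i => (hh i).ae_eq_mk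
  let g : ι → V → V := fun i => (hf i).mk (f i)
  have hg : ∀ i, Measurable (g i) := fun i => (hf i).measurable_mk
  have hfg : ∀ i, ∀ᵐ x ∂(μ.restrict (s i)), f i x = g i x := fun i => (hf i).ae_eq_mk
  let m : ι → Measure V := fun i => Measure.map (g i) ((μ.restrict (s i)).withDensity (J i))
  have key : μ.restrict Ω ≤ Measure.sum m := by
    rw [Measure.le_iff]
    intro B hB
    rw [Measure.restrict_apply hB, Measure.sum_apply _ hB]
    have h1 : B ∩ Ω ⊆ ⋃ i, f i '' (s i ∩ f i ⁻¹' B) := by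
      rintro y ⟨hyB, hyΩ⟩
      obtain ⟨i, x, hx, rfl⟩ := mem_iUnion.1 (hsub hyΩ)
      exact mem_iUnion.2 ⟨i, x, ⟨hx, hyB⟩, rfl⟩
    refine (measure_mono h1).trans ((measure_iUnion_le _).trans
      (ENNReal.tsum_le_tsum fun i => ?_))
    have hm : m i B = ∫⁻ x in s i ∩ g i ⁻¹' B, J i x ∂μ := by
      simp only [m]
      rw [Measure.map_apply (hg i) hB, withDensity_apply _ (hg i hB),
        Measure.restrict_restrict (hg i hB), inter_comm]
    rw [hm]
    let bad : Set V := ({x | ¬ (x ∈ s i → ∃ L : V →L[ℝ] V, HasFDerivWithinAt (f i) L (s i) x ∧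
      ENNReal.ofReal |L.det| ≤ h i x)} ∪ {x | ¬ (x ∈ s i → f i x = g i x)}) ∪
      {x | ¬ (x ∈ s i → h i x = J i x)}
    have hbad : μ bad = 0 :=
      measure_union_null (measure_union_null (hdiff i) ((ae_restrict_iff' (hs i)).1 (hfg i)))
        ((ae_restrict_iff' (hs i)).1 (hhJ i))
    let N : Set V := toMeasurable μ bad
    have hN0 : μ N = 0 := by rw [measure_toMeasurable, hbad]
    have hNm : MeasurableSet N := measurableSet_toMeasurable _ _
    have hbN : bad ⊆ N := subset_toMeasurable _ _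
    have hgood : ∀ x ∈ s i \ N, (∃ L : V →L[ℝ] V, HasFDerivWithinAt (f i) L (s i) x ∧
      ENNReal.ofReal |L.det| ≤ J i x) ∧ f i x = g i x := by
      intro x hx
      have e1 : ∃ L : V →L[ℝ] V, HasFDerivWithinAt (f i) L (s i) x ∧
          ENNReal.ofReal |L.det| ≤ h i x := by
        by_contra hcon
        exact hx.2 (hbN (Or.inl (Or.inl fun h => hcon (h hx.1))))
      have e2 : f i x = g i x := by
        by_contra hcon
        exact hx.2 (hbN (Or.inl (Or.inr fun h => hcon (h hx.1))))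
      have e3 : h i x = J i x := by
        by_contra hcon
        exact hx.2 (hbN (Or.inr fun h => hcon (h hx.1)))
      rw [e3] at e1
      exact ⟨e1, e2⟩
    choose! L hL using fun x hx => (hgood x hx).1
    have h2 : f i '' (s i ∩ f i ⁻¹' B) ⊆
        f i '' ((s i \ N) ∩ g i ⁻¹' B) ∪ f i '' (s i ∩ N) := by
      rintro _ ⟨x, ⟨hx, hxB⟩, rfl⟩
      by_cases hxN : x ∈ N
      · exact Or.inr ⟨x, ⟨hx, hxN⟩, rfl⟩
      · refine Or.inl ⟨x, ⟨⟨hx, hxN⟩, ?_⟩, rfl⟩
        have := (hgood x ⟨hx, hxN⟩).2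
        show g i x ∈ B
        rw [← this]
        exact hxB
    have h3 : μ (f i '' (s i ∩ N)) = 0 :=
      hnull i _ inter_subset_left (measure_mono_null inter_subset_right hN0)
    have hmeas : MeasurableSet ((s i \ N) ∩ g i ⁻¹' B) := ((hs i).diff hNm).inter (hg i hB)
    calc μ (f i '' (s i ∩ f i ⁻¹' B))
        ≤ μ (f i '' ((s i \ N) ∩ g i ⁻¹' B) ∪ f i '' (s i ∩ N)) := measure_mono h2
      _ ≤ μ (f i '' ((s i \ N) ∩ g i ⁻¹' B)) + μ (f i '' (s i ∩ N)) := measure_union_le _ _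
      _ = μ (f i '' ((s i \ N) ∩ g i ⁻¹' B)) := by rw [h3, add_zero]
      _ ≤ ∫⁻ x in (s i \ N) ∩ g i ⁻¹' B, ENNReal.ofReal |(L x).det| ∂μ :=
          addHaar_image_le_lintegral_abs_det_fderiv μ hmeas
            (fun x hx => (hL x hx.1).1.mono (inter_subset_left.trans sdiff_subset))
      _ ≤ ∫⁻ x in (s i \ N) ∩ g i ⁻¹' B, J i x ∂μ :=
          setLIntegral_mono (hJ i) fun x hx => (hL x hx.1).2
      _ ≤ ∫⁻ x in s i ∩ g i ⁻¹' B, J i x ∂μ :=
          lintegral_mono_set (inter_subset_inter_left _ sdiff_subset)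
  calc ∫⁻ y in Ω, w y ∂μ ≤ ∫⁻ y, w y ∂(Measure.sum m) := lintegral_mono' key le_rfl
    _ = ∑' i, ∫⁻ y, w y ∂(m i) := lintegral_sum_measure _ _
    _ = ∑' i, ∫⁻ x in s i, h i x * w (f i x) ∂μ := by
        congr 1
        funext i
        simp only [m]
        rw [lintegral_map hw (hg i)]
        refine (lintegral_withDensity_eq_lintegral_mul _ (hJ i) (hw.comp (hg i))).trans ?_
        refine lintegral_congr_ae ?_
        filter_upwards [hfg i, hhJ i] with x hx hx2
        simp only [Pi.mul_apply, Function.comp_apply, hx, hx2]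

end Pool.Agent.K7.H34.FV
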